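import Pool.Agent.AV.BlkE

/-! AV/Blk1.  One block of the Brun sieve: character expansion with decay.
PLAN.  `ι = {q // q ∈ S}`, `p = coe`, `k = card κ`,
`Φ σ = ∏ j, bf r (cell σ j).card ^ e j`; for every `n`, `om S (n - a j) = (cell σ j).card` for
`σ i = hit (p i) a n` (`hit_iff`), so `∏ j, psiB S r (n - a j) ^ e j = Φ (fun i => hit ..)` and `blk_exp` gives the
expansion with `c χ = ∑_σ Φ σ ∏ i, OC (p i) a a0 (σ i) (χ i)`.
* `χ = 1` (`fsupp χ = ∅`): `OC .. 1` are real and `≥ 0` (`OC_none_one`, `OC_some_one`, `4 K + 4 ≤ q`), `Φ ≥ 0`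
  (`bf_nonneg`), so `c 1` is real, at least the term `σ = none`, which is `∏ (1 - k/(q-1))` (`bf_zero`), and at
  most `(∏ (1 - k/(q-1))) (1 + epsS S r)^k` exactly as in `blk_up` of VOID/BfMom
  (`1/(q-1) ≤ (1 - k/(q-1)) * (2/q)`), and `1 - k/(q-1) ≤ 1 - k/q`.
* `χ ≠ 1`: `Φ σ ≤ ∏ j, 8 ^ (cell σ j).card` (`bf_pow_le`), so
  `‖c χ‖ ≤ ∏ i, (‖OC none (χ i)‖ + 8 ∑_j ‖OC (some j) (χ i)‖)`; for `i ∉ fsupp χ` the factor is
  `≤ 1 - k/(q-1) + 8k/(q-1) ≤ (1 - k/q) exp(16 k/q)`, for `i ∈ fsupp χ` it is `≤ 9k/(q-1) ≤ (1 - k/q) 36 k/q`; the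
  product of the exponentials is `≤ exp(16 k * 8) ≤ exp(128 K)`, absorbed in one factor `CK K` (there is at
  least one `i ∈ fsupp χ`, and `CK K ≥ 36 k`). -/

set_option autoImplicit false

open Finset Pool.Agent.RS Pool.Agent.AT Pool.Agent.VOID

namespace Pool.Agent.AV

section Aux

variable {ι κ' : Type} [Fintype ι] [DecidableEq ι] [DecidableEq κ'] [Fintype κ']

private noncomputable def b1F (r : ℕ) (e : κ' → ℕ) (σ : ι → Option κ') : ℝ :=
  ∏ j, bf r (cell σ j).card ^ e j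

private theorem b1F_nonneg (r : ℕ) (e : κ' → ℕ) (σ : ι → Option κ') : 0 ≤ b1F r e σ :=
  prod_nonneg fun j _ => pow_nonneg (bf_nonneg r _) _

private theorem b1F_none (r : ℕ) (e : κ' → ℕ) :
    b1F r e (fun _ : ι => (none : Option κ')) = 1 := by
  unfold b1F
  refine prod_eq_one fun j _ => ?_
  have h3 : cell (fun _ : ι => (none : Option κ')) j = ∅ := by
    ext i
    simp [mem_cell]
  rw [h3, card_empty, bf_zero, one_pow]

/-- the weight of a cell -/
private noncomputable def b1v (r : ℕ) (D : Finset ι) : ℝ :=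
  if D = ∅ then 1 else if D.card ≤ 2 * r then 0 else 8 ^ D.card

private theorem b1v_nonneg (r : ℕ) (D : Finset ι) : 0 ≤ b1v r D := by
  unfold b1v
  split_ifs
  · exact zero_le_one
  · exact le_rfl
  · positivity

private theorem b1v_ge (r : ℕ) (D : Finset ι) {e : ℕ} (he : 1 ≤ e ∧ e ≤ 3) :
    bf r D.card ^ e ≤ b1v r D := by
  unfold b1v
  split_ifs with h1 h2
  · rw [h1, card_empty, bf_zero, one_pow]
  · rw [bf_vanish (by rwa [Ne, card_eq_zero]) h2, zero_pow (by omega)]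
  · exact bf_pow_le he.2 r _

private theorem b1_prod_cells (f : ι → ℝ) (σ : ι → Option κ') :
    ∏ j, ∏ i ∈ cell σ j, f i = ∏ i, (if σ i = none then 1 else f i) := by
  have h1 : ∀ j, ∏ i ∈ cell σ j, f i = ∏ i, (if σ i = some j then f i else 1) := by
    intro j
    unfold cell
    rw [prod_filter]
  simp_rw [h1]
  rw [prod_comm]
  refine prod_congr rfl fun i _ => ?_
  cases h : σ i with
  | none => simp
  | some j0 =>
    have h2 : ∀ j, (if (some j0 : Option κ') = some j then f i else 1) =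
        if j0 = j then f i else 1 := by
      intro j
      simp only [Option.some.injEq]
    simp_rw [h2]
    rw [prod_ite_eq]
    simp

private theorem b1_wprod {p : ι → ℕ} (w : ι → Option κ' → ℝ) (hw0 : ∀ i o, 0 ≤ w i o)
    (hw : ∀ i j, w i (some j) ≤ w i none * (2 / p i)) (σ : ι → Option κ') :
    ∏ i, w i (σ i) ≤ (∏ i, w i none) * ∏ j, ∏ i ∈ cell σ j, (2 : ℝ) / p i := by
  rw [b1_prod_cells, ← prod_mul_distrib]
  refine prod_le_prod (fun i _ => hw0 i _) fun i _ => ?_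
  cases h : σ i with
  | none => simp
  | some j =>
    rw [if_neg (by simp)]
    exact hw i j

private theorem b1_inj : Function.Injective (fun (σ : ι → Option κ') (j : κ') => cell σ j) := by
  intro σ τ h
  funext i
  have h1 : ∀ j, σ i = some j ↔ τ i = some j := by
    intro j
    have h2 : cell σ j = cell τ j := congrFun h j
    rw [← mem_cell, ← mem_cell, h2]
  cases h2 : σ i with
  | none =>
    cases h3 : τ i with
    | none => rfl
    | some j =>
      have h4 := (h1 j).2 h3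
      rw [h2] at h4
      exact absurd h4 (by simp)
  | some j => exact ((h1 j).1 h2).symm

private theorem b1_sum_le {p : ι → ℕ} (r : ℕ) (e : κ' → ℕ) (he : ∀ j, 1 ≤ e j ∧ e j ≤ 3)
    (w : ι → Option κ' → ℝ) (hw0 : ∀ i o, 0 ≤ w i o)
    (hw : ∀ i j, w i (some j) ≤ w i none * (2 / p i)) :
    ∑ σ : ι → Option κ', b1F r e σ * ∏ i, w i (σ i) ≤
      (∑ D : Finset ι, b1v r D * ∏ i ∈ D, (2 : ℝ) / p i) ^ Fintype.card κ' *
        ∏ i, w i none := by
  set G : (κ' → Finset ι) → ℝ := fun D => ∏ j, (b1v r (D j) * ∏ i ∈ D j, (2 : ℝ) / p i)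
    with hG
  have hG0 : ∀ D, 0 ≤ G D := fun D => prod_nonneg fun j _ =>
    mul_nonneg (b1v_nonneg r _) (prod_nonneg fun i _ => by positivity)
  have hc0 : 0 ≤ ∏ i, w i none := prod_nonneg fun i _ => hw0 i none
  have h1 : ∀ σ : ι → Option κ', b1F r e σ * ∏ i, w i (σ i) ≤
      G (fun j => cell σ j) * ∏ i, w i none := by
    intro σ
    have h2 : b1F r e σ ≤ ∏ j, b1v r (cell σ j) :=
      prod_le_prod (fun j _ => pow_nonneg (bf_nonneg r _) _)
        fun j _ => b1v_ge r (cell σ j) (he j)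
    calc b1F r e σ * ∏ i, w i (σ i)
        ≤ (∏ j, b1v r (cell σ j)) *
          ((∏ i, w i none) * ∏ j, ∏ i ∈ cell σ j, (2 : ℝ) / p i) := by
          refine mul_le_mul h2 (b1_wprod w hw0 hw σ) ?_ ?_
          · exact prod_nonneg fun i _ => hw0 i _
          · exact prod_nonneg fun j _ => b1v_nonneg r _
      _ = G (fun j => cell σ j) * ∏ i, w i none := by
          rw [hG]
          simp only
          rw [prod_mul_distrib]
          ring
  calc ∑ σ : ι → Option κ', b1F r e σ * ∏ i, w i (σ i)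
      ≤ ∑ σ : ι → Option κ', G (fun j => cell σ j) * ∏ i, w i none :=
        sum_le_sum fun σ _ => h1 σ
    _ = (∑ σ : ι → Option κ', G (fun j => cell σ j)) * ∏ i, w i none := (sum_mul _ _ _).symm
    _ ≤ (∑ D, G D) * ∏ i, w i none := by
        refine mul_le_mul_of_nonneg_right ?_ hc0
        rw [← sum_image (s := univ) (g := fun (σ : ι → Option κ') (j : κ') => cell σ j)
          (f := G) (fun σ _ τ _ h => b1_inj h)]
        exact sum_le_sum_of_subset_of_nonneg (subset_univ _) fun D _ _ => hG0 D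
    _ = _ := by
        congr 1
        rw [hG, ← Fintype.piFinset_univ,
          ← prod_univ_sum (fun _ : κ' => (univ : Finset (Finset ι)))
            (fun _ D => b1v r D * ∏ i ∈ D, (2 : ℝ) / p i)]
        rw [prod_const, card_univ]

private theorem b1_norm_le (r : ℕ) (e : κ' → ℕ) (he : ∀ j, e j ≤ 3)
    (W : ι → Option κ' → ℂ) :
    ‖∑ σ : ι → Option κ', (b1F r e σ : ℂ) * ∏ i, W i (σ i)‖ ≤
      ∏ i, (‖W i none‖ + 8 * ∑ j, ‖W i (some j)‖) := by
  refine (norm_sum_le _ _).trans ?_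
  have h1 : ∀ σ : ι → Option κ', ‖(b1F r e σ : ℂ) * ∏ i, W i (σ i)‖ ≤
      ∏ i, ((if σ i = none then 1 else 8) * ‖W i (σ i)‖) := by
    intro σ
    rw [norm_mul, norm_prod, Complex.norm_real, Real.norm_of_nonneg (b1F_nonneg r e σ),
      prod_mul_distrib]
    refine mul_le_mul_of_nonneg_right ?_ (prod_nonneg fun i _ => norm_nonneg _)
    rw [← b1_prod_cells (fun _ => (8 : ℝ)) σ]
    unfold b1F
    refine prod_le_prod (fun j _ => pow_nonneg (bf_nonneg r _) _) fun j _ => ?_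
    rw [prod_const]
    exact bf_pow_le (he j) r _
  refine (sum_le_sum fun σ _ => h1 σ).trans (le_of_eq ?_)
  rw [← Fintype.piFinset_univ,
    ← prod_univ_sum (fun _ : ι => (univ : Finset (Option κ')))
      (fun i o => (if o = none then (1 : ℝ) else 8) * ‖W i o‖)]
  refine prod_congr rfl fun i _ => ?_
  rw [Fintype.sum_option, mul_sum]
  simp

end Aux

private theorem b1_eps (S : Finset ℕ) (r : ℕ) :
    ∑ D : Finset {q // q ∈ S}, b1v r D * ∏ i ∈ D, (2 : ℝ) / (i : ℕ) ≤ 1 + epsS S r := by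
  classical
  set G : Finset ℕ → ℝ := fun U => ∏ q ∈ U, (16 : ℝ) / q with hG
  have h1 : ∀ D : Finset {q // q ∈ S}, b1v r D * ∏ i ∈ D, (2 : ℝ) / (i : ℕ) =
      (if D = ∅ then 1 else 0) +
        if 2 * r < D.card then G (D.map (Function.Embedding.subtype _)) else 0 := by
    intro D
    unfold b1v
    by_cases h2 : D = ∅
    · subst h2
      simp
    · by_cases h3 : D.card ≤ 2 * r
      · rw [if_neg h2, if_pos h3, if_neg h2, if_neg (by omega)]
        simp
      · rw [if_neg h2, if_neg h3, if_neg h2, if_pos (by omega), zero_add, hG]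
        simp only
        rw [prod_map, ← prod_const, ← prod_mul_distrib]
        refine prod_congr rfl fun i _ => ?_
        simp only [Function.Embedding.subtype_apply]
        ring
  simp_rw [h1]
  rw [sum_add_distrib, sum_ite_eq']
  simp only [mem_univ, if_true]
  refine add_le_add le_rfl ?_
  rw [← sum_filter]
  have h4 : ∑ D ∈ univ.filter (fun D : Finset {q // q ∈ S} => 2 * r < D.card),
      G (D.map (Function.Embedding.subtype _)) =
      ∑ U ∈ (univ.filter (fun D : Finset {q // q ∈ S} => 2 * r < D.card)).image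
        (fun D => D.map (Function.Embedding.subtype _)), G U := by
    rw [sum_image]
    intro D _ D' _ h
    exact map_injective _ h
  rw [h4]
  unfold epsS
  refine sum_le_sum_of_subset_of_nonneg ?_ fun U _ _ => prod_nonneg fun q _ => by positivity
  intro U hU
  obtain ⟨D, hD, rfl⟩ := mem_image.1 hU
  rw [mem_filter] at hD
  rw [mem_filter, mem_powerset]
  refine ⟨?_, by rw [card_map]; exact hD.2⟩
  intro q hq
  obtain ⟨i, _, rfl⟩ := mem_map.1 hq
  exact i.2

/-- the arithmetic of the local factors outside the support -/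
private theorem b1_out {k q : ℝ} (hk : 0 ≤ k) (hq : 4 * k + 4 ≤ q) :
    (1 - k / (q - 1)) + 8 * (k * (1 / (q - 1))) ≤ (1 - k / q) * Real.exp (16 * k * (1 / q)) := by
  have hq0 : 0 < q := by linarith
  have hq1 : 0 < q - 1 := by linarith
  set x : ℝ := k / q with hx
  have hx0 : 0 ≤ x := div_nonneg hk hq0.le
  have hx1 : x ≤ 1 / 4 := by
    rw [hx, div_le_div_iff₀ hq0 (by norm_num)]
    linarith
  have h1 : k / (q - 1) ≤ 4 / 3 * x := by
    rw [hx, div_le_iff₀ hq1]
    have : 4 / 3 * (k / q) * (q - 1) = k * (4 / 3 * ((q - 1) / q)) := by ring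
    rw [this]
    have h2 : 1 ≤ 4 / 3 * ((q - 1) / q) := by
      rw [← mul_div_assoc, le_div_iff₀ hq0]
      linarith
    nlinarith
  have h3 : 1 + 16 * x ≤ Real.exp (16 * k * (1 / q)) := by
    have h4 := Real.add_one_le_exp (16 * k * (1 / q))
    have h5 : 16 * k * (1 / q) = 16 * x := by rw [hx]; ring
    rw [h5] at h4 ⊢
    linarith
  have h6 : (1 - k / (q - 1)) + 8 * (k * (1 / (q - 1))) = 1 + 7 * (k / (q - 1)) := by ring
  rw [h6]
  calc 1 + 7 * (k / (q - 1)) ≤ 1 + 7 * (4 / 3 * x) := by linarith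
    _ ≤ (1 - x) * (1 + 16 * x) := by nlinarith
    _ ≤ (1 - x) * Real.exp (16 * k * (1 / q)) :=
        mul_le_mul_of_nonneg_left h3 (by linarith)

/-- the arithmetic of the local factors in the support -/
private theorem b1_in {k q : ℝ} (hk : 0 ≤ k) (hq : 4 * k + 4 ≤ q) :
    k / (q - 1) + 8 * (k * (1 / (q - 1))) ≤ (1 - k / q) * (36 * k / q) := by
  have hq0 : 0 < q := by linarith
  have hq1 : 0 < q - 1 := by linarith
  set x : ℝ := k / q with hx
  have hx0 : 0 ≤ x := div_nonneg hk hq0.le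
  have hx1 : x ≤ 1 / 4 := by
    rw [hx, div_le_div_iff₀ hq0 (by norm_num)]
    linarith
  have h1 : k / (q - 1) ≤ 4 / 3 * x := by
    rw [hx, div_le_iff₀ hq1]
    have : 4 / 3 * (k / q) * (q - 1) = k * (4 / 3 * ((q - 1) / q)) := by ring
    rw [this]
    have h2 : 1 ≤ 4 / 3 * ((q - 1) / q) := by
      rw [← mul_div_assoc, le_div_iff₀ hq0]
      linarith
    nlinarith
  have h6 : k / (q - 1) + 8 * (k * (1 / (q - 1))) = 9 * (k / (q - 1)) := by ring
  have h7 : 36 * k / q = 36 * x := by rw [hx]; ring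
  rw [h6, h7]
  nlinarith

open Classical in
private theorem b1_om (S : Finset ℕ) (m : ℤ) :
    om S m = (S.filter (fun q : ℕ => (q : ℤ) ∣ m)).card := by
  rfl

variable {κ : Type} [DecidableEq κ] [Fintype κ]

open Classical in
theorem blk1 {S : Finset ℕ} (hS : ∀ q ∈ S, q.Prime) {K : ℕ} (hk : Fintype.card κ ≤ K)
    (hK : ∀ q ∈ S, 4 * K + 4 ≤ q) (hs : ∑ q ∈ S, 1 / (q : ℝ) ≤ 8) (a : κ → ℤ) (a0 : ℤ)
    (h0 : ∀ q ∈ S, ∀ j, ¬ (q : ℤ) ∣ a j - a0)
    (hd : ∀ q ∈ S, ∀ i j, i ≠ j → ¬ (q : ℤ) ∣ a i - a j) (r : ℕ) (e : κ → ℕ)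
    (he : ∀ j, 1 ≤ e j ∧ e j ≤ 3) :
    ∃ c : Fam (fun q : {q // q ∈ S} => (q : ℕ)) → ℂ,
      (∀ m : ℕ, (∀ q ∈ S, ¬ q ∣ m) →
        ((∏ j, psiB S r ((m : ℤ) + a0 - a j) ^ e j : ℝ) : ℂ) = ∑ χ, c χ * fch χ m) ∧
      (∀ χ, ‖c χ‖ ≤ (∏ q ∈ S, (1 - (Fintype.card κ : ℝ) / q)) *
        (if fsupp χ = ∅ then (1 + epsS S r) ^ Fintype.card κ else 1) *
        ∏ i ∈ fsupp χ, (CK K / ((i : ℕ) : ℝ))) ∧
      ∃ x : ℝ, c (fun _ => 1) = x ∧ ∏ q ∈ S, (1 - (Fintype.card κ : ℝ) / ((q : ℝ) - 1)) ≤ x := by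
  classical
  set k : ℕ := Fintype.card κ with hkdef
  have hpr : ∀ i : {q // q ∈ S}, (i : ℕ).Prime := fun i => hS i i.2
  have h0' : ∀ (i : {q // q ∈ S}) (j : κ), ¬ ((i : ℕ) : ℤ) ∣ a j - a0 := fun i j => h0 i i.2 j
  have hd' : ∀ (i : {q // q ∈ S}) (j j' : κ), j ≠ j' → ¬ ((i : ℕ) : ℤ) ∣ a j - a j' :=
    fun i j j' h => hd i i.2 j j' h
  have hkK : (k : ℝ) ≤ (K : ℝ) := by exact_mod_cast hk
  have hq4 : ∀ i : {q // q ∈ S}, 4 * (k : ℝ) + 4 ≤ ((i : ℕ) : ℝ) := by
    intro i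
    have h1 : (4 * (K : ℝ) + 4) ≤ ((i : ℕ) : ℝ) := by exact_mod_cast hK i i.2
    linarith
  have hk0 : (0 : ℝ) ≤ (k : ℝ) := Nat.cast_nonneg k
  set c : Fam (fun q : {q // q ∈ S} => (q : ℕ)) → ℂ := fun χ =>
    ∑ σ : {q // q ∈ S} → Option κ, (b1F r e σ : ℂ) *
      ∏ i : {q // q ∈ S}, OC (i : ℕ) a a0 (σ i) (χ i) with hc
  -- the trivial family
  set w : {q // q ∈ S} → Option κ → ℝ := fun i o =>
    match o with
    | none => 1 - (k : ℝ) / (((i : ℕ) : ℝ) - 1)
    | some _ => 1 / (((i : ℕ) : ℝ) - 1) with hw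
  have hwnone : ∀ i, w i none = 1 - (k : ℝ) / (((i : ℕ) : ℝ) - 1) := fun i => rfl
  have hwsome : ∀ i j, w i (some j) = 1 / (((i : ℕ) : ℝ) - 1) := fun i j => rfl
  have hw1 : ∀ i : {q // q ∈ S}, 1 / 2 ≤ w i none := by
    intro i
    rw [hwnone]
    have h1 := hq4 i
    have h2 : (k : ℝ) / (((i : ℕ) : ℝ) - 1) ≤ 1 / 2 := by
      rw [div_le_div_iff₀ (by linarith) (by norm_num)]
      linarith
    linarith
  have hw0 : ∀ i o, 0 ≤ w i o := by
    intro i o
    cases o with
    | none => linarith [hw1 i]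
    | some j =>
      rw [hwsome i j]
      have h1 := hq4 i
      exact div_nonneg zero_le_one (by linarith)
  have hw2 : ∀ i j, w i (some j) ≤ w i none * (2 / ((i : ℕ) : ℝ)) := by
    intro i j
    rw [hwsome i j, hwnone]
    have h1 := hq4 i
    have hq0 : (0 : ℝ) < ((i : ℕ) : ℝ) := by linarith
    have hq1 : (0 : ℝ) < ((i : ℕ) : ℝ) - 1 := by linarith
    have h2 : (1 - (k : ℝ) / (((i : ℕ) : ℝ) - 1)) * (2 / ((i : ℕ) : ℝ)) =
        (2 * (((i : ℕ) : ℝ) - 1 - k) / ((i : ℕ) : ℝ)) * (1 / (((i : ℕ) : ℝ) - 1)) := by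
      field_simp
    rw [h2]
    have h3 : 1 ≤ 2 * (((i : ℕ) : ℝ) - 1 - k) / ((i : ℕ) : ℝ) := by
      rw [le_div_iff₀ hq0]
      linarith
    have h4 : 0 < 1 / (((i : ℕ) : ℝ) - 1) := by positivity
    nlinarith
  have hOC1 : ∀ (i : {q // q ∈ S}) (o : Option κ), OC (i : ℕ) a a0 o 1 = (w i o : ℂ) := by
    intro i o
    cases o with
    | none => exact OC_none_one (hpr i) a a0 (h0' i) (hd' i)
    | some j => exact OC_some_one (hpr i) a a0 (h0' i) (hd' i) j
  have hc1 : c (fun _ => 1) =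
      ((∑ σ : {q // q ∈ S} → Option κ, b1F r e σ * ∏ i, w i (σ i) : ℝ) : ℂ) := by
    rw [hc]
    push_cast
    refine sum_congr rfl fun σ _ => ?_
    congr 1
    exact prod_congr rfl fun i _ => hOC1 i (σ i)
  have hprod1 : ∏ i, w i none = ∏ q ∈ S, (1 - (k : ℝ) / ((q : ℝ) - 1)) :=
    prod_coe_sort S (fun q => 1 - (k : ℝ) / ((q : ℝ) - 1))
  have hP0 : 0 ≤ ∏ q ∈ S, (1 - (k : ℝ) / q) := by
    refine prod_nonneg fun q hq => ?_
    have h1 := hq4 ⟨q, hq⟩
    have h2 : (k : ℝ) / (q : ℝ) ≤ 1 := by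
      rw [div_le_one (by linarith)]
      simp only at h1
      linarith
    linarith
  refine ⟨c, ?_, ?_, ?_⟩
  · intro m hm
    have h1 : (∏ j, psiB S r ((m : ℤ) + a0 - a j) ^ e j : ℝ) =
        b1F r e (fun i : {q // q ∈ S} => hit (i : ℕ) a ((m : ℤ) + a0)) := by
      unfold b1F
      refine prod_congr rfl fun j _ => ?_
      have h5 : om S ((m : ℤ) + a0 - a j) =
          (cell (fun i : {q // q ∈ S} => hit (i : ℕ) a ((m : ℤ) + a0)) j).card := by
        rw [b1_om, ← card_map (Function.Embedding.subtype (fun q => q ∈ S))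
          (s := cell (fun i : {q // q ∈ S} => hit (i : ℕ) a ((m : ℤ) + a0)) j)]
        refine congrArg card ?_
        ext q
        rw [mem_filter, mem_map]
        constructor
        · rintro ⟨hq, hdvd⟩
          exact ⟨⟨q, hq⟩, mem_cell.2 ((hit_iff a (hd' ⟨q, hq⟩) _ j).2 hdvd), rfl⟩
        · rintro ⟨i, hi, rfl⟩
          have h6 := mem_cell.1 hi
          exact ⟨i.2, (hit_iff a (hd' i) _ j).1 h6⟩
      unfold psiB
      rw [h5]
    rw [h1]
    exact blk_exp (p := fun i : {q // q ∈ S} => (i : ℕ)) hpr a a0 (b1F r e)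
      (fun i => hm i i.2)
  · intro χ
    by_cases hχ : fsupp χ = ∅
    · have hχ1 : χ = fun _ => 1 := by
        funext i
        by_contra h
        have h2 : i ∈ fsupp χ := by
          unfold fsupp
          exact mem_filter.2 ⟨mem_univ i, h⟩
        rw [hχ] at h2
        exact absurd h2 (notMem_empty i)
      rw [if_pos hχ, hχ, prod_empty, mul_one, hχ1, hc1, Complex.norm_real, Real.norm_of_nonneg
        (sum_nonneg fun σ _ => mul_nonneg (b1F_nonneg r e σ) (prod_nonneg fun i _ => hw0 i _))]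
      refine (b1_sum_le (p := fun i : {q // q ∈ S} => (i : ℕ)) r e he w hw0 hw2).trans ?_
      rw [mul_comm, hprod1]
      refine mul_le_mul ?_ ?_ ?_ hP0
      · refine prod_le_prod (fun q hq => ?_) fun q hq => ?_
        · have h1 := hw1 ⟨q, hq⟩
          rw [hwnone] at h1
          simp only at h1
          linarith
        · have h1 := hq4 ⟨q, hq⟩
          simp only at h1
          have h2 : (k : ℝ) / (q : ℝ) ≤ (k : ℝ) / ((q : ℝ) - 1) :=
            div_le_div_of_nonneg_left hk0 (by linarith) (by linarith)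
          linarith
      · refine pow_le_pow_left₀ ?_ (b1_eps S r) _
        exact sum_nonneg fun D _ => mul_nonneg (b1v_nonneg r D)
          (prod_nonneg fun i _ => by positivity)
      · refine pow_nonneg ?_ _
        exact sum_nonneg fun D _ => mul_nonneg (b1v_nonneg r D)
          (prod_nonneg fun i _ => by positivity)
    · rw [if_neg hχ, mul_one]
      have h1 : ‖c χ‖ ≤ ∏ i : {q // q ∈ S}, (‖OC (i : ℕ) a a0 none (χ i)‖ +
          8 * ∑ j, ‖OC (i : ℕ) a a0 (some j) (χ i)‖) :=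
        b1_norm_le r e (fun j => (he j).2)
          (fun (i : {q // q ∈ S}) o => OC (i : ℕ) a a0 o (χ i))
      have h2 : ∀ i : {q // q ∈ S}, ‖OC (i : ℕ) a a0 none (χ i)‖ +
          8 * ∑ j, ‖OC (i : ℕ) a a0 (some j) (χ i)‖ ≤
          ((1 - (k : ℝ) / ((i : ℕ) : ℝ)) * Real.exp (16 * k * (1 / ((i : ℕ) : ℝ)))) *
            (if i ∈ fsupp χ then 36 * ((k : ℝ) + 1) / ((i : ℕ) : ℝ) else 1) := by
        intro i
        have h3 := hq4 i
        have hq0 : (0 : ℝ) < ((i : ℕ) : ℝ) := by linarith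
        have h4 : ∑ j, ‖OC (i : ℕ) a a0 (some j) (χ i)‖ ≤ k * (1 / (((i : ℕ) : ℝ) - 1)) := by
          refine (sum_le_sum fun j _ => OC_some (hpr i) a a0 (h0' i) (hd' i) j (χ i)).trans ?_
          rw [sum_const, card_univ, nsmul_eq_mul]
        have hxk : 0 ≤ 1 - (k : ℝ) / ((i : ℕ) : ℝ) := by
          have : (k : ℝ) / ((i : ℕ) : ℝ) ≤ 1 := by
            rw [div_le_one hq0]
            linarith
          linarith
        by_cases h5 : i ∈ fsupp χ
        · rw [if_pos h5]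
          have h6 : χ i ≠ 1 := by
            unfold fsupp at h5
            exact (mem_filter.1 h5).2
          have h7 := OC_none (hpr i) a a0 (h0' i) (hd' i) h6
          have h8 := b1_in hk0 h3
          have h9 : (1 - (k : ℝ) / ((i : ℕ) : ℝ)) * (36 * k / ((i : ℕ) : ℝ)) ≤
              ((1 - (k : ℝ) / ((i : ℕ) : ℝ)) * Real.exp (16 * k * (1 / ((i : ℕ) : ℝ)))) *
                (36 * ((k : ℝ) + 1) / ((i : ℕ) : ℝ)) := by
            rw [mul_assoc]
            refine mul_le_mul_of_nonneg_left ?_ hxk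
            have h10 : (1 : ℝ) ≤ Real.exp (16 * k * (1 / ((i : ℕ) : ℝ))) :=
              Real.one_le_exp (by positivity)
            have h11 : 36 * (k : ℝ) / ((i : ℕ) : ℝ) ≤ 36 * ((k : ℝ) + 1) / ((i : ℕ) : ℝ) := by
              refine div_le_div_of_nonneg_right ?_ hq0.le
              linarith
            have h12 : 0 ≤ 36 * ((k : ℝ) + 1) / ((i : ℕ) : ℝ) := by positivity
            calc 36 * (k : ℝ) / ((i : ℕ) : ℝ) ≤ 1 * (36 * ((k : ℝ) + 1) / ((i : ℕ) : ℝ)) := by
                  linarith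
              _ ≤ _ := mul_le_mul_of_nonneg_right h10 h12
          linarith
        · rw [if_neg h5, mul_one]
          have h6 : χ i = 1 := by
            by_contra h
            exact h5 (by unfold fsupp; exact mem_filter.2 ⟨mem_univ i, h⟩)
          have h7 : ‖OC (i : ℕ) a a0 none (χ i)‖ = 1 - (k : ℝ) / (((i : ℕ) : ℝ) - 1) := by
            rw [h6, hOC1, Complex.norm_real, Real.norm_of_nonneg (hw0 i none)]
          have h8 := b1_out hk0 h3
          rw [h7]
          linarith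
      refine h1.trans ((prod_le_prod (fun i _ => ?_) fun i _ => h2 i).trans ?_)
      · exact add_nonneg (norm_nonneg _) (mul_nonneg (by norm_num)
          (sum_nonneg fun j _ => norm_nonneg _))
      rw [prod_mul_distrib, prod_mul_distrib,
        prod_coe_sort S (fun q : ℕ => (1 - (k : ℝ) / (q : ℝ)))]
      rw [mul_assoc]
      refine mul_le_mul_of_nonneg_left ?_ hP0
      have h3 : ∏ i : {q // q ∈ S}, Real.exp (16 * k * (1 / ((i : ℕ) : ℝ))) ≤
          Real.exp (128 * K) := by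
        rw [prod_coe_sort S (fun q : ℕ => Real.exp (16 * k * (1 / (q : ℝ)))),
          ← Real.exp_sum, ← mul_sum]
        refine Real.exp_le_exp.2 ?_
        calc 16 * (k : ℝ) * ∑ q ∈ S, 1 / (q : ℝ) ≤ 16 * (k : ℝ) * 8 :=
              mul_le_mul_of_nonneg_left hs (by positivity)
          _ ≤ 128 * K := by linarith
      have h4 : ∏ i : {q // q ∈ S},
          (if i ∈ fsupp χ then 36 * ((k : ℝ) + 1) / ((i : ℕ) : ℝ) else 1) =
          ∏ i ∈ fsupp χ, (36 * ((k : ℝ) + 1) / ((i : ℕ) : ℝ)) := by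
        rw [prod_ite_mem, univ_inter]
      rw [h4]
      have h5 : ∏ i ∈ fsupp χ, (36 * ((k : ℝ) + 1) / ((i : ℕ) : ℝ)) ≤
          ∏ i ∈ fsupp χ, (36 * ((K : ℝ) + 1) / ((i : ℕ) : ℝ)) := by
        refine prod_le_prod (fun i _ => by positivity) fun i _ => ?_
        refine div_le_div_of_nonneg_right ?_ (Nat.cast_nonneg _)
        linarith
      have h6 : Real.exp (128 * K) ≤ ∏ i ∈ fsupp χ, Real.exp (128 * K) := by
        rw [prod_const]
        have h7 : 1 ≤ (fsupp χ).card := by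
          rw [Nat.one_le_iff_ne_zero, Ne, card_eq_zero]
          exact hχ
        have h8 : (1 : ℝ) ≤ Real.exp (128 * K) := Real.one_le_exp (by positivity)
        calc Real.exp (128 * K) = Real.exp (128 * K) ^ 1 := (pow_one _).symm
          _ ≤ _ := pow_le_pow_right₀ h8 h7
      calc (∏ i : {q // q ∈ S}, Real.exp (16 * k * (1 / ((i : ℕ) : ℝ)))) *
            ∏ i ∈ fsupp χ, (36 * ((k : ℝ) + 1) / ((i : ℕ) : ℝ))
          ≤ (∏ i ∈ fsupp χ, Real.exp (128 * K)) *
            ∏ i ∈ fsupp χ, (36 * ((K : ℝ) + 1) / ((i : ℕ) : ℝ)) := by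
            refine mul_le_mul (h3.trans h6) h5 (prod_nonneg fun i _ => by positivity)
              (prod_nonneg fun i _ => (Real.exp_pos _).le)
        _ = ∏ i ∈ fsupp χ, (CK K / ((i : ℕ) : ℝ)) := by
            rw [← prod_mul_distrib]
            refine prod_congr rfl fun i _ => ?_
            unfold CK
            ring
  · refine ⟨_, hc1, ?_⟩
    have h1 := single_le_sum (s := univ)
      (f := fun σ : {q // q ∈ S} → Option κ => b1F r e σ * ∏ i, w i (σ i))
      (fun σ _ => mul_nonneg (b1F_nonneg r e σ) (prod_nonneg fun i _ => hw0 i _))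
      (mem_univ (fun _ => none))
    refine le_trans (le_of_eq ?_) h1
    simp only [b1F_none, one_mul]
    exact hprod1.symm

end Pool.Agent.AV
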