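import Pool.Agent.AV.LocI
import Pool.Agent.AT.Exp

/-! AV/BlkE.  Expansion of a function of the joint divisibility pattern. -/

set_option autoImplicit false

open Finset Pool.Agent.RS Pool.Agent.AT

namespace Pool.Agent.AV

variable {ι κ : Type} [Fintype ι] [DecidableEq ι] [DecidableEq κ] [Fintype κ]

theorem blk_exp {p : ι → ℕ} (hp : ∀ i, (p i).Prime) (a : κ → ℤ) (a0 : ℤ)
    (Φ : (ι → Option κ) → ℝ) {m : ℕ} (hm : ∀ i, ¬ p i ∣ m) :
    ((Φ (fun i => hit (p i) a ((m : ℤ) + a0)) : ℝ) : ℂ) =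
      ∑ χ : Fam p, (∑ σ : ι → Option κ, (Φ σ : ℂ) * ∏ i, OC (p i) a a0 (σ i) (χ i)) *
        fch χ m := by
  classical
  have h1 : ∀ σ : ι → Option κ,
      (∏ i, (if hit (p i) a ((m : ℤ) + a0) = σ i then (1 : ℂ) else 0)) =
        ∑ χ : Fam p, (∏ i, OC (p i) a a0 (σ i) (χ i)) * fch χ m := by
    intro σ
    rw [prod_congr rfl fun i _ => (OC_exp (hp i) a a0 (σ i) (hm i)), prod_univ_sum,
      Fintype.piFinset_univ]
    refine sum_congr rfl fun χ _ => ?_
    rw [prod_mul_distrib, fch_eq hp χ hm]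
  have h2 : ((Φ (fun i => hit (p i) a ((m : ℤ) + a0)) : ℝ) : ℂ) =
      ∑ σ : ι → Option κ, (Φ σ : ℂ) *
        ∏ i, (if hit (p i) a ((m : ℤ) + a0) = σ i then (1 : ℂ) else 0) := by
    rw [sum_eq_single (fun i => hit (p i) a ((m : ℤ) + a0))]
    · rw [prod_eq_one fun i _ => if_pos rfl, mul_one]
    · intro σ _ hσ
      have h3 : ∃ i, hit (p i) a ((m : ℤ) + a0) ≠ σ i := by
        by_contra h4
        push Not at h4
        exact hσ (funext fun i => (h4 i).symm)
      obtain ⟨i, hi⟩ := h3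
      rw [prod_eq_zero (mem_univ i) (if_neg hi), mul_zero]
    · intro h
      exact absurd (mem_univ _) h
  rw [h2]
  simp only [h1, mul_sum]
  rw [sum_comm]
  refine sum_congr rfl fun χ _ => ?_
  rw [sum_mul]
  refine sum_congr rfl fun σ _ => ?_
  ring

end Pool.Agent.AV
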