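import Pool.Agent.AV.Blk1

/-! AV/Blks.  All blocks together, for the elements of a set `T`: the structure `SX`. The coefficient
of a family of characters is the product of the coefficients of its restrictions to the blocks. -/

set_option autoImplicit false

open Finset Pool.Agent.RS Pool.Agent.AT Pool.Agent.VOID

namespace Pool.Agent.AV

private theorem one_sub_sum_le {α : Type} (s : Finset α) (f : α → ℝ) (h0 : ∀ x ∈ s, 0 ≤ f x)
    (h1 : ∀ x ∈ s, f x ≤ 1) : 1 - ∑ x ∈ s, f x ≤ ∏ x ∈ s, (1 - f x) := by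
  classical
  induction s using Finset.induction_on with
  | empty => simp
  | insert a s ha ih =>
    rw [sum_insert ha, prod_insert ha]
    have h2 := ih (fun x hx => h0 x (mem_insert_of_mem hx)) (fun x hx => h1 x (mem_insert_of_mem hx))
    have h3 := h0 a (mem_insert_self a s)
    have h4 := h1 a (mem_insert_self a s)
    have h5 : 0 ≤ ∑ x ∈ s, f x := sum_nonneg fun x hx => h0 x (mem_insert_of_mem hx)
    have h6 : (1 - f a) * (1 - ∑ x ∈ s, f x) ≤ (1 - f a) * ∏ x ∈ s, (1 - f x) :=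
      mul_le_mul_of_nonneg_left h2 (by linarith)
    nlinarith [mul_nonneg h3 h5]

/-- the restriction of a family to a block -/
private def slc {Bl : ℕ → Finset ℕ} {I : ℕ} (χ : Fam (p1 Bl I)) (i : Fin I) :
    Fam (fun q : {q : ℕ // q ∈ Bl i} => (q : ℕ)) := fun q => χ ⟨i, q⟩

private theorem prod_fsupp {Bl : ℕ → Finset ℕ} {I : ℕ} {M : Type} [CommMonoid M]
    (χ : Fam (p1 Bl I)) (g : I1 Bl I → M) :
    ∏ x ∈ fsupp χ, g x = ∏ i : Fin I, ∏ q ∈ fsupp (slc χ i), g ⟨i, q⟩ := by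
  classical
  unfold fsupp
  rw [prod_filter, Fintype.prod_sigma]
  refine prod_congr rfl fun i _ => ?_
  rw [prod_filter]
  rfl

/-- the coefficient of a family -/
private noncomputable def cc {Bl : ℕ → Finset ℕ} {I : ℕ}
    (c : ∀ i : Fin I, Fam (fun q : {q : ℕ // q ∈ Bl i} => (q : ℕ)) → ℂ) (χ : Fam (p1 Bl I)) : ℂ :=
  ∏ i : Fin I, c i (slc χ i)

private theorem fch_slc {Bl : ℕ → Finset ℕ} {I : ℕ} (χ : Fam (p1 Bl I)) (m : ℕ) :
    fch χ m = ∏ i : Fin I, fch (slc χ i) m := by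
  unfold fch
  exact prod_fsupp χ fun x => χ x (m : ZMod (p1 Bl I x))

private def sle (Bl : ℕ → Finset ℕ) (I : ℕ) :
    Fam (p1 Bl I) ≃ ((i : Fin I) → Fam (fun q : {q : ℕ // q ∈ Bl i} => (q : ℕ))) where
  toFun χ := slc χ
  invFun f x := f x.1 x.2
  left_inv _ := rfl
  right_inv _ := rfl

private theorem cc_sum {Bl : ℕ → Finset ℕ} {I : ℕ}
    (c : ∀ i : Fin I, Fam (fun q : {q : ℕ // q ∈ Bl i} => (q : ℕ)) → ℂ) (m : ℕ) :
    ∑ χ : Fam (p1 Bl I), cc c χ * fch χ m = ∏ i : Fin I, ∑ χ, c i χ * fch χ m := by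
  classical
  rw [prod_univ_sum, Fintype.piFinset_univ]
  refine Fintype.sum_equiv (sle Bl I) _ _ fun χ => ?_
  rw [prod_mul_distrib, fch_slc χ m]
  rfl

private theorem fac_ineq {q k : ℕ} (h : 4 * k + 4 ≤ q) :
    (1 - (k : ℝ) / q) * (1 - 4 * (k : ℝ) / (q : ℝ) ^ 2) ≤ 1 - (k : ℝ) / ((q : ℝ) - 1) := by
  have hq : 4 * (k : ℝ) + 4 ≤ q := by exact_mod_cast h
  have hk : (0 : ℝ) ≤ k := Nat.cast_nonneg k
  have hq0 : (0 : ℝ) < q := by linarith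
  have hq1 : (0 : ℝ) < (q : ℝ) - 1 := by linarith
  have h1 : 1 - (k : ℝ) / ((q : ℝ) - 1) - (1 - (k : ℝ) / q) * (1 - 4 * (k : ℝ) / (q : ℝ) ^ 2) =
      (k : ℝ) * (4 * q * (q - 1) - 4 * k * (q - 1) - q ^ 2) / (q ^ 3 * (q - 1)) := by
    field_simp
    ring
  have h2 : 0 ≤ 4 * (q : ℝ) * (q - 1) - 4 * k * (q - 1) - q ^ 2 := by
    nlinarith [mul_nonneg hk hq1.le, mul_nonneg hq1.le hq1.le]
  have h3 : 0 ≤ (k : ℝ) * (4 * q * (q - 1) - 4 * k * (q - 1) - q ^ 2) / (q ^ 3 * (q - 1)) := by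
    positivity
  linarith

private theorem low_prod {Bl : ℕ → Finset ℕ} {I K k : ℕ} (hk : k ≤ K)
    (hK : ∀ i < I, ∀ q ∈ Bl i, 4 * K + 4 ≤ q)
    (hsq : ∑ i ∈ range I, ∑ q ∈ Bl i, 4 * (K : ℝ) / (q : ℝ) ^ 2 ≤ 1 / 2) :
    PiV Bl I k / 2 ≤ ∏ i ∈ range I, ∏ q ∈ Bl i, (1 - (k : ℝ) / ((q : ℝ) - 1)) := by
  have hkK : (k : ℝ) ≤ K := by exact_mod_cast hk
  have hk0 : (0 : ℝ) ≤ k := Nat.cast_nonneg k
  have hq : ∀ i ∈ range I, ∀ q ∈ Bl i, 4 * (K : ℝ) + 4 ≤ q := by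
    intro i hi q hq
    exact_mod_cast hK i (mem_range.mp hi) q hq
  have hA : ∀ i ∈ range I, ∀ q ∈ Bl i, 0 ≤ 1 - (k : ℝ) / q := by
    intro i hi q hq'
    have h1 := hq i hi q hq'
    rw [sub_nonneg, div_le_one (by linarith)]
    linarith
  have hB0 : ∀ i ∈ range I, ∀ q ∈ Bl i, 0 ≤ 4 * (k : ℝ) / (q : ℝ) ^ 2 := by
    intro i hi q hq'
    positivity
  have hB1 : ∀ i ∈ range I, ∀ q ∈ Bl i, 4 * (k : ℝ) / (q : ℝ) ^ 2 ≤ 1 := by
    intro i hi q hq'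
    have h1 := hq i hi q hq'
    rw [div_le_one (by have : (0 : ℝ) < q := by linarith
                       positivity)]
    nlinarith
  have hPi : PiV Bl I k = ∏ i ∈ range I, ∏ q ∈ Bl i, (1 - (k : ℝ) / q) := by
    unfold PiV
    refine prod_congr rfl fun i hi => prod_congr rfl fun q hq' => ?_
    exact max_eq_right (hA i hi q hq')
  have h1 : (∏ i ∈ range I, ∏ q ∈ Bl i, (1 - (k : ℝ) / q)) *
      ∏ i ∈ range I, ∏ q ∈ Bl i, (1 - 4 * (k : ℝ) / (q : ℝ) ^ 2) ≤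
      ∏ i ∈ range I, ∏ q ∈ Bl i, (1 - (k : ℝ) / ((q : ℝ) - 1)) := by
    rw [← prod_mul_distrib]
    refine prod_le_prod (fun i hi => mul_nonneg (prod_nonneg (hA i hi))
      (prod_nonneg fun q hq' => sub_nonneg.mpr (hB1 i hi q hq'))) fun i hi => ?_
    rw [← prod_mul_distrib]
    refine prod_le_prod (fun q hq' => mul_nonneg (hA i hi q hq')
      (sub_nonneg.mpr (hB1 i hi q hq'))) fun q hq' => ?_
    refine fac_ineq ?_
    have h2 := hK i (mem_range.mp hi) q hq'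
    omega
  have h2 : 1 - ∑ i ∈ range I, ∑ q ∈ Bl i, 4 * (k : ℝ) / (q : ℝ) ^ 2 ≤
      ∏ i ∈ range I, ∏ q ∈ Bl i, (1 - 4 * (k : ℝ) / (q : ℝ) ^ 2) := by
    rw [Finset.sum_sigma', Finset.prod_sigma']
    refine one_sub_sum_le _ (fun x : (_ : ℕ) × ℕ => 4 * (k : ℝ) / (x.2 : ℝ) ^ 2) ?_ ?_
    · intro x hx
      rw [mem_sigma] at hx
      exact hB0 x.1 hx.1 x.2 hx.2
    · intro x hx
      rw [mem_sigma] at hx
      exact hB1 x.1 hx.1 x.2 hx.2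
  have h3 : ∑ i ∈ range I, ∑ q ∈ Bl i, 4 * (k : ℝ) / (q : ℝ) ^ 2 ≤ 1 / 2 := by
    refine le_trans ?_ hsq
    refine sum_le_sum fun i _ => sum_le_sum fun q _ => ?_
    exact div_le_div_of_nonneg_right (by linarith) (by positivity)
  have h4 : 0 ≤ ∏ i ∈ range I, ∏ q ∈ Bl i, (1 - (k : ℝ) / q) :=
    prod_nonneg fun i hi => prod_nonneg (hA i hi)
  rw [hPi]
  calc (∏ i ∈ range I, ∏ q ∈ Bl i, (1 - (k : ℝ) / q)) / 2 =
        (∏ i ∈ range I, ∏ q ∈ Bl i, (1 - (k : ℝ) / q)) * (1 / 2) := by ring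
    _ ≤ (∏ i ∈ range I, ∏ q ∈ Bl i, (1 - (k : ℝ) / q)) *
        ∏ i ∈ range I, ∏ q ∈ Bl i, (1 - 4 * (k : ℝ) / (q : ℝ) ^ 2) :=
        mul_le_mul_of_nonneg_left (by linarith) h4
    _ ≤ _ := h1

variable {κ : Type} [DecidableEq κ]

theorem sx_blocks {Bl : ℕ → Finset ℕ} {r I K : ℕ} (hB : ∀ i < I, ∀ q ∈ Bl i, q.Prime)
    (hK : ∀ i < I, ∀ q ∈ Bl i, 4 * K + 4 ≤ q) (hs : ∀ i < I, ∑ q ∈ Bl i, 1 / (q : ℝ) ≤ 8)
    (hsq : ∑ i ∈ range I, ∑ q ∈ Bl i, 4 * (K : ℝ) / (q : ℝ) ^ 2 ≤ 1 / 2)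
    (hE : (∏ i ∈ range I, (1 + epsS (Bl i) (r + i))) ^ K ≤ 2) (a : κ → ℤ) (a0 : ℤ)
    (h0 : ∀ i < I, ∀ q ∈ Bl i, ∀ j, ¬ (q : ℤ) ∣ a j - a0)
    (hd : ∀ i < I, ∀ q ∈ Bl i, ∀ j j', j ≠ j' → ¬ (q : ℤ) ∣ a j - a j') :
    SX (p1 Bl I) a0 (psiV Bl r I) (PiV Bl I) (CK K) K a := by
  classical
  refine ⟨fun T e hT he => ?_⟩
  have hcard : Fintype.card {j // j ∈ T} = T.card := Fintype.card_coe T
  have H : ∀ i : Fin I, ∃ c : Fam (fun q : {q : ℕ // q ∈ Bl i} => (q : ℕ)) → ℂ,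
      (∀ m : ℕ, (∀ q ∈ Bl i, ¬ q ∣ m) →
        ((∏ j : {j // j ∈ T}, psiB (Bl i) (r + i) ((m : ℤ) + a0 - a j) ^ e j : ℝ) : ℂ) =
          ∑ χ, c χ * fch χ m) ∧
      (∀ χ, ‖c χ‖ ≤ (∏ q ∈ Bl i, (1 - (T.card : ℝ) / q)) *
        (1 + epsS (Bl i) (r + i)) ^ T.card * ∏ x ∈ fsupp χ, (CK K / ((x : ℕ) : ℝ))) ∧
      ∃ x : ℝ, c (fun _ => 1) = x ∧ ∏ q ∈ Bl i, (1 - (T.card : ℝ) / ((q : ℝ) - 1)) ≤ x := by
    intro i
    obtain ⟨c, h1, h2, h3⟩ := blk1 (κ := {j // j ∈ T}) (hB i i.2) (K := K)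
      (by rw [hcard]; exact hT) (hK i i.2) (hs i i.2) (fun j => a j) a0
      (fun q hq j => h0 i i.2 q hq j)
      (fun q hq j j' hj => hd i i.2 q hq j j' fun h => hj (Subtype.ext h)) (r + i)
      (fun j => e j) (fun j => he j j.2)
    rw [hcard] at h2 h3
    refine ⟨c, h1, fun χ => (h2 χ).trans ?_, h3⟩
    have hA : 0 ≤ ∏ q ∈ Bl i, (1 - (T.card : ℝ) / q) := by
      refine prod_nonneg fun q hq => ?_
      have h4 : 4 * (K : ℝ) + 4 ≤ q := by exact_mod_cast hK i i.2 q hq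
      have h5 : (T.card : ℝ) ≤ K := by exact_mod_cast hT
      have h6 : (0 : ℝ) ≤ T.card := Nat.cast_nonneg _
      rw [sub_nonneg, div_le_one (by linarith)]
      linarith
    have hC : 0 ≤ ∏ x ∈ fsupp χ, (CK K / ((x : ℕ) : ℝ)) := by
      refine prod_nonneg fun x _ => ?_
      unfold CK
      positivity
    refine mul_le_mul_of_nonneg_right (mul_le_mul_of_nonneg_left ?_ hA) hC
    have he0 := epsS_nonneg (Bl i) (r + i)
    split_ifs
    · exact le_refl _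
    · exact one_le_pow₀ (by linarith)
  choose c hc1 hc2 hc3 using H
  choose x hx1 hx2 using hc3
  refine ⟨cc c, fun m hm => ?_, fun χ => ?_, ∏ i, x i, ?_, ?_⟩
  · rw [cc_sum]
    have h1 : ∀ i : Fin I, ∑ χ, c i χ * fch χ m =
        ((∏ j : {j // j ∈ T}, psiB (Bl i) (r + i) ((m : ℤ) + a0 - a j) ^ e j : ℝ) : ℂ) := by
      intro i
      exact (hc1 i m fun q hq => hm ⟨i, ⟨q, hq⟩⟩).symm
    rw [prod_congr rfl fun i _ => h1 i, ← Complex.ofReal_prod]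
    congr 1
    unfold psiV
    have h2 : ∀ j ∈ T, (∏ i ∈ range I, psiB (Bl i) (r + i) ((m : ℤ) + a0 - a j)) ^ e j =
        ∏ i : Fin I, psiB (Bl i) (r + i) ((m : ℤ) + a0 - a j) ^ e j := by
      intro j _
      rw [prod_range, prod_pow]
    rw [prod_congr rfl h2, prod_comm]
    refine prod_congr rfl fun i _ => ?_
    exact (prod_coe_sort T fun j => psiB (Bl i) (r + i) ((m : ℤ) + a0 - a j) ^ e j).symm
  · have hnn : ∀ i ∈ range I, ∀ q ∈ Bl i, 0 ≤ 1 - (T.card : ℝ) / q := by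
      intro i hi q hq
      have h4 : 4 * (K : ℝ) + 4 ≤ q := by exact_mod_cast hK i (mem_range.mp hi) q hq
      have h5 : (T.card : ℝ) ≤ K := by exact_mod_cast hT
      have h6 : (0 : ℝ) ≤ T.card := Nat.cast_nonneg _
      rw [sub_nonneg, div_le_one (by linarith)]
      linarith
    have hPi : PiV Bl I T.card = ∏ i : Fin I, ∏ q ∈ Bl i, (1 - (T.card : ℝ) / q) := by
      unfold PiV
      rw [← prod_range fun i => ∏ q ∈ Bl i, (1 - (T.card : ℝ) / q)]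
      refine prod_congr rfl fun i hi => prod_congr rfl fun q hq => ?_
      exact max_eq_right (hnn i hi q hq)
    have hPi0 : 0 ≤ PiV Bl I T.card := by
      unfold PiV
      exact prod_nonneg fun i _ => prod_nonneg fun q _ => le_max_left _ _
    have hEp : ∏ i : Fin I, (1 + epsS (Bl i) (r + i)) ^ T.card ≤ 2 := by
      rw [prod_pow, ← prod_range fun i => 1 + epsS (Bl i) (r + i)]
      refine le_trans (pow_le_pow_right₀ ?_ hT) hE
      have h7 : ∀ i ∈ range I, (1 : ℝ) ≤ 1 + epsS (Bl i) (r + i) := fun i _ => by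
        linarith [epsS_nonneg (Bl i) (r + i)]
      calc (1 : ℝ) = ∏ i ∈ range I, (1 : ℝ) := by rw [prod_const_one]
        _ ≤ _ := prod_le_prod (fun _ _ => zero_le_one) h7
    have hC0 : 0 ≤ ∏ y ∈ fsupp χ, (CK K / (p1 Bl I y : ℝ)) := by
      refine prod_nonneg fun y _ => ?_
      unfold CK
      positivity
    unfold cc
    rw [norm_prod]
    calc ∏ i, ‖c i (slc χ i)‖ ≤ ∏ i : Fin I, ((∏ q ∈ Bl i, (1 - (T.card : ℝ) / q)) *
          (1 + epsS (Bl i) (r + i)) ^ T.card * ∏ y ∈ fsupp (slc χ i), (CK K / ((y : ℕ) : ℝ))) :=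
          prod_le_prod (fun _ _ => norm_nonneg _) fun i _ => hc2 i _
      _ = PiV Bl I T.card * (∏ i : Fin I, (1 + epsS (Bl i) (r + i)) ^ T.card) *
          ∏ y ∈ fsupp χ, (CK K / (p1 Bl I y : ℝ)) := by
          rw [prod_mul_distrib, prod_mul_distrib, hPi, prod_fsupp]
          rfl
      _ ≤ PiV Bl I T.card * 2 * ∏ y ∈ fsupp χ, (CK K / (p1 Bl I y : ℝ)) :=
          mul_le_mul_of_nonneg_right (mul_le_mul_of_nonneg_left hEp hPi0) hC0
      _ = 2 * PiV Bl I T.card * ∏ y ∈ fsupp χ, (CK K / (p1 Bl I y : ℝ)) := by ring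
  · rw [Complex.ofReal_prod]
    unfold cc
    refine prod_congr rfl fun i _ => ?_
    rw [← hx1 i]
    rfl
  · refine (low_prod hT hK hsq).trans ?_
    rw [prod_range fun i => ∏ q ∈ Bl i, (1 - (T.card : ℝ) / ((q : ℝ) - 1))]
    refine prod_le_prod (fun i _ => prod_nonneg fun q hq => ?_) fun i _ => hx2 i
    have h4 : 4 * (K : ℝ) + 4 ≤ q := by exact_mod_cast hK i i.2 q hq
    have h5 : (T.card : ℝ) ≤ K := by exact_mod_cast hT
    have h6 : (0 : ℝ) ≤ T.card := Nat.cast_nonneg _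
    rw [sub_nonneg, div_le_one (by linarith)]
    linarith

end Pool.Agent.AV
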