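import Pool.Agent.AT.LocB
import Pool.Agent.AT.Defs
import Pool.Agent.VOID.BrunV
import Pool.Agent.VOID.Quad

/-!
# AV: attracting primes with the VOID weights. Definitions

Paper plan: section 5 of `/team-store/attract_proof.md` and `/team-store/av_plan.md`.
The weight is `g n = GZ p a ψ (Yd p y D) n` of project VOID (`p` the LARGE primes, `ψ` the Brun block
sieve on the small primes).  A prime `m` to be attracted is written `n = m + a0`.
-/

set_option autoImplicit false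

open Finset Pool.Agent.RS Pool.Agent.AT Pool.Agent.VOID

namespace Pool.Agent.AV

section low

variable {ι : Type} [Fintype ι] [DecidableEq ι]

/-- `F (m + a0)` is, for the `m` prime to all moduli, a combination of families of characters of
conductor at most `D` -/
def LowE (p : ι → ℕ) (a0 : ℤ) (D : ℝ) (F : ℤ → ℝ) : Prop :=
  ∃ c : Fam p → ℂ, (∀ χ, D < (fcd χ : ℝ) → c χ = 0) ∧
    ∀ m : ℕ, (∀ i, ¬ p i ∣ m) → ((F ((m : ℤ) + a0) : ℝ) : ℂ) = ∑ χ, c χ * fch χ m

end low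

section hit

variable {κ : Type} [DecidableEq κ]

open Classical in
/-- the element `j` with `q ∣ n - a j` -/
noncomputable def hit (q : ℕ) (a : κ → ℤ) (n : ℤ) : Option κ :=
  if h : ∃ j, (q : ℤ) ∣ n - a j then some h.choose else none

/-- local coefficient of the event `hit = o` -/
noncomputable def OC (q : ℕ) (a : κ → ℤ) (a0 : ℤ) (o : Option κ) (χ : DirichletCharacter ℂ q) : ℂ :=
  (1 / ((q : ℂ) - 1)) * ∑ r ∈ (range q).filter (fun r => r ≠ 0),
    (if hit q a ((r : ℤ) + a0) = o then (1 : ℂ) else 0) * χ⁻¹ (r : ZMod q)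

end hit

/-- the constant of the character bound for `K` elements -/
noncomputable def CK (K : ℕ) : ℝ := 36 * ((K : ℝ) + 1) * Real.exp (128 * K)

/-- index type of the small primes -/
abbrev I1 (Bl : ℕ → Finset ℕ) (I : ℕ) : Type := (i : Fin I) × {q : ℕ // q ∈ Bl i}

/-- the small primes -/
def p1 (Bl : ℕ → Finset ℕ) (I : ℕ) : I1 Bl I → ℕ := fun x => (x.2 : ℕ)

/-- Character expansion of the mixed products of the shifts of `ψ` on the integers `m + a0`, `m` prime to
the small primes: coefficients decay in the conductor, relative to the density `Pi`. -/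
structure SX {ι1 κ : Type} [Fintype ι1] [DecidableEq ι1] [DecidableEq κ] (q : ι1 → ℕ) (a0 : ℤ)
    (ψ : ℤ → ℝ) (Pi : ℕ → ℝ) (C : ℝ) (K : ℕ) (a : κ → ℤ) : Prop where
  ex : ∀ (T : Finset κ) (e : κ → ℕ), T.card ≤ K → (∀ j ∈ T, 1 ≤ e j ∧ e j ≤ 3) →
    ∃ c : Fam q → ℂ,
      (∀ m : ℕ, (∀ i, ¬ q i ∣ m) →
        ((∏ j ∈ T, ψ ((m : ℤ) + a0 - a j) ^ e j : ℝ) : ℂ) = ∑ χ, c χ * fch χ m) ∧
      (∀ χ, ‖c χ‖ ≤ 2 * Pi T.card * ∏ i ∈ fsupp χ, (C / (q i : ℝ))) ∧
      ∃ x : ℝ, c (fun _ => 1) = x ∧ Pi T.card / 2 ≤ x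

/-- the bound of the off-diagonal sums -/
noncomputable def offA (κ : Type) [Fintype κ] {ι : Type} [Fintype ι] (p : ι → ℕ) (N : ℕ) : ℝ :=
  (4 * ((Fintype.card κ : ℝ) + 1)) ^ (4 * N) * ∏ i, (1 + 1 / ((p i : ℝ) - 1))

end Pool.Agent.AV
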