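import Pool.Agent.AT.Par
import Pool.Agent.AT.ParA
import Pool.Agent.AV.Defs
import Pool.Agent.VOID.Blk
import Pool.Agent.VOID.BigP
import Pool.Agent.VOID.ParL
import Pool.Agent.VOID.V1B

/-! AV/Cc.  The concrete objects and the list of the numerical facts. -/

set_option autoImplicit false

open Finset Pool.Agent.RS Pool.Agent.AT Pool.Agent.VOID

namespace Pool.Agent.AV

/-- the large primes: those in `(2 ^ m1, 2 ^ dd L]` (and `> L ^ 6`) -/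
abbrev Iy (L m1 : ℕ) : Type := {q : ℕ // q ∈ prz (2 ^ dd L) \ EB L m1 (dd L) ∅}

/-- the large prime with index `q` -/
def py (L m1 : ℕ) : Iy L m1 → ℕ := fun q => (q : ℕ)

/-- the weights -/
noncomputable def yy (L m1 s : ℕ) : Finset (Iy L m1) → ℝ := wt (py L m1) (2 ^ s)

/-- the Brun block sieve on the small primes `> L ^ 6`, `≤ 2 ^ m1` -/
noncomputable def psy (L m1 r : ℕ) : ℤ → ℝ := psiV (Bk L m1 ∅) r (Nat.log 2 m1)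

/-- its density -/
noncomputable def Piy (L m1 : ℕ) : ℕ → ℝ := PiV (Bk L m1 ∅) (Nat.log 2 m1)

/-- the weight -/
noncomputable def gy (L m1 s d r : ℕ) (R : Finset ℕ) (n : ℤ) : ℝ :=
  GZ (py L m1) (ax R) (psy L m1 r) (Yd (py L m1) (yy L m1 s) (2 ^ d)) n

/-- its mean square, up to constants -/
noncomputable def Zy (L m1 s d : ℕ) (R : Finset ℕ) : ℝ :=
  ZZ {j : ℕ // j ∈ R} (py L m1) (yy L m1 s) (2 ^ d) (Piy L m1)

/-- `∏ (1 + 1/(p-1))` over the large primes is at most this -/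
noncomputable def E2 (G r : ℕ) : ℝ := Real.exp (2 ^ (Nat.log 2 (RR G r) + 5))

/-- numerical facts -/
structure PB (CV : ℝ) (G r L g s m1 d N : ℕ) : Prop where
  pl : PL CV G r 1000 L g s m1 d N
  G1 : 1 ≤ G
  big : 10 ^ 6 ≤ L
  s_le : s ≤ dd L
  rl : 100 * RR G r ≤ L
  ck : CK (4 * RR G r) ≤ L
  off2 : (4 * ((L : ℝ) + 4)) ^ (16 * RR G r) * E2 G r ≤ ((2 : ℝ) ^ m1) ^ (1 / 8 : ℝ)
  dl : 20 * |CV| * RR G r * (2 * (RR G r : ℝ) / 2 ^ m1) ^ 2 ≤ 1 / (4 * (L : ℝ))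
  lev : ((2 : ℝ) ^ d * (2 ^ (m1 * (4 * r + 4))) ^ N) ^ 2 ≤ 2 ^ (L / 1000)
  w1 : (2 * ((2 : ℝ) ^ d) ^ 2 * (3 * 2 ^ (m1 * (4 * r + 4))) ^ N) ^ 2 * 2 ^ (m1 * (4 * r + 4)) ≤
    2 ^ (L / 100)
  w2 : (2 * ((2 : ℝ) ^ d * 2 ^ dd L * 2 ^ dd L) ^ 2 * (3 ^ (3 * RR G r) *
      (2 ^ (m1 * (4 * r + 4))) ^ (N + 2))) ^ 2 * (2 ^ (m1 * (4 * r + 4))) ^ 2 ≤ 2 ^ (L / 100)

/-- admissible data: at most `Λ L / log_2 L` killed elements -/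
structure AdmV (Λ : ℝ) (P L M H : ℕ) (R : Finset ℕ) : Prop where
  hL : L = Nat.log 2 P
  hM0 : 0 < M
  hM : ∀ q : ℕ, q.Prime → L ^ 6 < q → Nat.Coprime M q
  hMP : (M : ℝ) ≤ (P : ℝ) ^ (1 / 1000 : ℝ)
  hH : H ≤ L ^ 2
  hR : R ⊆ range H
  hk : (R.card : ℝ) * (Nat.log 2 L : ℝ) ≤ Λ * L

end Pool.Agent.AV
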