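import Pool.Agent.AV.Defs

/-! AV/Off2.  Off-diagonal sums on the reduced classes.
`z ≤ p i - 1`, the elements `a j`, `a0` are different modulo all `p i` (`LocB` applies), `|Y| ≤ 1`, supports of at
most `N` elements, `k = card κ`.
PLAN.  For a pair `(σ, σ')` let `U = supp σ ∪ supp σ'`, `U.card ≤ 2N`.  At `i ∉ U` the local coefficient is
`LC none none (χ i)`: `1` if `χ i = 1` (`LC_one`, `GE_none_none`), `0` otherwise.  At `i ∈ U` it is at most
`4/(p i - 1)` in norm (`LC_none_some`, `LC_same`, `LC_diff`, `p i - 1 ≥ 1`).  So the product is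
`≤ ∏_{i ∈ U} 4/(p i - 1)` and vanishes unless `fsupp χ ⊆ U`.  For `σ ≠ σ'` and `χ = 1` some `i ∈ U` has
`σ i ≠ σ' i`, and there `|GE| ≤ 4/(p i - 1)^2 ≤ (4/(p i - 1))/z` (`GE_none_some`, `GE_symm`, `GE_diff`).
The number of pairs with given `U` is `≤ (k+1)^(4N)` (values in `Option κ` on `U`, twice), `4^(2N)` for the
constants, and `∑_{U ⊇ S} ∏_{i∈U} 1/(p i - 1) ≤ ∏_{i∈S} 1/(p i - 1) * ∏ i (1 + 1/(p i - 1))`
(`Finset.prod_one_add`).  Compare VOID/Off. -/

set_option autoImplicit false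

open Finset Pool.Agent.RS Pool.Agent.AT

namespace Pool.Agent.AV

variable {ι κ : Type} [Fintype ι] [DecidableEq ι] [DecidableEq κ] [Fintype κ]

/-- the sum over all the pairs is at most a product -/
private theorem core {c d : ι → ℝ} (hc0 : ∀ i, 0 ≤ c i) (hd0 : ∀ i, 0 ≤ d i)
    (w : ι → Option κ → Option κ → ℝ) (hw0 : ∀ i o o', 0 ≤ w i o o')
    (hw1 : ∀ i, w i none none ≤ d i)
    (hw2 : ∀ i o o', ¬ (o = none ∧ o' = none) → w i o o' ≤ 4 * c i)
    (Y : (ι → Option κ) → ℝ) (hY1 : ∀ σ, |Y σ| ≤ 1) {N : ℕ}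
    (hN : ∀ σ, Y σ ≠ 0 → (supp σ).card ≤ N) :
    ∑ σ, ∑ σ' : ι → Option κ, |Y σ * Y σ'| * ∏ i, w i (σ i) (σ' i) ≤
      (4 * ((Fintype.card κ : ℝ) + 1)) ^ (4 * N) * ∏ i, (d i + c i) := by
  set k : ℝ := (Fintype.card κ : ℝ) + 1 with hk
  have hk1 : 1 ≤ k := by
    have : (0 : ℝ) ≤ (Fintype.card κ : ℝ) := Nat.cast_nonneg _
    linarith
  set A : ℝ := (4 * k) ^ 2 with hA
  have hA1 : 1 ≤ A := by rw [hA]; nlinarith
  have hA0 : 0 < A := by linarith
  set v : ι → Option κ → Option κ → ℝ := fun i o o' =>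
    if o = none ∧ o' = none then w i o o' else w i o o' / A with hv
  have hv0 : ∀ i o o', 0 ≤ v i o o' := by
    intro i o o'
    rw [hv]
    dsimp only
    split_ifs
    · exact hw0 i o o'
    · exact div_nonneg (hw0 i o o') hA0.le
  have hterm : ∀ σ σ' : ι → Option κ, |Y σ * Y σ'| * ∏ i, w i (σ i) (σ' i) ≤
      A ^ (2 * N) * ∏ i, v i (σ i) (σ' i) := by
    intro σ σ'
    have hv1 : 0 ≤ ∏ i, v i (σ i) (σ' i) := Finset.prod_nonneg fun i _ => hv0 i _ _
    by_cases h : Y σ * Y σ' = 0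
    · rw [h, abs_zero, zero_mul]
      positivity
    · have hs := hN σ (left_ne_zero_of_mul h)
      have hs' := hN σ' (right_ne_zero_of_mul h)
      have hU : (supp σ ∪ supp σ').card ≤ 2 * N := by
        refine (Finset.card_union_le _ _).trans ?_
        omega
      have h1 : ∏ i, w i (σ i) (σ' i) = A ^ (supp σ ∪ supp σ').card * ∏ i, v i (σ i) (σ' i) := by
        have h2 : ∀ i, w i (σ i) (σ' i) =
            (if i ∈ supp σ ∪ supp σ' then A else 1) * v i (σ i) (σ' i) := by
          intro i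
          rw [hv]
          dsimp only
          by_cases h3 : σ i = none ∧ σ' i = none
          · rw [if_pos h3, if_neg, one_mul]
            rw [mem_union, mem_supp, mem_supp]
            tauto
          · rw [if_neg h3, if_pos, mul_div_cancel₀ _ hA0.ne']
            rw [mem_union, mem_supp, mem_supp]
            tauto
        rw [Finset.prod_congr rfl fun i _ => h2 i, Finset.prod_mul_distrib, Finset.prod_ite_mem,
          Finset.univ_inter, Finset.prod_const]
      have h2 : |Y σ * Y σ'| ≤ 1 := by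
        rw [abs_mul]
        exact mul_le_one₀ (hY1 σ) (abs_nonneg _) (hY1 σ')
      have h3 : 0 ≤ ∏ i, w i (σ i) (σ' i) := Finset.prod_nonneg fun i _ => hw0 i _ _
      calc |Y σ * Y σ'| * ∏ i, w i (σ i) (σ' i) ≤ 1 * ∏ i, w i (σ i) (σ' i) :=
            mul_le_mul_of_nonneg_right h2 h3
        _ = A ^ (supp σ ∪ supp σ').card * ∏ i, v i (σ i) (σ' i) := by rw [one_mul, h1]
        _ ≤ A ^ (2 * N) * ∏ i, v i (σ i) (σ' i) :=
            mul_le_mul_of_nonneg_right (pow_le_pow_right₀ hA1 hU) hv1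
  have hloc : ∀ i, ∑ o : Option κ, ∑ o' : Option κ, v i o o' ≤ d i + c i := by
    intro i
    have h1 : ∀ o o' : Option κ, v i o o' ≤
        (if o = none then (if o' = none then d i else 0) else 0) + c i / k ^ 2 := by
      intro o o'
      have hck : 0 ≤ c i / k ^ 2 := div_nonneg (hc0 i) (by positivity)
      rw [hv]
      dsimp only
      by_cases h3 : o = none ∧ o' = none
      · rw [if_pos h3, if_pos h3.1, if_pos h3.2, h3.1, h3.2]
        have := hw1 i
        linarith
      · rw [if_neg h3]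
        have h4 : w i o o' / A ≤ c i / k ^ 2 := by
          have h5 := hw2 i o o' h3
          rw [div_le_div_iff₀ hA0 (by positivity)]
          have h6 : 0 ≤ c i * k ^ 2 := mul_nonneg (hc0 i) (by positivity)
          have h7 : w i o o' * k ^ 2 ≤ 4 * c i * k ^ 2 :=
            mul_le_mul_of_nonneg_right h5 (by positivity)
          rw [hA]
          nlinarith
        have h5 : 0 ≤ (if o = none then (if o' = none then d i else 0) else 0 : ℝ) := by
          split_ifs
          · exact hd0 i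
          · exact le_rfl
          · exact le_rfl
        linarith
    refine (Finset.sum_le_sum fun o _ => Finset.sum_le_sum fun o' _ => h1 o o').trans ?_
    have hcard : (Fintype.card (Option κ) : ℝ) = k := by
      rw [Fintype.card_option, hk]
      push_cast
      ring
    have h2 : ∀ o : Option κ, ∑ o' : Option κ,
        ((if o = none then (if o' = none then d i else 0) else 0) + c i / k ^ 2) =
        (if o = none then d i else 0) + k * (c i / k ^ 2) := by
      intro o
      rw [Finset.sum_add_distrib, Finset.sum_const, nsmul_eq_mul, Finset.card_univ, hcard]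
      congr 1
      by_cases h3 : o = none
      · simp only [if_pos h3]
        rw [Finset.sum_ite_eq', if_pos (Finset.mem_univ _)]
      · simp only [if_neg h3]
        exact Finset.sum_const_zero
    rw [Finset.sum_congr rfl fun o _ => h2 o, Finset.sum_add_distrib, Finset.sum_const,
      nsmul_eq_mul, Finset.card_univ, hcard, Finset.sum_ite_eq', if_pos (Finset.mem_univ _)]
    have hk0 : k ≠ 0 := by positivity
    have h3 : k * (k * (c i / k ^ 2)) = c i := by
      field_simp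
    rw [h3]
  have hfac : ∑ σ : ι → Option κ, ∑ σ' : ι → Option κ, ∏ i, v i (σ i) (σ' i) =
      ∏ i, ∑ o : Option κ, ∑ o' : Option κ, v i o o' := by
    rw [Finset.prod_univ_sum, Fintype.piFinset_univ]
    refine Finset.sum_congr rfl fun σ _ => ?_
    rw [Finset.prod_univ_sum, Fintype.piFinset_univ]
  calc ∑ σ, ∑ σ' : ι → Option κ, |Y σ * Y σ'| * ∏ i, w i (σ i) (σ' i)
      ≤ ∑ σ : ι → Option κ, ∑ σ' : ι → Option κ, A ^ (2 * N) * ∏ i, v i (σ i) (σ' i) :=
        Finset.sum_le_sum fun σ _ => Finset.sum_le_sum fun σ' _ => hterm σ σ'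
    _ = A ^ (2 * N) * ∏ i, ∑ o : Option κ, ∑ o' : Option κ, v i o o' := by
        rw [← hfac, Finset.mul_sum]
        refine Finset.sum_congr rfl fun σ _ => ?_
        rw [Finset.mul_sum]
    _ ≤ A ^ (2 * N) * ∏ i, (d i + c i) := by
        refine mul_le_mul_of_nonneg_left ?_ (by positivity)
        exact Finset.prod_le_prod
          (fun i _ => Finset.sum_nonneg fun o _ => Finset.sum_nonneg fun o' _ => hv0 i o o')
          fun i _ => hloc i
    _ = (4 * k) ^ (4 * N) * ∏ i, (d i + c i) := by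
        rw [hA, ← pow_mul]
        congr 2
        ring

theorem off_one {p : ι → ℕ} (hp : ∀ i, (p i).Prime) (h3 : ∀ i, 3 ≤ p i) {z : ℝ} (hz0 : 0 < z)
    (hz : ∀ i, z ≤ (p i : ℝ) - 1) (a : κ → ℤ) (a0 : ℤ)
    (h0 : ∀ i j, ¬ (p i : ℤ) ∣ a j - a0) (hd : ∀ i j j', j ≠ j' → ¬ (p i : ℤ) ∣ a j - a j')
    (Y : (ι → Option κ) → ℝ) (hY1 : ∀ σ, |Y σ| ≤ 1) {N : ℕ}
    (hN : ∀ σ, Y σ ≠ 0 → (supp σ).card ≤ N) :
    ∑ σ, ∑ σ' ∈ (univ : Finset (ι → Option κ)).erase σ,
      |Y σ * Y σ'| * ∏ i, |GE (p i) a a0 (σ i) (σ' i)| ≤ offA κ p N / z := by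
  have hp1 : ∀ i, (2 : ℝ) ≤ (p i : ℝ) - 1 := by
    intro i
    have : (3 : ℝ) ≤ (p i : ℝ) := by exact_mod_cast h3 i
    linarith
  set w : ι → Option κ → Option κ → ℝ := fun i o o' =>
    if o = none ∧ o' = none then 1 else 4 * (1 / ((p i : ℝ) - 1)) with hw
  have hw0 : ∀ i o o', 0 ≤ w i o o' := by
    intro i o o'
    have := hp1 i
    rw [hw]
    dsimp only
    split_ifs
    · exact zero_le_one
    · have h1 : (0 : ℝ) < (p i : ℝ) - 1 := by linarith
      positivity
  have hlt : ∀ i, 1 / ((p i : ℝ) - 1) ^ 2 ≤ 1 / z * (1 / ((p i : ℝ) - 1)) := by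
    intro i
    have h1 := hp1 i
    have h2 : (0 : ℝ) < (p i : ℝ) - 1 := by linarith
    rw [one_div_mul_one_div, pow_two]
    exact one_div_le_one_div_of_le (by positivity) (mul_le_mul_of_nonneg_right (hz i) h2.le)
  have hGd : ∀ i o o', o ≠ o' → |GE (p i) a a0 o o'| ≤ 4 * (1 / ((p i : ℝ) - 1) ^ 2) := by
    intro i o o' hoo
    have h1 := hp1 i
    have h2 : (0 : ℝ) < (p i : ℝ) - 1 := by linarith
    have h4 : 0 < 1 / ((p i : ℝ) - 1) ^ 2 := by positivity
    rcases o with _ | j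
    · rcases o' with _ | j'
      · exact absurd rfl hoo
      · have := GE_none_some (hp i) (h3 i) a a0 (h0 i) j'
        linarith
    · rcases o' with _ | j'
      · rw [GE_symm]
        have := GE_none_some (hp i) (h3 i) a a0 (h0 i) j
        linarith
      · have hjj : j ≠ j' := fun h => hoo (by rw [h])
        have := GE_diff (hp i) (h3 i) a a0 (h0 i) (hd i) hjj
        rw [mul_one_div]
        exact this
  have hGw : ∀ i o o', |GE (p i) a a0 o o'| ≤ w i o o' := by
    intro i o o'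
    have h1 := hp1 i
    have h2 : (0 : ℝ) < (p i : ℝ) - 1 := by linarith
    have h4 : 0 < 1 / ((p i : ℝ) - 1) := by positivity
    have h5 : 1 / ((p i : ℝ) - 1) ≤ 1 := by
      rw [div_le_one h2]
      linarith
    rw [hw]
    dsimp only
    by_cases hoo : o = o'
    · subst hoo
      rcases o with _ | j
      · rw [if_pos ⟨rfl, rfl⟩, GE_none_none (hp i), abs_one]
      · rw [if_neg (by rintro ⟨h, -⟩; cases h)]
        obtain ⟨h6, h7⟩ := GE_same (hp i) (h3 i) a a0 (h0 i) j
        rw [abs_of_nonneg (h4.le.trans h6)]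
        refine h7.trans ?_
        nlinarith
    · rw [if_neg (by rintro ⟨h, h'⟩; exact hoo (h.trans h'.symm))]
      refine (hGd i o o' hoo).trans ?_
      have h6 : 1 / ((p i : ℝ) - 1) ^ 2 = 1 / ((p i : ℝ) - 1) * (1 / ((p i : ℝ) - 1)) := by
        rw [one_div_mul_one_div, pow_two]
      rw [h6]
      nlinarith
  have hprod : ∀ σ σ' : ι → Option κ, σ' ≠ σ →
      ∏ i, |GE (p i) a a0 (σ i) (σ' i)| ≤ 1 / z * ∏ i, w i (σ i) (σ' i) := by
    intro σ σ' hne
    obtain ⟨i0, hi0⟩ := Function.ne_iff.1 hne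
    rw [← Finset.mul_prod_erase univ _ (mem_univ i0),
      ← Finset.mul_prod_erase univ (fun i => w i (σ i) (σ' i)) (mem_univ i0), ← mul_assoc]
    refine mul_le_mul ?_ (Finset.prod_le_prod (fun i _ => abs_nonneg _) fun i _ => hGw i _ _)
      (Finset.prod_nonneg fun i _ => abs_nonneg _) (mul_nonneg (by positivity) (hw0 i0 _ _))
    refine (hGd i0 _ _ hi0.symm).trans ?_
    have h1 := hlt i0
    rw [hw]
    dsimp only
    rw [if_neg (by rintro ⟨h, h'⟩; exact hi0 (h'.trans h.symm))]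
    nlinarith
  have hcore := core (κ := κ) (c := fun i => 1 / ((p i : ℝ) - 1)) (d := fun _ => (1 : ℝ))
    (fun i => by
      have h1 := hp1 i
      have h2 : (0 : ℝ) < (p i : ℝ) - 1 := by linarith
      positivity) (fun _ => zero_le_one) w hw0
    (fun i => by rw [hw]; dsimp only; rw [if_pos ⟨rfl, rfl⟩])
    (fun i o o' h => by rw [hw]; dsimp only; rw [if_neg h]) Y hY1 hN
  calc ∑ σ, ∑ σ' ∈ (univ : Finset (ι → Option κ)).erase σ,
        |Y σ * Y σ'| * ∏ i, |GE (p i) a a0 (σ i) (σ' i)|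
      ≤ ∑ σ, ∑ σ' : ι → Option κ, 1 / z * (|Y σ * Y σ'| * ∏ i, w i (σ i) (σ' i)) := by
        refine Finset.sum_le_sum fun σ _ => ?_
        refine (Finset.sum_le_sum fun σ' hσ' => ?_).trans
          (Finset.sum_le_sum_of_subset_of_nonneg (Finset.erase_subset _ _) fun σ' _ _ => ?_)
        · have h1 := hprod σ σ' (Finset.ne_of_mem_erase hσ')
          calc |Y σ * Y σ'| * ∏ i, |GE (p i) a a0 (σ i) (σ' i)|
              ≤ |Y σ * Y σ'| * (1 / z * ∏ i, w i (σ i) (σ' i)) :=
                mul_le_mul_of_nonneg_left h1 (abs_nonneg _)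
            _ = 1 / z * (|Y σ * Y σ'| * ∏ i, w i (σ i) (σ' i)) := by ring
        · have h1 : 0 ≤ ∏ i, w i (σ i) (σ' i) := Finset.prod_nonneg fun i _ => hw0 i _ _
          positivity
    _ = 1 / z * ∑ σ, ∑ σ' : ι → Option κ, |Y σ * Y σ'| * ∏ i, w i (σ i) (σ' i) := by
        rw [Finset.mul_sum]
        refine Finset.sum_congr rfl fun σ _ => ?_
        rw [Finset.mul_sum]
    _ ≤ 1 / z * offA κ p N := by
        refine mul_le_mul_of_nonneg_left ?_ (by positivity)
        exact hcore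
    _ = offA κ p N / z := by ring

theorem off_ne {p : ι → ℕ} (hp : ∀ i, (p i).Prime) (h3 : ∀ i, 3 ≤ p i) (a : κ → ℤ) (a0 : ℤ)
    (h0 : ∀ i j, ¬ (p i : ℤ) ∣ a j - a0) (hd : ∀ i j j', j ≠ j' → ¬ (p i : ℤ) ∣ a j - a j')
    (Y : (ι → Option κ) → ℝ) (hY1 : ∀ σ, |Y σ| ≤ 1) {N : ℕ}
    (hN : ∀ σ, Y σ ≠ 0 → (supp σ).card ≤ N) (χ : Fam p) :
    ∑ σ, ∑ σ' : ι → Option κ, |Y σ * Y σ'| * ∏ i, ‖LC (p i) a a0 (σ i) (σ' i) (χ i)‖ ≤
      offA κ p N * ∏ i ∈ fsupp χ, (1 / ((p i : ℝ) - 1)) := by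
  have hp1 : ∀ i, (2 : ℝ) ≤ (p i : ℝ) - 1 := by
    intro i
    have : (3 : ℝ) ≤ (p i : ℝ) := by exact_mod_cast h3 i
    linarith
  have hc0 : ∀ i, 0 ≤ 1 / ((p i : ℝ) - 1) := by
    intro i
    have h1 := hp1 i
    have h2 : (0 : ℝ) < (p i : ℝ) - 1 := by linarith
    positivity
  have hcore := core (κ := κ) (c := fun i => 1 / ((p i : ℝ) - 1))
    (d := fun i => if i ∈ fsupp χ then (0 : ℝ) else 1) hc0
    (fun i => by split_ifs; exacts [le_rfl, zero_le_one])
    (fun i o o' => ‖LC (p i) a a0 o o' (χ i)‖) (fun i o o' => norm_nonneg _)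
    (fun i => by
      by_cases h : i ∈ fsupp χ
      · have h1 : χ i ≠ 1 := by simpa [fsupp] using h
        rw [if_pos h, LC_none_none (hp i) a a0 h1, norm_zero]
      · have h1 : χ i = 1 := by simpa [fsupp] using h
        rw [if_neg h, h1, LC_one (hp i), GE_none_none (hp i)]
        simp)
    (fun i o o' h => by
      have h1 := hp1 i
      have h2 : (0 : ℝ) < (p i : ℝ) - 1 := by linarith
      have h4 : 0 < 1 / ((p i : ℝ) - 1) := by positivity
      have h5 : 1 / ((p i : ℝ) - 1) ≤ 1 := by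
        rw [div_le_one h2]
        linarith
      have h8 : 2 / ((p i : ℝ) - 1) = 2 * (1 / ((p i : ℝ) - 1)) := by rw [mul_one_div]
      rcases o with _ | j
      · rcases o' with _ | j'
        · exact absurd ⟨rfl, rfl⟩ h
        · have := (LC_none_some (hp i) (h3 i) a a0 (h0 i) j' (χ i)).1
          linarith
      · rcases o' with _ | j'
        · have := (LC_none_some (hp i) (h3 i) a a0 (h0 i) j (χ i)).2
          linarith
        · by_cases hjj : j = j'
          · subst hjj
            have := LC_same (hp i) (h3 i) a a0 (h0 i) j (χ i)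
            linarith
          · have := LC_diff (hp i) (h3 i) a a0 (h0 i) (hd i) hjj (χ i)
            have h6 : 4 / ((p i : ℝ) - 1) ^ 2 =
                4 * (1 / ((p i : ℝ) - 1) * (1 / ((p i : ℝ) - 1))) := by
              rw [one_div_mul_one_div, pow_two, mul_one_div]
            rw [h6] at this
            nlinarith) Y hY1 hN
  refine hcore.trans ?_
  unfold offA
  rw [mul_assoc]
  refine mul_le_mul_of_nonneg_left ?_ (by positivity)
  have h1 : ∏ i ∈ fsupp χ, (1 / ((p i : ℝ) - 1)) =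
      ∏ i, (if i ∈ fsupp χ then 1 / ((p i : ℝ) - 1) else 1) := by
    rw [Finset.prod_ite_mem, Finset.univ_inter]
  rw [h1, ← Finset.prod_mul_distrib]
  refine Finset.prod_le_prod (fun i _ => ?_) fun i _ => ?_
  · have := hc0 i
    split_ifs
    · linarith
    · linarith
  · have := hc0 i
    split_ifs
    · nlinarith
    · linarith

end Pool.Agent.AV
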