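import Pool.Agent.AV.SumF
import Pool.Agent.AV.Off2
import Pool.Agent.AT.Exp
import Pool.Agent.VOID.MomA

/-! AV/Coef.  The character coefficients of the square of the weight.
PLAN.  `GZ ^ 2 = ∑_σ ∑_σ' Y Y' (Ps σ n * Ps σ' n) (EE σ n * EE σ' n)`, `n = m + a0`.
* `Ps σ n * Ps σ' n = ∏_{j ∈ Tc σ ∪ Tc σ'} ψ (n - a j) ^ e j`, `e j = [j ∈ Tc σ] + [j ∈ Tc σ'] ∈ {1, 2}`, and
  `(Tc σ).card ≤ (supp σ).card ≤ N` (`card_Tc_le`, VOID/RepG); by `hsx.ex` it is `∑_{χ1} c1(σ,σ',χ1) fch χ1 m`.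
* `EE σ n * EE σ' n = ∏ i, eo * eo = ∑_{χ2} (∏ i, LC (p i) a a0 (σ i) (σ' i) (χ2 i)) fch χ2 m` (`loc_exp`,
  `Finset.prod_univ_sum`, `fch_eq`, exactly as in `sq_exp` of AT/Exp).
So `c χ = ∑_σ ∑_σ' Y Y' c1(σ,σ',lft χ) ∏ i, LC .. (rgt χ i)` (`fch_sum`, `sum_fam`).
Bound: `‖c1‖ ≤ 2 Pi(..) ∏ C/q ≤ 2 ∏ C/q`; if `rgt χ = 1` (`fsupp = ∅`) the diagonal terms `σ = σ'` have
`Tc σ ∪ Tc σ = Tc σ`, `∏ i, |GE (σ i) (σ i)| ≤ (1/PH) (1 + 1/z)^N ≤ (3/2)/PH` (`GE_none_none`, `GE_same`), in total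
`≤ 3 ZZ ∏ C/q`; the others `≤ 2 offA/z ∏ C/q` (`off_one`, `LC_one`).  If `rgt χ ≠ 1`: `off_ne`.
Real part at `χ = 1`: diagonal `≥ ∑ Y^2 (Pi/2)/PH = ZZ/2` (`GE_same` lower bound), the rest `≥ - 2 offA/z`. -/

set_option autoImplicit false

open Finset Pool.Agent.RS Pool.Agent.AT Pool.Agent.VOID

namespace Pool.Agent.AV

variable {ι1 ι κ : Type} [Fintype ι1] [DecidableEq ι1] [Fintype ι] [DecidableEq ι] [DecidableEq κ]
  [Fintype κ]

private theorem Ps_mul (ψ : ℤ → ℝ) (a : κ → ℤ) (σ σ' : ι → Option κ) (n : ℤ) :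
    ∏ j ∈ Tc σ ∪ Tc σ', ψ (n - a j) ^
      ((if j ∈ Tc σ then 1 else 0) + (if j ∈ Tc σ' then 1 else 0)) =
      Ps ψ a σ n * Ps ψ a σ' n := by
  have h : ∀ A : Finset κ, A ⊆ Tc σ ∪ Tc σ' →
      ∏ j ∈ Tc σ ∪ Tc σ', ψ (n - a j) ^ (if j ∈ A then 1 else 0) = ∏ j ∈ A, ψ (n - a j) := by
    intro A hA
    rw [← Finset.prod_subset hA]
    · refine prod_congr rfl fun j hj => ?_
      rw [if_pos hj, pow_one]
    · intro j _ hj
      rw [if_neg hj, pow_zero]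
  unfold Ps
  simp only [pow_add, prod_mul_distrib]
  rw [h _ subset_union_left, h _ subset_union_right]

private theorem EE_exp {p : ι → ℕ} (hp : ∀ i, (p i).Prime) (a : κ → ℤ) (a0 : ℤ)
    (σ σ' : ι → Option κ) {m : ℕ} (hm : ∀ i, ¬ p i ∣ m) :
    ((EE p a σ ((m : ℤ) + a0) * EE p a σ' ((m : ℤ) + a0) : ℝ) : ℂ) =
      ∑ χ : Fam p, (∏ i, LC (p i) a a0 (σ i) (σ' i) (χ i)) * fch χ m := by
  classical
  unfold EE
  rw [← prod_mul_distrib, Complex.ofReal_prod]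
  rw [prod_congr rfl fun i _ => loc_exp (hp i) a a0 (σ i) (σ' i) (hm i), prod_univ_sum,
    Fintype.piFinset_univ]
  refine sum_congr rfl fun χ _ => ?_
  rw [prod_mul_distrib, fch_eq hp χ hm]

/-- the coefficients of one pair, for the small primes -/
private theorem pair_ex {q : ι1 → ℕ} {a : κ → ℤ} {a0 : ℤ} {ψ : ℤ → ℝ} {Pi : ℕ → ℝ} {C : ℝ} {K : ℕ}
    (hsx : SX q a0 ψ Pi C K a) (σ σ' : ι → Option κ) (hT : (Tc σ ∪ Tc σ').card ≤ K) :
    ∃ c : Fam q → ℂ,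
      (∀ m : ℕ, (∀ i, ¬ q i ∣ m) →
        ((Ps ψ a σ ((m : ℤ) + a0) * Ps ψ a σ' ((m : ℤ) + a0) : ℝ) : ℂ) =
          ∑ χ, c χ * fch χ m) ∧
      (∀ χ, ‖c χ‖ ≤ 2 * Pi (Tc σ ∪ Tc σ').card * ∏ i ∈ fsupp χ, (C / (q i : ℝ))) ∧
      ∃ x : ℝ, c (fun _ => 1) = x ∧ Pi (Tc σ ∪ Tc σ').card / 2 ≤ x := by
  obtain ⟨c, h1, h2, h4⟩ := hsx.ex (Tc σ ∪ Tc σ')
    (fun j => (if j ∈ Tc σ then 1 else 0) + (if j ∈ Tc σ' then 1 else 0)) hT (by
      intro j hj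
      rw [mem_union] at hj
      split_ifs
      · omega
      · omega
      · omega
      · tauto)
  refine ⟨c, ?_, h2, h4⟩
  intro m hm
  rw [← h1 m hm, ← Ps_mul]

/-- the diagonal products -/
private theorem diag_bd {p : ι → ℕ} (hp : ∀ i, (p i).Prime) (h3 : ∀ i, 3 ≤ p i)
    {z : ℝ} (hz0 : 0 < z) (hz : ∀ i, z ≤ (p i : ℝ) - 1) (a : κ → ℤ) (a0 : ℤ)
    (h0 : ∀ i j, ¬ (p i : ℤ) ∣ a j - a0) (σ : ι → Option κ) {N : ℕ}
    (hN : (supp σ).card ≤ N) (hzN : (1 + 1 / z) ^ N ≤ 3 / 2) :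
    1 / PH p (supp σ) ≤ ∏ i, GE (p i) a a0 (σ i) (σ i) ∧
      ∏ i, |GE (p i) a a0 (σ i) (σ i)| ≤ 3 / 2 * (1 / PH p (supp σ)) := by
  have hp1 : ∀ i, (0 : ℝ) < (p i : ℝ) - 1 := by
    intro i
    have : (3 : ℝ) ≤ (p i : ℝ) := by exact_mod_cast h3 i
    linarith
  have hPH : 1 / PH p (supp σ) = ∏ i ∈ supp σ, (1 / ((p i : ℝ) - 1)) := by
    unfold PH
    simp only [one_div, Finset.prod_inv_distrib]
  have hout : ∀ i, i ∉ supp σ → GE (p i) a a0 (σ i) (σ i) = 1 := by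
    intro i hi
    have h1 : σ i = none := by
      by_contra h
      exact hi (mem_supp.2 h)
    rw [h1, GE_none_none (hp i)]
  have hin : ∀ i ∈ supp σ, 1 / ((p i : ℝ) - 1) ≤ GE (p i) a a0 (σ i) (σ i) ∧
      GE (p i) a a0 (σ i) (σ i) ≤ 1 / ((p i : ℝ) - 1) * (1 + 1 / ((p i : ℝ) - 1)) := by
    intro i hi
    obtain ⟨j, hj⟩ := Option.ne_none_iff_exists'.1 (mem_supp.1 hi)
    rw [hj]
    exact GE_same (hp i) (h3 i) a a0 (h0 i) j
  have hz1 : 1 ≤ 1 + 1 / z := by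
    have : 0 < 1 / z := by positivity
    linarith
  constructor
  · rw [hPH, ← Finset.prod_subset (subset_univ (supp σ)) fun i _ hi => hout i hi]
    exact Finset.prod_le_prod (fun i _ => (one_div_pos.2 (hp1 i)).le) fun i hi => (hin i hi).1
  · rw [hPH, ← Finset.prod_subset (subset_univ (supp σ)) fun i _ hi => by
      rw [hout i hi, abs_one]]
    calc ∏ i ∈ supp σ, |GE (p i) a a0 (σ i) (σ i)|
        ≤ ∏ i ∈ supp σ, ((1 / ((p i : ℝ) - 1)) * (1 + 1 / z)) := by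
          refine Finset.prod_le_prod (fun i _ => abs_nonneg _) fun i hi => ?_
          obtain ⟨h4, h5⟩ := hin i hi
          have h6 := hp1 i
          have h7 : 0 < 1 / ((p i : ℝ) - 1) := one_div_pos.2 h6
          rw [abs_of_nonneg (h7.le.trans h4)]
          refine h5.trans (mul_le_mul_of_nonneg_left ?_ h7.le)
          have h8 : 1 / ((p i : ℝ) - 1) ≤ 1 / z := one_div_le_one_div_of_le hz0 (hz i)
          linarith
      _ = (∏ i ∈ supp σ, (1 / ((p i : ℝ) - 1))) * (1 + 1 / z) ^ (supp σ).card := by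
          rw [Finset.prod_mul_distrib, Finset.prod_const]
      _ ≤ (∏ i ∈ supp σ, (1 / ((p i : ℝ) - 1))) * (3 / 2) := by
          refine mul_le_mul_of_nonneg_left ((pow_le_pow_right₀ hz1 hN).trans hzN) ?_
          exact Finset.prod_nonneg fun i _ => (one_div_pos.2 (hp1 i)).le
      _ = 3 / 2 * ∏ i ∈ supp σ, (1 / ((p i : ℝ) - 1)) := by ring

private theorem fsupp_one (p : ι → ℕ) : fsupp (fun _ => 1 : Fam p) = ∅ := by
  classical
  unfold fsupp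
  rw [filter_eq_empty_iff]
  intro i _ h
  exact h rfl

private theorem main {q : ι1 → ℕ} {p : ι → ℕ} (hp : ∀ i, (p i).Prime) (h3 : ∀ i, 3 ≤ p i)
    {z : ℝ} (hz0 : 0 < z) (hz : ∀ i, z ≤ (p i : ℝ) - 1) (a : κ → ℤ) (a0 : ℤ)
    (h0 : ∀ i j, ¬ (p i : ℤ) ∣ a j - a0) (hd : ∀ i j j', j ≠ j' → ¬ (p i : ℤ) ∣ a j - a j')
    {ψ : ℤ → ℝ} {Pi : ℕ → ℝ} {C : ℝ} {K : ℕ} (hsx : SX q a0 ψ Pi C K a)
    (hPi0 : ∀ r, 0 ≤ Pi r) (hPi1 : ∀ r, Pi r ≤ 1) (hC : 0 ≤ C)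
    (Y : (ι → Option κ) → ℝ) (hY1 : ∀ σ, |Y σ| ≤ 1) {N : ℕ}
    (hYN : ∀ σ, Y σ ≠ 0 → (supp σ).card ≤ N) (hNK : 2 * N ≤ K)
    (hzN : (1 + 1 / z) ^ N ≤ 3 / 2) :
    ∃ c : Fam (Sum.elim q p) → ℂ,
      (∀ m : ℕ, (∀ i, ¬ Sum.elim q p i ∣ m) →
        ((GZ p a ψ Y ((m : ℤ) + a0) ^ 2 : ℝ) : ℂ) = ∑ χ, c χ * fch χ m) ∧
      (∀ χ, fsupp (rgt χ) = ∅ → ‖c χ‖ ≤ (∏ i ∈ fsupp (lft χ), (C / (q i : ℝ))) *
        (3 * (∑ σ, Y σ ^ 2 / PH p (supp σ) * Pi (Tc σ).card) + 2 * (offA κ p N / z))) ∧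
      (∀ χ, ‖c χ‖ ≤ (∏ i ∈ fsupp (lft χ), (C / (q i : ℝ))) *
        (2 * offA κ p N * ∏ i ∈ fsupp (rgt χ), (1 / ((p i : ℝ) - 1)))) ∧
      (∑ σ, Y σ ^ 2 / PH p (supp σ) * Pi (Tc σ).card) / 2 - 2 * (offA κ p N / z) ≤
        (c (fun _ => 1)).re := by
  have hp1 : ∀ i, (0 : ℝ) < (p i : ℝ) - 1 := by
    intro i
    have : (3 : ℝ) ≤ (p i : ℝ) := by exact_mod_cast h3 i
    linarith
  have hPHp : ∀ S : Finset ι, 0 < PH p S := fun S => Finset.prod_pos fun i _ => hp1 i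
  have hex : ∀ σ σ' : ι → Option κ, ∃ c : Fam q → ℂ, Y σ * Y σ' ≠ 0 →
      (∀ m : ℕ, (∀ i, ¬ q i ∣ m) →
        ((Ps ψ a σ ((m : ℤ) + a0) * Ps ψ a σ' ((m : ℤ) + a0) : ℝ) : ℂ) =
          ∑ χ, c χ * fch χ m) ∧
      (∀ χ, ‖c χ‖ ≤ 2 * Pi (Tc σ ∪ Tc σ').card * ∏ i ∈ fsupp χ, (C / (q i : ℝ))) ∧
      ∃ x : ℝ, c (fun _ => 1) = x ∧ Pi (Tc σ ∪ Tc σ').card / 2 ≤ x := by
    intro σ σ'
    by_cases h : Y σ * Y σ' = 0
    · exact ⟨fun _ => 0, fun h' => absurd h h'⟩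
    · have h1 := hYN σ (left_ne_zero_of_mul h)
      have h2 := hYN σ' (right_ne_zero_of_mul h)
      have h4 : (Tc σ ∪ Tc σ').card ≤ K := by
        have := card_union_le (Tc σ) (Tc σ')
        have := card_Tc_le σ
        have := card_Tc_le σ'
        omega
      obtain ⟨c, hc⟩ := pair_ex hsx σ σ' h4
      exact ⟨c, fun _ => hc⟩
  choose c1 hc1 using hex
  obtain ⟨c, hc⟩ : ∃ c : Fam (Sum.elim q p) → ℂ, ∀ χ, c χ =
      ∑ σ : ι → Option κ, ∑ σ' : ι → Option κ, ((Y σ * Y σ' : ℝ) : ℂ) *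
        (c1 σ σ' (lft χ) * ∏ i, LC (p i) a a0 (σ i) (σ' i) (rgt χ i)) := ⟨_, fun _ => rfl⟩
  have hnorm : ∀ χ, ‖c χ‖ ≤ ∑ σ : ι → Option κ, ∑ σ' : ι → Option κ,
      (∏ i ∈ fsupp (lft χ), (C / (q i : ℝ))) * (2 * Pi (Tc σ ∪ Tc σ').card *
        (|Y σ * Y σ'| * ∏ i, ‖LC (p i) a a0 (σ i) (σ' i) (rgt χ i)‖)) := by
    intro χ
    rw [hc]
    refine (norm_sum_le _ _).trans (sum_le_sum fun σ _ => (norm_sum_le _ _).trans
      (sum_le_sum fun σ' _ => ?_))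
    rw [norm_mul, norm_mul, Complex.norm_real, Real.norm_eq_abs, norm_prod]
    by_cases h : Y σ * Y σ' = 0
    · rw [h]
      simp
    · have h1 := (hc1 σ σ' h).2.1 (lft χ)
      have h2 : 0 ≤ ∏ i, ‖LC (p i) a a0 (σ i) (σ' i) (rgt χ i)‖ :=
        Finset.prod_nonneg fun i _ => norm_nonneg _
      calc |Y σ * Y σ'| * (‖c1 σ σ' (lft χ)‖ * ∏ i, ‖LC (p i) a a0 (σ i) (σ' i) (rgt χ i)‖)
          ≤ |Y σ * Y σ'| * ((2 * Pi (Tc σ ∪ Tc σ').card *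
              ∏ i ∈ fsupp (lft χ), (C / (q i : ℝ))) *
              ∏ i, ‖LC (p i) a a0 (σ i) (σ' i) (rgt χ i)‖) :=
            mul_le_mul_of_nonneg_left (mul_le_mul_of_nonneg_right h1 h2) (abs_nonneg _)
        _ = _ := by ring
  refine ⟨c, ?_, ?_, ?_, ?_⟩
  · intro m hm
    have hmq : ∀ i, ¬ q i ∣ m := fun i => hm (Sum.inl i)
    have hmp : ∀ i, ¬ p i ∣ m := fun i => hm (Sum.inr i)
    have e1 : ((GZ p a ψ Y ((m : ℤ) + a0) ^ 2 : ℝ) : ℂ) =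
        ∑ σ : ι → Option κ, ∑ σ' : ι → Option κ, ((Y σ * Y σ' : ℝ) : ℂ) *
          (((Ps ψ a σ ((m : ℤ) + a0) * Ps ψ a σ' ((m : ℤ) + a0) : ℝ) : ℂ) *
            ((EE p a σ ((m : ℤ) + a0) * EE p a σ' ((m : ℤ) + a0) : ℝ) : ℂ)) := by
      unfold GZ
      rw [sq, sum_mul_sum, Complex.ofReal_sum]
      refine sum_congr rfl fun σ _ => ?_
      rw [Complex.ofReal_sum]
      refine sum_congr rfl fun σ' _ => ?_
      rw [← Complex.ofReal_mul, ← Complex.ofReal_mul]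
      congr 1
      ring
    have e2 : ∀ σ σ' : ι → Option κ, ((Y σ * Y σ' : ℝ) : ℂ) *
          (((Ps ψ a σ ((m : ℤ) + a0) * Ps ψ a σ' ((m : ℤ) + a0) : ℝ) : ℂ) *
            ((EE p a σ ((m : ℤ) + a0) * EE p a σ' ((m : ℤ) + a0) : ℝ) : ℂ)) =
        ∑ χ : Fam (Sum.elim q p), ((Y σ * Y σ' : ℝ) : ℂ) *
          (c1 σ σ' (lft χ) * ∏ i, LC (p i) a a0 (σ i) (σ' i) (rgt χ i)) * fch χ m := by
      intro σ σ'
      by_cases h : Y σ * Y σ' = 0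
      · rw [h]
        simp
      · rw [(hc1 σ σ' h).1 m hmq, EE_exp hp a a0 σ σ' hmp, sum_fam, sum_mul_sum, mul_sum]
        refine sum_congr rfl fun χ1 _ => ?_
        rw [mul_sum]
        refine sum_congr rfl fun χ2 _ => ?_
        rw [fch_sum]
        show _ = ((Y σ * Y σ' : ℝ) : ℂ) *
          (c1 σ σ' χ1 * ∏ i, LC (p i) a a0 (σ i) (σ' i) (χ2 i)) * (fch χ1 m * fch χ2 m)
        ring
    rw [e1]
    simp only [e2]
    have h4 : ∀ σ : ι → Option κ, ∑ σ' : ι → Option κ, ∑ χ : Fam (Sum.elim q p),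
        ((Y σ * Y σ' : ℝ) : ℂ) *
          (c1 σ σ' (lft χ) * ∏ i, LC (p i) a a0 (σ i) (σ' i) (rgt χ i)) * fch χ m =
        ∑ χ : Fam (Sum.elim q p), ∑ σ' : ι → Option κ, ((Y σ * Y σ' : ℝ) : ℂ) *
          (c1 σ σ' (lft χ) * ∏ i, LC (p i) a a0 (σ i) (σ' i) (rgt χ i)) * fch χ m :=
      fun σ => sum_comm
    simp only [h4]
    rw [sum_comm]
    refine sum_congr rfl fun χ _ => ?_
    rw [hc, sum_mul]
    refine sum_congr rfl fun σ _ => ?_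
    rw [sum_mul]
  · intro χ hr
    have hr1 : ∀ i, rgt χ i = 1 := by
      intro i
      by_contra h
      have h1 : i ∈ fsupp (rgt χ) := by
        classical
        unfold fsupp
        exact mem_filter.2 ⟨mem_univ i, h⟩
      rw [hr] at h1
      exact absurd h1 (notMem_empty i)
    have hLG : ∀ σ σ' : ι → Option κ, ∏ i, ‖LC (p i) a a0 (σ i) (σ' i) (rgt χ i)‖ =
        ∏ i, |GE (p i) a a0 (σ i) (σ' i)| := by
      intro σ σ'
      refine prod_congr rfl fun i _ => ?_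
      rw [hr1 i, LC_one (hp i), Complex.norm_real, Real.norm_eq_abs]
    refine (hnorm χ).trans ?_
    simp only [hLG]
    have hB0 : 0 ≤ ∏ i ∈ fsupp (lft χ), (C / (q i : ℝ)) :=
      Finset.prod_nonneg fun i _ => div_nonneg hC (Nat.cast_nonneg _)
    generalize ∏ i ∈ fsupp (lft χ), (C / (q i : ℝ)) = B at hB0
    have hoff := off_one hp h3 hz0 hz a a0 h0 hd Y hY1 hYN
    have hsp : ∀ σ : ι → Option κ, ∑ σ' : ι → Option κ, B * (2 * Pi (Tc σ ∪ Tc σ').card *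
        (|Y σ * Y σ'| * ∏ i, |GE (p i) a a0 (σ i) (σ' i)|)) ≤
        B * (3 * (Y σ ^ 2 / PH p (supp σ) * Pi (Tc σ).card) +
          2 * ∑ σ' ∈ (univ : Finset (ι → Option κ)).erase σ,
            |Y σ * Y σ'| * ∏ i, |GE (p i) a a0 (σ i) (σ' i)|) := by
      intro σ
      rw [← add_sum_erase univ _ (mem_univ σ), mul_add]
      refine add_le_add ?_ ?_
      · refine mul_le_mul_of_nonneg_left ?_ hB0
        rw [union_self]
        by_cases h : Y σ = 0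
        · rw [h]
          simp
        · have h1 := (diag_bd hp h3 hz0 hz a a0 h0 σ (hYN σ h) hzN).2
          have h2 : |Y σ * Y σ| = Y σ ^ 2 := by rw [abs_mul_self, sq]
          rw [h2]
          have h4 := hPi0 (Tc σ).card
          calc 2 * Pi (Tc σ).card * (Y σ ^ 2 * ∏ i, |GE (p i) a a0 (σ i) (σ i)|)
              ≤ 2 * Pi (Tc σ).card * (Y σ ^ 2 * (3 / 2 * (1 / PH p (supp σ)))) := by
                refine mul_le_mul_of_nonneg_left ?_ (by positivity)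
                exact mul_le_mul_of_nonneg_left h1 (sq_nonneg _)
            _ = 3 * (Y σ ^ 2 / PH p (supp σ) * Pi (Tc σ).card) := by ring
      · rw [mul_sum, mul_sum]
        refine sum_le_sum fun σ' _ => ?_
        refine mul_le_mul_of_nonneg_left ?_ hB0
        have h1 : 0 ≤ |Y σ * Y σ'| * ∏ i, |GE (p i) a a0 (σ i) (σ' i)| :=
          mul_nonneg (abs_nonneg _) (Finset.prod_nonneg fun i _ => abs_nonneg _)
        have h2 := hPi1 (Tc σ ∪ Tc σ').card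
        nlinarith
    refine (sum_le_sum fun σ _ => hsp σ).trans ?_
    rw [← mul_sum]
    refine mul_le_mul_of_nonneg_left ?_ hB0
    rw [sum_add_distrib, ← mul_sum, ← mul_sum]
    linarith
  · intro χ
    refine (hnorm χ).trans ?_
    have hB0 : 0 ≤ ∏ i ∈ fsupp (lft χ), (C / (q i : ℝ)) :=
      Finset.prod_nonneg fun i _ => div_nonneg hC (Nat.cast_nonneg _)
    generalize ∏ i ∈ fsupp (lft χ), (C / (q i : ℝ)) = B at hB0
    have hoff := off_ne hp h3 a a0 h0 hd Y hY1 hYN (rgt χ)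
    calc ∑ σ : ι → Option κ, ∑ σ' : ι → Option κ, B * (2 * Pi (Tc σ ∪ Tc σ').card *
        (|Y σ * Y σ'| * ∏ i, ‖LC (p i) a a0 (σ i) (σ' i) (rgt χ i)‖))
        ≤ ∑ σ : ι → Option κ, ∑ σ' : ι → Option κ, B * (2 *
            (|Y σ * Y σ'| * ∏ i, ‖LC (p i) a a0 (σ i) (σ' i) (rgt χ i)‖)) := by
          refine sum_le_sum fun σ _ => sum_le_sum fun σ' _ => ?_
          refine mul_le_mul_of_nonneg_left ?_ hB0
          have h1 : 0 ≤ |Y σ * Y σ'| * ∏ i, ‖LC (p i) a a0 (σ i) (σ' i) (rgt χ i)‖ :=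
            mul_nonneg (abs_nonneg _) (Finset.prod_nonneg fun i _ => norm_nonneg _)
          have h2 := hPi1 (Tc σ ∪ Tc σ').card
          nlinarith
      _ = B * (2 * ∑ σ : ι → Option κ, ∑ σ' : ι → Option κ,
            (|Y σ * Y σ'| * ∏ i, ‖LC (p i) a a0 (σ i) (σ' i) (rgt χ i)‖)) := by
          simp only [mul_sum]
      _ ≤ B * (2 * (offA κ p N * ∏ i ∈ fsupp (rgt χ), (1 / ((p i : ℝ) - 1)))) := by
          refine mul_le_mul_of_nonneg_left ?_ hB0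
          exact mul_le_mul_of_nonneg_left hoff (by norm_num)
      _ = B * (2 * offA κ p N * ∏ i ∈ fsupp (rgt χ), (1 / ((p i : ℝ) - 1))) := by ring
  · have hx : ∀ σ σ' : ι → Option κ, ((Y σ * Y σ' : ℝ) : ℂ) *
        (c1 σ σ' (fun _ => 1) * ∏ i, LC (p i) a a0 (σ i) (σ' i) 1) =
        ((Y σ * Y σ' * ((c1 σ σ' (fun _ => 1)).re *
          ∏ i, GE (p i) a a0 (σ i) (σ' i)) : ℝ) : ℂ) := by
      intro σ σ'
      by_cases h : Y σ * Y σ' = 0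
      · rw [h]
        simp
      · obtain ⟨x, hx, -⟩ := (hc1 σ σ' h).2.2
        have h1 : ∏ i, LC (p i) a a0 (σ i) (σ' i) 1 =
            ((∏ i, GE (p i) a a0 (σ i) (σ' i) : ℝ) : ℂ) := by
          rw [Complex.ofReal_prod]
          exact prod_congr rfl fun i _ => LC_one (hp i) a a0 _ _
        rw [h1, hx, Complex.ofReal_re, Complex.ofReal_mul (Y σ * Y σ'), Complex.ofReal_mul x]
    have hre : (c (fun _ => 1)).re = ∑ σ : ι → Option κ, ∑ σ' : ι → Option κ,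
        Y σ * Y σ' * ((c1 σ σ' (fun _ => 1)).re * ∏ i, GE (p i) a a0 (σ i) (σ' i)) := by
      have h1 : c (fun _ => 1) = ((∑ σ : ι → Option κ, ∑ σ' : ι → Option κ,
        Y σ * Y σ' * ((c1 σ σ' (fun _ => 1)).re *
          ∏ i, GE (p i) a a0 (σ i) (σ' i)) : ℝ) : ℂ) := by
        rw [hc, Complex.ofReal_sum]
        refine sum_congr rfl fun σ _ => ?_
        rw [Complex.ofReal_sum]
        refine sum_congr rfl fun σ' _ => ?_
        exact hx σ σ'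
      rw [h1, Complex.ofReal_re]
    rw [hre]
    have hoff := off_one hp h3 hz0 hz a a0 h0 hd Y hY1 hYN
    have hsp : ∀ σ : ι → Option κ,
        1 / 2 * (Y σ ^ 2 / PH p (supp σ) * Pi (Tc σ).card) -
          2 * ∑ σ' ∈ (univ : Finset (ι → Option κ)).erase σ,
            |Y σ * Y σ'| * ∏ i, |GE (p i) a a0 (σ i) (σ' i)| ≤
        ∑ σ' : ι → Option κ, Y σ * Y σ' * ((c1 σ σ' (fun _ => 1)).re *
          ∏ i, GE (p i) a a0 (σ i) (σ' i)) := by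
      intro σ
      rw [← add_sum_erase univ (fun σ' : ι → Option κ => Y σ * Y σ' *
        ((c1 σ σ' (fun _ => 1)).re * ∏ i, GE (p i) a a0 (σ i) (σ' i))) (mem_univ σ),
        sub_eq_add_neg]
      refine add_le_add ?_ ?_
      · by_cases h : Y σ = 0
        · rw [h]
          simp
        · have h1 := (diag_bd hp h3 hz0 hz a a0 h0 σ (hYN σ h) hzN).1
          obtain ⟨x, hx1, hx2⟩ := (hc1 σ σ (mul_ne_zero h h)).2.2
          rw [hx1, Complex.ofReal_re]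
          rw [union_self] at hx2
          have h4 := hPi0 (Tc σ).card
          have h5 : 0 < 1 / PH p (supp σ) := one_div_pos.2 (hPHp _)
          calc 1 / 2 * (Y σ ^ 2 / PH p (supp σ) * Pi (Tc σ).card)
              = Y σ * Y σ * (Pi (Tc σ).card / 2 * (1 / PH p (supp σ))) := by ring
            _ ≤ Y σ * Y σ * (x * ∏ i, GE (p i) a a0 (σ i) (σ i)) := by
                refine mul_le_mul_of_nonneg_left ?_ (mul_self_nonneg _)
                exact mul_le_mul hx2 h1 h5.le (by linarith)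
      · rw [mul_sum, ← sum_neg_distrib]
        refine sum_le_sum fun σ' _ => ?_
        by_cases h : Y σ * Y σ' = 0
        · rw [h]
          simp
        · have h1 := (hc1 σ σ' h).2.1 (fun _ => 1)
          rw [fsupp_one, prod_empty, mul_one] at h1
          have h2 := hPi1 (Tc σ ∪ Tc σ').card
          have h4 : |(c1 σ σ' (fun _ => 1)).re| ≤ 2 :=
            (Complex.abs_re_le_norm _).trans (h1.trans (by linarith))
          have h5 : |Y σ * Y σ' * ((c1 σ σ' (fun _ => 1)).re *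
              ∏ i, GE (p i) a a0 (σ i) (σ' i))| ≤
              2 * (|Y σ * Y σ'| * ∏ i, |GE (p i) a a0 (σ i) (σ' i)|) := by
            rw [abs_mul, abs_mul (c1 σ σ' (fun _ => 1)).re, Finset.abs_prod]
            have h6 : 0 ≤ ∏ i, |GE (p i) a a0 (σ i) (σ' i)| :=
              Finset.prod_nonneg fun i _ => abs_nonneg _
            calc |Y σ * Y σ'| * (|(c1 σ σ' (fun _ => 1)).re| *
                ∏ i, |GE (p i) a a0 (σ i) (σ' i)|)
                ≤ |Y σ * Y σ'| * (2 * ∏ i, |GE (p i) a a0 (σ i) (σ' i)|) :=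
                  mul_le_mul_of_nonneg_left (mul_le_mul_of_nonneg_right h4 h6) (abs_nonneg _)
              _ = _ := by ring
          exact neg_le_of_abs_le h5
    refine le_trans ?_ (sum_le_sum fun σ _ => hsp σ)
    rw [sum_sub_distrib, ← mul_sum, ← mul_sum]
    linarith

open Classical in
theorem coef {q : ι1 → ℕ} {p : ι → ℕ} (hp : ∀ i, (p i).Prime) (h3 : ∀ i, 3 ≤ p i)
    {z : ℝ} (hz0 : 0 < z) (hz : ∀ i, z ≤ (p i : ℝ) - 1) (a : κ → ℤ) (a0 : ℤ)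
    (h0 : ∀ i j, ¬ (p i : ℤ) ∣ a j - a0) (hd : ∀ i j j', j ≠ j' → ¬ (p i : ℤ) ∣ a j - a j')
    {ψ : ℤ → ℝ} {Pi : ℕ → ℝ} {C : ℝ} {K : ℕ} (hsx : SX q a0 ψ Pi C K a)
    (hPi0 : ∀ r, 0 ≤ Pi r) (hPi1 : ∀ r, Pi r ≤ 1) (hC : 0 ≤ C)
    {y : Finset ι → ℝ} (hy1 : ∀ S, |y S| ≤ 1) {D : ℝ} {N : ℕ}
    (hN : ∀ S : Finset ι, PP p S ≤ D → S.card ≤ N) (hNK : 2 * N ≤ K)
    (hzN : (1 + 1 / z) ^ N ≤ 3 / 2) :
    ∃ c : Fam (Sum.elim q p) → ℂ,
      (∀ m : ℕ, (∀ i, ¬ Sum.elim q p i ∣ m) →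
        ((GZ p a ψ (Yd p y D) ((m : ℤ) + a0) ^ 2 : ℝ) : ℂ) = ∑ χ, c χ * fch χ m) ∧
      (∀ χ, ‖c χ‖ ≤ (∏ i ∈ fsupp (lft χ), (C / (q i : ℝ))) *
        (if fsupp (rgt χ) = ∅ then 3 * ZZ κ p y D Pi + 2 * (offA κ p N / z)
          else 2 * offA κ p N * ∏ i ∈ fsupp (rgt χ), (1 / ((p i : ℝ) - 1)))) ∧
      ZZ κ p y D Pi / 2 - 2 * (offA κ p N / z) ≤ (c (fun _ => 1)).re := by
  have hYN : ∀ σ : ι → Option κ, Yd p y D σ ≠ 0 → (supp σ).card ≤ N := fun σ h =>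
    hN _ (Yd_supp h)
  obtain ⟨c, h1, h2, h4, h5⟩ := main hp h3 hz0 hz a a0 h0 hd hsx hPi0 hPi1 hC (Yd p y D)
    (Yd_abs hy1 D) hYN hNK hzN
  refine ⟨c, h1, ?_, h5⟩
  intro χ
  split_ifs with hr
  · exact h2 χ hr
  · exact h4 χ

end Pool.Agent.AV
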