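import Pool.Agent.AV.Coef

/-! AV/Dec.  Decay of the coefficients in the conductor: from the bound of `coef` to `5 Z fcd^(-3/4)`. -/

set_option autoImplicit false

open Finset Pool.Agent.RS Pool.Agent.AT Pool.Agent.VOID

namespace Pool.Agent.AV

variable {ι1 ι : Type} [Fintype ι1] [DecidableEq ι1] [Fintype ι] [DecidableEq ι]

private theorem prod_left {κ' : Type} (S : Finset κ') (q : κ' → ℕ) (hq : ∀ i, (q i).Prime)
    {C : ℝ} (hC : 0 ≤ C) (hCq : ∀ i, C ≤ (q i : ℝ) ^ (1 / 4 : ℝ)) :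
    ∏ i ∈ S, (C / (q i : ℝ)) ≤ ((∏ i ∈ S, q i : ℕ) : ℝ) ^ (-(3 / 4) : ℝ) := by
  rw [Nat.cast_prod, ← Real.finsetProd_rpow S (fun i => (q i : ℝ)) (fun i _ => Nat.cast_nonneg _)]
  refine prod_le_prod (fun i _ => div_nonneg hC (Nat.cast_nonneg _)) fun i _ => ?_
  have hq0 : (0 : ℝ) < q i := by exact_mod_cast (hq i).pos
  rw [div_le_iff₀ hq0]
  refine (hCq i).trans (le_of_eq ?_)
  rw [← Real.rpow_add_one hq0.ne']
  norm_num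

private theorem prod_right {κ' : Type} [DecidableEq κ'] (S : Finset κ') (hS : S.Nonempty)
    (p : κ' → ℕ) {z : ℝ} (hz16 : 100 ≤ z) (hz : ∀ i, z ≤ (p i : ℝ) - 1) {A : ℝ} (hA0 : 0 ≤ A)
    (hA : A ≤ z ^ (1 / 4 : ℝ)) :
    2 * A * ∏ i ∈ S, (1 / ((p i : ℝ) - 1)) ≤
      4 * ((∏ i ∈ S, p i : ℕ) : ℝ) ^ (-(3 / 4) : ℝ) := by
  have hp0 : ∀ i, (0 : ℝ) < p i := fun i => by linarith [hz i]
  have hone : ∀ i, 2 * (p i : ℝ) ^ (-(1 / 4) : ℝ) ≤ 1 := by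
    intro i
    have h1 : (16 : ℝ) ^ (1 / 4 : ℝ) ≤ (p i : ℝ) ^ (1 / 4 : ℝ) :=
      Real.rpow_le_rpow (by norm_num) (by linarith [hz i]) (by norm_num)
    have h2 : (16 : ℝ) ^ (1 / 4 : ℝ) = 2 := by
      rw [show (16 : ℝ) = 2 ^ (4 : ℝ) by norm_num, ← Real.rpow_mul (by norm_num)]
      norm_num
    rw [h2] at h1
    have h3 : 0 < (p i : ℝ) ^ (1 / 4 : ℝ) := Real.rpow_pos_of_pos (hp0 i) _
    rw [Real.rpow_neg (hp0 i).le, ← div_eq_mul_inv, div_le_one h3]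
    exact h1
  have hfac : ∀ i, 1 / ((p i : ℝ) - 1) ≤
      (p i : ℝ) ^ (-(3 / 4) : ℝ) * (2 * (p i : ℝ) ^ (-(1 / 4) : ℝ)) := by
    intro i
    have h1 : (p i : ℝ) ^ (-(3 / 4) : ℝ) * (2 * (p i : ℝ) ^ (-(1 / 4) : ℝ)) = 2 / (p i : ℝ) := by
      rw [mul_left_comm, ← Real.rpow_add (hp0 i),
        show (-(3 / 4) : ℝ) + -(1 / 4) = -1 by norm_num, Real.rpow_neg_one, div_eq_mul_inv]
    rw [h1, div_le_div_iff₀ (by linarith [hz i]) (hp0 i)]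
    linarith [hz i]
  obtain ⟨i0, hi0⟩ := hS
  have h4 : ∏ i ∈ S, (1 / ((p i : ℝ) - 1)) ≤
      ((∏ i ∈ S, p i : ℕ) : ℝ) ^ (-(3 / 4) : ℝ) * (2 * (p i0 : ℝ) ^ (-(1 / 4) : ℝ)) := by
    calc ∏ i ∈ S, (1 / ((p i : ℝ) - 1))
        ≤ ∏ i ∈ S, ((p i : ℝ) ^ (-(3 / 4) : ℝ) * (2 * (p i : ℝ) ^ (-(1 / 4) : ℝ))) :=
          prod_le_prod (fun i _ => by
            have : 0 < (p i : ℝ) - 1 := by linarith [hz i]
            positivity) fun i _ => hfac i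
      _ = ((∏ i ∈ S, p i : ℕ) : ℝ) ^ (-(3 / 4) : ℝ) *
            ∏ i ∈ S, (2 * (p i : ℝ) ^ (-(1 / 4) : ℝ)) := by
          rw [prod_mul_distrib, Nat.cast_prod,
            ← Real.finsetProd_rpow S (fun i => (p i : ℝ)) (fun i _ => Nat.cast_nonneg _)]
      _ ≤ ((∏ i ∈ S, p i : ℕ) : ℝ) ^ (-(3 / 4) : ℝ) * (2 * (p i0 : ℝ) ^ (-(1 / 4) : ℝ)) := by
          refine mul_le_mul_of_nonneg_left ?_ (Real.rpow_nonneg (Nat.cast_nonneg _) _)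
          rw [← mul_prod_erase S _ hi0]
          have h5 : ∏ i ∈ S.erase i0, (2 * (p i : ℝ) ^ (-(1 / 4) : ℝ)) ≤ 1 :=
            prod_le_one (fun i _ => mul_nonneg (by norm_num) (Real.rpow_nonneg (hp0 i).le _))
              fun i _ => hone i
          have h6 : 0 ≤ 2 * (p i0 : ℝ) ^ (-(1 / 4) : ℝ) :=
            mul_nonneg (by norm_num) (Real.rpow_nonneg (hp0 i0).le _)
          exact mul_le_of_le_one_right h6 h5
  have h7 : A * (p i0 : ℝ) ^ (-(1 / 4) : ℝ) ≤ 1 := by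
    have h8 : A ≤ (p i0 : ℝ) ^ (1 / 4 : ℝ) :=
      hA.trans (Real.rpow_le_rpow (by linarith) (by linarith [hz i0]) (by norm_num))
    rw [Real.rpow_neg (hp0 i0).le, ← div_eq_mul_inv,
      div_le_one (Real.rpow_pos_of_pos (hp0 i0) _)]
    exact h8
  have h9 : 0 ≤ ((∏ i ∈ S, p i : ℕ) : ℝ) ^ (-(3 / 4) : ℝ) :=
    Real.rpow_nonneg (Nat.cast_nonneg _) _
  calc 2 * A * ∏ i ∈ S, (1 / ((p i : ℝ) - 1))
      ≤ 2 * A * (((∏ i ∈ S, p i : ℕ) : ℝ) ^ (-(3 / 4) : ℝ) *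
          (2 * (p i0 : ℝ) ^ (-(1 / 4) : ℝ))) := mul_le_mul_of_nonneg_left h4 (by positivity)
    _ = 4 * ((∏ i ∈ S, p i : ℕ) : ℝ) ^ (-(3 / 4) : ℝ) * (A * (p i0 : ℝ) ^ (-(1 / 4) : ℝ)) := by
        ring
    _ ≤ 4 * ((∏ i ∈ S, p i : ℕ) : ℝ) ^ (-(3 / 4) : ℝ) * 1 :=
        mul_le_mul_of_nonneg_left h7 (by positivity)
    _ = 4 * ((∏ i ∈ S, p i : ℕ) : ℝ) ^ (-(3 / 4) : ℝ) := mul_one _

open Classical in
theorem dec {q : ι1 → ℕ} {p : ι → ℕ} (hq : ∀ i, (q i).Prime) (hp : ∀ i, (p i).Prime)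
    {z : ℝ} (hz16 : 100 ≤ z) (hz : ∀ i, z ≤ (p i : ℝ) - 1) {C : ℝ} (hC : 0 ≤ C)
    (hCq : ∀ i, C ≤ (q i : ℝ) ^ (1 / 4 : ℝ)) {A Z : ℝ} (hA0 : 0 ≤ A) (hA : A ≤ z ^ (1 / 4 : ℝ))
    (hZ : 1 ≤ Z) (χ : Fam (Sum.elim q p)) :
    (∏ i ∈ fsupp (lft χ), (C / (q i : ℝ))) *
        (if fsupp (rgt χ) = ∅ then 3 * Z + 2 * (A / z)
          else 2 * A * ∏ i ∈ fsupp (rgt χ), (1 / ((p i : ℝ) - 1))) ≤
      5 * Z * (fcd χ : ℝ) ^ (-(3 / 4) : ℝ) := by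
  have hl : ∏ i ∈ fsupp (lft χ), (C / (q i : ℝ)) ≤ (fcd (lft χ) : ℝ) ^ (-(3 / 4) : ℝ) :=
    prod_left _ q hq hC hCq
  have hl0 : 0 ≤ ∏ i ∈ fsupp (lft χ), (C / (q i : ℝ)) :=
    prod_nonneg fun i _ => div_nonneg hC (Nat.cast_nonneg _)
  have hr : (if fsupp (rgt χ) = ∅ then 3 * Z + 2 * (A / z)
      else 2 * A * ∏ i ∈ fsupp (rgt χ), (1 / ((p i : ℝ) - 1))) ≤
      5 * Z * (fcd (rgt χ) : ℝ) ^ (-(3 / 4) : ℝ) := by
    split_ifs with h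
    · have h1 : (fcd (rgt χ) : ℝ) = 1 := by
        unfold fcd
        rw [h, prod_empty, Nat.cast_one]
      rw [h1, Real.one_rpow, mul_one]
      have h2 : A / z ≤ 1 := by
        rw [div_le_one (by linarith)]
        refine hA.trans ?_
        calc z ^ (1 / 4 : ℝ) ≤ z ^ (1 : ℝ) :=
              Real.rpow_le_rpow_of_exponent_le (by linarith) (by norm_num)
          _ = z := Real.rpow_one z
      linarith
    · refine (prod_right _ (nonempty_iff_ne_empty.2 h) p hz16 hz hA0 hA).trans ?_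
      have h3 : 0 ≤ (fcd (rgt χ) : ℝ) ^ (-(3 / 4) : ℝ) := Real.rpow_nonneg (Nat.cast_nonneg _) _
      change 4 * (fcd (rgt χ) : ℝ) ^ (-(3 / 4) : ℝ) ≤ _
      exact mul_le_mul_of_nonneg_right (by linarith) h3
  have hr0 : 0 ≤ 5 * Z * (fcd (rgt χ) : ℝ) ^ (-(3 / 4) : ℝ) :=
    mul_nonneg (by linarith) (Real.rpow_nonneg (Nat.cast_nonneg _) _)
  refine (mul_le_mul_of_nonneg_left hr hl0).trans ?_
  refine (mul_le_mul_of_nonneg_right hl hr0).trans (le_of_eq ?_)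
  rw [fcd_sum χ, Nat.cast_mul, Real.mul_rpow (Nat.cast_nonneg _) (Nat.cast_nonneg _)]
  ring

end Pool.Agent.AV
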