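import Pool.Agent.AV.SumF
import Pool.Agent.VOID.RepG

/-! AV/LvG.  Level of the square of the weight.
`lv_psi`: PLAN: `psiV Bl r I (n - c) = ∏_{i<I} psiB (Bl i) (r+i) (n - c)`, and as in `psiB_rep` of VOID/BfA
`psiB S r m = ∑_{j ≤ 2r} (-1)^j ∑_{U ∈ S.powersetCard j} ∏_{q ∈ U} 1_{q ∣ m}` (the product of the indicators is the
indicator of `∏ U ∣ m` for distinct primes); each product of at most `2 (r+i)` indicators of primes `≤ 2^(m1/2^i)`
has level `≤ (2^(m1/2^i))^(2(r+i))` (`low_dvd`, `LowE.prod`, `LowE.mono`), and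
`∑_{i<I} (m1/2^i) 2 (r+i) ≤ m1 (4r+4)` as in `bk_card` (VOID/Blk).
`lv_G`: PLAN: `GZ = ∑_σ Yd σ (Ps σ EE σ)`; for `Yd σ ≠ 0`, `EE σ` has level `PP (supp σ) ≤ D` (`low_ee`, `low_inr`) and
`Ps σ` level `Wl ^ (Tc σ).card ≤ Wl ^ N` (`low_inl`); `LowE.mul` for the square. -/

set_option autoImplicit false

open Finset Pool.Agent.RS Pool.Agent.AT Pool.Agent.VOID

namespace Pool.Agent.AV

private theorem lvg_geo (r n : ℕ) : ∑ i ∈ range n, ((r : ℝ) + i) / 2 ^ i =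
    2 * (r + 1) - 2 * (r + n + 1) / 2 ^ n := by
  induction n with
  | zero => simp
  | succ n ih =>
    rw [Finset.sum_range_succ, ih]
    push_cast
    field_simp
    ring

private theorem lvg_expo (m1 r n : ℕ) :
    ∑ i ∈ range n, (m1 / 2 ^ i) * (2 * (r + i)) ≤ m1 * (4 * r + 4) := by
  have h1 : ((∑ i ∈ range n, (m1 / 2 ^ i) * (2 * (r + i)) : ℕ) : ℝ) ≤
      ((m1 * (4 * r + 4) : ℕ) : ℝ) := by
    push_cast
    calc ∑ i ∈ range n, ((m1 / 2 ^ i : ℕ) : ℝ) * (2 * ((r : ℝ) + i))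
        ≤ ∑ i ∈ range n, 2 * (m1 : ℝ) * (((r : ℝ) + i) / 2 ^ i) := by
          apply Finset.sum_le_sum
          intro i _
          have h2 := Nat.cast_div_le (α := ℝ) (m := m1) (n := 2 ^ i)
          push_cast at h2
          have h3 : (0 : ℝ) ≤ 2 * ((r : ℝ) + i) := by positivity
          have h4 := mul_le_mul_of_nonneg_right h2 h3
          refine h4.trans (le_of_eq ?_)
          ring
      _ = 2 * (m1 : ℝ) * (2 * (r + 1) - 2 * (r + n + 1) / 2 ^ n) := by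
          rw [← Finset.mul_sum, lvg_geo]
      _ ≤ (m1 : ℝ) * (4 * r + 4) := by
          have h5 : (0 : ℝ) ≤ 2 * ((r : ℝ) + n + 1) / 2 ^ n := by positivity
          have h6 : (0 : ℝ) ≤ m1 := Nat.cast_nonneg m1
          nlinarith [mul_nonneg h6 h5]
  exact_mod_cast h1

open Classical in
private theorem lvg_count (S : Finset ℕ) (m : ℤ) (j : ℕ) :
    ((om S m).choose j : ℝ) =
      ∑ U ∈ S.powersetCard j, ∏ q ∈ U, (if (q : ℤ) ∣ m then (1 : ℝ) else 0) := by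
  have h : ∀ U ∈ S.powersetCard j, (∏ q ∈ U, (if (q : ℤ) ∣ m then (1 : ℝ) else 0)) =
      if (∀ q ∈ U, (q : ℤ) ∣ m) then 1 else 0 := by
    intro U _
    rw [Finset.prod_ite_zero, Finset.prod_const_one]
  rw [Finset.sum_congr rfl h, ← Finset.sum_filter, Finset.sum_const, nsmul_eq_mul, mul_one]
  unfold om
  rw [← Finset.card_powersetCard]
  congr 2
  ext U
  rw [Finset.mem_filter, Finset.mem_powersetCard, Finset.mem_powersetCard]
  constructor
  · rintro ⟨h1, h2⟩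
    exact ⟨⟨h1.trans (Finset.filter_subset _ _), h2⟩, fun q hq => (Finset.mem_filter.mp (h1 hq)).2⟩
  · rintro ⟨⟨h1, h2⟩, h3⟩
    exact ⟨fun q hq => Finset.mem_filter.mpr ⟨h1 hq, h3 q hq⟩, h2⟩

private theorem lvg_block {Bl : ℕ → Finset ℕ} {I : ℕ} (hB : ∀ i < I, ∀ q ∈ Bl i, q.Prime)
    {i : ℕ} (hi : i < I) {B : ℕ} (hB1 : 1 ≤ B) (hle : ∀ q ∈ Bl i, q ≤ B) (r : ℕ) (a0 c : ℤ) :
    LowE (p1 Bl I) a0 ((B : ℝ) ^ (2 * r)) (fun n => psiB (Bl i) r (n - c)) := by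
  classical
  have hp : ∀ x, (p1 Bl I x).Prime := fun x => hB x.1 x.1.2 _ x.2.2
  have hB1' : (1 : ℝ) ≤ B := by exact_mod_cast hB1
  have h1 : (fun n => psiB (Bl i) r (n - c)) = fun n => ∑ j ∈ range (2 * r + 1),
      ((-1 : ℝ) ^ j * ∑ U ∈ (Bl i).powersetCard j,
        ∏ q ∈ U, (if (q : ℤ) ∣ n - c then (1 : ℝ) else 0)) := by
    funext m
    unfold psiB
    rw [bf_eq_sum]
    apply Finset.sum_congr rfl
    intro j _
    rw [lvg_count]
  rw [h1]
  apply LowE.sum (range (2 * r + 1)) (fun j n => ((-1 : ℝ) ^ j * ∑ U ∈ (Bl i).powersetCard j,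
        ∏ q ∈ U, (if (q : ℤ) ∣ n - c then (1 : ℝ) else 0)))
  intro j hj
  rw [Finset.mem_range] at hj
  apply LowE.smul
  apply LowE.sum ((Bl i).powersetCard j)
    (fun U n => ∏ q ∈ U, (if (q : ℤ) ∣ n - c then (1 : ℝ) else 0))
  intro U hU
  rw [Finset.mem_powersetCard] at hU
  have h2 : LowE (p1 Bl I) a0 (∏ q ∈ U, (q : ℝ))
      (fun n => ∏ q ∈ U, (if (q : ℤ) ∣ n - c then (1 : ℝ) else 0)) := by
    apply LowE.prod hp U (fun q n => (if (q : ℤ) ∣ n - c then (1 : ℝ) else 0))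
      (fun q => (q : ℝ)) (fun q _ => Nat.cast_nonneg q)
    intro q hq
    have h3 := low_dvd (a0 := a0) hp (⟨⟨i, hi⟩, ⟨q, hU.1 hq⟩⟩ : I1 Bl I) c
    have h4 : p1 Bl I (⟨⟨i, hi⟩, ⟨q, hU.1 hq⟩⟩ : I1 Bl I) = q := rfl
    rw [h4] at h3
    convert h3 using 2
  refine h2.mono ?_
  calc ∏ q ∈ U, (q : ℝ) ≤ ∏ q ∈ U, (B : ℝ) := by
        apply Finset.prod_le_prod
        · intro q _
          exact Nat.cast_nonneg q
        · intro q hq
          exact_mod_cast hle q (hU.1 hq)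
    _ = (B : ℝ) ^ j := by rw [Finset.prod_const, hU.2]
    _ ≤ (B : ℝ) ^ (2 * r) := pow_le_pow_right₀ hB1' (by omega)

theorem lv_psi {Bl : ℕ → Finset ℕ} {r I m1 : ℕ} (hB : ∀ i < I, ∀ q ∈ Bl i, q.Prime)
    (hle : ∀ i < I, ∀ q ∈ Bl i, q ≤ 2 ^ (m1 / 2 ^ i)) (a0 c : ℤ) :
    LowE (p1 Bl I) a0 (2 ^ (m1 * (4 * r + 4))) (fun n => psiV Bl r I (n - c)) := by
  have hp : ∀ x, (p1 Bl I x).Prime := fun x => hB x.1 x.1.2 _ x.2.2
  have h1 : LowE (p1 Bl I) a0 (∏ i ∈ range I, (((2 ^ (m1 / 2 ^ i) : ℕ) : ℝ)) ^ (2 * (r + i)))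
      (fun n => ∏ i ∈ range I, psiB (Bl i) (r + i) (n - c)) := by
    apply LowE.prod hp (range I) (fun i n => psiB (Bl i) (r + i) (n - c))
      (fun i => (((2 ^ (m1 / 2 ^ i) : ℕ) : ℝ)) ^ (2 * (r + i)))
    · intro i _
      positivity
    · intro i hi
      rw [Finset.mem_range] at hi
      exact lvg_block hB hi Nat.one_le_two_pow (hle i hi) (r + i) a0 c
  have h2 : ∏ i ∈ range I, (((2 ^ (m1 / 2 ^ i) : ℕ) : ℝ)) ^ (2 * (r + i)) ≤
      2 ^ (m1 * (4 * r + 4)) := by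
    calc ∏ i ∈ range I, (((2 ^ (m1 / 2 ^ i) : ℕ) : ℝ)) ^ (2 * (r + i))
        = 2 ^ (∑ i ∈ range I, (m1 / 2 ^ i) * (2 * (r + i))) := by
          rw [← Finset.prod_pow_eq_pow_sum]
          refine Finset.prod_congr rfl fun i _ => ?_
          push_cast
          rw [← pow_mul]
      _ ≤ 2 ^ (m1 * (4 * r + 4)) :=
          pow_le_pow_right₀ (by norm_num) (lvg_expo m1 r _)
  exact h1.mono h2

variable {ι1 ι κ : Type} [Fintype ι1] [DecidableEq ι1] [Fintype ι] [DecidableEq ι] [DecidableEq κ]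
  [Fintype κ]

omit [DecidableEq κ] [Fintype κ] in
private theorem lvg_EE {p : ι → ℕ} (hp : ∀ i, (p i).Prime) {a0 : ℤ} (a : κ → ℤ)
    (σ : ι → Option κ) : LowE p a0 (PP p (supp σ)) (EE p a σ) := by
  classical
  have h := LowE.prod (a0 := a0) hp (univ : Finset ι) (fun i n => eo (p i) a n (σ i))
    (fun i => if σ i ≠ none then (p i : ℝ) else 1)
    (by
      intro i _
      split_ifs
      · exact Nat.cast_nonneg _
      · exact zero_le_one)
    (by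
      intro i _
      cases hi : σ i with
      | none => simpa [eo] using low_const (a0 := a0) hp 1
      | some j => simpa [eo] using low_ee (a0 := a0) hp i (a j))
  have hw : ∏ i, (if σ i ≠ none then (p i : ℝ) else 1) = PP p (supp σ) := by
    unfold PP supp
    rw [Finset.prod_filter]
  rw [hw] at h
  exact h

theorem lv_G {q : ι1 → ℕ} {p : ι → ℕ} (hq : ∀ i, (q i).Prime) (hp : ∀ i, (p i).Prime) {a0 : ℤ}
    {ψ : ℤ → ℝ} {Wl : ℝ} (hWl : 1 ≤ Wl) (hψ : ∀ c : ℤ, LowE q a0 Wl (fun n => ψ (n - c)))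
    (a : κ → ℤ) (y : Finset ι → ℝ) {D : ℝ} (hD : 1 ≤ D) {N : ℕ}
    (hN : ∀ S : Finset ι, PP p S ≤ D → S.card ≤ N) :
    LowE (Sum.elim q p) a0 ((D * Wl ^ N) ^ 2) (fun n => GZ p a ψ (Yd p y D) n ^ 2) := by
  classical
  have hqp : ∀ i, (Sum.elim q p i).Prime := by
    rintro (i | i)
    · exact hq i
    · exact hp i
  have hW0 : (0 : ℝ) ≤ Wl ^ N := pow_nonneg (by linarith) N
  have hW1 : (1 : ℝ) ≤ Wl ^ N := one_le_pow₀ hWl
  have hterm : ∀ σ ∈ (univ : Finset (ι → Option κ)), LowE (Sum.elim q p) a0 (D * Wl ^ N)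
      (fun n => Yd p y D σ * (Ps ψ a σ n * EE p a σ n)) := by
    intro σ _
    by_cases hσ : PP p (supp σ) ≤ D
    · apply LowE.smul
      have h1 : LowE q a0 (Wl ^ (Tc σ).card) (Ps ψ a σ) := by
        have h := LowE.prod (a0 := a0) hq (Tc σ) (fun j n => ψ (n - a j)) (fun _ => Wl)
          (fun _ _ => by linarith) (fun j _ => hψ (a j))
        rw [Finset.prod_const] at h
        exact h
      have h2 : LowE q a0 (Wl ^ N) (Ps ψ a σ) :=
        h1.mono (pow_le_pow_right₀ hWl ((card_Tc_le σ).trans (hN _ hσ)))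
      have h3 : LowE p a0 D (EE p a σ) := (lvg_EE hp a σ).mono hσ
      have h4 := LowE.mul hqp hW0 (by linarith) (low_inl hp h2) (low_inr hq h3)
      rw [mul_comm D]
      exact h4
    · have h0 : Yd p y D σ = 0 := by
        unfold Yd
        rw [if_neg hσ]
      have h1 : (fun n => Yd p y D σ * (Ps ψ a σ n * EE p a σ n)) = fun _ => (0 : ℝ) := by
        funext n
        rw [h0, zero_mul]
      rw [h1]
      refine (low_const hqp 0).mono ?_
      nlinarith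
  have hG : LowE (Sum.elim q p) a0 (D * Wl ^ N) (GZ p a ψ (Yd p y D)) :=
    LowE.sum univ (fun σ n => Yd p y D σ * (Ps ψ a σ n * EE p a σ n)) hterm
  have h0 : (0 : ℝ) ≤ D * Wl ^ N := mul_nonneg (by linarith) hW0
  have h5 := LowE.mul hqp h0 h0 hG hG
  have h6 : (fun n => GZ p a ψ (Yd p y D) n ^ 2) =
      fun n => GZ p a ψ (Yd p y D) n * GZ p a ψ (Yd p y D) n := by
    funext n
    rw [pow_two]
  rw [h6, pow_two]
  exact h5

end Pool.Agent.AV
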