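import Pool.Agent.AT.Pr1

/-! AV/PrG.  Weighted number of primes in a residue class for a nonnegative function with a character
expansion (abstract version of `prime_sum` in AT/Pr, with the same proof). -/

set_option autoImplicit false

open Finset Pool.Agent.RS Pool.Agent.AT

namespace Pool.Agent.AV

variable {ι : Type} [Fintype ι] [DecidableEq ι]

private theorem fch_norm {p : ι → ℕ} (χ : Fam p) (m : ℕ) : ‖fch χ m‖ ≤ 1 := by
  unfold fch
  rw [norm_prod]
  apply prod_le_one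
  · intro i _
    exact norm_nonneg _
  · intro i _
    exact DirichletCharacter.norm_le_one _ _

private theorem fsupp_one (p : ι → ℕ) : fsupp (fun i => (1 : DirichletCharacter ℂ (p i))) = ∅ := by
  classical
  apply eq_empty_of_forall_notMem
  intro i hi
  unfold fsupp at hi
  rw [mem_filter] at hi
  exact hi.2 rfl

private theorem fsupp_empty {p : ι → ℕ} {χ : Fam p} (h : fsupp χ = ∅) : χ = fun _ => 1 := by
  classical
  funext i
  by_contra hi
  have h1 : i ∈ fsupp χ := by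
    unfold fsupp
    rw [mem_filter]
    exact ⟨mem_univ _, hi⟩
  rw [h] at h1
  exact notMem_empty i h1

private theorem not_prime_of_dvd {P q m : ℕ} (hq : q.Prime) (hqP : q ≤ P) (hm : P < m)
    (h : q ∣ m) : ¬ m.Prime := by
  intro hm'
  have := (Nat.prime_dvd_prime_iff_eq hq hm').1 h
  omega

open Classical in
theorem prime_sumG {p : ι → ℕ} (hp : ∀ i, (p i).Prime) (hinj : Function.Injective p)
    {P M r : ℕ} (hP : 2 ≤ P) (hpP : ∀ i, p i ≤ P) {G : ℤ → ℝ} {a0 : ℤ}
    (hG0 : ∀ m : ℕ, P < m → 0 ≤ G ((m : ℤ) + a0)) {Gm : ℝ}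
    (hG1 : ∀ m : ℕ, P < m → G ((m : ℤ) + a0) ≤ Gm) {D A c1 : ℝ} (hD : 1 ≤ D) (hA : 0 ≤ A)
    (c : Fam p → ℂ)
    (hexp : ∀ m : ℕ, (∀ i, ¬ p i ∣ m) → ((G ((m : ℤ) + a0) : ℝ) : ℂ) = ∑ χ, c χ * fch χ m)
    (hc0 : ∀ χ, D < (fcd χ : ℝ) → c χ = 0)
    (hdec : ∀ χ, ‖c χ‖ ≤ A * (fcd χ : ℝ) ^ (-(3 / 4) : ℝ)) (h1 : c1 ≤ (c (fun _ => 1)).re)
    {B : ℝ}
    (hB : ∑ χ ∈ (univ : Finset (Fam p)).filter (fun χ => fsupp χ ≠ ∅ ∧ (fcd χ : ℝ) ≤ D),
      (fcd χ : ℝ) ^ (-(3 / 4) : ℝ) *
        ‖∑ m ∈ (Ioc P (4 * P)).filter (fun m => m ≡ r [MOD M]),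
          ((ArithmeticFunction.vonMangoldt m : ℝ) : ℂ) * fch χ m‖ ≤ B) :
    c1 * psi M r P - A * B - (20 * Gm + 40 * A * D ^ 2) * (√P * Real.log (4 * P) ^ 2) ≤
      ∑ m ∈ (Ioc P (4 * P)).filter (fun m => m ≡ r [MOD M] ∧ m.Prime),
        Real.log m * G ((m : ℤ) + a0) := by
  have hGm : 0 ≤ Gm := (hG0 (P + 1) (Nat.lt_succ_self P)).trans (hG1 (P + 1) (Nat.lt_succ_self P))
  -- size of the coefficients
  have hcf1 : ∀ χ : Fam p, ‖c χ‖ ≤ A := by
    intro χ
    refine (hdec χ).trans ?_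
    have h1 : (1 : ℝ) ≤ fcd χ := by
      unfold fcd
      have : 1 ≤ ∏ i ∈ fsupp χ, p i := Nat.one_le_iff_ne_zero.2
        (prod_ne_zero_iff.2 fun i _ => (hp i).ne_zero)
      exact_mod_cast this
    have h2 : (fcd χ : ℝ) ^ (-(3 / 4) : ℝ) ≤ 1 :=
      Real.rpow_le_one_of_one_le_of_nonpos h1 (by norm_num)
    calc A * (fcd χ : ℝ) ^ (-(3 / 4) : ℝ) ≤ A * 1 := mul_le_mul_of_nonneg_left h2 hA
      _ = A := mul_one _
  -- the sets
  set W := (Ioc P (4 * P)).filter (fun m => m ≡ r [MOD M]) with hW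
  set W1 := W.filter (fun m => ∀ i, ¬ p i ∣ m) with hW1
  have hWP : ∀ m ∈ W, P < m := by
    intro m hm
    rw [hW, mem_filter] at hm
    exact (mem_Ioc.1 hm.1).1
  have hW1W : ∀ m ∈ W1, m ∈ W := by
    intro m hm
    rw [hW1, mem_filter] at hm
    exact hm.1
  set g : ℕ → ℝ := fun m => G ((m : ℤ) + a0) with hg
  set pp := ∑ m ∈ (Ioc P (4 * P)).filter (fun m => ¬ m.Prime), ArithmeticFunction.vonMangoldt m
    with hpp
  have hppb := pp_err hP
  have hΛ : ∀ m : ℕ, 0 ≤ (ArithmeticFunction.vonMangoldt m : ℝ) := fun m =>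
    ArithmeticFunction.vonMangoldt_nonneg
  have hpp0 : 0 ≤ pp := sum_nonneg fun m _ => hΛ m
  -- primes
  have hprime : ∑ m ∈ W1, ArithmeticFunction.vonMangoldt m * g m ≤
      ∑ m ∈ (Ioc P (4 * P)).filter (fun m => m ≡ r [MOD M] ∧ m.Prime), Real.log m * g m +
        Gm * pp := by
    have h1 : ∑ m ∈ W1, ArithmeticFunction.vonMangoldt m * g m =
        ∑ m ∈ W1.filter (fun m => m.Prime), ArithmeticFunction.vonMangoldt m * g m +
        ∑ m ∈ W1.filter (fun m => ¬ m.Prime), ArithmeticFunction.vonMangoldt m * g m :=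
      (sum_filter_add_sum_filter_not _ _ _).symm
    rw [h1]
    apply add_le_add
    · have h2 : ∑ m ∈ W1.filter (fun m => m.Prime), ArithmeticFunction.vonMangoldt m * g m =
          ∑ m ∈ W1.filter (fun m => m.Prime), Real.log m * g m := by
        apply sum_congr rfl
        intro m hm
        rw [mem_filter] at hm
        rw [ArithmeticFunction.vonMangoldt_apply_prime hm.2]
      rw [h2]
      apply sum_le_sum_of_subset_of_nonneg
      · intro m hm
        rw [mem_filter, hW1, mem_filter, hW, mem_filter] at hm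
        rw [mem_filter]
        exact ⟨hm.1.1.1, hm.1.1.2, hm.2⟩
      · intro m hm _
        rw [mem_filter] at hm
        exact mul_nonneg (Real.log_natCast_nonneg m) (hG0 m (mem_Ioc.1 hm.1).1)
    · calc ∑ m ∈ W1.filter (fun m => ¬ m.Prime), ArithmeticFunction.vonMangoldt m * g m ≤
          ∑ m ∈ W1.filter (fun m => ¬ m.Prime), ArithmeticFunction.vonMangoldt m * Gm :=
            sum_le_sum fun m hm => mul_le_mul_of_nonneg_left
              (hG1 m (hWP m (hW1W m (mem_filter.1 hm).1))) (hΛ m)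
        _ = (∑ m ∈ W1.filter (fun m => ¬ m.Prime), ArithmeticFunction.vonMangoldt m) * Gm := by
            rw [sum_mul]
        _ ≤ pp * Gm := by
            apply mul_le_mul_of_nonneg_right _ hGm
            apply sum_le_sum_of_subset_of_nonneg
            · intro m hm
              rw [mem_filter, hW1, mem_filter, hW, mem_filter] at hm
              rw [mem_filter]
              exact ⟨hm.1.1.1, hm.2⟩
            · intro m _ _
              exact hΛ m
        _ = Gm * pp := mul_comm _ _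
  -- expansion
  set T : Fam p → ℂ := fun χ => ∑ m ∈ W, ((ArithmeticFunction.vonMangoldt m : ℝ) : ℂ) * fch χ m
    with hT
  set T1 : Fam p → ℂ := fun χ => ∑ m ∈ W1, ((ArithmeticFunction.vonMangoldt m : ℝ) : ℂ) * fch χ m
    with hT1
  have hexp' : ((∑ m ∈ W1, ArithmeticFunction.vonMangoldt m * g m : ℝ) : ℂ) =
      ∑ χ : Fam p, c χ * T1 χ := by
    rw [Complex.ofReal_sum]
    have h2 : ∀ m ∈ W1, ((ArithmeticFunction.vonMangoldt m * g m : ℝ) : ℂ) =
        ∑ χ : Fam p, c χ * (((ArithmeticFunction.vonMangoldt m : ℝ) : ℂ) * fch χ m) := by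
      intro m hm
      rw [hW1, mem_filter] at hm
      rw [Complex.ofReal_mul, hg, hexp m hm.2, mul_sum]
      apply sum_congr rfl
      intro χ _
      ring
    rw [sum_congr rfl h2, sum_comm]
    apply sum_congr rfl
    intro χ _
    rw [hT1, mul_sum]
  have hTT : ∀ χ, ‖T χ - T1 χ‖ ≤ pp := by
    intro χ
    have h1 : T χ - T1 χ = ∑ m ∈ W.filter (fun m => ¬ ∀ i, ¬ p i ∣ m),
        ((ArithmeticFunction.vonMangoldt m : ℝ) : ℂ) * fch χ m := by
      rw [hT, hT1, hW1]
      rw [sub_eq_iff_eq_add, add_comm]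
      exact (sum_filter_add_sum_filter_not _ _ _).symm
    rw [h1]
    refine (norm_sum_le _ _).trans ?_
    calc ∑ m ∈ W.filter (fun m => ¬ ∀ i, ¬ p i ∣ m),
        ‖((ArithmeticFunction.vonMangoldt m : ℝ) : ℂ) * fch χ m‖ ≤
        ∑ m ∈ W.filter (fun m => ¬ ∀ i, ¬ p i ∣ m), ArithmeticFunction.vonMangoldt m := by
          apply sum_le_sum
          intro m _
          rw [norm_mul, Complex.norm_real, Real.norm_of_nonneg (hΛ m)]
          exact mul_le_of_le_one_right (hΛ m) (fch_norm χ m)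
      _ ≤ pp := by
          apply sum_le_sum_of_subset_of_nonneg
          · intro m hm
            rw [mem_filter, hW, mem_filter] at hm
            rw [mem_filter]
            refine ⟨hm.1.1, ?_⟩
            have h2 := hm.2
            push Not at h2
            obtain ⟨i, hi⟩ := h2
            exact not_prime_of_dvd (hp i) (hpP i) (mem_Ioc.1 hm.1.1).1 hi
          · intro m _ _
            exact hΛ m
  -- restriction to small conductor
  set F := (univ : Finset (Fam p)).filter (fun χ => (fcd χ : ℝ) ≤ D) with hF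
  set F' := (univ : Finset (Fam p)).filter (fun χ => fsupp χ ≠ ∅ ∧ (fcd χ : ℝ) ≤ D) with hF'
  have hres : ∀ f : Fam p → ℂ, ∑ χ : Fam p, c χ * f χ = ∑ χ ∈ F, c χ * f χ := by
    intro f
    symm
    apply sum_subset (subset_univ _)
    intro χ _ hχ
    rw [hF, mem_filter] at hχ
    rw [hc0 χ (not_le.1 fun h => hχ ⟨mem_univ _, h⟩), zero_mul]
  have hFcard : (F.card : ℝ) ≤ 2 * D ^ 2 := card_fam hp hinj (D := D) hD
  have hF1 : F = insert (fun _ => 1) F' := by
    ext χ
    rw [hF, hF', mem_insert, mem_filter, mem_filter]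
    constructor
    · rintro ⟨_, h2⟩
      by_cases h : fsupp χ = ∅
      · left
        exact fsupp_empty h
      · right
        exact ⟨mem_univ _, h, h2⟩
    · rintro (h | h)
      · refine ⟨mem_univ _, ?_⟩
        rw [h]
        unfold fcd
        rw [fsupp_one, prod_empty]
        push_cast
        exact hD
      · exact ⟨mem_univ _, h.2.2⟩
  have hnot : (fun _ => 1 : Fam p) ∉ F' := by
    rw [hF', mem_filter]
    rintro ⟨_, h2, _⟩
    exact h2 (fsupp_one p)
  have hT0 : T (fun _ => 1) = ((psi M r P : ℝ) : ℂ) := by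
    rw [hT, psi, Complex.ofReal_sum]
    apply sum_congr rfl
    intro m _
    unfold fch
    rw [fsupp_one, prod_empty, mul_one]
  have hpsi0 : 0 ≤ psi M r P := sum_nonneg fun m _ => hΛ m
  -- main term
  have hmain : c1 * psi M r P ≤ (c (fun _ => 1) * T (fun _ => 1)).re := by
    rw [hT0, Complex.re_mul_ofReal]
    exact mul_le_mul_of_nonneg_right h1 hpsi0
  have herr1 : ‖∑ χ ∈ F', c χ * T χ‖ ≤ A * B := by
    refine (norm_sum_le _ _).trans ?_
    calc ∑ χ ∈ F', ‖c χ * T χ‖ ≤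
        ∑ χ ∈ F', A * ((fcd χ : ℝ) ^ (-(3 / 4) : ℝ) * ‖T χ‖) := by
          apply sum_le_sum
          intro χ _
          rw [norm_mul, ← mul_assoc]
          exact mul_le_mul_of_nonneg_right (hdec χ) (norm_nonneg _)
      _ = A * ∑ χ ∈ F', ((fcd χ : ℝ) ^ (-(3 / 4) : ℝ) * ‖T χ‖) := by rw [mul_sum]
      _ ≤ A * B := mul_le_mul_of_nonneg_left hB hA
  have herr2 : ‖∑ χ ∈ F, c χ * (T χ - T1 χ)‖ ≤ 2 * D ^ 2 * (A * pp) := by
    refine (norm_sum_le _ _).trans ?_
    calc ∑ χ ∈ F, ‖c χ * (T χ - T1 χ)‖ ≤ ∑ _χ ∈ F, A * pp := by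
          apply sum_le_sum
          intro χ _
          rw [norm_mul]
          exact mul_le_mul (hcf1 χ) (hTT χ) (norm_nonneg _) hA
      _ = F.card * (A * pp) := by rw [sum_const, nsmul_eq_mul]
      _ ≤ 2 * D ^ 2 * (A * pp) := mul_le_mul_of_nonneg_right hFcard (mul_nonneg hA hpp0)
  -- assembly
  have hS1 : c1 * psi M r P - A * B - 2 * D ^ 2 * (A * pp) ≤
      ∑ m ∈ W1, ArithmeticFunction.vonMangoldt m * g m := by
    have h1 : (∑ m ∈ W1, ArithmeticFunction.vonMangoldt m * g m : ℝ) =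
        (∑ χ ∈ F, c χ * T χ).re - (∑ χ ∈ F, c χ * (T χ - T1 χ)).re := by
      have h2 := congrArg Complex.re hexp'
      rw [Complex.ofReal_re] at h2
      rw [h2, hres, ← Complex.sub_re, ← sum_sub_distrib]
      congr 1
      apply sum_congr rfl
      intro χ _
      ring
    have h2 : (∑ χ ∈ F, c χ * T χ).re =
        (c (fun _ => 1) * T (fun _ => 1)).re + (∑ χ ∈ F', c χ * T χ).re := by
      rw [hF1, sum_insert hnot, Complex.add_re]
    have h4 := Complex.abs_re_le_norm (∑ χ ∈ F', c χ * T χ)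
    have h5 := Complex.abs_re_le_norm (∑ χ ∈ F, c χ * (T χ - T1 χ))
    rw [abs_le] at h4 h5
    rw [h1, h2]
    linarith [h4.1, h5.2]
  have hfin : 2 * D ^ 2 * (A * pp) + Gm * pp ≤
      (20 * Gm + 40 * A * D ^ 2) * (√P * Real.log (4 * P) ^ 2) := by
    have h2 : 0 ≤ 2 * D ^ 2 * A + Gm := by positivity
    have h3 : (2 * D ^ 2 * A + Gm) * pp ≤
        (2 * D ^ 2 * A + Gm) * (10 * √P * Real.log (4 * P) ^ 2) :=
      mul_le_mul_of_nonneg_left hppb h2
    have h5 : 0 ≤ (2 * D ^ 2 * A + Gm) * (√P * Real.log (4 * P) ^ 2) := by positivity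
    have h6 : 0 ≤ Gm * (√P * Real.log (4 * P) ^ 2) := by positivity
    nlinarith
  linarith

end Pool.Agent.AV
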