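import Pool.Agent.AV.Defs
import Pool.Agent.AT.Exp

/-! AV/Uniq.  Uniqueness of the character expansion.
PLAN.  Let `S` be the submonoid of `ℕ` of the `m` prime to all `p i` (or use `Submonoid` of `ℕ`, or the type
`{m : ℕ // ∀ i, ¬ p i ∣ m}` with its monoid structure).  For a family `χ` the map `m ↦ fch χ m = ∏ i, χ i m`
(`fch_eq`, AT/Exp) is a monoid homomorphism `S →* ℂ`.  Different families give different homomorphisms: if
`χ i0 ≠ χ' i0` there is a unit `r` modulo `p i0` with `χ i0 r ≠ χ' i0 r`; by the Chinese remainder theorem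
(`Nat.chineseRemainderOfFinset` or `Ideal`/`ZMod` version; the `p i` are distinct primes) choose `m ≡ r` modulo
`p i0` and `m ≡ 1` modulo the other `p i`.  `linearIndependent_monoidHom` (Dedekind) gives `c - c' = 0`. -/

set_option autoImplicit false

open Finset Pool.Agent.RS Pool.Agent.AT

namespace Pool.Agent.AV

variable {ι : Type} [Fintype ι] [DecidableEq ι] {p : ι → ℕ}

private def uniqS (hp : ∀ i, (p i).Prime) : Submonoid ℕ where
  carrier := {m | ∀ i, ¬ p i ∣ m}
  mul_mem' := by
    intro a b ha hb i h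
    rcases (hp i).dvd_mul.1 h with h | h
    · exact ha i h
    · exact hb i h
  one_mem' := by
    intro i h
    exact (hp i).one_lt.ne' (Nat.dvd_one.1 h)

private noncomputable def uniqF (hp : ∀ i, (p i).Prime) (χ : Fam p) : uniqS hp →* ℂ where
  toFun m := ∏ i, χ i ((m : ℕ) : ZMod (p i))
  map_one' := by
    simp
  map_mul' := by
    intro a b
    rw [← prod_mul_distrib]
    refine prod_congr rfl fun i _ => ?_
    rw [Submonoid.coe_mul, Nat.cast_mul, map_mul]

private theorem uniqF_inj (hp : ∀ i, (p i).Prime) (hinj : Function.Injective p) :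
    Function.Injective (uniqF (p := p) hp) := by
  classical
  intro χ χ' h
  funext i0
  apply MulChar.ext
  intro u
  obtain ⟨m, hm⟩ := Nat.chineseRemainderOfFinset
    (fun i => if h : i = i0 then ((u : ZMod (p i0))).val else 1) p univ
    (fun i _ => (hp i).ne_zero)
    (fun i _ j _ hij => (Nat.coprime_primes (hp i) (hp j)).2 (fun h => hij (hinj h)))
  have : ∀ i, NeZero (p i) := fun i => ⟨(hp i).ne_zero⟩
  have h0 : ((m : ℕ) : ZMod (p i0)) = u := by
    have h1 := (ZMod.natCast_eq_natCast_iff _ _ _).2 (hm i0 (mem_univ _))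
    rw [h1]
    simp
  have h1 : ∀ i, i ≠ i0 → ((m : ℕ) : ZMod (p i)) = 1 := by
    intro i hi
    have h2 := (ZMod.natCast_eq_natCast_iff _ _ _).2 (hm i (mem_univ _))
    rw [h2]
    simp [hi]
  have hmS : m ∈ uniqS hp := by
    intro i hdiv
    have hz : ((m : ℕ) : ZMod (p i)) = 0 := (ZMod.natCast_eq_zero_iff _ _).2 hdiv
    have : Fact (p i).Prime := ⟨hp i⟩
    by_cases hi : i = i0
    · subst hi
      rw [h0] at hz
      exact u.ne_zero hz
    · rw [h1 i hi] at hz
      exact one_ne_zero hz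
  have h3 := DFunLike.congr_fun h (⟨m, hmS⟩ : uniqS hp)
  have h4 : ∀ η : Fam p, uniqF hp η ⟨m, hmS⟩ = η i0 (u : ZMod (p i0)) := by
    intro η
    change ∏ i, η i ((m : ℕ) : ZMod (p i)) = _
    rw [Finset.prod_eq_single i0]
    · rw [h0]
    · intro i _ hi
      rw [h1 i hi, map_one]
    · intro h
      exact absurd (mem_univ _) h
  rw [h4, h4] at h3
  exact h3

theorem fam_unique (hp : ∀ i, (p i).Prime) (hinj : Function.Injective p) (c c' : Fam p → ℂ)
    (h : ∀ m : ℕ, (∀ i, ¬ p i ∣ m) → ∑ χ, c χ * fch χ m = ∑ χ, c' χ * fch χ m) : c = c' := by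
  classical
  have hli := (linearIndependent_monoidHom (uniqS hp) ℂ).comp (uniqF (p := p) hp)
    (uniqF_inj hp hinj)
  rw [Fintype.linearIndependent_iff] at hli
  have h1 := hli (fun χ => c χ - c' χ) (by
    funext m
    rw [Finset.sum_apply]
    have h2 := h (m : ℕ) m.2
    have h3 : ∀ χ : Fam p, fch χ (m : ℕ) = uniqF hp χ m := fun χ => fch_eq hp χ m.2
    simp only [h3] at h2
    rw [← sub_eq_zero, ← sum_sub_distrib] at h2
    rw [Pi.zero_apply, ← h2]
    refine sum_congr rfl fun χ _ => ?_
    change (c χ - c' χ) * uniqF hp χ m = _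
    ring)
  funext χ
  exact sub_eq_zero.1 (h1 χ)

end Pool.Agent.AV
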