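import Pool.Agent.AV.Dec
import Pool.Agent.AV.PrG
import Pool.Agent.AV.LvG
import Pool.Agent.AV.Uniq

/-! AV/E1G.  Weighted number of primes for the VOID weight, errors still explicit.
PLAN.  `coef` gives coefficients `c` with decay (`dec` with `A = offA κ p N`, `Z = ZZ`), `lv_G` gives
coefficients `c'` of level `DG = (D Wl^N)^2`; `fam_unique` (for `Sum.elim q p`, injective) gives `c = c'`.
`ZZ/2 - 2 offA/z ≥ ZZ/3` since `offA/z ≤ z^(-3/4) ≤ 1/12`.  Apply `prime_sumG` with `A = 5 ZZ`, `c1 = ZZ/3`. -/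

set_option autoImplicit false

open Finset Pool.Agent.RS Pool.Agent.AT Pool.Agent.VOID

namespace Pool.Agent.AV

variable {ι1 ι κ : Type} [Fintype ι1] [DecidableEq ι1] [Fintype ι] [DecidableEq ι] [DecidableEq κ]
  [Fintype κ]

open Classical in
theorem e1g {q : ι1 → ℕ} {p : ι → ℕ} (hq : ∀ i, (q i).Prime) (hp : ∀ i, (p i).Prime)
    (hinj : Function.Injective (Sum.elim q p)) {P M r : ℕ} (hP : 2 ≤ P)
    (hqP : ∀ i, q i ≤ P) (hpP : ∀ i, p i ≤ P)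
    {z : ℝ} (hz16 : 100 ≤ z) (hz : ∀ i, z ≤ (p i : ℝ) - 1) (a : κ → ℤ) (a0 : ℤ)
    (h0 : ∀ i j, ¬ (p i : ℤ) ∣ a j - a0) (hd : ∀ i j j', j ≠ j' → ¬ (p i : ℤ) ∣ a j - a j')
    {ψ : ℤ → ℝ} {Pi : ℕ → ℝ} {C : ℝ} {K : ℕ} (hsx : SX q a0 ψ Pi C K a)
    (hPi0 : ∀ r, 0 ≤ Pi r) (hPi1 : ∀ r, Pi r ≤ 1) (hPi : Pi 0 = 1) (hC : 0 ≤ C)
    (hCq : ∀ i, C ≤ (q i : ℝ) ^ (1 / 4 : ℝ))
    {y : Finset ι → ℝ} (hy0 : y ∅ = 1) (hy1 : ∀ S, |y S| ≤ 1) {D : ℝ} (hD : 1 ≤ D) {N : ℕ}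
    (hN : ∀ S : Finset ι, PP p S ≤ D → S.card ≤ N) (hNK : 2 * N ≤ K)
    (hzN : (1 + 1 / z) ^ N ≤ 3 / 2) (hA : offA κ p N ≤ z ^ (1 / 4 : ℝ))
    {Wl : ℝ} (hWl : 1 ≤ Wl) (hψ : ∀ c : ℤ, LowE q a0 Wl (fun n => ψ (n - c)))
    {Gm : ℝ} (hG1 : ∀ n : ℤ, GZ p a ψ (Yd p y D) n ^ 2 ≤ Gm) {B : ℝ}
    (hB : ∑ χ ∈ (univ : Finset (Fam (Sum.elim q p))).filter
        (fun χ => fsupp χ ≠ ∅ ∧ (fcd χ : ℝ) ≤ (D * Wl ^ N) ^ 2),
      (fcd χ : ℝ) ^ (-(3 / 4) : ℝ) *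
        ‖∑ m ∈ (Ioc P (4 * P)).filter (fun m => m ≡ r [MOD M]),
          ((ArithmeticFunction.vonMangoldt m : ℝ) : ℂ) * fch χ m‖ ≤ B) :
    ZZ κ p y D Pi / 3 * psi M r P - 5 * ZZ κ p y D Pi * B -
        (20 * Gm + 200 * ZZ κ p y D Pi * (D * Wl ^ N) ^ 4) * (√P * Real.log (4 * P) ^ 2) ≤
      ∑ m ∈ (Ioc P (4 * P)).filter (fun m => m ≡ r [MOD M] ∧ m.Prime),
        Real.log m * GZ p a ψ (Yd p y D) ((m : ℤ) + a0) ^ 2 := by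
  have h3 : ∀ i, 3 ≤ p i := by
    intro i
    have h1 := hz i
    have h2 : (3 : ℝ) ≤ (p i : ℝ) := by linarith
    exact_mod_cast h2
  have hz0 : 0 < z := by linarith
  have hZ1 : 1 ≤ ZZ κ p y D Pi := ZZ_ge_one p y (fun i => (hp i).two_le) hy0 hD hPi0 hPi
  have hZ0 : 0 ≤ ZZ κ p y D Pi := by linarith
  have hoff0 : 0 ≤ offA κ p N := by
    unfold offA
    apply mul_nonneg
    · positivity
    · apply prod_nonneg
      intro i _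
      have h1 := hz i
      have h2 : (0 : ℝ) < (p i : ℝ) - 1 := by linarith
      positivity
  obtain ⟨c, hexp, hbd, hre⟩ := coef (κ := κ) hp h3 hz0 hz a a0 h0 hd hsx hPi0 hPi1 hC hy1 hN hNK hzN
  obtain ⟨c', hc0', hexp'⟩ := lv_G (κ := κ) hq hp hWl hψ a y hD hN
  have hpr : ∀ i, (Sum.elim q p i).Prime := by
    rintro (i | i)
    · exact hq i
    · exact hp i
  have hcc : c = c' := by
    refine fam_unique hpr hinj c c' fun m hm => ?_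
    rw [← hexp m hm, ← hexp' m hm]
  have hDG : (1 : ℝ) ≤ (D * Wl ^ N) ^ 2 := by
    have h1 : (1 : ℝ) ≤ Wl ^ N := one_le_pow₀ hWl
    have h2 : (1 : ℝ) ≤ D * Wl ^ N := by nlinarith
    nlinarith
  have hdec : ∀ χ, ‖c χ‖ ≤ 5 * ZZ κ p y D Pi * (fcd χ : ℝ) ^ (-(3 / 4) : ℝ) := by
    intro χ
    exact (hbd χ).trans (dec hq hp hz16 hz hC hCq hoff0 hA hZ1 χ)
  have hoffz : offA κ p N / z ≤ 1 / 12 := by
    rw [div_le_iff₀ hz0]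
    refine hA.trans ?_
    have h1 : z = z ^ (1 / 4 : ℝ) * z ^ (3 / 4 : ℝ) := by
      rw [← Real.rpow_add hz0]
      norm_num
    have h2 : (12 : ℝ) ≤ z ^ (3 / 4 : ℝ) := by
      have h3 : (81 : ℝ) ^ (3 / 4 : ℝ) ≤ z ^ (3 / 4 : ℝ) :=
        Real.rpow_le_rpow (by norm_num) (by linarith) (by norm_num)
      have h4 : (81 : ℝ) ^ (3 / 4 : ℝ) = 27 := by
        rw [show (81 : ℝ) = 3 ^ (4 : ℝ) by norm_num, ← Real.rpow_mul (by norm_num)]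
        norm_num
      linarith
    have h5 : 0 < z ^ (1 / 4 : ℝ) := Real.rpow_pos_of_pos hz0 _
    calc z ^ (1 / 4 : ℝ) = 1 / 12 * (z ^ (1 / 4 : ℝ) * 12) := by ring
      _ ≤ 1 / 12 * (z ^ (1 / 4 : ℝ) * z ^ (3 / 4 : ℝ)) := by gcongr
      _ = 1 / 12 * z := by rw [← h1]
  have h1c : ZZ κ p y D Pi / 3 ≤ (c (fun _ => 1)).re := by
    refine le_trans ?_ hre
    linarith
  have hmain := prime_sumG (p := Sum.elim q p) hpr hinj (P := P) (M := M) (r := r) hP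
    (by
      rintro (i | i)
      · exact hqP i
      · exact hpP i)
    (G := fun n => GZ p a ψ (Yd p y D) n ^ 2) (a0 := a0) (fun m _ => sq_nonneg _)
    (fun m _ => hG1 _) hDG (A := 5 * ZZ κ p y D Pi) (by positivity) c hexp
    (fun χ hχ => by rw [hcc]; exact hc0' χ hχ) hdec h1c hB
  refine le_trans (le_of_eq ?_) hmain
  ring

end Pool.Agent.AV
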