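import Pool.Agent.VOID.AbsT

/-! AV/M0U.  Upper bound for the mean square of the VOID weight, and its transfer.
PLAN.  As `mom0` (VOID/MomA) and `tr0` (VOID/AbsT): `quad` with `F0 = 1`, `U = 2`, `off`; the diagonal is
`≤ ∑ Yd^2/PH * 2 Pi(Tc) = 2 ZZ` by `hs.up` with exponents `2` (`Ps^2 = ∏_{Tc} ψ^2`). -/

set_option autoImplicit false

open Finset Pool.Agent.RS Pool.Agent.VOID

namespace Pool.Agent.AV

variable {ι κ : Type} [Fintype ι] [DecidableEq ι] [DecidableEq κ] [Fintype κ]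

omit [DecidableEq ι] [DecidableEq κ] [Fintype κ] [Fintype ι] in
private theorem m0u_PH {p : ι → ℕ} (hp : ∀ i, 2 ≤ p i) (U : Finset ι) : 0 ≤ PH p U := by
  unfold PH
  refine Finset.prod_nonneg fun i _ => ?_
  have h1 : (2 : ℝ) ≤ (p i : ℝ) := by exact_mod_cast hp i
  linarith

theorem mom0U {p : ι → ℕ} {Q1 : ℕ} {a : κ → ℤ} {z : ℝ} (h : Hy p Q1 a z) {ψ : ℤ → ℝ} {Wψ : ℝ}
    {Pi : ℕ → ℝ} {V1 : ℝ} {N : ℕ} (hs : SS Q1 ψ Wψ Pi V1 (2 * N + 2) a) {D : ℝ}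
    (hN : ∀ S : Finset ι, PP p S ≤ D → S.card ≤ N) {y : Finset ι → ℝ} (hy1 : ∀ S, |y S| ≤ 1) :
    mean (Q1 * ∏ i, p i) (fun n => GZ p a ψ (Yd p y D) n ^ 2) ≤
      2 * ZZ κ p y D Pi + 2 * offB κ p N z := by
  have hN' : ∀ σ : ι → Option κ, Yd p y D σ ≠ 0 → (supp σ).card ≤ N := fun σ hσ =>
    hN _ (Yd_supp hσ)
  have hT : ∀ σ : ι → Option κ, Yd p y D σ ≠ 0 → (Tc σ).card ≤ N := fun σ hσ =>
    (card_Tc_le σ).trans (hN' σ hσ)
  have h1 := quad h.two h.cop h.Q1pos h.copQ h.sep hs.per (F0 := fun _ => 1)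
    (fun _ => rfl) (Yd p y D) (U := 2) (by norm_num) (by
      intro σ σ' hσ hσ'
      simp only [one_mul]
      exact hs.mix (by omega) σ σ' (hT σ hσ) (hT σ' hσ'))
  simp only [one_mul] at h1
  have h2 := off h.two h.zpos h.zle (Yd p y D) (Yd_abs hy1 D) hN'
  have h3 : ∑ σ, Yd p y D σ ^ 2 / PH p (supp σ) * mean Q1 (fun n => Ps ψ a σ n ^ 2) ≤
      2 * ZZ κ p y D Pi := by
    unfold ZZ
    rw [Finset.mul_sum]
    refine Finset.sum_le_sum fun σ _ => ?_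
    by_cases hσ : Yd p y D σ = 0
    · rw [hσ]
      simp
    · have h5 : mean Q1 (fun n => Ps ψ a σ n ^ 2) ≤ 2 * Pi (Tc σ).card := by
        have h6 := hs.up (Tc σ) (fun _ => 2) (by have := hT σ hσ; omega)
          (fun j _ => ⟨by norm_num, by norm_num⟩)
        have h7 : (fun n => Ps ψ a σ n ^ 2) = fun n => ∏ j ∈ Tc σ, ψ (n - a j) ^ 2 := by
          funext n
          unfold Ps
          rw [Finset.prod_pow]
        rw [h7]
        exact h6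
      have hw : 0 ≤ Yd p y D σ ^ 2 / PH p (supp σ) :=
        div_nonneg (sq_nonneg _) (m0u_PH h.two _)
      calc Yd p y D σ ^ 2 / PH p (supp σ) * mean Q1 (fun n => Ps ψ a σ n ^ 2)
          ≤ Yd p y D σ ^ 2 / PH p (supp σ) * (2 * Pi (Tc σ).card) :=
            mul_le_mul_of_nonneg_left h5 hw
        _ = 2 * (Yd p y D σ ^ 2 / PH p (supp σ) * Pi (Tc σ).card) := by ring
  have h4 := (abs_le.1 h1).2
  linarith

omit [DecidableEq κ] in
open Classical in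
private theorem m0u_card {P : (ι → Option κ) → Prop} {Z : (ι → Option κ) → ℝ}
    (hZ : ∀ σ, Z σ ≠ 0 → P σ) {C : ℝ}
    (hC : (((univ : Finset (ι → Option κ)).filter P).card : ℝ) ≤ C) :
    (((univ : Finset (ι → Option κ)).filter (fun σ => Z σ ≠ 0)).card : ℝ) ≤ C := by
  refine le_trans ?_ hC
  exact_mod_cast Finset.card_le_card fun σ hσ =>
    Finset.mem_filter.2 ⟨Finset.mem_univ _, hZ σ (Finset.mem_filter.1 hσ).2⟩

private theorem m0u_sq {Q : ℕ} {f : ℤ → ℝ} {W : ℝ} (h : Rep Q f W) :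
    Rep Q (fun n => f n ^ 2) (W ^ 2) := by
  have h1 := Rep.mul h h
  have e : (fun n => f n * f n) = fun n => f n ^ 2 := by
    funext n
    ring
  rwa [e, ← pow_two] at h1

theorem tr0U {p : ι → ℕ} {Q1 M : ℕ} {a : κ → ℤ} {z : ℝ} (h : Hy p Q1 a z)
    (hM : Nat.Coprime M (Q1 * ∏ i, p i)) {ψ : ℤ → ℝ} {Wψ : ℝ}
    {Pi : ℕ → ℝ} {V1 : ℝ} {N : ℕ} (hs : SS Q1 ψ Wψ Pi V1 (2 * N + 2) a) {D : ℝ}
    (hN : ∀ S : Finset ι, PP p S ≤ D → S.card ≤ N) {y : Finset ι → ℝ} (hy1 : ∀ S, |y S| ≤ 1)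
    {C : ℝ} (hC : (((univ : Finset (ι → Option κ)).filter
      (fun σ => PP p (supp σ) ≤ D)).card : ℝ) ≤ C) (n0 : ℤ) (T : ℕ) :
    ∑ t ∈ range T, GZ p a ψ (Yd p y D) (n0 + M * (t : ℤ)) ^ 2 ≤
      (T : ℝ) * (2 * ZZ κ p y D Pi + 2 * offB κ p N z) + 2 * (C * (3 * Wψ) ^ N) ^ 2 := by
  classical
  have hC' : (((univ : Finset (ι → Option κ)).filter
      (fun σ => Yd p y D σ ≠ 0)).card : ℝ) ≤ C :=
    (m0u_card (P := fun σ => PP p (supp σ) ≤ D) (Z := Yd p y D)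
      (fun σ hσ => Yd_supp hσ) (by
        refine le_trans (le_of_eq ?_) hC
        congr 2)) |>.trans' (le_of_eq (by congr 2))
  have hr : Rep (Q1 * ∏ i, p i) (GZ p a ψ (Yd p y D)) (C * (3 * Wψ) ^ N) :=
    rep_GZ h.two hs.rep hs.one_le_W a (Yd p y D) (Yd_abs hy1 D)
      (fun _ hσ => hN _ (Yd_supp hσ)) hC'
  have hQ : 0 < Q1 * ∏ i, p i :=
    Nat.mul_pos h.Q1pos (Finset.prod_pos fun i _ => by have := h.two i; omega)
  have h1 := Rep.avg hQ hM (m0u_sq hr) T n0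
  have h2 := mom0U h hs hN hy1
  have h3 := mul_le_mul_of_nonneg_left h2 (Nat.cast_nonneg (α := ℝ) T)
  have h4 := (abs_le.1 h1).2
  linarith

end Pool.Agent.AV
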