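import Pool.Agent.AV.Sd
import Pool.Agent.AV.M0U
import Pool.Agent.AT.Prog

/-! AV/EV0.  Total mass: the mean square of the weight over the integers `n ≡ b` modulo `M` in the window,
by the transfer `tr0U` to a complete period. -/

set_option autoImplicit false

open Finset Pool.Agent.RS Pool.Agent.AT Pool.Agent.VOID

namespace Pool.Agent.AV

theorem ev0 {CV0 CV : ℝ} {G r P L M H : ℕ} {R : Finset ℕ} {g s m1 d N : ℕ}
    (sd : SD CV0 CV G r P L M H R g s m1 d N) (b : ℕ) :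
    ∑ n ∈ Nw P H M b, gy L m1 s d r R (n : ℤ) ^ 2 ≤ 10 * ((P : ℝ) / M) * Zy L m1 s d R := by
  have pb := sd.pb
  obtain ⟨hX, -, -, -, hHP, hX1, -⟩ := sz sd.hL pb.big sd.hM0 sd.hMP sd.hH
  obtain ⟨n0, T, hT, hsum⟩ := prog sd.hM0 hHP b
  have hbig := pb.big
  have hL2 : 2 ≤ L := by omega
  obtain ⟨ha, hinj⟩ := ax_ok sd.hH sd.hR
  have hκ : Fintype.card {j : ℕ // j ∈ R} ≤ L + 2 := by
    rw [Fintype.card_coe]
    exact sd.hkL.trans (by omega)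
  have h1 := hsum (fun n => gy L m1 s d r R n ^ 2) (fun _ => True) (fun n => sq_nonneg _)
  simp only [filter_true] at h1
  have hy1 : ∀ S, |yy L m1 s S| ≤ 1 := fun S =>
    wt_abs (fun i => (py_mem i).1.two_le) (hlog_y pb sd.hG3).2 S
  have h2 := tr0U (hy_py hL2 (ax R) ha hinj) (hM_py (m1 := m1) sd.hM)
    (ss_py pb sd.h4 (ax R) ha hinj) (D := 2 ^ d)
    (fun S hS => by
      rw [pb.pl.hN]
      exact py_card pb.pl.m_pos S hS) hy1
    (cnt_y (by omega) {j : ℕ // j ∈ R} hκ (by positivity)) n0 T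
  have hoff := offB_le pb {j : ℕ // j ∈ R} hκ pb.pl.N_le
  have hw := w_le pb
  have hZ := Zy_one pb R
  have hLr : (10 : ℝ) ^ 6 ≤ L := by exact_mod_cast hbig
  have hL1 : (1 : ℝ) ≤ L := by linarith
  have hoff' : offB {j : ℕ // j ∈ R} (py L m1) N ((2 : ℝ) ^ m1) ≤ 1 / 20 := by
    refine hoff.trans (one_div_le_one_div_of_le (by norm_num) ?_)
    have h3 : (L : ℝ) ≤ (L : ℝ) ^ 5 := le_self_pow₀ hL1 (by norm_num)
    linarith
  have hwX : (2 : ℝ) ^ (L / 100) ≤ ((P : ℝ) / M) / 1000 := by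
    have h4 := (sz_w (L := L) hbig).1
    have h5 : (1 : ℝ) ≤ (L : ℝ) ^ 4 := one_le_pow₀ hL1
    have h6 : (0 : ℝ) < 2 ^ (L / 100) := by positivity
    have h7 : 1000 * 2 ^ (L / 100) ≤ 1000 * (L : ℝ) ^ 4 * 2 ^ (L / 100) := by nlinarith
    rw [le_div_iff₀ (by norm_num)]
    linarith
  have hX2 : (1000 : ℝ) ≤ (P : ℝ) / M := by
    have h8 : (1 : ℝ) ≤ 2 ^ (L / 100) := one_le_pow₀ (by norm_num)
    rw [le_div_iff₀ (by norm_num)] at hwX
    linarith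
  have hT' : (T : ℝ) ≤ 4 * ((P : ℝ) / M) + 1 := by
    rw [mul_div_assoc] at hT
    exact hT
  set X : ℝ := (P : ℝ) / M with hXdef
  set Z : ℝ := Zy L m1 s d R with hZdef
  have h9 : ∑ n ∈ Nw P H M b, gy L m1 s d r R (n : ℤ) ^ 2 ≤
      (T : ℝ) * (2 * Z + 2 * offB {j : ℕ // j ∈ R} (py L m1) N ((2 : ℝ) ^ m1)) +
        2 * (2 * ((2 : ℝ) ^ d) ^ 2 * (3 * 2 ^ (m1 * (4 * r + 4))) ^ N) ^ 2 := h1.trans h2
  have hT0 : (0 : ℝ) ≤ T := Nat.cast_nonneg T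
  have h10 : (T : ℝ) * (2 * Z + 2 * offB {j : ℕ // j ∈ R} (py L m1) N ((2 : ℝ) ^ m1)) ≤
      (4 * X + 1) * (2 * Z + 1 / 10) := by
    calc (T : ℝ) * (2 * Z + 2 * offB {j : ℕ // j ∈ R} (py L m1) N ((2 : ℝ) ^ m1))
        ≤ (T : ℝ) * (2 * Z + 1 / 10) := mul_le_mul_of_nonneg_left (by linarith) hT0
      _ ≤ (4 * X + 1) * (2 * Z + 1 / 10) := mul_le_mul_of_nonneg_right hT' (by linarith)
  have h11 : X ≤ X * Z := le_mul_of_one_le_right (by linarith) hZ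
  have h12 : 1000 * Z ≤ X * Z := mul_le_mul_of_nonneg_right hX2 (by linarith)
  nlinarith [h9, h10, h11, h12, hw, hwX]

end Pool.Agent.AV
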