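import Pool.Agent.AV.Sd
import Pool.Agent.AV.E1G
import Pool.Agent.AV.LvG
import Pool.Agent.AT.BV
import Pool.Agent.VOID.AbsT

/-! AV/EV1.  The weighted number of primes `n + j`.

`e1g` with `q = p1 (Bk L m1 ∅) (log_2 m1)`, `p = py L m1`, `r := b + j`, `a = ax R`, `a0 = -j`, `z = 2^m1`;
the character sums are bounded with `bv` (AT/BV). -/

set_option autoImplicit false

open Finset Pool.Agent.RS Pool.Agent.AT Pool.Agent.VOID

namespace Pool.Agent.AV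

private theorem ev1_pow {L : ℕ} (hL : 1 ≤ L) :
    (L : ℝ) ^ 3 * ((L : ℝ) ^ 6) ^ (-(3 / 4) : ℝ) = 1 / ((L : ℝ) * √(L : ℝ)) := by
  have hL0 : (0 : ℝ) < L := by exact_mod_cast hL
  have h1 : (L : ℝ) ^ 3 = (L : ℝ) ^ (3 : ℝ) := by
    rw [← Real.rpow_natCast]; norm_num
  have h2 : ((L : ℝ) ^ 6) ^ (-(3 / 4) : ℝ) = (L : ℝ) ^ (-(9 / 2) : ℝ) := by
    rw [← Real.rpow_natCast, ← Real.rpow_mul hL0.le]
    norm_num
  have h3 : 1 / ((L : ℝ) * √(L : ℝ)) = (L : ℝ) ^ (-(3 / 2) : ℝ) := by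
    rw [Real.rpow_neg hL0.le, one_div, Real.sqrt_eq_rpow]
    congr 1
    rw [show (3 / 2 : ℝ) = 1 + 1 / 2 by norm_num, Real.rpow_add hL0, Real.rpow_one]
  rw [h1, h2, h3, ← Real.rpow_add hL0]
  norm_num

private theorem ev1_CK {K K' : ℕ} (h : K ≤ K') : CK K ≤ CK K' := by
  have h1 : (K : ℝ) ≤ K' := by exact_mod_cast h
  unfold CK
  have h2 : Real.exp (128 * (K : ℝ)) ≤ Real.exp (128 * (K' : ℝ)) :=
    Real.exp_le_exp.2 (by linarith)
  have h3 : 0 ≤ Real.exp (128 * (K : ℝ)) := (Real.exp_pos _).le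
  have h4 : (0 : ℝ) ≤ K := Nat.cast_nonneg K
  exact mul_le_mul (by linarith) h2 h3 (by linarith)

private theorem ev1_CK0 (K : ℕ) : 0 ≤ CK K := by
  unfold CK
  positivity

private theorem ev1_blk {L m1 i q : ℕ} (h : q ∈ Bk L m1 ∅ i) : q ≤ 2 ^ (m1 / 2 ^ i) := by
  unfold Bk at h
  rw [Finset.mem_filter, Helper52.mem_pr] at h
  exact h.1.2.1

private theorem ev1_RR (G r : ℕ) : 1 ≤ RR G r := by
  unfold RR
  exact Nat.succ_le_of_lt (by positivity)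

/-- errors -/
private theorem ev1_err1 {C X lP : ℝ} {L : ℕ} (hC : 0 < C) (hX : 0 ≤ X) (hL : 1 ≤ L)
    (hlP0 : 0 ≤ lP) (hlP : lP ≤ L) (hL2 : (10 * C) ^ 2 ≤ L) :
    5 * (C * X * lP ^ 3 * ((L : ℝ) ^ 6) ^ (-(3 / 4) : ℝ)) ≤ X / (2 * L) := by
  have hL0 : (0 : ℝ) < L := by exact_mod_cast hL
  have h1 : lP ^ 3 ≤ (L : ℝ) ^ 3 := pow_le_pow_left₀ hlP0 hlP 3
  have h2 : (0 : ℝ) ≤ ((L : ℝ) ^ 6) ^ (-(3 / 4) : ℝ) := by positivity
  have h4 : 10 * C ≤ √(L : ℝ) := Real.le_sqrt_of_sq_le hL2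
  have hs0 : 0 < √(L : ℝ) := Real.sqrt_pos.2 hL0
  calc 5 * (C * X * lP ^ 3 * ((L : ℝ) ^ 6) ^ (-(3 / 4) : ℝ))
      ≤ 5 * (C * X * (L : ℝ) ^ 3 * ((L : ℝ) ^ 6) ^ (-(3 / 4) : ℝ)) := by
        gcongr
    _ = 5 * (C * X) * ((L : ℝ) ^ 3 * ((L : ℝ) ^ 6) ^ (-(3 / 4) : ℝ)) := by ring
    _ = 5 * (C * X) * (1 / ((L : ℝ) * √(L : ℝ))) := by rw [ev1_pow hL]
    _ = X / (2 * L) * (10 * C / √(L : ℝ)) := by
        field_simp
        ring
    _ ≤ X / (2 * L) * 1 := by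
        refine mul_le_mul_of_nonneg_left ?_ (by positivity)
        rw [div_le_one hs0]
        exact h4
    _ = _ := mul_one _

private theorem ev1_err2 {L : ℕ} {X Gm W4 sP lP Z : ℝ} (hL : 10 ^ 6 ≤ L)
    (hZ : 1 ≤ Z) (hGm0 : 0 ≤ Gm) (hGm : Gm ≤ 2 ^ (L / 100)) (_hW0 : 0 ≤ W4)
    (hW4 : W4 ≤ 2 ^ (L / 100)) (hs0 : 0 ≤ sP) (hsP : sP ≤ 2 ^ (5 * (L / 10) + 5))
    (hl0 : 0 ≤ lP) (hlP : lP ≤ L) (hX : (2 : ℝ) ^ (9 * (L / 10)) ≤ X)
    (hw : 10000 * (L : ℝ) ^ 4 * 2 ^ (L / 100) * 2 ^ (L / 100) * 2 ^ (5 * (L / 10) + 5) ≤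
      2 ^ (9 * (L / 10))) :
    (20 * Gm + 200 * Z * W4) * (sP * lP ^ 2) ≤ Z * (X / (2 * L)) := by
  have hLr : (10 : ℝ) ^ 6 ≤ L := by exact_mod_cast hL
  have hL0 : (0 : ℝ) < L := lt_of_lt_of_le (by norm_num) hLr
  set E : ℝ := 2 ^ (L / 100) with hE
  set S : ℝ := 2 ^ (5 * (L / 10) + 5) with hS
  have hE1 : 1 ≤ E := one_le_pow₀ (by norm_num)
  have hS0 : 0 < S := by positivity
  have h1 : 20 * Gm + 200 * Z * W4 ≤ Z * (220 * E) := by
    have h2 : 20 * Gm ≤ Z * (20 * E) := by nlinarith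
    have h3 : 200 * Z * W4 ≤ 200 * Z * E := mul_le_mul_of_nonneg_left hW4 (by positivity)
    nlinarith
  have h2 : sP * lP ^ 2 ≤ S * (L : ℝ) ^ 2 :=
    mul_le_mul hsP (pow_le_pow_left₀ hl0 hlP 2) (by positivity) hS0.le
  have h3 : 220 * E * (S * (L : ℝ) ^ 2) ≤ X / (2 * L) := by
    rw [le_div_iff₀ (by positivity)]
    refine le_trans ?_ (hw.trans hX)
    have h4 : 220 * E * (S * (L : ℝ) ^ 2) * (2 * L) = (440 * (L : ℝ) ^ 3) * (E * S) := by ring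
    have h5 : 10000 * (L : ℝ) ^ 4 * E * E * S = (10000 * (L : ℝ) ^ 4 * E) * (E * S) := by ring
    rw [h4, h5]
    refine mul_le_mul_of_nonneg_right ?_ (by positivity)
    have h6 : (L : ℝ) ^ 3 ≤ (L : ℝ) ^ 4 := pow_le_pow_right₀ (by linarith) (by norm_num)
    have h7 : 0 ≤ (L : ℝ) ^ 4 := by positivity
    have h8 : 0 ≤ (L : ℝ) ^ 3 := by positivity
    nlinarith
  calc (20 * Gm + 200 * Z * W4) * (sP * lP ^ 2) ≤ Z * (220 * E) * (S * (L : ℝ) ^ 2) :=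
        mul_le_mul h1 h2 (by positivity) (by positivity)
    _ = Z * (220 * E * (S * (L : ℝ) ^ 2)) := by ring
    _ ≤ Z * (X / (2 * L)) := mul_le_mul_of_nonneg_left h3 (by linarith)

/-- the last step -/
private theorem ev1_sums {P H M b j : ℕ} (hj : j < H) (hHP : H ≤ P) (_hP0 : 0 < P)
    (hlog4 : Real.log (4 * P) ≤ 2 * Real.log P) (F : ℤ → ℝ) (hF : ∀ n, 0 ≤ F n) :
    ∑ m ∈ (Ioc P (4 * P)).filter (fun m => m ≡ b + j [MOD M] ∧ m.Prime),
        Real.log m * F ((m : ℤ) + (-(j : ℤ))) ≤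
      2 * Real.log P * ∑ n ∈ (Nw P H M b).filter (fun n => (n + j).Prime), F (n : ℤ) := by
  classical
  have hmj : ∀ m ∈ (Ioc P (4 * P)).filter (fun m => m ≡ b + j [MOD M] ∧ m.Prime), j ≤ m := by
    intro m hm
    have := (mem_Ioc.1 (mem_filter.1 hm).1).1
    omega
  rw [Finset.mul_sum]
  calc ∑ m ∈ (Ioc P (4 * P)).filter (fun m => m ≡ b + j [MOD M] ∧ m.Prime),
      Real.log m * F ((m : ℤ) + (-(j : ℤ)))
      ≤ ∑ m ∈ (Ioc P (4 * P)).filter (fun m => m ≡ b + j [MOD M] ∧ m.Prime),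
        2 * Real.log P * F (((m - j : ℕ) : ℕ) : ℤ) := by
        refine Finset.sum_le_sum fun m hm => ?_
        have h1 := mem_Ioc.1 (mem_filter.1 hm).1
        have h2 : ((m : ℤ) + (-(j : ℤ))) = ((m - j : ℕ) : ℤ) := by
          rw [Nat.cast_sub (hmj m hm)]; ring
        rw [h2]
        have h4 : Real.log m ≤ 2 * Real.log P := by
          refine le_trans (Real.log_le_log ?_ ?_) hlog4
          · have : 0 < m := by omega
            exact_mod_cast this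
          · exact_mod_cast h1.2
        exact mul_le_mul_of_nonneg_right h4 (hF _)
    _ = ∑ n ∈ ((Ioc P (4 * P)).filter (fun m => m ≡ b + j [MOD M] ∧ m.Prime)).image
          (fun m => m - j), 2 * Real.log P * F (n : ℤ) := by
        rw [Finset.sum_image]
        intro m hm m' hm' h
        have h1 := hmj m hm
        have h2 := hmj m' hm'
        simp only at h
        omega
    _ ≤ ∑ n ∈ (Nw P H M b).filter (fun n => (n + j).Prime),
          2 * Real.log P * F (n : ℤ) := by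
        refine Finset.sum_le_sum_of_subset_of_nonneg ?_ ?_
        · intro n hn
          obtain ⟨m, hm, rfl⟩ := mem_image.1 hn
          have h1 := mem_Ioc.1 (mem_filter.1 hm).1
          have h2 := (mem_filter.1 hm).2
          have h4 := hmj m hm
          have h5 : m - j + j = m := Nat.sub_add_cancel h4
          rw [mem_filter, h5]
          refine ⟨?_, h2.2⟩
          unfold Nw
          rw [mem_filter, mem_Ioc]
          refine ⟨⟨by omega, by omega⟩, ?_⟩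
          have h6 : m - j + j ≡ b + j [MOD M] := by rw [h5]; exact h2.1
          exact Nat.ModEq.add_right_cancel' j h6
        · intro n _ _
          have : 0 ≤ Real.log P := Real.log_natCast_nonneg P
          exact mul_nonneg (mul_nonneg zero_le_two this) (hF _)

theorem ev1 : ∃ L0 : ℕ, ∀ (CV0 CV : ℝ) (G r P L M H : ℕ) (R : Finset ℕ) (g s m1 d N : ℕ),
    SD CV0 CV G r P L M H R g s m1 d N → L0 ≤ L →
    ∀ b j : ℕ, j < H → j ∉ R → Nat.Coprime (b + j) M →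
    1 / 3 * Zy L m1 s d R * psi M (b + j) P - Zy L m1 s d R * ((P : ℝ) / M) / L ≤
      2 * Real.log P * ∑ n ∈ (Nw P H M b).filter (fun n => (n + j).Prime),
        gy L m1 s d r R (n : ℤ) ^ 2 := by
  classical
  obtain ⟨C, hC, P1, hbv⟩ := bv
  obtain ⟨L2, hL2⟩ := exists_nat_ge ((10 * C) ^ 2)
  refine ⟨max P1 L2, ?_⟩
  intro CV0 CV G r P L M H R g s m1 d N sd hL0 b j hj hjR hcop
  have pb := sd.pb
  have pl := pb.pl
  have hL6 : 10 ^ 6 ≤ L := pb.big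
  obtain ⟨hX9, hsP, hlP4, hLP, hHP, hX1, -⟩ := sz sd.hL hL6 sd.hM0 sd.hMP sd.hH
  have hLr : (10 : ℝ) ^ 6 ≤ L := by exact_mod_cast hL6
  have hLpos : (0 : ℝ) < L := lt_of_lt_of_le (by norm_num) hLr
  have hLltP : L < P := lt_of_lt_of_le (Nat.lt_two_pow_self) hLP
  have hPP1 : P1 ≤ P := le_trans (le_trans (le_max_left _ _) hL0) hLltP.le
  have hLL2 : (10 * C) ^ 2 ≤ L := hL2.trans (by exact_mod_cast le_trans (le_max_right _ _) hL0)
  have hP2 : 2 ≤ P := by omega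
  have hPr0 : (0 : ℝ) < P := by exact_mod_cast (by omega : 0 < P)
  have hP4 : (4 : ℝ) ≤ P := by exact_mod_cast (by omega : 4 ≤ P)
  have hM0 : (0 : ℝ) < M := by exact_mod_cast sd.hM0
  have hmL : m1 ≤ L := by
    have h1 := pl.m_le_s
    have h2 := pb.s_le
    have h3 : dd L ≤ L := Nat.div_le_self _ _
    omega
  -- the primes
  have hp : ∀ i : Iy L m1, (py L m1 i).Prime := fun i => (py_mem i).1
  have hq : ∀ i : I1 (Bk L m1 ∅) (Nat.log 2 m1), (p1 (Bk L m1 ∅) (Nat.log 2 m1) i).Prime :=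
    fun x => (bk_mem x.2.2).1
  have hq6 : ∀ i : I1 (Bk L m1 ∅) (Nat.log 2 m1), L ^ 6 < p1 (Bk L m1 ∅) (Nat.log 2 m1) i :=
    fun x => (bk_mem x.2.2).2.1
  have hqP : ∀ i : I1 (Bk L m1 ∅) (Nat.log 2 m1), p1 (Bk L m1 ∅) (Nat.log 2 m1) i ≤ P := fun x =>
    le_trans (bk_mem x.2.2).2.2.1 (le_trans (Nat.pow_le_pow_right (by norm_num) hmL) hLP)
  have hpP : ∀ i : Iy L m1, py L m1 i ≤ P := fun i =>
    le_trans (py_mem i).2.2.1 (le_trans (Nat.pow_le_pow_right (by norm_num) (Nat.div_le_self _ _)) hLP)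
  have hL62 : (L : ℝ) ^ 6 ≤ (2 : ℝ) ^ m1 := by exact_mod_cast pl.L6
  have hLL6 : (L : ℝ) ≤ (L : ℝ) ^ 6 := by
    calc (L : ℝ) = (L : ℝ) ^ 1 := (pow_one _).symm
      _ ≤ (L : ℝ) ^ 6 := pow_le_pow_right₀ (by linarith) (by norm_num)
  have hz100 : (100 : ℝ) ≤ (2 : ℝ) ^ m1 := by linarith
  have hz : ∀ i : Iy L m1, (2 : ℝ) ^ m1 ≤ (py L m1 i : ℝ) - 1 := by
    intro i
    have h1 : 2 ^ m1 + 1 ≤ py L m1 i := (py_mem i).2.1
    have h2 : ((2 ^ m1 + 1 : ℕ) : ℝ) ≤ (py L m1 i : ℝ) := by exact_mod_cast h1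
    push_cast at h2
    linarith
  -- the elements
  obtain ⟨hax, haxi⟩ := ax_ok (L := L) sd.hH sd.hR
  have hj2 : |(-(j : ℤ))| < (L : ℤ) ^ 2 := by
    rw [abs_neg, abs_of_nonneg (Int.natCast_nonneg j)]
    have h1 : j < L ^ 2 := lt_of_lt_of_le hj sd.hH
    exact_mod_cast h1
  have hne : ∀ k : {j : ℕ // j ∈ R}, ax R k ≠ -(j : ℤ) := by
    intro k h
    apply hjR
    have h1 : (k : ℕ) = j := by
      unfold ax at h
      have h2 := neg_injective h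
      exact_mod_cast h2
    rw [← h1]
    exact k.2
  have h0 : ∀ (i : Iy L m1) (k : {j : ℕ // j ∈ R}), ¬ (py L m1 i : ℤ) ∣ ax R k - (-(j : ℤ)) :=
    fun i k => no_dvd (by omega) (py_mem i).2.2.2 (hax k) hj2 (hne k)
  have hd : ∀ (i : Iy L m1) (k k' : {j : ℕ // j ∈ R}), k ≠ k' →
      ¬ (py L m1 i : ℤ) ∣ ax R k - ax R k' :=
    fun i k k' hkk => no_dvd (by omega) (py_mem i).2.2.2 (hax k) (hax k') (fun h => hkk (haxi h))
  -- the small sieve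
  have hss := ss_py pb sd.h4 (ax R) hax haxi
  have hsx := sx_py pb sd.h4 (ax R) (-(j : ℤ)) hax haxi hj2 hne
  have hPi1 : ∀ k, Piy L m1 k ≤ 1 := by
    intro k
    induction k with
    | zero => exact hss.pi_zero.le
    | succ k ih =>
      refine (hss.pi_step k).trans ?_
      calc Piy L m1 1 * Piy L m1 k ≤ 1 * 1 :=
            mul_le_mul hss.V1_le_one ih (hss.pi_nonneg k) zero_le_one
        _ = 1 := one_mul 1
  -- constants
  have hRR1 : 1 ≤ RR G r := ev1_RR G r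
  have hNR : N ≤ RR G r := pl.N_le
  have hCKL : CK (2 * N + 2) ≤ L := (ev1_CK (by omega)).trans pb.ck
  have hCq : ∀ i : I1 (Bk L m1 ∅) (Nat.log 2 m1),
      CK (2 * N + 2) ≤ (p1 (Bk L m1 ∅) (Nat.log 2 m1) i : ℝ) ^ (1 / 4 : ℝ) := by
    intro i
    refine hCKL.trans ?_
    have h1 : (L : ℝ) ^ 4 ≤ (p1 (Bk L m1 ∅) (Nat.log 2 m1) i : ℝ) := by
      have h2 : L ^ 4 ≤ L ^ 6 := Nat.pow_le_pow_right (by omega) (by norm_num)
      have h3 := hq6 i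
      exact_mod_cast (h2.trans h3.le)
    calc (L : ℝ) = ((L : ℝ) ^ 4) ^ (1 / 4 : ℝ) := by
          rw [← Real.rpow_natCast, ← Real.rpow_mul hLpos.le]
          norm_num
      _ ≤ _ := Real.rpow_le_rpow (by positivity) h1 (by norm_num)
  obtain ⟨-, hHlog⟩ := hlog_y pb sd.hG3
  have hp2 : ∀ i : Iy L m1, 2 ≤ py L m1 i := fun i => (hp i).two_le
  have hy0 : yy L m1 s ∅ = 1 := wt_empty _ _
  have hy1 : ∀ S, |yy L m1 s S| ≤ 1 := fun S => wt_abs hp2 hHlog S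
  have hD1 : (1 : ℝ) ≤ 2 ^ d := one_le_pow₀ (by norm_num)
  have hN : ∀ S : Finset (Iy L m1), PP (py L m1) S ≤ 2 ^ d → S.card ≤ N := by
    intro S hS
    rw [pl.hN]
    exact py_card pl.m_pos S hS
  have hcardκ : Fintype.card {j : ℕ // j ∈ R} ≤ L + 2 := by
    rw [Fintype.card_coe]
    have := sd.hkL
    omega
  have hzN : (1 + 1 / (2 : ℝ) ^ m1) ^ N ≤ 3 / 2 := by
    have h1 : 1 + 1 / (2 : ℝ) ^ m1 ≤ Real.exp (1 / (2 : ℝ) ^ m1) := by
      have := Real.add_one_le_exp (1 / (2 : ℝ) ^ m1)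
      linarith
    have h2 : (N : ℝ) * (1 / (2 : ℝ) ^ m1) ≤ 1 / 10 := by
      have h3 : (N : ℝ) ≤ L / 100 := by
        have h4 : ((100 * RR G r : ℕ) : ℝ) ≤ L := by exact_mod_cast pb.rl
        have h5 : (N : ℝ) ≤ (RR G r : ℝ) := by exact_mod_cast hNR
        push_cast at h4
        linarith
      rw [mul_one_div, div_le_iff₀ (by positivity)]
      linarith
    have h3 : Real.exp (1 / 10) ≤ 3 / 2 := by
      have h4 := Real.exp_bound_div_one_sub_of_interval (x := 1 / 10) (by norm_num) (by norm_num)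
      refine h4.trans ?_
      norm_num
    calc (1 + 1 / (2 : ℝ) ^ m1) ^ N ≤ Real.exp (1 / (2 : ℝ) ^ m1) ^ N :=
          pow_le_pow_left₀ (by positivity) h1 N
      _ = Real.exp (N * (1 / (2 : ℝ) ^ m1)) := (Real.exp_nat_mul _ _).symm
      _ ≤ Real.exp (1 / 10) := Real.exp_le_exp.2 h2
      _ ≤ 3 / 2 := h3
  have hA := offA_le pb {j : ℕ // j ∈ R} hcardκ hNR
  have hWl : (1 : ℝ) ≤ 2 ^ (m1 * (4 * r + 4)) := one_le_pow₀ (by norm_num)
  have hψ : ∀ c : ℤ, LowE (p1 (Bk L m1 ∅) (Nat.log 2 m1)) (-(j : ℤ)) (2 ^ (m1 * (4 * r + 4)))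
      (fun n => psy L m1 r (n - c)) := fun c =>
    lv_psi (fun i _ q hq => (bk_mem hq).1) (fun i _ q hq => ev1_blk hq) _ c
  set Wl : ℝ := 2 ^ (m1 * (4 * r + 4)) with hWlE
  set D : ℝ := 2 ^ d with hDE
  set Gm : ℝ := (2 * D ^ 2 * (3 * Wl) ^ N) ^ 2 with hGmE
  have hG1 : ∀ n : ℤ, GZ (py L m1) (ax R) (psy L m1 r) (Yd (py L m1) (yy L m1 s) D) n ^ 2 ≤ Gm :=
    fun n => trW hp2 hss hN hy1 (cnt_y (by omega) _ hcardκ (by linarith)) n
  have hGmL : Gm ≤ 2 ^ (L / 100) := w_le pb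
  have hW4 : (D * Wl ^ N) ^ 4 ≤ 2 ^ (L / 100) := by
    have h1 : (D * Wl ^ N) ^ 2 ≤ 2 ^ (L / 1000) := pb.lev
    have h2 : (D * Wl ^ N) ^ 4 = ((D * Wl ^ N) ^ 2) ^ 2 := by ring
    rw [h2]
    calc ((D * Wl ^ N) ^ 2) ^ 2 ≤ (2 ^ (L / 1000)) ^ 2 :=
          pow_le_pow_left₀ (by positivity) h1 2
      _ = 2 ^ (L / 1000 * 2) := (pow_mul _ _ _).symm
      _ ≤ 2 ^ (L / 100) := pow_le_pow_right₀ (by norm_num) (by omega)
  have hlevP : (D * Wl ^ N) ^ 2 ≤ (P : ℝ) ^ (1 / 1000 : ℝ) := by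
    have h1 : (D * Wl ^ N) ^ 2 ≤ 2 ^ (L / 1000) := pb.lev
    have h2 : ((L / 1000 : ℕ) : ℝ) ≤ (L : ℝ) * (1 / 1000) := by
      have := Nat.cast_div_le (α := ℝ) (m := L) (n := 1000)
      push_cast at this
      linarith
    have h3 : (2 : ℝ) ^ L ≤ P := by exact_mod_cast hLP
    refine h1.trans ?_
    calc (2 : ℝ) ^ (L / 1000) = (2 : ℝ) ^ (((L / 1000 : ℕ) : ℝ)) := (Real.rpow_natCast _ _).symm
      _ ≤ (2 : ℝ) ^ ((L : ℝ) * (1 / 1000)) :=
          Real.rpow_le_rpow_of_exponent_le (by norm_num) h2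
      _ = ((2 : ℝ) ^ L) ^ (1 / 1000 : ℝ) := by
          rw [Real.rpow_mul (by norm_num), Real.rpow_natCast]
      _ ≤ (P : ℝ) ^ (1 / 1000 : ℝ) := Real.rpow_le_rpow (by positivity) h3 (by norm_num)
  have hpr : ∀ i, (Sum.elim (p1 (Bk L m1 ∅) (Nat.log 2 m1)) (py L m1) i).Prime := by
    rintro (i | i)
    · exact hq i
    · exact hp i
  have hpr6 : ∀ i, L ^ 6 < Sum.elim (p1 (Bk L m1 ∅) (Nat.log 2 m1)) (py L m1) i := by
    rintro (i | i)
    · exact hq6 i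
    · exact (py_mem i).2.2.2
  have hL61 : (1 : ℝ) ≤ (L : ℝ) ^ 6 := one_le_pow₀ (by linarith)
  have hB := hbv P hPP1 M (b + j) sd.hM0 sd.hMP hcop
    (I1 (Bk L m1 ∅) (Nat.log 2 m1) ⊕ Iy L m1) (Sum.elim (p1 (Bk L m1 ∅) (Nat.log 2 m1)) (py L m1))
    hpr (elim_inj L m1) (fun i => sd.hM _ (hpr i) (hpr6 i)) ((L : ℝ) ^ 6) ((D * Wl ^ N) ^ 2) hL61
    (fun i => by exact_mod_cast (hpr6 i).le) hlevP
  have hmain := e1g hq hp (elim_inj L m1) (P := P) (M := M) (r := b + j) hP2 hqP hpP hz100 hz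
    (ax R) (-(j : ℤ)) h0 hd hsx hss.pi_nonneg hPi1 hss.pi_zero (ev1_CK0 _) hCq hy0 hy1 hD1 hN
    (by omega) hzN hA hWl hψ hG1 hB
  have hZ1 : 1 ≤ Zy L m1 s d R := Zy_one pb R
  have hlogP0 : 0 ≤ Real.log P := Real.log_natCast_nonneg P
  have hlogPL : Real.log P ≤ L := by
    refine le_trans (Real.log_le_log hPr0 ?_) hlP4
    linarith
  have hlog4 : Real.log (4 * P) ≤ 2 * Real.log P := by
    have h1 : Real.log (4 * P) ≤ Real.log ((P : ℝ) ^ 2) := by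
      apply Real.log_le_log (by positivity)
      rw [pow_two]
      exact mul_le_mul_of_nonneg_right hP4 hPr0.le
    rw [Real.log_pow] at h1
    exact_mod_cast h1
  have herr1 := ev1_err1 (C := C) (X := (P : ℝ) / M) (lP := Real.log P) (L := L) hC
    (by positivity) (by omega) hlogP0 hlogPL hLL2
  have herr2 := ev1_err2 (L := L) (X := (P : ℝ) / M) (Gm := Gm) (W4 := (D * Wl ^ N) ^ 4)
    (sP := √(P : ℝ)) (lP := Real.log (4 * P)) (Z := Zy L m1 s d R) hL6 hZ1 (sq_nonneg _) hGmL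
    (by positivity) hW4 (Real.sqrt_nonneg _) hsP (Real.log_nonneg (by linarith)) hlP4 hX9
    (sz_w hL6).2
  have hsums := ev1_sums (P := P) (H := H) (M := M) (b := b) (j := j) hj hHP (by omega) hlog4
    (fun n => gy L m1 s d r R n ^ 2) (fun n => sq_nonneg _)
  refine le_trans ?_ (le_trans hmain hsums)
  have hZZ : ZZ {j : ℕ // j ∈ R} (py L m1) (yy L m1 s) D (Piy L m1) = Zy L m1 s d R := rfl
  rw [hZZ]
  have e1 := mul_le_mul_of_nonneg_left herr1 (by linarith : (0 : ℝ) ≤ Zy L m1 s d R)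
  have e2 : Zy L m1 s d R * ((P : ℝ) / M) / L =
      Zy L m1 s d R * (((P : ℝ) / M) / (2 * L)) + Zy L m1 s d R * (((P : ℝ) / M) / (2 * L)) := by
    field_simp
    ring
  rw [e2]
  have e3 : 5 * Zy L m1 s d R *
      (C * (P / M) * Real.log P ^ 3 * ((L : ℝ) ^ 6) ^ (-(3 / 4) : ℝ)) = Zy L m1 s d R *
      (5 * (C * (P / M) * Real.log P ^ 3 * ((L : ℝ) ^ 6) ^ (-(3 / 4) : ℝ))) := by ring
  rw [e3]
  have e4 : 1 / 3 * Zy L m1 s d R * psi M (b + j) P = Zy L m1 s d R / 3 * psi M (b + j) P := by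
    ring
  rw [e4]
  linarith

end Pool.Agent.AV
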