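import Pool.Agent.VOID.RepG

/-! AV/RepG2.  The weight of `GZ` with separate bounds for the support (`N'`) and for the number of nonempty
cells (`Nt`).  PLAN: exactly the proof of `rep_GZ` (VOID/RepG): `EE p a σ` has weight `3 ^ (supp σ).card`, `Ps ψ a σ`
has weight `Wψ ^ (Tc σ).card`. -/

set_option autoImplicit false

open Finset Pool.Agent.RS Pool.Agent.VOID

namespace Pool.Agent.AV

variable {ι κ : Type} [Fintype ι] [DecidableEq ι] [DecidableEq κ] [Fintype κ]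

private theorem repg2_ee {q Q : ℕ} (hq : 2 ≤ q) (hQ : q ∣ Q) : Rep Q (ee q) 3 := by
  have hq' : (2 : ℝ) ≤ q := by exact_mod_cast hq
  have hcls : Rep Q (fun z => if (q : ℤ) ∣ z - 0 then (1 : ℝ) else 0) 1 :=
    Rep.cls (Or.inr ⟨q, 0, hQ, by omega, fun n => rfl⟩)
  have h := (Rep.const (Q := Q) (1 / ((q : ℝ) - 1))).add
    (hcls.smul (-((q : ℝ) / ((q : ℝ) - 1))))
  have hf : (fun n : ℤ => 1 / ((q : ℝ) - 1) +
      -((q : ℝ) / ((q : ℝ) - 1)) * (if (q : ℤ) ∣ n - 0 then (1 : ℝ) else 0)) = ee q := by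
    funext n
    have hq1 : (q : ℝ) - 1 ≠ 0 := by linarith
    unfold ee
    rw [sub_zero]
    split_ifs with hd
    · field_simp
      ring
    · ring
  rw [hf] at h
  refine h.mono ?_
  have hq1 : 0 < (q : ℝ) - 1 := by linarith
  rw [abs_neg, abs_of_nonneg (by positivity), abs_of_nonneg (by positivity), mul_one, ← add_div,
    div_le_iff₀ hq1]
  linarith

private theorem repg2_EE {p : ι → ℕ} (hp : ∀ i, 2 ≤ p i) {Q : ℕ} (hQ : ∀ i, p i ∣ Q)
    (a : κ → ℤ) (σ : ι → Option κ) : Rep Q (EE p a σ) (3 ^ (supp σ).card) := by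
  classical
  have h := Rep.prod (Q := Q) univ (fun i n => eo (p i) a n (σ i))
    (fun i => if σ i ≠ none then (3 : ℝ) else 1) (by
      intro i _
      cases hi : σ i with
      | none => simpa [eo] using (Rep.one (Q := Q))
      | some j =>
        have h2 := (repg2_ee (hp i) (hQ i)).shift (a j)
        simpa [eo] using h2)
  have hw : ∏ i, (if σ i ≠ none then (3 : ℝ) else 1) = 3 ^ (supp σ).card := by
    rw [Finset.prod_ite, Finset.prod_const, Finset.prod_const_one, mul_one]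
    rfl
  rw [hw] at h
  exact h

private theorem repg2_Ps {Q Q1 : ℕ} (hQ : Q1 ∣ Q) {ψ : ℤ → ℝ} {Wψ : ℝ} (hψ : Rep Q1 ψ Wψ)
    (a : κ → ℤ) (σ : ι → Option κ) : Rep Q (Ps ψ a σ) (Wψ ^ (Tc σ).card) := by
  have h := Rep.prod (Q := Q) (Tc σ) (fun j n => ψ (n - a j)) (fun _ => Wψ) (by
    intro j _
    exact (hψ.dvd_mono hQ).shift (a j))
  rw [Finset.prod_const] at h
  exact h

theorem rep_GZ2 {p : ι → ℕ} (hp : ∀ i, 2 ≤ p i) {Q1 : ℕ} {ψ : ℤ → ℝ} {Wψ : ℝ}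
    (hψ : Rep Q1 ψ Wψ) (hW : 1 ≤ Wψ) (a : κ → ℤ) (Z : (ι → Option κ) → ℝ)
    (hZ1 : ∀ σ, |Z σ| ≤ 1) {N' Nt : ℕ} (hN : ∀ σ, Z σ ≠ 0 → (supp σ).card ≤ N')
    (hT : ∀ σ, Z σ ≠ 0 → (Tc σ).card ≤ Nt) {C : ℝ}
    (hC : (((univ : Finset (ι → Option κ)).filter (fun σ => Z σ ≠ 0)).card : ℝ) ≤ C) :
    Rep (Q1 * ∏ i, p i) (GZ p a ψ Z) (C * (3 ^ N' * Wψ ^ Nt)) := by
  classical
  have hW0 : (0 : ℝ) ≤ Wψ := by linarith
  have hpQ : ∀ i, p i ∣ Q1 * ∏ i, p i := fun i =>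
    Dvd.dvd.mul_left (Finset.dvd_prod_of_mem p (Finset.mem_univ i)) Q1
  have hterm : ∀ σ ∈ (univ : Finset (ι → Option κ)), Rep (Q1 * ∏ i, p i)
      (fun n => Z σ * (Ps ψ a σ n * EE p a σ n))
      (if Z σ ≠ 0 then (3 : ℝ) ^ N' * Wψ ^ Nt else 0) := by
    intro σ _
    have h := ((repg2_Ps (Dvd.intro _ rfl) hψ a σ).mul (repg2_EE hp hpQ a σ)).smul (Z σ)
    refine h.mono ?_
    split_ifs with hZ
    · have h1 : Wψ ^ (Tc σ).card ≤ Wψ ^ Nt :=
        pow_le_pow_right₀ hW (hT σ hZ)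
      have h2 : (3 : ℝ) ^ (supp σ).card ≤ 3 ^ N' :=
        pow_le_pow_right₀ (by norm_num) (hN σ hZ)
      have h3 : Wψ ^ (Tc σ).card * 3 ^ (supp σ).card ≤ 3 ^ N' * Wψ ^ Nt := by
        rw [mul_comm ((3 : ℝ) ^ N')]
        exact mul_le_mul h1 h2 (by positivity) (by positivity)
      calc |Z σ| * (Wψ ^ (Tc σ).card * 3 ^ (supp σ).card)
          ≤ 1 * (Wψ ^ (Tc σ).card * 3 ^ (supp σ).card) :=
            mul_le_mul_of_nonneg_right (hZ1 σ) (by positivity)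
        _ ≤ 3 ^ N' * Wψ ^ Nt := by rw [one_mul]; exact h3
    · have : Z σ = 0 := not_not.mp hZ
      rw [this, abs_zero, zero_mul]
  have h := Rep.sum univ _ _ hterm
  refine Rep.mono h ?_
  rw [Finset.sum_ite, Finset.sum_const_zero, add_zero, Finset.sum_const, nsmul_eq_mul]
  refine mul_le_mul_of_nonneg_right ?_ (by positivity)
  exact hC

end Pool.Agent.AV
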