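import Pool.Agent.AV.SelV
import Pool.Agent.AV.RepG2
import Pool.Agent.VOID.AbsT

/-! AV/PairV.  Pairs of rough elements for the VOID weight.
`a2' = fun o => o.elim a2 (fun o' => o'.elim a1 a)` on `Option (Option κ)`.
PLAN.  `sel_v` twice (first `a1`, then `a2` with level `D * D1`) gives `Y''` on `Option (Option κ)` of level
`D D1^2`, with `Y (rs (rs σ)) ≠ 0` when `Y'' σ ≠ 0`, `∑ Y''^2/PH W(rs (rs σ)) ≤ (∑ Y^2/PH W)/Gm^2`.  If both
elements are rough at `n` then `GZ p a ψ Y n = GZ p a2' ψ Y'' n` and `ψ (n-a1) ψ (n-a2) = 1`, so the left side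
is `≤ ∑_t ψ(n-a1) ψ(n-a2) GZ'' ^ 2` (`ψ ≥ 0`).  For `Y'' σ ≠ 0`: `(supp σ).card ≤ N'`, `Tc σ` is contained in the
image of `Tc (rs (rs σ))` (at most `N` elements, because `Y (rs (rs σ)) ≠ 0` gives `PP ≤ D`) and the two new
elements, so `(Tc σ).card ≤ N + 2`.
Mean value: `quad` with `F0 = ψ(n-a1) ψ(n-a2)`, `U = 2` (`hs.up`, exponents `≤ 3`, at most `2 N + 2`
elements), diagonal terms: `mean (F0 Ps''^2) ≤ 2 Pi (card)` where `card = (Tc (rs (rs σ))).card + 2` (the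
elements `a1`, `a2` always occur: exponent `1` or `3`), and `Pi (r+2) ≤ V1^2 Pi r` (`pi_step`); so the diagonal
is `≤ 2 V1^2 (∑ Y^2/PH Pi(Tc))/Gm^2`; `off` (VOID/Off) for `Y''` with `N'`.
Transfer: `rep_GZ2`, `Rep.mul`, `Rep.shift`, `Rep.dvd_mono`, `Rep.avg` as in VOID/AbsT (`tr1`). -/

set_option autoImplicit false

open Finset Pool.Agent.RS Pool.Agent.AT Pool.Agent.VOID

namespace Pool.Agent.AV

variable {ι κ : Type} [Fintype ι] [DecidableEq ι] [DecidableEq κ] [Fintype κ]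

omit [Fintype κ] in
private theorem pv_ext {T U : Finset κ} (hT : T ⊆ U) (f : κ → ℝ) :
    ∏ j ∈ T, f j = ∏ j ∈ U, f j ^ (if j ∈ T then 1 else 0) := by
  rw [← Finset.prod_subset hT (fun j _ hj => by rw [if_neg hj, pow_zero])]
  refine Finset.prod_congr rfl fun j hj => ?_
  rw [if_pos hj, pow_one]

omit [Fintype κ] in
private theorem pv_single {U : Finset κ} {j : κ} (hj : j ∈ U) (f : κ → ℝ) :
    f j = ∏ k ∈ U, f k ^ (if k = j then 1 else 0) := by
  have h := pv_ext (T := {j}) (U := U) (Finset.singleton_subset_iff.2 hj) f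
  rw [Finset.prod_singleton] at h
  simpa only [Finset.mem_singleton] using h

/-- the elements of `V` and the two new elements -/
private def pvU (V : Finset κ) : Finset (Option (Option κ)) :=
  insert none (insert (some none) (V.image fun j => some (some j)))

omit [Fintype κ] in
private theorem pv_card (V : Finset κ) : (pvU V).card = V.card + 2 := by
  unfold pvU
  rw [Finset.card_insert_of_notMem (by simp), Finset.card_insert_of_notMem (by simp),
    Finset.card_image_of_injective _ (fun i j h => by simpa using h)]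

private theorem pv_tc (σ : ι → Option (Option (Option κ))) {V : Finset κ}
    (hV : Tc (rs (rs σ)) ⊆ V) : Tc σ ⊆ pvU V := by
  intro o ho
  have h1 : cell σ o ≠ ∅ := (Finset.mem_filter.1 ho).2
  obtain ⟨i, hi⟩ := Finset.nonempty_iff_ne_empty.2 h1
  rw [mem_cell] at hi
  unfold pvU
  rcases o with _ | _ | j
  · exact Finset.mem_insert_self _ _
  · exact Finset.mem_insert_of_mem (Finset.mem_insert_self _ _)
  · refine Finset.mem_insert_of_mem (Finset.mem_insert_of_mem (Finset.mem_image.2 ⟨j, hV ?_, rfl⟩))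
    refine Finset.mem_filter.2 ⟨Finset.mem_univ _, ?_⟩
    refine Finset.nonempty_iff_ne_empty.1 ⟨i, ?_⟩
    rw [mem_cell]
    unfold rs
    rw [hi]
    rfl

private theorem pv_mean {Q1 : ℕ} {a2' : Option (Option κ) → ℤ} {ψ : ℤ → ℝ} {Wψ : ℝ} {Pi : ℕ → ℝ}
    {V1 : ℝ} {K : ℕ} (hs : SS Q1 ψ Wψ Pi V1 K a2') (σ σ' : ι → Option (Option (Option κ)))
    (V : Finset κ) (h1 : Tc (rs (rs σ)) ⊆ V) (h2 : Tc (rs (rs σ')) ⊆ V) (h3 : V ⊆
      Tc (rs (rs σ)) ∪ Tc (rs (rs σ'))) (hK : V.card + 2 ≤ K) :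
    mean Q1 (fun n => ψ (n - a2' (some none)) * ψ (n - a2' none) *
      (Ps ψ a2' σ n * Ps ψ a2' σ' n)) ≤ 2 * Pi (V.card + 2) := by
  have hup : ∀ (σ : ι → Option (Option (Option κ))) (j : κ), j ∈ Tc (rs (rs σ)) →
      some (some j) ∈ Tc σ := by
    intro σ j hj
    have e1 : cell (rs (rs σ)) j ≠ ∅ := (Finset.mem_filter.1 hj).2
    obtain ⟨i, hi⟩ := Finset.nonempty_iff_ne_empty.2 e1
    rw [mem_cell] at hi
    refine Finset.mem_filter.2 ⟨Finset.mem_univ _, Finset.nonempty_iff_ne_empty.1 ⟨i, ?_⟩⟩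
    rw [mem_cell]
    unfold rs at hi
    rcases h : σ i with _ | _ | _ | k
    · rw [h] at hi
      exact absurd hi (by simp)
    · rw [h] at hi
      exact absurd hi (by simp)
    · rw [h] at hi
      exact absurd hi (by simp)
    · rw [h] at hi
      have e2 : k = j := by simpa using hi
      rw [e2]
  have hn1 : (none : Option (Option κ)) ∈ pvU V := Finset.mem_insert_self _ _
  have hn2 : (some none : Option (Option κ)) ∈ pvU V :=
    Finset.mem_insert_of_mem (Finset.mem_insert_self _ _)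
  have h4 := hs.up (pvU V) (fun k => ((if k = some none then 1 else 0) +
    (if k = none then 1 else 0)) + ((if k ∈ Tc σ then 1 else 0) + (if k ∈ Tc σ' then 1 else 0)))
    (by rw [pv_card]; exact hK) (by
      intro k hk
      rcases k with _ | _ | j
      · constructor <;> split_ifs <;> simp_all
      · constructor <;> split_ifs <;> simp_all
      · have hj : j ∈ V := by
          unfold pvU at hk
          simpa using hk
        have hj2 := h3 hj
        rw [Finset.mem_union] at hj2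
        have hj3 : some (some j) ∈ Tc σ ∨ some (some j) ∈ Tc σ' :=
          hj2.imp (hup σ j) (hup σ' j)
        have e1 : ¬ (some (some j) = (some none : Option (Option κ))) := by simp
        have e2 : ¬ (some (some j) = (none : Option (Option κ))) := by simp
        rw [if_neg e1, if_neg e2]
        constructor <;> split_ifs <;> simp_all)
  have h5 : (fun n => ψ (n - a2' (some none)) * ψ (n - a2' none) *
      (Ps ψ a2' σ n * Ps ψ a2' σ' n)) = fun n => ∏ k ∈ pvU V, ψ (n - a2' k) ^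
      (((if k = some none then 1 else 0) + (if k = none then 1 else 0)) +
        ((if k ∈ Tc σ then 1 else 0) + (if k ∈ Tc σ' then 1 else 0))) := by
    funext n
    unfold Ps
    rw [pv_ext (pv_tc σ h1) (fun j => ψ (n - a2' j)), pv_ext (pv_tc σ' h2) (fun j => ψ (n - a2' j)),
      pv_single hn2 (fun j => ψ (n - a2' j)), pv_single hn1 (fun j => ψ (n - a2' j)),
      ← Finset.prod_mul_distrib, ← Finset.prod_mul_distrib, ← Finset.prod_mul_distrib]
    refine Finset.prod_congr rfl fun k _ => ?_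
    rw [pow_add, pow_add, pow_add]
  rw [h5]
  refine h4.trans (le_of_eq ?_)
  rw [pv_card]

private theorem pv_Ps_nonneg {ψ : ℤ → ℝ} (h : ∀ n, 0 ≤ ψ n) (a : κ → ℤ) (σ : ι → Option κ)
    (n : ℤ) : 0 ≤ Ps ψ a σ n := Finset.prod_nonneg fun _ _ => h _

open Classical in
theorem pair_v {p : ι → ℕ} {Q1 M : ℕ} {a : κ → ℤ} {a1 a2 : ℤ} {z : ℝ}
    (h : Hy p Q1 (fun o : Option (Option κ) => o.elim a2 (fun o' => o'.elim a1 a)) z)
    (hM : Nat.Coprime M (Q1 * ∏ i, p i)) {ψ : ℤ → ℝ} {Wψ : ℝ} {Pi : ℕ → ℝ} {V1 : ℝ} {N N' : ℕ}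
    (hs : SS Q1 ψ Wψ Pi V1 (2 * N + 2)
      (fun o : Option (Option κ) => o.elim a2 (fun o' => o'.elim a1 a)))
    {D D1 Gm : ℝ} (hD : 1 ≤ D) (hD1 : 1 ≤ D1) (hGm : 1 ≤ Gm)
    (hG : ∀ U, PP p U ≤ D * D1 → Gm ≤ GS p D1 U)
    (hN : ∀ S : Finset ι, PP p S ≤ D → S.card ≤ N)
    (hN' : ∀ S : Finset ι, PP p S ≤ D * D1 * D1 → S.card ≤ N')
    {y : Finset ι → ℝ} (hy1 : ∀ S, |y S| ≤ 1) {C : ℝ}
    (hC : (((univ : Finset (ι → Option (Option (Option κ)))).filter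
      (fun σ => PP p (supp σ) ≤ D * D1 * D1)).card : ℝ) ≤ C) (n0 : ℤ) (T : ℕ) :
    ∑ t ∈ (range T).filter (fun t : ℕ =>
        ((∀ i, ¬ (p i : ℤ) ∣ n0 + M * (t : ℤ) - a1) ∧ ψ (n0 + M * (t : ℤ) - a1) = 1) ∧
        ((∀ i, ¬ (p i : ℤ) ∣ n0 + M * (t : ℤ) - a2) ∧ ψ (n0 + M * (t : ℤ) - a2) = 1)),
      GZ p a ψ (Yd p y D) (n0 + M * (t : ℤ)) ^ 2 ≤
      (T : ℝ) * (2 * V1 ^ 2 * (ZZ κ p y D Pi / Gm ^ 2) + 2 * offB (Option (Option κ)) p N' z) +
        2 * ((C * (3 ^ N' * Wψ ^ (N + 2))) ^ 2 * Wψ ^ 2) := by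
  classical
  obtain ⟨a2', ha2'⟩ : ∃ a2' : Option (Option κ) → ℤ,
    a2' = fun o : Option (Option κ) => o.elim a2 (fun o' => o'.elim a1 a) := ⟨_, rfl⟩
  have ha2n : a2' none = a2 := by rw [ha2']; rfl
  have ha1n : a2' (some none) = a1 := by rw [ha2']; rfl
  rw [← ha2'] at h hs
  have hDD : D ≤ D * D1 := le_mul_of_one_le_right (zero_le_one.trans hD) hD1
  have hDD1 : 1 ≤ D * D1 := hD.trans hDD
  have hGm0 : 0 < Gm := lt_of_lt_of_le one_pos hGm
  obtain ⟨Y1, hY1a, hY1b, hY1c, hY1d⟩ := sel_v h.two a a1 hD hD1 hGm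
    (fun U hU => hG U (hU.trans hDD)) (Yd p y D) (Yd_abs hy1 D) (fun σ hσ => Yd_supp hσ)
  obtain ⟨Y2, hY2a, hY2b, hY2c, hY2d⟩ := sel_v h.two (fun o' : Option κ => o'.elim a1 a) a2 hDD1
    hD1 hGm hG Y1 hY1a (fun σ hσ => (hY1b σ hσ).1)
  rw [← ha2'] at hY2d
  have hS : ∀ σ, Y2 σ ≠ 0 → (supp σ).card ≤ N' := fun σ hσ => hN' _ (hY2b σ hσ).1
  have hR : ∀ σ, Y2 σ ≠ 0 → (Tc (rs (rs σ))).card ≤ N := by
    intro σ hσ
    have e1 := (hY1b _ (hY2b σ hσ).2).2
    exact (card_Tc_le _).trans (hN _ (Yd_supp e1))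
  have hTc : ∀ σ, Y2 σ ≠ 0 → (Tc σ).card ≤ N + 2 := by
    intro σ hσ
    have e1 := Finset.card_le_card (pv_tc σ (Finset.Subset.refl _))
    rw [pv_card] at e1
    have e2 := hR σ hσ
    omega
  have hCC : (((univ : Finset (ι → Option (Option (Option κ)))).filter
      (fun σ => Y2 σ ≠ 0)).card : ℝ) ≤ C := by
    refine le_trans ?_ hC
    exact_mod_cast Finset.card_le_card fun σ hσ =>
      Finset.mem_filter.2 ⟨Finset.mem_univ _, (hY2b σ (Finset.mem_filter.1 hσ).2).1⟩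
  have hrep := rep_GZ2 h.two hs.rep hs.one_le_W a2' Y2 hY2a hS hTc hCC
  have hQpos : 0 < Q1 * ∏ i, p i :=
    Nat.mul_pos h.Q1pos (Finset.prod_pos fun i _ => by have := h.two i; omega)
  have r1 : Rep (Q1 * ∏ i, p i) (fun n => ψ (n - a1)) Wψ :=
    Rep.dvd_mono (Dvd.intro _ rfl) (Rep.shift hs.rep a1)
  have r2 : Rep (Q1 * ∏ i, p i) (fun n => ψ (n - a2)) Wψ :=
    Rep.dvd_mono (Dvd.intro _ rfl) (Rep.shift hs.rep a2)
  have r3 := Rep.avg hQpos hM (Rep.mul (Rep.mul r1 r2) (Rep.pow hrep 2)) T n0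
  -- the mean value
  have hper : ∀ c : ℤ, Per Q1 (fun n => ψ (n - c)) := by
    intro c n
    have e1 := hs.per (n - c)
    have e2 : n + (Q1 : ℤ) - c = n - c + (Q1 : ℤ) := by ring
    show ψ (n + (Q1 : ℤ) - c) = ψ (n - c)
    rw [e2]
    exact e1
  have hF0 : Per Q1 (fun n => ψ (n - a1) * ψ (n - a2)) := by
    intro n
    show ψ (n + (Q1 : ℤ) - a1) * ψ (n + (Q1 : ℤ) - a2) = ψ (n - a1) * ψ (n - a2)
    have e1 := hper a1 n
    have e2 := hper a2 n
    simp only at e1 e2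
    rw [e1, e2]
  have hPH : ∀ S : Finset ι, 0 < PH p S := by
    intro S
    unfold PH
    refine Finset.prod_pos fun i _ => ?_
    have h1 : (2 : ℝ) ≤ (p i : ℝ) := by exact_mod_cast h.two i
    linarith
  have hmix : ∀ σ σ' : ι → Option (Option (Option κ)), Y2 σ ≠ 0 → Y2 σ' ≠ 0 →
      |mean Q1 (fun n => ψ (n - a1) * ψ (n - a2) * (Ps ψ a2' σ n * Ps ψ a2' σ' n))| ≤ 2 := by
    intro σ σ' hσ hσ'
    rw [abs_of_nonneg (mean_nonneg fun n => mul_nonneg (mul_nonneg (hs.nonneg _) (hs.nonneg _))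
      (mul_nonneg (pv_Ps_nonneg hs.nonneg _ _ _) (pv_Ps_nonneg hs.nonneg _ _ _)))]
    have e1 := pv_mean hs σ σ' (Tc (rs (rs σ)) ∪ Tc (rs (rs σ'))) Finset.subset_union_left
      Finset.subset_union_right (Finset.Subset.refl _) (by
        have e2 := Finset.card_union_le (Tc (rs (rs σ))) (Tc (rs (rs σ')))
        have e3 := hR σ hσ
        have e4 := hR σ' hσ'
        omega)
    rw [ha1n, ha2n] at e1
    refine e1.trans ?_
    have e2 := hs.pi_le_one ((Tc (rs (rs σ)) ∪ Tc (rs (rs σ'))).card + 2)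
    linarith
  have hdiag : ∀ σ : ι → Option (Option (Option κ)), Y2 σ ≠ 0 →
      mean Q1 (fun n => ψ (n - a1) * ψ (n - a2) * Ps ψ a2' σ n ^ 2) ≤
        2 * V1 ^ 2 * Pi (Tc (rs (rs σ))).card := by
    intro σ hσ
    have e1 := pv_mean hs σ σ (Tc (rs (rs σ))) (Finset.Subset.refl _) (Finset.Subset.refl _)
      Finset.subset_union_left (by
        have e3 := hR σ hσ
        omega)
    rw [ha1n, ha2n] at e1
    have e2 : (fun n => ψ (n - a1) * ψ (n - a2) * (Ps ψ a2' σ n * Ps ψ a2' σ n)) =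
        fun n => ψ (n - a1) * ψ (n - a2) * Ps ψ a2' σ n ^ 2 := by
      funext n
      rw [pow_two]
    rw [e2] at e1
    refine e1.trans ?_
    have e3 := hs.pi_step ((Tc (rs (rs σ))).card + 1)
    have e4 := mul_le_mul_of_nonneg_left (hs.pi_step (Tc (rs (rs σ))).card) hs.V1_nonneg
    have e5 : Pi ((Tc (rs (rs σ))).card + 2) ≤ V1 * (V1 * Pi (Tc (rs (rs σ))).card) :=
      e3.trans e4
    calc 2 * Pi ((Tc (rs (rs σ))).card + 2) ≤ 2 * (V1 * (V1 * Pi (Tc (rs (rs σ))).card)) := by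
          linarith
      _ = 2 * V1 ^ 2 * Pi (Tc (rs (rs σ))).card := by ring
  have hq := quad h.two h.cop h.Q1pos h.copQ h.sep hs.per hF0 Y2 (U := 2) (by norm_num) hmix
  have hoff := off h.two h.zpos h.zle Y2 hY2a hS
  have hw1 := hY1c (fun σ => Pi (Tc σ).card) (fun σ => hs.pi_nonneg _)
  have hw2 := hY2c (fun σ => Pi (Tc (rs σ)).card) (fun σ => hs.pi_nonneg _)
  have hsum : ∑ σ : ι → Option (Option (Option κ)), Y2 σ ^ 2 / PH p (supp σ) *
      mean Q1 (fun n => ψ (n - a1) * ψ (n - a2) * Ps ψ a2' σ n ^ 2) ≤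
      2 * V1 ^ 2 * (ZZ κ p y D Pi / Gm ^ 2) := by
    have e1 : ∑ σ : ι → Option (Option (Option κ)), Y2 σ ^ 2 / PH p (supp σ) *
        mean Q1 (fun n => ψ (n - a1) * ψ (n - a2) * Ps ψ a2' σ n ^ 2) ≤
        2 * V1 ^ 2 * ∑ σ : ι → Option (Option (Option κ)), Y2 σ ^ 2 / PH p (supp σ) *
          Pi (Tc (rs (rs σ))).card := by
      rw [Finset.mul_sum]
      refine Finset.sum_le_sum fun σ _ => ?_
      by_cases h0 : Y2 σ = 0
      · rw [h0]
        simp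
      · calc Y2 σ ^ 2 / PH p (supp σ) *
              mean Q1 (fun n => ψ (n - a1) * ψ (n - a2) * Ps ψ a2' σ n ^ 2)
            ≤ Y2 σ ^ 2 / PH p (supp σ) * (2 * V1 ^ 2 * Pi (Tc (rs (rs σ))).card) :=
              mul_le_mul_of_nonneg_left (hdiag σ h0) (div_nonneg (sq_nonneg _) (hPH _).le)
          _ = 2 * V1 ^ 2 * (Y2 σ ^ 2 / PH p (supp σ) * Pi (Tc (rs (rs σ))).card) := by ring
    refine e1.trans (mul_le_mul_of_nonneg_left ?_ (by positivity))
    refine hw2.trans ?_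
    rw [pow_two, ← div_div]
    exact div_le_div_of_nonneg_right hw1 hGm0.le
  have hmean : mean (Q1 * ∏ i, p i)
      (fun n => ψ (n - a1) * ψ (n - a2) * GZ p a2' ψ Y2 n ^ 2) ≤
      2 * V1 ^ 2 * (ZZ κ p y D Pi / Gm ^ 2) + 2 * offB (Option (Option κ)) p N' z := by
    have e1 := (abs_le.1 hq).2
    linarith
  have hle : ∑ t ∈ (range T).filter (fun t : ℕ =>
        ((∀ i, ¬ (p i : ℤ) ∣ n0 + M * (t : ℤ) - a1) ∧ ψ (n0 + M * (t : ℤ) - a1) = 1) ∧
        ((∀ i, ¬ (p i : ℤ) ∣ n0 + M * (t : ℤ) - a2) ∧ ψ (n0 + M * (t : ℤ) - a2) = 1)),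
      GZ p a ψ (Yd p y D) (n0 + M * (t : ℤ)) ^ 2 ≤
      ∑ t ∈ range T, ψ (n0 + M * (t : ℤ) - a1) * ψ (n0 + M * (t : ℤ) - a2) *
        GZ p a2' ψ Y2 (n0 + M * (t : ℤ)) ^ 2 := by
    refine le_trans (Finset.sum_le_sum (g := fun t : ℕ => ψ (n0 + M * (t : ℤ) - a1) *
      ψ (n0 + M * (t : ℤ) - a2) * GZ p a2' ψ Y2 (n0 + M * (t : ℤ)) ^ 2) fun t ht => ?_)
      (Finset.sum_le_sum_of_subset_of_nonneg (Finset.filter_subset _ _) fun t _ _ =>
        mul_nonneg (mul_nonneg (hs.nonneg _) (hs.nonneg _)) (sq_nonneg _))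
    obtain ⟨_, ⟨hr1, hp1⟩, hr2, hp2⟩ := Finset.mem_filter.1 ht
    rw [hp1, hp2, hY2d ψ _ hr2 hp2, hY1d ψ _ hr1 hp1]
    simp
  have hfin := (abs_le.1 r3).2
  have hT := mul_le_mul_of_nonneg_left hmean (Nat.cast_nonneg (α := ℝ) T)
  have hW : Wψ * Wψ * (C * (3 ^ N' * Wψ ^ (N + 2))) ^ 2 =
      (C * (3 ^ N' * Wψ ^ (N + 2))) ^ 2 * Wψ ^ 2 := by ring
  rw [hW] at hfin
  linarith

end Pool.Agent.AV
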