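import Pool.Agent.AV.Sd
import Pool.Agent.AV.PairV
import Pool.Agent.AT.Prog

/-! AV/EV2.  Pairs of primes, with an ABSOLUTE constant.
PLAN.  `prog` (AT/Prog) with `Q n` = both elements rough, and `pair_v` with `a1 = -j`, `a2 = -j'`, `D = 2^d`,
`D1 = 2^(dd L)`, `Gm = max 1 (c (dd L)/m1)` (`c` from `gs_v`; `GS ≥ 1` because of the empty set;
`U.card ≤ (d + dd L)/m1 ≤ RR ≤ 2^m1/2` for `PP U ≤ D D1` by `py_card`), `N' = (d + 2 dd L)/m1 ≤ L/m1 ≤ RR` (`pl.L_le`),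
`C = 2 (2^d 2^dd 2^dd)^2` (`cnt_y`), `hy_py`, `ss_py` for the elements `a2'` on `Option (Option _)` (different,
in `(-L^2, L^2)`), `hM_py`, `offB_le`.  `n + j > P - H ≥ 2^(dd L)` prime implies that no `py` divides `n + j` and
`psy (n + j) = 1` (`psiV_one` of VOID/BrunV) (`sz`).
Then `V1 = Piy L m1 1 ≤ 12 e^9 (lam+1)/(m1 log 2)` (`V1_le` of VOID/V1B with `B = ∅`), so
`2 V1^2/Gm^2 ≤ C' (lam/dd L)^2 ≤ C'' (lam/L)^2` (`dd L ≥ L/20000`), `T ≤ 5 P/M`; error terms: `2 T/L^5` and `pb.w2`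
with `3^N' ≤ 3^(3 RR)`, `sz_w`. -/

set_option autoImplicit false

open Finset Pool.Agent.RS Pool.Agent.AT Pool.Agent.VOID

namespace Pool.Agent.AV

/-- the arithmetic of the parameters -/
private theorem ev2_par {CV : ℝ} {G r L g s m1 d N : ℕ} (pb : PB CV G r L g s m1 d N) :
    1 ≤ m1 ∧ m1 ≤ dd L ∧ L ≤ 20000 * dd L ∧ d + 2 * dd L ≤ L ∧ (d + 2 * dd L) / m1 ≤ RR G r ∧
      2 * RR G r ≤ 2 ^ m1 := by
  have pl := pb.pl
  have h1 := pl.m_pos
  have h2 : d ≤ L / 2 := by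
    rw [pl.hd]
    apply Nat.div_le_div_left _ (by norm_num)
    have : 1 ≤ r + 1 := by omega
    omega
  have hbig := pb.big
  have h3 : d + 2 * dd L ≤ L := by
    unfold dd
    omega
  refine ⟨h1, pl.m_le_s.trans pb.s_le, by unfold dd; omega, h3, ?_, ?_⟩
  · refine (Nat.div_le_div_right h3).trans ?_
    apply Nat.div_le_of_le_mul
    rw [mul_comm]
    exact pl.L_le
  · have h4 := pb.rl
    have h5 := pl.L6
    have h6 : L ≤ L ^ 6 := by
      calc L = L ^ 1 := (pow_one L).symm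
        _ ≤ L ^ 6 := Nat.pow_le_pow_right (by omega) (by norm_num)
    omega

/-- the numerical part -/
private theorem ev2_num {c dl m1 L lam PM T V1 Z Gm oB W w e9 l2 : ℝ} (hc : 0 < c) (hm1 : 1 ≤ m1)
    (hL : 10 ^ 6 ≤ L) (hdl : L ≤ 20000 * dl) (hlam : 1 ≤ lam) (hZ : 1 ≤ Z) (hPM : 1 ≤ PM)
    (hT : T ≤ 4 * PM + 1) (hT0 : 0 ≤ T) (hV0 : 0 ≤ V1) (he9 : 0 < e9) (hl2 : 0 < l2)
    (hV : V1 ≤ 12 * e9 * (lam + 1) / (m1 * l2)) (hGm1 : 1 ≤ Gm) (hGm : c * dl / m1 ≤ Gm)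
    (hoB : oB ≤ 1 / L ^ 5) (hW : W ≤ w) (hw : 1000 * L ^ 4 * w ≤ PM) :
    T * (2 * V1 ^ 2 * (Z / Gm ^ 2) + 2 * oB) + 2 * W ≤
      (10 * (480000 * e9 / (c * l2)) ^ 2 + 11) * PM * (lam / L) ^ 2 * Z := by
  have hL0 : 0 < L := by linarith
  have hm0 : 0 < m1 := by linarith
  have hdl0 : 0 < dl := by nlinarith
  have hG0 : 0 < Gm := by linarith
  have hT5 : T ≤ 5 * PM := by linarith
  have hq : V1 / Gm ≤ 480000 * e9 / (c * l2) * (lam / L) := by
    have h1 : V1 ≤ 24 * e9 * lam / (m1 * l2) := by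
      refine hV.trans ?_
      apply div_le_div_of_nonneg_right _ (by positivity)
      have : 12 * e9 * (lam + 1) ≤ 12 * e9 * (2 * lam) :=
        mul_le_mul_of_nonneg_left (by linarith) (by positivity)
      linarith
    have h2 : V1 / Gm ≤ (24 * e9 * lam / (m1 * l2)) / (c * dl / m1) :=
      div_le_div₀ (by positivity) h1 (by positivity) hGm
    have h3 : (24 * e9 * lam / (m1 * l2)) / (c * dl / m1) = 24 * e9 / (c * l2) * (lam / dl) := by
      field_simp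
    rw [h3] at h2
    refine h2.trans ?_
    have h4 : lam / dl ≤ 20000 * (lam / L) := by
      rw [← mul_div_assoc, div_le_div_iff₀ hdl0 hL0]
      nlinarith
    calc 24 * e9 / (c * l2) * (lam / dl) ≤ 24 * e9 / (c * l2) * (20000 * (lam / L)) :=
          mul_le_mul_of_nonneg_left h4 (by positivity)
      _ = 480000 * e9 / (c * l2) * (lam / L) := by ring
  have hq2 : V1 ^ 2 * (Z / Gm ^ 2) ≤ (480000 * e9 / (c * l2)) ^ 2 * (lam / L) ^ 2 * Z := by
    have h1 : V1 ^ 2 * (Z / Gm ^ 2) = (V1 / Gm) ^ 2 * Z := by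
      rw [div_pow]
      ring
    rw [h1, ← mul_pow]
    apply mul_le_mul_of_nonneg_right _ (by linarith)
    exact pow_le_pow_left₀ (by positivity) hq 2
  have hu : 1 / L ^ 2 ≤ (lam / L) ^ 2 * Z := by
    rw [div_pow]
    have h1 : 1 ≤ lam ^ 2 * Z := by
      have := one_le_pow₀ hlam (n := 2)
      nlinarith
    calc 1 / L ^ 2 ≤ (lam ^ 2 * Z) / L ^ 2 := div_le_div_of_nonneg_right h1 (by positivity)
      _ = lam ^ 2 / L ^ 2 * Z := by ring
  have hoB2 : oB ≤ 1 / L ^ 2 := by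
    refine hoB.trans ?_
    apply one_div_le_one_div_of_le (by positivity)
    exact pow_le_pow_right₀ (by linarith) (by norm_num)
  have hW2 : W ≤ PM * (1 / L ^ 2) / 1000 := by
    refine hW.trans ?_
    rw [mul_one_div, div_div, le_div_iff₀ (by positivity)]
    have h1 : L ^ 2 ≤ L ^ 4 := pow_le_pow_right₀ (by linarith) (by norm_num)
    by_cases hw0 : 0 ≤ w
    · calc w * (L ^ 2 * 1000) ≤ w * (L ^ 4 * 1000) :=
          mul_le_mul_of_nonneg_left (by linarith) hw0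
        _ = 1000 * L ^ 4 * w := by ring
        _ ≤ PM := hw
    · have : w * (L ^ 2 * 1000) ≤ 0 := mul_nonpos_of_nonpos_of_nonneg (by linarith) (by positivity)
      linarith
  have e1 : T * (2 * V1 ^ 2 * (Z / Gm ^ 2)) ≤
      10 * PM * ((480000 * e9 / (c * l2)) ^ 2 * (lam / L) ^ 2 * Z) := by
    have h1 : T * (2 * V1 ^ 2 * (Z / Gm ^ 2)) = 2 * T * (V1 ^ 2 * (Z / Gm ^ 2)) := by ring
    rw [h1]
    calc 2 * T * (V1 ^ 2 * (Z / Gm ^ 2)) ≤
        2 * T * ((480000 * e9 / (c * l2)) ^ 2 * (lam / L) ^ 2 * Z) :=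
          mul_le_mul_of_nonneg_left hq2 (by positivity)
      _ ≤ 10 * PM * ((480000 * e9 / (c * l2)) ^ 2 * (lam / L) ^ 2 * Z) :=
          mul_le_mul_of_nonneg_right (by linarith) (by positivity)
  have e2 : T * (2 * oB) ≤ 10 * PM * ((lam / L) ^ 2 * Z) := by
    have h1 : oB ≤ (lam / L) ^ 2 * Z := hoB2.trans hu
    calc T * (2 * oB) ≤ T * (2 * ((lam / L) ^ 2 * Z)) :=
          mul_le_mul_of_nonneg_left (by linarith) hT0
      _ ≤ 5 * PM * (2 * ((lam / L) ^ 2 * Z)) :=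
          mul_le_mul_of_nonneg_right hT5 (by positivity)
      _ = 10 * PM * ((lam / L) ^ 2 * Z) := by ring
  have e3 : 2 * W ≤ PM * ((lam / L) ^ 2 * Z) := by
    have h1 : PM * (1 / L ^ 2) ≤ PM * ((lam / L) ^ 2 * Z) :=
      mul_le_mul_of_nonneg_left hu (by linarith)
    have h2 : 0 ≤ PM * (1 / L ^ 2) := by positivity
    linarith
  calc T * (2 * V1 ^ 2 * (Z / Gm ^ 2) + 2 * oB) + 2 * W =
      T * (2 * V1 ^ 2 * (Z / Gm ^ 2)) + T * (2 * oB) + 2 * W := by ring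
    _ ≤ 10 * PM * ((480000 * e9 / (c * l2)) ^ 2 * (lam / L) ^ 2 * Z) +
      10 * PM * ((lam / L) ^ 2 * Z) + PM * ((lam / L) ^ 2 * Z) := by linarith
    _ = _ := by ring

theorem ev2 : ∃ C : ℝ, 0 < C ∧ ∀ (CV0 CV : ℝ) (G r P L M H : ℕ) (R : Finset ℕ)
    (g s m1 d N : ℕ), SD CV0 CV G r P L M H R g s m1 d N →
    ∀ b j j' : ℕ, j < H → j' < H → j ≠ j' → j ∉ R → j' ∉ R →
    ∑ n ∈ (Nw P H M b).filter (fun n => (n + j).Prime ∧ (n + j').Prime),
      gy L m1 s d r R (n : ℤ) ^ 2 ≤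
      C * ((P : ℝ) / M) * ((Nat.log 2 L : ℝ) / L) ^ 2 * Zy L m1 s d R := by
  classical
  obtain ⟨c, hc, hgs⟩ := gs_v
  refine ⟨10 * (480000 * Real.exp 9 / (c * Real.log 2)) ^ 2 + 11, by positivity, ?_⟩
  intro CV0 CV G r P L M H R g s m1 d N hS b j j' hj hj' hjj hjR hjR'
  have pb := hS.pb
  have pl := pb.pl
  have hbig := pb.big
  obtain ⟨hm1, hmd, hdL, hdd, hRR, hRm⟩ := ev2_par pb
  obtain ⟨s1, -, -, s4, s5, s6, s7⟩ := sz hS.hL hbig hS.hM0 hS.hMP hS.hH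
  obtain ⟨w1, -⟩ := sz_w hbig
  obtain ⟨hHpos, hHlog⟩ := hlog_y pb hS.hG3
  obtain ⟨hax1, hax2⟩ := ax_ok (L := L) hS.hH hS.hR
  have hp2 : ∀ i, 2 ≤ py L m1 i := fun i => (py_mem i).1.two_le
  have hjL : (j : ℤ) < (L : ℤ) ^ 2 := by exact_mod_cast lt_of_lt_of_le hj hS.hH
  have hjL' : (j' : ℤ) < (L : ℤ) ^ 2 := by exact_mod_cast lt_of_lt_of_le hj' hS.hH
  -- the elements
  set a2' : Option (Option {j : ℕ // j ∈ R}) → ℤ :=
    fun o => o.elim (-(j' : ℤ)) (fun o' => o'.elim (-(j : ℤ)) (ax R)) with ha2'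
  have haL : ∀ o, |a2' o| < (L : ℤ) ^ 2 := by
    intro o
    rcases o with _ | _ | x
    · show |(-(j' : ℤ))| < (L : ℤ) ^ 2
      rw [abs_neg, Nat.abs_cast]
      exact hjL'
    · show |(-(j : ℤ))| < (L : ℤ) ^ 2
      rw [abs_neg, Nat.abs_cast]
      exact hjL
    · exact hax1 x
  have hne : ∀ x : {j : ℕ // j ∈ R}, ∀ i : ℕ, i ∉ R → ax R x ≠ -(i : ℤ) := by
    intro x i hi h
    apply hi
    have h1 : ((x : ℕ) : ℤ) = (i : ℤ) := by
      unfold ax at h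
      linarith
    have h2 : (x : ℕ) = i := by exact_mod_cast h1
    rw [← h2]
    exact x.2
  have hnej : (-(j' : ℤ)) ≠ -(j : ℤ) := by
    intro h
    apply hjj
    have : (j : ℤ) = (j' : ℤ) := by linarith
    exact_mod_cast this
  have hinj : Function.Injective a2' := by
    intro o o' h
    rcases o with _ | _ | x <;> rcases o' with _ | _ | x'
    · rfl
    · exact absurd h hnej
    · exact absurd h.symm (hne x' j' hjR')
    · exact absurd h.symm hnej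
    · rfl
    · exact absurd h.symm (hne x' j hjR)
    · exact absurd h (hne x j' hjR')
    · exact absurd h (hne x j hjR)
    · exact congrArg (fun z => some (some z)) (hax2 h)
  have hy := hy_py (L := L) (m1 := m1) (by omega) a2' haL hinj
  have hss := ss_py pb hS.h4 a2' haL hinj
  have hMQ := hM_py (L := L) (m1 := m1) hS.hM
  have hcardR : Fintype.card {j : ℕ // j ∈ R} ≤ L := by
    rw [Fintype.card_coe]
    exact hS.hkL
  have hcard2 : Fintype.card (Option (Option {j : ℕ // j ∈ R})) ≤ L + 2 := by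
    rw [Fintype.card_option, Fintype.card_option]
    omega
  have hL4 : 4 ≤ L := by omega
  -- the lower bound of the local sums
  have hGS1 : ∀ U : Finset (Iy L m1), 1 ≤ GS (py L m1) (2 ^ dd L) U := by
    intro U
    unfold GS
    have h1 := single_le_sum (s := (univ \ U).powerset.filter
      (fun S => PP (py L m1) S ≤ (2 : ℝ) ^ dd L)) (f := fun S => 1 / PH (py L m1) S)
      (fun S _ => div_nonneg zero_le_one (prod_nonneg fun i _ => by
        have : (2 : ℝ) ≤ py L m1 i := by exact_mod_cast hp2 i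
        linarith)) (a := ∅) (mem_filter.2 ⟨empty_mem_powerset _, by
          rw [PP_empty]
          exact one_le_pow₀ (by norm_num)⟩)
    refine le_trans (le_of_eq ?_) h1
    rw [PH_empty, div_one]
  set Gm : ℝ := max 1 (c * (dd L : ℝ) / m1) with hGm
  have hG : ∀ U, PP (py L m1) U ≤ (2 : ℝ) ^ d * 2 ^ dd L → Gm ≤ GS (py L m1) (2 ^ dd L) U := by
    intro U hU
    refine max_le (hGS1 U) ?_
    apply hgs L m1 hL4 hm1 hmd pl.L6 U
    rw [← pow_add] at hU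
    have h1 := py_card hm1 U hU
    have h2 : (d + dd L) / m1 ≤ (d + 2 * dd L) / m1 := Nat.div_le_div_right (by omega)
    omega
  have hN : ∀ S : Finset (Iy L m1), PP (py L m1) S ≤ (2 : ℝ) ^ d → S.card ≤ N := by
    intro S hS'
    rw [pl.hN]
    exact py_card hm1 S hS'
  have hN' : ∀ S : Finset (Iy L m1), PP (py L m1) S ≤ (2 : ℝ) ^ d * 2 ^ dd L * 2 ^ dd L →
      S.card ≤ (d + 2 * dd L) / m1 := by
    intro S hS'
    apply py_card hm1 S
    refine hS'.trans (le_of_eq ?_)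
    rw [← pow_add, ← pow_add]
    congr 1
    omega
  have hcount := cnt_y (L := L) (m1 := m1) hL4 (Option (Option {j : ℕ // j ∈ R})) hcard2
    (D := (2 : ℝ) ^ d * 2 ^ dd L * 2 ^ dd L) (by positivity)
  obtain ⟨n0, T, hT, hprog⟩ := prog hS.hM0 s5 b
  have hpv := pair_v (a1 := -(j : ℤ)) (a2 := -(j' : ℤ)) hy hMQ hss (D := (2 : ℝ) ^ d)
    (D1 := (2 : ℝ) ^ dd L) (Gm := Gm) (one_le_pow₀ (by norm_num)) (one_le_pow₀ (by norm_num))
    (le_max_left _ _) hG hN hN' (y := yy L m1 s)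
    (wt_abs (S1 := (2 : ℝ) ^ s) hp2 hHlog) (by convert hcount) n0 T
  -- from primes to rough elements
  obtain ⟨Q, hQ⟩ : ∃ Q : ℤ → Prop, ∀ n, Q n ↔
      (((∀ i, ¬ (py L m1 i : ℤ) ∣ n - (-(j : ℤ))) ∧ psy L m1 r (n - (-(j : ℤ))) = 1) ∧
        ((∀ i, ¬ (py L m1 i : ℤ) ∣ n - (-(j' : ℤ))) ∧ psy L m1 r (n - (-(j' : ℤ))) = 1)) :=
    ⟨_, fun _ => Iff.rfl⟩
  have hrough : ∀ n : ℕ, 2 ^ dd L < n → ∀ i : ℕ, (n + i).Prime →
      ((∀ q, ¬ (py L m1 q : ℤ) ∣ (n : ℤ) - (-(i : ℤ))) ∧ psy L m1 r ((n : ℤ) - (-(i : ℤ))) = 1) := by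
    intro n hn i hp
    have e : (n : ℤ) - (-(i : ℤ)) = ((n + i : ℕ) : ℤ) := by push_cast; ring
    rw [e]
    have hnd : ∀ q : ℕ, q.Prime → q ≤ 2 ^ dd L → ¬ (q : ℤ) ∣ ((n + i : ℕ) : ℤ) := by
      intro q hq hq2 hdvd
      have h1 : q ∣ n + i := by exact_mod_cast hdvd
      have h2 := (Nat.prime_dvd_prime_iff_eq hq hp).1 h1
      omega
    refine ⟨fun q => hnd _ (py_mem q).1 (py_mem q).2.2.1, ?_⟩
    unfold psy
    apply psiV_one
    intro i' _ q hq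
    have h1 := bk_mem hq
    exact hnd q h1.1 (h1.2.2.1.trans (Nat.pow_le_pow_right (by norm_num) hmd))
  have hsub : ∑ n ∈ (Nw P H M b).filter (fun n => (n + j).Prime ∧ (n + j').Prime),
      gy L m1 s d r R (n : ℤ) ^ 2 ≤
      ∑ n ∈ (Nw P H M b).filter (fun n : ℕ => Q (n : ℤ)), gy L m1 s d r R (n : ℤ) ^ 2 := by
    apply sum_le_sum_of_subset_of_nonneg
    · intro n hn
      rw [mem_filter] at hn
      rw [mem_filter, hQ]
      have h1 := (s7 b n hn.1).1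
      exact ⟨hn.1, hrough n h1 j hn.2.1, hrough n h1 j' hn.2.2⟩
    · intro n _ _
      exact sq_nonneg _
  have hpr := hprog (fun n => gy L m1 s d r R n ^ 2) Q (fun n => sq_nonneg _)
  have hmain : ∑ n ∈ (Nw P H M b).filter (fun n => (n + j).Prime ∧ (n + j').Prime),
      gy L m1 s d r R (n : ℤ) ^ 2 ≤
      (T : ℝ) * (2 * Piy L m1 1 ^ 2 * (Zy L m1 s d R / Gm ^ 2) +
        2 * offB (Option (Option {j : ℕ // j ∈ R})) (py L m1) ((d + 2 * dd L) / m1)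
          ((2 : ℝ) ^ m1)) +
        2 * ((2 * ((2 : ℝ) ^ d * 2 ^ dd L * 2 ^ dd L) ^ 2 * (3 ^ ((d + 2 * dd L) / m1) *
          ((2 : ℝ) ^ (m1 * (4 * r + 4))) ^ (N + 2))) ^ 2 *
          ((2 : ℝ) ^ (m1 * (4 * r + 4))) ^ 2) := by
    refine hsub.trans (hpr.trans (le_trans (le_of_eq ?_) hpv))
    unfold gy
    apply sum_congr _ (fun _ _ => rfl)
    ext t
    rw [mem_filter, mem_filter, hQ]
  refine hmain.trans ?_
  have hV0 : 0 ≤ Piy L m1 1 := hss.V1_nonneg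
  have hV : Piy L m1 1 ≤ 12 * Real.exp 9 * ((Nat.log 2 L : ℝ) + 1) / (m1 * Real.log 2) :=
    V1_le hL4 hm1 (B := ∅) (fun b hb => absurd hb (notMem_empty b)) (by simp)
  have hoB := offB_le pb (Option (Option {j : ℕ // j ∈ R})) hcard2 hRR
  have hW : (2 * ((2 : ℝ) ^ d * 2 ^ dd L * 2 ^ dd L) ^ 2 * (3 ^ ((d + 2 * dd L) / m1) *
          ((2 : ℝ) ^ (m1 * (4 * r + 4))) ^ (N + 2))) ^ 2 *
          ((2 : ℝ) ^ (m1 * (4 * r + 4))) ^ 2 ≤ 2 ^ (L / 100) := by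
    refine le_trans ?_ pb.w2
    apply mul_le_mul_of_nonneg_right _ (by positivity)
    apply pow_le_pow_left₀ (by positivity)
    apply mul_le_mul_of_nonneg_left _ (by positivity)
    apply mul_le_mul_of_nonneg_right _ (by positivity)
    exact pow_le_pow_right₀ (by norm_num) (hRR.trans (by omega))
  have hlam : (1 : ℝ) ≤ (Nat.log 2 L : ℝ) := by
    have : 1 ≤ Nat.log 2 L := Nat.le_log_of_pow_le (by norm_num) (by omega)
    exact_mod_cast this
  have hT' : (T : ℝ) ≤ 4 * ((P : ℝ) / M) + 1 := by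
    have e : 4 * (P : ℝ) / M = 4 * ((P : ℝ) / M) := by ring
    rw [e] at hT
    exact hT
  exact ev2_num hc (by exact_mod_cast hm1) (by exact_mod_cast hbig) (by exact_mod_cast hdL) hlam
    (Zy_one pb R) s6 hT' (Nat.cast_nonneg T) hV0 (Real.exp_pos 9) (Real.log_pos (by norm_num)) hV
    (le_max_left _ _) (le_max_right _ _) hoB hW (w1.trans s1)

end Pool.Agent.AV
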