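import Pool.Agent.AV.Sd
import Pool.Agent.VOID.AbsV
import Pool.Agent.AT.Prog

/-! AV/EV3.  The killed elements.
PLAN.  Union bound over `j ∈ R`.  If `n + j` is a prime then (`n + j > 2^(dd L)`, `sz`) no `py` divides it and
`psy (n + j) = 1` (`psiV_one`), so `rough_idV` (VOID/Rough) gives `gy = GZ .. (Zm .. j)`, and `1 = ψ (n + j)`.  `prog` and
`tr2` (VOID/AbsT) with `δ = 2 RR/2^m1` (`cc_y`), `τ = exp(1 - (r+1)^2/(400*1000))` (`tail_y`), `D2 = 2^d/2^s`,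
`cc_wt_abs`: `∑ ≤ R.card * (T (2 V1 (δ²+τ) Zy + 2 offB) + 2 2^(L/100))`; `R.card V1 ≤ CV0 L/m1 ≤ CV0 RR`, `T ≤ 5 P/M`,
`pb.dl`, `offB_le`, `pb.w1`, `sz_w`, `R.card ≤ L`. -/

set_option autoImplicit false

open Finset Pool.Agent.RS Pool.Agent.AT Pool.Agent.VOID

namespace Pool.Agent.AV

private theorem ev3_num {L X Z k T V τ δ2 o W CV0 CVa RRr m : ℝ} (hL : 10 ^ 6 ≤ L) (hX1 : 1 ≤ X)
    (hZ : 1 ≤ Z) (hk0 : 0 ≤ k) (hk : k ≤ L) (hT : T ≤ 5 * X) (hT0 : 0 ≤ T) (hτ : 0 ≤ τ)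
    (hδ : 0 ≤ δ2) (hm : 0 < m) (hV : k * V ≤ CV0 * (L / m)) (hLm : L ≤ RRr * m)
    (hCV0 : 0 < CV0) (hCV : CV0 ≤ CVa) (hRR : 0 ≤ RRr)
    (hdl : 20 * CVa * RRr * δ2 ≤ 1 / (4 * L)) (ho : o ≤ 1 / L ^ 5)
    (hW : 1000 * L ^ 4 * W ≤ X) (hW0 : 0 ≤ W) :
    k * (T * (2 * V * (δ2 + τ) * Z + 2 * o) + 2 * W) ≤ (10 * CV0 * RRr * τ + 1 / L) * X * Z := by
  have hL0 : 0 < L := by linarith
  have h1 : k * V ≤ CV0 * RRr := by
    refine hV.trans (mul_le_mul_of_nonneg_left ?_ hCV0.le)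
    rw [div_le_iff₀ hm]
    exact hLm
  have h2 : T * (2 * (k * V) * (δ2 + τ) * Z) ≤ 5 * X * (2 * (CV0 * RRr) * (δ2 + τ) * Z) := by
    have h3 : 2 * (k * V) * (δ2 + τ) * Z ≤ 2 * (CV0 * RRr) * (δ2 + τ) * Z := by
      have h4 : 0 ≤ (δ2 + τ) * Z := mul_nonneg (by linarith) (by linarith)
      nlinarith
    have h5 : 0 ≤ 2 * (CV0 * RRr) * (δ2 + τ) * Z := by
      have : 0 ≤ δ2 + τ := by linarith
      positivity
    exact (mul_le_mul_of_nonneg_left h3 hT0).trans (mul_le_mul_of_nonneg_right hT h5)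
  have h6 : 10 * CV0 * RRr * δ2 ≤ 1 / (8 * L) := by
    have h7 : CV0 * RRr * δ2 ≤ CVa * RRr * δ2 :=
      mul_le_mul_of_nonneg_right (mul_le_mul_of_nonneg_right hCV hRR) hδ
    have h8 : 1 / (4 * L) = 2 * (1 / (8 * L)) := by field_simp; norm_num
    rw [h8] at hdl
    linarith
  have h9 : k * (T * (2 * o)) ≤ X / (8 * L) := by
    have h10 : k * (T * (2 * o)) ≤ L * (5 * X * (2 * (1 / L ^ 5))) := by
      have h11 : T * (2 * o) ≤ T * (2 * (1 / L ^ 5)) :=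
        mul_le_mul_of_nonneg_left (by linarith) hT0
      have h12 : 0 ≤ 2 * (1 / L ^ 5) := by positivity
      have h13 : T * (2 * (1 / L ^ 5)) ≤ 5 * X * (2 * (1 / L ^ 5)) :=
        mul_le_mul_of_nonneg_right hT h12
      have h14 : 0 ≤ 5 * X * (2 * (1 / L ^ 5)) := by positivity
      exact (mul_le_mul_of_nonneg_left (h11.trans h13) hk0).trans
        (mul_le_mul_of_nonneg_right hk h14)
    refine h10.trans ?_
    have h15 : L * (5 * X * (2 * (1 / L ^ 5))) = X * (10 / L ^ 4) := by field_simp; norm_num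
    have h16 : X / (8 * L) = X * (1 / (8 * L)) := by ring
    rw [h15, h16]
    apply mul_le_mul_of_nonneg_left _ (by linarith)
    rw [div_le_div_iff₀ (by positivity) (by positivity)]
    have h17 : L ^ 4 = L * (L * (L * L)) := by ring
    have h18 : 80 ≤ L * L := by nlinarith
    have h19 : L ≤ L * (L * (L * L)) / 80 := by
      have h20 : 1 ≤ L * (L * L) / 80 := by
        rw [le_div_iff₀ (by norm_num)]
        nlinarith
      calc L = L * 1 := by ring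
        _ ≤ L * (L * (L * L) / 80) := mul_le_mul_of_nonneg_left h20 hL0.le
        _ = L * (L * (L * L)) / 80 := by ring
    rw [h17]
    linarith
  have h21 : k * (2 * W) ≤ X / (8 * L) := by
    rw [le_div_iff₀ (by positivity)]
    have h22 : k * (2 * W) * (8 * L) ≤ L * (2 * W) * (8 * L) := by
      apply mul_le_mul_of_nonneg_right _ (by positivity)
      exact mul_le_mul_of_nonneg_right hk (by positivity)
    have h23 : L * (2 * W) * (8 * L) = 16 * (L ^ 2 * W) := by ring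
    have h24 : L ^ 2 * W ≤ L ^ 4 * W := by
      apply mul_le_mul_of_nonneg_right _ hW0
      exact pow_le_pow_right₀ (by linarith) (by norm_num)
    have h25 : 0 ≤ L ^ 4 * W := by positivity
    nlinarith
  have hXZ : X ≤ X * Z := le_mul_of_one_le_right (by linarith) hZ
  have hXZ0 : 0 ≤ X * Z := by linarith
  have e1 : k * (T * (2 * V * (δ2 + τ) * Z + 2 * o) + 2 * W) =
      T * (2 * (k * V) * (δ2 + τ) * Z) + k * (T * (2 * o)) + k * (2 * W) := by ring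
  have e2 : 5 * X * (2 * (CV0 * RRr) * (δ2 + τ) * Z) =
      10 * CV0 * RRr * τ * X * Z + (10 * CV0 * RRr * δ2) * (X * Z) := by ring
  have e3 : (10 * CV0 * RRr * δ2) * (X * Z) ≤ 1 / (8 * L) * (X * Z) :=
    mul_le_mul_of_nonneg_right h6 hXZ0
  have e4 : X / (8 * L) ≤ 1 / (8 * L) * (X * Z) := by
    have e5 : X / (8 * L) = 1 / (8 * L) * X := by ring
    rw [e5]
    exact mul_le_mul_of_nonneg_left hXZ (by positivity)
  have e6 : 3 * (1 / (8 * L) * (X * Z)) ≤ 1 / L * X * Z := by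
    have e7 : 1 / L * X * Z = 8 * (1 / (8 * L) * (X * Z)) := by
      field_simp
    rw [e7]
    have e8 : 0 ≤ 1 / (8 * L) * (X * Z) := by positivity
    linarith
  have e9 : (10 * CV0 * RRr * τ + 1 / L) * X * Z =
      10 * CV0 * RRr * τ * X * Z + 1 / L * X * Z := by ring
  rw [e1, e9]
  linarith

open Classical in
theorem ev3 {CV0 CV : ℝ} {G r P L M H : ℕ} {R : Finset ℕ} {g s m1 d N : ℕ}
    (sd : SD CV0 CV G r P L M H R g s m1 d N) (b : ℕ) :
    ∑ n ∈ (Nw P H M b).filter (fun n => ∃ j ∈ R, (n + j).Prime),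
      gy L m1 s d r R (n : ℤ) ^ 2 ≤
      (10 * CV0 * RR G r * Real.exp (1 - ((r : ℝ) + 1) ^ 2 / (400 * ((1000 : ℕ) : ℝ))) + 1 / L) *
        ((P : ℝ) / M) * Zy L m1 s d R := by
  have pb := sd.pb
  have pl := pb.pl
  have hL6 := pb.big
  have hL2 : 2 ≤ L := by omega
  have hm1 : 1 ≤ m1 := pl.m_pos
  obtain ⟨z1, -, -, z4, z5, z6, z7⟩ := sz sd.hL hL6 sd.hM0 sd.hMP sd.hH
  obtain ⟨w1, -⟩ := sz_w hL6
  obtain ⟨n0, T, hT, hprog⟩ := prog sd.hM0 z5 b
  obtain ⟨a1, a2⟩ := ax_ok (L := L) sd.hH sd.hR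
  obtain ⟨hHpos, hHlog⟩ := hlog_y pb sd.hG3
  have hp2 : ∀ i, 2 ≤ py L m1 i := fun i => (py_mem i).1.two_le
  have hCV : 0 < CV := lt_of_lt_of_le sd.CV0pos sd.CVle
  have hcard : Fintype.card {j : ℕ // j ∈ R} = R.card := Fintype.card_coe R
  have hkV' : (R.card : ℝ) * Piy L m1 1 ≤ CV * (L / m1) := by
    refine sd.hkV.trans (mul_le_mul_of_nonneg_right sd.CVle (by positivity))
  have hy := hy_py (m1 := m1) hL2 (ax R) a1 a2
  have hMc := hM_py (L := L) (m1 := m1) sd.hM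
  have hss := ss_py pb sd.h4 (ax R) a1 a2
  have hN : ∀ S : Finset (Iy L m1), PP (py L m1) S ≤ (2 : ℝ) ^ d → S.card ≤ N := by
    intro S hS
    rw [pl.hN]
    exact py_card hm1 S hS
  have hwy1 : ∀ S, |yy L m1 s S| ≤ 1 := fun S => wt_abs hp2 hHlog S
  have hc1 : ∀ U, |cc (py L m1) (yy L m1 s) (2 ^ d) U| ≤ 1 := fun U => cc_wt_abs hp2 hHpos U
  have hc2 : ∀ U, PP (py L m1) U ≤ (2 : ℝ) ^ d / 2 ^ s →
      |cc (py L m1) (yy L m1 s) (2 ^ d) U| ≤ 2 * (RR G r : ℝ) / 2 ^ m1 :=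
    fun U hU => cc_y pb sd.hG3 U hU
  have htail := tail_y pb hCV sd.hG2 sd.hG3 hkV'
  have hC := cnt_y (L := L) (m1 := m1) (by omega) {j : ℕ // j ∈ R} (by rw [hcard]; have := sd.hkL; omega)
    (D := (2 : ℝ) ^ d) (by positivity)
  have hψ0 : ∀ m, 0 ≤ psy L m1 r m := hss.nonneg
  have htr := fun m : {j : ℕ // j ∈ R} => tr2 hy hMc hss hN hwy1 hc1 hc2 htail hC n0 T m
  have hpr := hprog (fun n => gy L m1 s d r R n ^ 2)
    (fun n => ∃ j : {j : ℕ // j ∈ R}, psy L m1 r (n - ax R j) = 1 ∧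
      ∀ i, ¬ (py L m1 i : ℤ) ∣ n - ax R j) (fun n => sq_nonneg _)
  refine le_trans (sum_le_sum_of_subset_of_nonneg ?_ fun n _ _ => sq_nonneg _) (hpr.trans ?_)
  · intro n hn
    obtain ⟨hn1, j, hj, hjp⟩ := mem_filter.1 hn
    have hbig := (z7 b n hn1).1
    have hcast : (n : ℤ) - ax R ⟨j, hj⟩ = ((n + j : ℕ) : ℤ) := by
      unfold ax
      push_cast
      ring
    simp only [Finset.mem_filter]
    refine ⟨hn1, ⟨j, hj⟩, ?_, ?_⟩
    · rw [hcast]
      unfold psy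
      apply psiV_one
      intro i _ q hq hdvd
      have h1 := bk_mem hq
      rw [Int.natCast_dvd_natCast] at hdvd
      have h2 := (Nat.prime_dvd_prime_iff_eq h1.1 hjp).1 hdvd
      have h3 : q ≤ 2 ^ m1 := h1.2.2.1
      have h4 : 2 ^ m1 ≤ 2 ^ dd L :=
        Nat.pow_le_pow_right (by norm_num) (pl.m_le_s.trans pb.s_le)
      omega
    · intro i hdvd
      rw [hcast, Int.natCast_dvd_natCast] at hdvd
      have h1 := py_mem i
      have h2 := (Nat.prime_dvd_prime_iff_eq h1.1 hjp).1 hdvd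
      have h3 := h1.2.2.1
      omega
  · have hstep : ∑ t ∈ (range T).filter (fun t : ℕ => ∃ j : {j : ℕ // j ∈ R},
        psy L m1 r (n0 + M * (t : ℤ) - ax R j) = 1 ∧
          ∀ i, ¬ (py L m1 i : ℤ) ∣ n0 + M * (t : ℤ) - ax R j),
          gy L m1 s d r R (n0 + M * (t : ℤ)) ^ 2 ≤
        ∑ t ∈ range T, ∑ m : {j : ℕ // j ∈ R}, psy L m1 r (n0 + M * (t : ℤ) - ax R m) *
          GZ (py L m1) (ax R) (psy L m1 r) (Zm (py L m1) (yy L m1 s) (2 ^ d) m)
            (n0 + M * (t : ℤ)) ^ 2 := by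
      rw [sum_filter]
      apply sum_le_sum
      intro t _
      have hnn : 0 ≤ ∑ m : {j : ℕ // j ∈ R}, psy L m1 r (n0 + M * (t : ℤ) - ax R m) *
          GZ (py L m1) (ax R) (psy L m1 r) (Zm (py L m1) (yy L m1 s) (2 ^ d) m)
            (n0 + M * (t : ℤ)) ^ 2 :=
        sum_nonneg fun m _ => mul_nonneg (hψ0 _) (sq_nonneg _)
      split_ifs with hcond
      · obtain ⟨j, hj1, hj2⟩ := hcond
        have h1 : gy L m1 s d r R (n0 + M * (t : ℤ)) =
            GZ (py L m1) (ax R) (psy L m1 r) (Zm (py L m1) (yy L m1 s) (2 ^ d) j)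
              (n0 + M * (t : ℤ)) :=
          rough_idV hp2 (ax R) (psy L m1 r) (yy L m1 s) (wt_empty _ _) j _ hj2 hj1
        have h2 : psy L m1 r (n0 + M * (t : ℤ) - ax R j) *
          GZ (py L m1) (ax R) (psy L m1 r) (Zm (py L m1) (yy L m1 s) (2 ^ d) j)
            (n0 + M * (t : ℤ)) ^ 2 ≤ ∑ m : {j : ℕ // j ∈ R},
              psy L m1 r (n0 + M * (t : ℤ) - ax R m) *
          GZ (py L m1) (ax R) (psy L m1 r) (Zm (py L m1) (yy L m1 s) (2 ^ d) m)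
            (n0 + M * (t : ℤ)) ^ 2 :=
          single_le_sum (f := fun m : {j : ℕ // j ∈ R} =>
            psy L m1 r (n0 + M * (t : ℤ) - ax R m) *
          GZ (py L m1) (ax R) (psy L m1 r) (Zm (py L m1) (yy L m1 s) (2 ^ d) m)
            (n0 + M * (t : ℤ)) ^ 2)
            (fun m _ => mul_nonneg (hψ0 _) (sq_nonneg _)) (mem_univ j)
        rw [hj1, one_mul, ← h1] at h2
        exact h2
      · exact hnn
    refine (le_of_eq (sum_congr ?_ fun _ _ => rfl)).trans (hstep.trans ?_)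
    · ext t
      simp only [mem_filter]
    rw [sum_comm]
    refine (sum_le_sum fun m _ => htr m).trans ?_
    rw [sum_const, card_univ, hcard, nsmul_eq_mul]
    have hT5 : (T : ℝ) ≤ 5 * ((P : ℝ) / M) := by
      have h4 : 4 * (P : ℝ) / M = 4 * ((P : ℝ) / M) := by ring
      rw [h4] at hT
      linarith
    have hLr : (10 : ℝ) ^ 6 ≤ L := by exact_mod_cast hL6
    have hLm : (L : ℝ) ≤ (RR G r : ℝ) * m1 := by exact_mod_cast pl.L_le
    have hm1r : (0 : ℝ) < m1 := by exact_mod_cast hm1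
    have hdl : 20 * |CV| * (RR G r : ℝ) * (2 * (RR G r : ℝ) / 2 ^ m1) ^ 2 ≤ 1 / (4 * (L : ℝ)) :=
      pb.dl
    have hoff := offB_le pb {j : ℕ // j ∈ R} (by rw [hcard]; have := sd.hkL; omega)
      (N' := N) pl.N_le
    have hW : 1000 * (L : ℝ) ^ 4 * ((2 * ((2 : ℝ) ^ d) ^ 2 * (3 * 2 ^ (m1 * (4 * r + 4))) ^ N) ^ 2 *
        2 ^ (m1 * (4 * r + 4))) ≤ (P : ℝ) / M := by
      refine le_trans ?_ (w1.trans z1)
      exact mul_le_mul_of_nonneg_left pb.w1 (by positivity)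
    exact ev3_num hLr z6 (Zy_one pb R) (Nat.cast_nonneg _) (by exact_mod_cast sd.hkL) hT5
      (Nat.cast_nonneg _) (Real.exp_pos _).le (sq_nonneg _) hm1r sd.hkV hLm sd.CV0pos
      (sd.CVle.trans (le_abs_self CV)) (Nat.cast_nonneg _) hdl hoff hW (by positivity)

end Pool.Agent.AV
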