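import Pool.Agent.AV.Cc

/-! AV/ParE.  Existence of the parameters.
PLAN.  `parL CV G r 1000` (VOID/ParL) gives `PL` for all large `L`, with `g`, `s`, `m1`, `d`, `N` as in its fields
(`m1 → ∞` since `L ≤ RR m1`).  Additional facts for large `L`:
* `s_le`: `s = L/(r+1)^3 ≤ L/10000 = dd L` because `(r+1)^3 ≥ 10^4` (`Nat.div_le_div_left`);
* `rl`, `ck`, `big`: constants; `off2`, `dl`: polynomial in `L ≤ RR m1` times constants against `2^(m1/8)`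
  (`parl_ev` in VOID/ParL);
* `lev`: exponent `2 (d + m1 (4r+4) N) ≤ 2 d (4r+5) ≤ 10 (r+1) d ≤ 10 L/(10^5)` (`Nm_le`: `N m1 ≤ d`,
  `d = L/(100 * 1000 (r+1))`);
* `w1`: `2^(4d+2) 9^N 2^(2 N m1 (4r+4)) 2^(m1(4r+4))`, exponent `≤ 2 + 4 RR + 4 d + 8 (r+1) d + 4 (r+1) m1`, and
  `(r+1) m1 ≤ (r+1) s/2^g ≤ L/2^16`;
* `w2`: `2^(2 + 4 d + 8 dd) 9^(3 RR) 2^((2N+6) m1 (4r+4))`, `dd = L/10000`: exponent
  `≤ 2 + 12 RR + 4 d + 8 L/10^4 + 8 (r+1) d + 24 (r+1) m1 ≤ L/100`. -/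

set_option autoImplicit false

open Finset Pool.Agent.RS Pool.Agent.AT Pool.Agent.VOID

namespace Pool.Agent.AV

private theorem pe_ev (c : ℝ) (k : ℕ) :
    ∃ M : ℕ, ∀ m : ℕ, M ≤ m → c * ((m : ℝ) + 1) ^ k ≤ 2 ^ m := by
  have h := (tendsto_pow_const_div_const_pow_of_one_lt k (one_lt_two : (1 : ℝ) < 2)).const_mul
    (|c| * 2 ^ k)
  rw [mul_zero] at h
  have h1 := h.eventually (gt_mem_nhds (zero_lt_one : (0 : ℝ) < 1))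
  obtain ⟨M, hM⟩ := Filter.eventually_atTop.1 h1
  refine ⟨max M 1, ?_⟩
  intro m hm
  have hm1 : 1 ≤ m := (le_max_right _ _).trans hm
  have hmr : (1 : ℝ) ≤ m := by exact_mod_cast hm1
  have h2 := hM m ((le_max_left _ _).trans hm)
  have hpos : (0 : ℝ) < 2 ^ m := by positivity
  have h3 : |c| * 2 ^ k * (m : ℝ) ^ k < 2 ^ m := by
    have e : |c| * 2 ^ k * ((m : ℝ) ^ k / 2 ^ m) = (|c| * 2 ^ k * (m : ℝ) ^ k) / 2 ^ m := by ring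
    rw [e, div_lt_one hpos] at h2
    exact h2
  have h4 : ((m : ℝ) + 1) ^ k ≤ (2 * (m : ℝ)) ^ k :=
    pow_le_pow_left₀ (by linarith) (by linarith) k
  calc c * ((m : ℝ) + 1) ^ k ≤ |c| * ((m : ℝ) + 1) ^ k :=
        mul_le_mul_of_nonneg_right (le_abs_self c) (by positivity)
    _ ≤ |c| * (2 * (m : ℝ)) ^ k := mul_le_mul_of_nonneg_left h4 (abs_nonneg c)
    _ = |c| * 2 ^ k * (m : ℝ) ^ k := by rw [mul_pow]; ring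
    _ ≤ 2 ^ m := h3.le

private theorem pe_off2 {R L m : ℕ} {E : ℝ} (hE : 0 ≤ E) (hL : L ≤ R * m)
    (h : (32 * ((R : ℝ) + 4)) ^ (16 * R) * E * (((m / 8 : ℕ) : ℝ) + 1) ^ (16 * R) ≤
      2 ^ (m / 8)) :
    (4 * ((L : ℝ) + 4)) ^ (16 * R) * E ≤ ((2 : ℝ) ^ m) ^ (1 / 8 : ℝ) := by
  have hLr : (L : ℝ) ≤ (R : ℝ) * m := by exact_mod_cast hL
  have hm8 : (m : ℝ) + 1 ≤ 8 * (((m / 8 : ℕ) : ℝ) + 1) := by
    have h1 : m + 1 ≤ 8 * (m / 8 + 1) := by omega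
    exact_mod_cast h1
  have hR0 : (0 : ℝ) ≤ R := Nat.cast_nonneg _
  have hm0 : (0 : ℝ) ≤ m := Nat.cast_nonneg _
  have hL0 : (0 : ℝ) ≤ L := Nat.cast_nonneg _
  have h1 : 4 * ((L : ℝ) + 4) ≤ 32 * ((R : ℝ) + 4) * (((m / 8 : ℕ) : ℝ) + 1) := by
    have h2 : 4 * ((L : ℝ) + 4) ≤ 4 * (((R : ℝ) + 4) * ((m : ℝ) + 1)) := by nlinarith
    have h3 : ((R : ℝ) + 4) * ((m : ℝ) + 1) ≤
        ((R : ℝ) + 4) * (8 * (((m / 8 : ℕ) : ℝ) + 1)) :=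
      mul_le_mul_of_nonneg_left hm8 (by positivity)
    linarith
  have h2 : (4 * ((L : ℝ) + 4)) ^ (16 * R) ≤
      (32 * ((R : ℝ) + 4) * (((m / 8 : ℕ) : ℝ) + 1)) ^ (16 * R) :=
    pow_le_pow_left₀ (by positivity) h1 _
  rw [mul_pow (32 * ((R : ℝ) + 4))] at h2
  have h3 : (4 * ((L : ℝ) + 4)) ^ (16 * R) * E ≤ 2 ^ (m / 8) := by
    refine le_trans (mul_le_mul_of_nonneg_right h2 hE) (le_trans (le_of_eq ?_) h)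
    ring
  refine h3.trans ?_
  rw [← Real.rpow_natCast, ← Real.rpow_natCast, ← Real.rpow_mul (by norm_num)]
  apply Real.rpow_le_rpow_of_exponent_le (by norm_num)
  have h4 : m / 8 * 8 ≤ m := Nat.div_mul_le_self _ _
  have h5 : ((m / 8 : ℕ) : ℝ) * 8 ≤ m := by exact_mod_cast h4
  linarith

private theorem pe_dl {R L m : ℕ} {C : ℝ} (hC : 0 ≤ C) (hL : L ≤ R * m) (hL0 : 0 < L)
    (h : 320 * C * (R : ℝ) ^ 4 * ((m : ℝ) + 1) ^ 1 ≤ 2 ^ m) :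
    20 * C * R * (2 * (R : ℝ) / 2 ^ m) ^ 2 ≤ 1 / (4 * (L : ℝ)) := by
  have hLr : (L : ℝ) ≤ (R : ℝ) * m := by exact_mod_cast hL
  have hR0 : (0 : ℝ) ≤ R := Nat.cast_nonneg _
  have hm0 : (0 : ℝ) ≤ m := Nat.cast_nonneg _
  have hLp : (0 : ℝ) < L := by exact_mod_cast hL0
  have hX1 : (1 : ℝ) ≤ 2 ^ m := one_le_pow₀ (by norm_num)
  rw [pow_one] at h
  generalize (2 : ℝ) ^ m = X at *
  have hX0 : 0 < X := by linarith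
  have e1 : 20 * C * R * (2 * (R : ℝ) / X) ^ 2 = 80 * C * R ^ 3 / X ^ 2 := by
    field_simp
    ring
  rw [e1, div_le_div_iff₀ (by positivity) (by positivity)]
  have h1 : 80 * C * (R : ℝ) ^ 3 * (4 * (L : ℝ)) ≤ 320 * C * (R : ℝ) ^ 4 * ((m : ℝ) + 1) := by
    have h2 : (0 : ℝ) ≤ 320 * C * (R : ℝ) ^ 3 := by positivity
    have h3 : (L : ℝ) ≤ R * ((m : ℝ) + 1) := by linarith
    calc 80 * C * (R : ℝ) ^ 3 * (4 * (L : ℝ)) = 320 * C * (R : ℝ) ^ 3 * L := by ring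
      _ ≤ 320 * C * (R : ℝ) ^ 3 * (R * ((m : ℝ) + 1)) := mul_le_mul_of_nonneg_left h3 h2
      _ = 320 * C * (R : ℝ) ^ 4 * ((m : ℝ) + 1) := by ring
  have h4 : X ≤ X ^ 2 := by nlinarith
  linarith

private theorem pe_lev {L d w N x : ℕ} (h1 : w * N ≤ 4 * x) (h3 : d ≤ x) (h4 : 10 ^ 5 * x ≤ L) :
    ((2 : ℝ) ^ d * (2 ^ w) ^ N) ^ 2 ≤ 2 ^ (L / 1000) := by
  have e : ((2 : ℝ) ^ d * (2 ^ w) ^ N) ^ 2 = 2 ^ (2 * d + 2 * (w * N)) := by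
    rw [← pow_mul, ← pow_add, ← pow_mul]
    congr 1
    ring
  rw [e]
  exact pow_le_pow_right₀ (by norm_num) (by omega)

private theorem pe_w1 {R L d w N x : ℕ} (h1 : w * N ≤ 4 * x) (h2 : w ≤ 4 * x) (h3 : d ≤ x)
    (h4 : 10 ^ 5 * x ≤ L) (h6 : 10 ^ 4 * R ≤ L) (h7 : 10 ^ 6 ≤ L) (hN : N ≤ R) :
    (2 * ((2 : ℝ) ^ d) ^ 2 * (3 * 2 ^ w) ^ N) ^ 2 * 2 ^ w ≤ 2 ^ (L / 100) := by
  have h9 : (3 : ℝ) ^ N ≤ 2 ^ (2 * N) := by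
    rw [pow_mul]
    exact pow_le_pow_left₀ (by norm_num) (by norm_num) _
  have e1 : (3 * (2 : ℝ) ^ w) ^ N ≤ 2 ^ (2 * N + w * N) := by
    rw [mul_pow, pow_add, ← pow_mul 2 w N]
    exact mul_le_mul_of_nonneg_right h9 (by positivity)
  have e2 : 2 * ((2 : ℝ) ^ d) ^ 2 * (3 * 2 ^ w) ^ N ≤ 2 ^ (1 + 2 * d + (2 * N + w * N)) := by
    rw [pow_add _ (1 + 2 * d), pow_add 2 1, pow_one, mul_comm 2 d, pow_mul]
    exact mul_le_mul_of_nonneg_left e1 (by positivity)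
  have e3 : (2 * ((2 : ℝ) ^ d) ^ 2 * (3 * 2 ^ w) ^ N) ^ 2 ≤
      (2 ^ (1 + 2 * d + (2 * N + w * N))) ^ 2 :=
    pow_le_pow_left₀ (by positivity) e2 2
  have e4 : (2 * ((2 : ℝ) ^ d) ^ 2 * (3 * 2 ^ w) ^ N) ^ 2 * 2 ^ w ≤
      2 ^ ((1 + 2 * d + (2 * N + w * N)) * 2 + w) := by
    rw [pow_add _ _ w, pow_mul _ _ 2]
    exact mul_le_mul_of_nonneg_right e3 (by positivity)
  refine e4.trans (pow_le_pow_right₀ (by norm_num) ?_)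
  omega

private theorem pe_w2 {R L d D w N x : ℕ} (h1 : w * N ≤ 4 * x) (h2 : w ≤ 4 * x) (h3 : d ≤ x)
    (h4 : 10 ^ 5 * x ≤ L) (h5 : D * 10000 ≤ L) (h6 : 10 ^ 4 * R ≤ L) (h7 : 10 ^ 6 ≤ L) :
    (2 * ((2 : ℝ) ^ d * 2 ^ D * 2 ^ D) ^ 2 * (3 ^ (3 * R) *
      (2 ^ w) ^ (N + 2))) ^ 2 * (2 ^ w) ^ 2 ≤ 2 ^ (L / 100) := by
  have h9 : (3 : ℝ) ^ (3 * R) ≤ 2 ^ (6 * R) := by
    have e : 6 * R = 2 * (3 * R) := by ring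
    rw [e, pow_mul 2 2 (3 * R)]
    exact pow_le_pow_left₀ (by norm_num) (by norm_num) _
  have e1 : (3 : ℝ) ^ (3 * R) * (2 ^ w) ^ (N + 2) ≤ 2 ^ (6 * R + (w * N + 2 * w)) := by
    have e : (2 : ℝ) ^ (6 * R + (w * N + 2 * w)) = 2 ^ (6 * R) * (2 ^ w) ^ (N + 2) := by
      rw [← pow_mul, ← pow_add]
      congr 1
      ring
    rw [e]
    exact mul_le_mul_of_nonneg_right h9 (by positivity)
  have e2 : 2 * ((2 : ℝ) ^ d * 2 ^ D * 2 ^ D) ^ 2 * (3 ^ (3 * R) * (2 ^ w) ^ (N + 2)) ≤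
      2 ^ (1 + 2 * (d + D + D) + (6 * R + (w * N + 2 * w))) := by
    have e : (2 : ℝ) ^ (1 + 2 * (d + D + D) + (6 * R + (w * N + 2 * w))) =
        2 * ((2 : ℝ) ^ d * 2 ^ D * 2 ^ D) ^ 2 * 2 ^ (6 * R + (w * N + 2 * w)) := by
      rw [pow_add _ (1 + 2 * (d + D + D)), pow_add 2 1, pow_one, mul_comm 2 (d + D + D), pow_mul,
        pow_add, pow_add]
    rw [e]
    exact mul_le_mul_of_nonneg_left e1 (by positivity)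
  have e3 := pow_le_pow_left₀ (by positivity) e2 2
  have e4 : (2 * ((2 : ℝ) ^ d * 2 ^ D * 2 ^ D) ^ 2 * (3 ^ (3 * R) *
      (2 ^ w) ^ (N + 2))) ^ 2 * (2 ^ w) ^ 2 ≤
      2 ^ ((1 + 2 * (d + D + D) + (6 * R + (w * N + 2 * w))) * 2 + w * 2) := by
    rw [pow_add _ _ (w * 2), pow_mul _ _ 2, pow_mul _ w 2]
    exact mul_le_mul_of_nonneg_right e3 (by positivity)
  refine e4.trans (pow_le_pow_right₀ (by norm_num) ?_)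
  omega

private theorem pe_nat {r L d N m1 : ℕ} (hd : d = L / (100 * 1000 * (r + 1))) (hmd : m1 ≤ d)
    (hNm : N * m1 ≤ d) :
    m1 * (4 * r + 4) * N ≤ 4 * ((r + 1) * d) ∧ m1 * (4 * r + 4) ≤ 4 * ((r + 1) * d) ∧
      d ≤ (r + 1) * d ∧ 10 ^ 5 * ((r + 1) * d) ≤ L := by
  refine ⟨?_, ?_, ?_, ?_⟩
  · calc m1 * (4 * r + 4) * N = 4 * ((r + 1) * (N * m1)) := by ring
      _ ≤ 4 * ((r + 1) * d) := Nat.mul_le_mul_left _ (Nat.mul_le_mul_left _ hNm)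
  · calc m1 * (4 * r + 4) = 4 * ((r + 1) * m1) := by ring
      _ ≤ 4 * ((r + 1) * d) := Nat.mul_le_mul_left _ (Nat.mul_le_mul_left _ hmd)
  · exact Nat.le_mul_of_pos_left _ (by omega)
  · calc 10 ^ 5 * ((r + 1) * d) = d * (100 * 1000 * (r + 1)) := by ring
      _ ≤ L := by rw [hd]; exact Nat.div_mul_le_self _ _

private theorem pe_main (CV C : ℝ) {G r R : ℕ} (hr : 10 * 1000 ≤ r) (E : ℝ) (hE : 0 ≤ E)
    (hR : RR G r = R) (hRp : 1 ≤ R) :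
    ∃ L0 : ℕ, ∀ L : ℕ, L0 ≤ L → ∃ g s m1 d N : ℕ, PL CV G r 1000 L g s m1 d N ∧
      10 ^ 6 ≤ L ∧ s ≤ dd L ∧ 100 * R ≤ L ∧ C ≤ L ∧
      (4 * ((L : ℝ) + 4)) ^ (16 * R) * E ≤ ((2 : ℝ) ^ m1) ^ (1 / 8 : ℝ) ∧
      20 * |CV| * R * (2 * (R : ℝ) / 2 ^ m1) ^ 2 ≤ 1 / (4 * (L : ℝ)) ∧
      ((2 : ℝ) ^ d * (2 ^ (m1 * (4 * r + 4))) ^ N) ^ 2 ≤ 2 ^ (L / 1000) ∧
      (2 * ((2 : ℝ) ^ d) ^ 2 * (3 * 2 ^ (m1 * (4 * r + 4))) ^ N) ^ 2 *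
        2 ^ (m1 * (4 * r + 4)) ≤ 2 ^ (L / 100) ∧
      (2 * ((2 : ℝ) ^ d * 2 ^ dd L * 2 ^ dd L) ^ 2 * (3 ^ (3 * R) *
        (2 ^ (m1 * (4 * r + 4))) ^ (N + 2))) ^ 2 * (2 ^ (m1 * (4 * r + 4))) ^ 2 ≤
        2 ^ (L / 100) := by
  obtain ⟨L1, hL1⟩ := parL CV G r 1000 (by norm_num) hr
  obtain ⟨M1, hM1⟩ := pe_ev ((32 * ((R : ℝ) + 4)) ^ (16 * R) * E) (16 * R)
  obtain ⟨M2, hM2⟩ := pe_ev (320 * |CV| * (R : ℝ) ^ 4) 1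
  refine ⟨L1 + 10 ^ 6 + 10 ^ 4 * R + ⌈C⌉₊ + R * (8 * M1 + M2), ?_⟩
  intro L hL
  have hz := Nat.zero_le (R * (8 * M1 + M2))
  obtain ⟨g, s, m1, d, N, hp⟩ := hL1 L (by omega)
  have hLm := hp.L_le
  rw [hR] at hLm
  have hNR := hp.N_le
  rw [hR] at hNR
  have hmge : 8 * M1 + M2 ≤ m1 := by
    have h1 : R * (8 * M1 + M2) ≤ R * m1 := by omega
    exact Nat.le_of_mul_le_mul_left h1 (by omega)
  obtain ⟨a1, a2, a3, a4⟩ := pe_nat hp.hd (hp.m_le_s.trans hp.s_le_d) hp.Nm_le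
  have hb6 : 10 ^ 6 ≤ L := by omega
  have hb4 : 10 ^ 4 * R ≤ L := by omega
  refine ⟨g, s, m1, d, N, hp, hb6, ?_, by omega, ?_, ?_, ?_, ?_, ?_, ?_⟩
  · rw [hp.hs]
    unfold dd
    refine Nat.div_le_div_left ?_ (by norm_num)
    have h1 : 10000 ≤ r + 1 := by omega
    calc 10000 ≤ r + 1 := h1
      _ ≤ (r + 1) ^ 3 := Nat.le_self_pow (by norm_num) _
  · have h1 : ⌈C⌉₊ ≤ L := by omega
    exact (Nat.le_ceil C).trans (by exact_mod_cast h1)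
  · exact pe_off2 hE hLm (hM1 _ (by omega))
  · exact pe_dl (abs_nonneg _) hLm (by omega) (hM2 _ (by omega))
  · exact pe_lev a1 a3 a4
  · exact pe_w1 a1 a2 a3 a4 hb4 hb6 hNR
  · exact pe_w2 a1 a2 a3 a4 (by unfold dd; exact Nat.div_mul_le_self _ _) hb4 hb6

theorem pb_exists (CV : ℝ) (G r : ℕ) (hG : 1 ≤ G) (hr : 10 * 1000 ≤ r) :
    ∃ L0 : ℕ, ∀ L : ℕ, L0 ≤ L → ∃ g s m1 d N : ℕ, PB CV G r L g s m1 d N := by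
  have hRp : 1 ≤ RR G r := by
    have : 0 < RR G r := by unfold RR; positivity
    omega
  obtain ⟨L0, h⟩ := pe_main CV (CK (4 * RR G r)) hr (E2 G r) (Real.exp_pos _).le rfl hRp
  refine ⟨L0, ?_⟩
  intro L hL
  obtain ⟨g, s, m1, d, N, b1, b2, b3, b4, b5, b6, b7, b8, b9, b10⟩ := h L hL
  exact ⟨g, s, m1, d, N, ⟨b1, hG, b2, b3, b4, b5, b6, b7, b8, b9, b10⟩⟩

end Pool.Agent.AV
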