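import Pool.Agent.AV.WB
import Pool.Agent.AV.EV0
import Pool.Agent.AV.EV1
import Pool.Agent.AV.EV2
import Pool.Agent.AV.EV3
import Pool.Agent.AV.EV4
import Pool.Agent.AV.ParE

/-! AV/Eng.  The engine: the weights `gy n ^ 2 / Zy` have all the properties of the interface `WB`,
with an absolute constant `C` in the bound for the pairs of primes. -/

set_option autoImplicit false

open Finset Pool.Agent.RS Pool.Agent.AT Pool.Agent.VOID

namespace Pool.Agent.AV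

private theorem log_large {x y : ℕ} (h : 2 ^ x ≤ y) : x ≤ Nat.log 2 y :=
  Nat.le_log_of_pow_le (by norm_num) h

private theorem tau_small {CV0 η R τ : ℝ} (h0 : 0 ≤ CV0 * R * τ) (hη : 0 < η)
    (h : 32 * (10 * (1 + 1 / η) * CV0) * R * τ ≤ 1) : 10 * CV0 * R * τ ≤ η / 2 := by
  set x := CV0 * R * τ with hx
  have h1 : 320 * (1 + 1 / η) * x ≤ 1 := by
    calc 320 * (1 + 1 / η) * x = 32 * (10 * (1 + 1 / η) * CV0) * R * τ := by rw [hx]; ring
      _ ≤ 1 := h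
  have h2 : 320 * (η + 1) * x ≤ η := by
    have h3 : 320 * (η + 1) * x = η * (320 * (1 + 1 / η) * x) := by
      field_simp
    rw [h3]
    calc η * (320 * (1 + 1 / η) * x) ≤ η * 1 := mul_le_mul_of_nonneg_left h1 hη.le
      _ = η := mul_one η
  have h4 : 10 * CV0 * R * τ = 10 * x := by rw [hx]; ring
  rw [h4]
  nlinarith [mul_nonneg hη.le h0]

theorem sev : SEV := by
  obtain ⟨C, hC, h2⟩ := ev2
  obtain ⟨L1, h1⟩ := ev1
  refine ⟨C, hC, ?_⟩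
  intro Λ hΛ η hη
  have hl2 : 0 < Real.log 2 := Real.log_pos (by norm_num)
  obtain ⟨CV0, hCV0⟩ : ∃ x : ℝ, x = 24 * Real.exp 9 * Λ / Real.log 2 := ⟨_, rfl⟩
  have hCV0p : 0 < CV0 := by
    rw [hCV0]
    exact div_pos (mul_pos (mul_pos (by norm_num) (Real.exp_pos _)) hΛ) hl2
  obtain ⟨CV, hCV⟩ : ∃ x : ℝ, x = 10 * (1 + 1 / η) * CV0 := ⟨_, rfl⟩
  have hη' : 0 < 1 / η := one_div_pos.2 hη
  have hCVp : 0 < CV := by
    rw [hCV]
    exact mul_pos (by linarith) hCV0p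
  have hCVle : CV0 ≤ CV := by
    rw [hCV]
    nlinarith
  obtain ⟨G, r, hG1, -, hr, hG2, hG3, h4, h5⟩ := parA CV hCVp 0 1000 (by norm_num)
  obtain ⟨L0, hpb⟩ := pb_exists CV G r hG1 hr
  have hRR : (0 : ℝ) ≤ (RR G r : ℝ) := Nat.cast_nonneg _
  have hnum : 0 < 10 * (CV0 * RR G r + RR G r) + 1 :=
    add_pos_of_nonneg_of_pos (mul_nonneg (by norm_num)
      (add_nonneg (mul_nonneg hCV0p.le hRR) hRR)) one_pos
  obtain ⟨K', hK'⟩ : ∃ K' : ℝ, K' = (10 * (CV0 * RR G r + RR G r) + 1) / η := ⟨_, rfl⟩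
  have hK'p : 0 < K' := by rw [hK']; exact div_pos hnum hη
  refine ⟨Real.exp (2 * (2 ^ (RR G r + 4) * E2 G r) * K'), Real.exp_pos _,
    2 ^ (max (max L0 L1) (max (2 ^ (⌈Λ⌉₊ + 1)) (⌈2 / η⌉₊ + 1))), ?_⟩
  intro P hP L M H R adm b
  have hLP : max (max L0 L1) (max (2 ^ (⌈Λ⌉₊ + 1)) (⌈2 / η⌉₊ + 1)) ≤ L := by
    rw [adm.hL]
    exact log_large hP
  have hL0 : L0 ≤ L := ((le_max_left _ _).trans (le_max_left _ _)).trans hLP
  have hL1 : L1 ≤ L := ((le_max_right _ _).trans (le_max_left _ _)).trans hLP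
  have hL2 : 2 ^ (⌈Λ⌉₊ + 1) ≤ L := ((le_max_left _ _).trans (le_max_right _ _)).trans hLP
  have hL3 : ⌈2 / η⌉₊ + 1 ≤ L := ((le_max_right _ _).trans (le_max_right _ _)).trans hLP
  have hlog : ⌈Λ⌉₊ + 1 ≤ Nat.log 2 L := log_large hL2
  have hlogΛ : Λ ≤ (Nat.log 2 L : ℝ) := by
    have h6 : Λ ≤ (⌈Λ⌉₊ : ℝ) := Nat.le_ceil Λ
    have h7 : ((⌈Λ⌉₊ + 1 : ℕ) : ℝ) ≤ (Nat.log 2 L : ℝ) := by exact_mod_cast hlog
    push_cast at h7
    linarith
  have hlogp : (0 : ℝ) < (Nat.log 2 L : ℝ) := hΛ.trans_le hlogΛ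
  have hLη : 2 / η ≤ (L : ℝ) := by
    have h6 : 2 / η ≤ (⌈2 / η⌉₊ : ℝ) := Nat.le_ceil _
    have h7 : ((⌈2 / η⌉₊ + 1 : ℕ) : ℝ) ≤ (L : ℝ) := by exact_mod_cast hL3
    push_cast at h7
    linarith
  have hLp : (0 : ℝ) < (L : ℝ) := (div_pos two_pos hη).trans_le hLη
  have hLinv : 1 / (L : ℝ) ≤ η / 2 := by
    rw [div_le_iff₀ hLp]
    rw [div_le_iff₀ hη] at hLη
    linarith
  have hkL : R.card ≤ L := by
    have h6 : (R.card : ℝ) * (Nat.log 2 L : ℝ) ≤ (L : ℝ) * (Nat.log 2 L : ℝ) := by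
      calc (R.card : ℝ) * (Nat.log 2 L : ℝ) ≤ Λ * L := adm.hk
        _ ≤ (Nat.log 2 L : ℝ) * L := mul_le_mul_of_nonneg_right hlogΛ hLp.le
        _ = (L : ℝ) * (Nat.log 2 L : ℝ) := mul_comm _ _
    exact_mod_cast le_of_mul_le_mul_right h6 hlogp
  obtain ⟨g, s, m1, d, N, pb⟩ := hpb L hL0
  have sd : SD CV0 CV G r P L M H R g s m1 d N :=
    { pb := pb
      CV0pos := hCV0p
      CVle := hCVle
      h4 := h4
      hG2 := hG2
      hG3 := hG3
      hL := adm.hL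
      hM0 := adm.hM0
      hM := adm.hM
      hMP := adm.hMP
      hH := adm.hH
      hR := adm.hR
      hkL := hkL
      hkV := kV_y hΛ pb hCV0.ge adm.hk }
  have hZ1 : 1 ≤ Zy L m1 s d R := Zy_one pb R
  have hZ0 : 0 < Zy L m1 s d R := zero_lt_one.trans_le hZ1
  have hPM : 0 ≤ (P : ℝ) / M := div_nonneg (Nat.cast_nonneg _) (Nat.cast_nonneg _)
  refine ⟨fun n => gy L m1 s d r R (n : ℤ) ^ 2 / Zy L m1 s d R, ?_, ?_, ?_, ?_, ?_, ?_⟩
  · intro n
    exact div_nonneg (sq_nonneg _) hZ0.le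
  · rw [← Finset.sum_div, div_le_iff₀ hZ0]
    exact ev0 sd b
  · intro j hj hjR hc
    have h6 := h1 CV0 CV G r P L M H R g s m1 d N sd hL1 b j hj hjR hc
    rw [← Finset.sum_div, ← mul_div_assoc, le_div_iff₀ hZ0]
    calc (1 / 3 * psi M (b + j) P - (P : ℝ) / M / L) * Zy L m1 s d R =
        1 / 3 * Zy L m1 s d R * psi M (b + j) P - Zy L m1 s d R * ((P : ℝ) / M) / L := by ring
      _ ≤ _ := h6
  · intro j j' hj hj' hjj hjR hjR'
    rw [← Finset.sum_div, div_le_iff₀ hZ0]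
    exact h2 CV0 CV G r P L M H R g s m1 d N sd b j j' hj hj' hjj hjR hjR'
  · rw [← Finset.sum_div, div_le_iff₀ hZ0]
    refine (ev3 sd b).trans ?_
    apply mul_le_mul_of_nonneg_right _ hZ0.le
    apply mul_le_mul_of_nonneg_right _ hPM
    have h6 : 10 * CV0 * RR G r * Real.exp (1 - ((r : ℝ) + 1) ^ 2 / (400 * ((1000 : ℕ) : ℝ))) ≤
        η / 2 := by
      apply tau_small (mul_nonneg (mul_nonneg hCV0p.le hRR) (Real.exp_pos _).le) hη
      rw [← hCV]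
      exact h5
    linarith
  · rw [← Finset.sum_div, div_le_iff₀ hZ0]
    have h6 := ev4 sd b hK'p
    have h7 : 1 / K' * (10 * (CV0 * RR G r + RR G r) + 1) = η := by
      rw [hK', one_div_div]
      exact div_mul_cancel₀ _ hnum.ne'
    rw [h7] at h6
    refine le_trans (le_of_eq ?_) h6
    apply Finset.sum_congr _ fun _ _ => rfl
    ext n
    rw [mem_filter, mem_filter, lt_div_iff₀ hZ0]

end Pool.Agent.AV
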