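import Pool.Agent.AV.Cc
import Pool.Agent.AT.Sel
import Pool.Agent.RS.Tot

/-! AV/GSv.  Lower bounds for `GS` and `H1` over the large primes `py`.
`gs_v` PLAN (compare `GS_ge` in AT/ParC, proved): transfer the sum to subsets of `prz (2^dd) \ E`,
`E = EB L m1 (dd L) ∅ ∪ U.image (py L m1)`; `tot2` with `y = z = 2^dd`; `eb_low` of VOID/BigP (with `B = ∅`)
gives `∏_{EB} (1-1/q) ≥ exp(-9)/(2 m1)`; the product over `U` is `≥ 1 - U.card/2^m1 ≥ 1/2`.
`H1_v` PLAN: exactly `big_H1` of VOID/BigP, but with the larger range of primes: `H1_lower` with `z = 2^dd`,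
`S1 = 2^s`, `s ≤ dd L`, `E = EB L m1 (dd L) ∅`, `V = exp(-9)/(2 m1)`, `J = g - 15`. -/

set_option autoImplicit false

open Finset Pool.Agent.RS Pool.Agent.AT Pool.Agent.VOID

namespace Pool.Agent.AV

private theorem gsv_one_sub {ι : Type} [DecidableEq ι] (s : Finset ι) (f : ι → ℝ)
    (h0 : ∀ q ∈ s, 0 ≤ f q) (h1 : ∀ q ∈ s, f q ≤ 1) : 1 - ∑ q ∈ s, f q ≤ ∏ q ∈ s, (1 - f q) := by
  induction s using Finset.induction_on with
  | empty => simp
  | insert a s ha ih =>
    rw [Finset.sum_insert ha, Finset.prod_insert ha]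
    have e1 := ih (fun q hq => h0 q (Finset.mem_insert_of_mem hq))
      (fun q hq => h1 q (Finset.mem_insert_of_mem hq))
    have e2 := h0 a (Finset.mem_insert_self a s)
    have e3 := h1 a (Finset.mem_insert_self a s)
    have e4 : 0 ≤ ∑ q ∈ s, f q := Finset.sum_nonneg fun q hq => h0 q (Finset.mem_insert_of_mem hq)
    have e5 : (1 - f a) * (1 - ∑ q ∈ s, f q) ≤ (1 - f a) * ∏ q ∈ s, (1 - f q) :=
      mul_le_mul_of_nonneg_left e1 (by linarith)
    nlinarith [mul_nonneg e2 e4]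

private theorem gsv_inj (L m1 : ℕ) : Function.Injective (py L m1) := fun _ _ h => Subtype.ext h

/-- the product over the image of `U` -/
private theorem gsv_U {L m1 : ℕ} (U : Finset (Iy L m1)) (hU : 2 * U.card ≤ 2 ^ m1) :
    1 / 2 ≤ ∏ q ∈ U.image (py L m1), (1 - 1 / (q : ℝ)) := by
  classical
  rw [Finset.prod_image fun a _ b _ h => gsv_inj L m1 h]
  have h0 : ∀ i : Iy L m1, (2 : ℝ) ^ m1 ≤ (py L m1 i : ℝ) := by
    intro i
    have h1 := (big_mem i.2).2.1
    have h2 : ((2 ^ m1 : ℕ) : ℝ) ≤ ((i : ℕ) : ℝ) := by exact_mod_cast h1.le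
    push_cast at h2
    exact h2
  have h1 : ∀ i : Iy L m1, (1 : ℝ) ≤ (py L m1 i : ℝ) := fun i =>
    (one_le_pow₀ (by norm_num)).trans (h0 i)
  have h3 := gsv_one_sub U (fun i => 1 / (py L m1 i : ℝ))
    (fun i _ => by positivity)
    (fun i _ => by
      have := h1 i
      rw [div_le_one (by linarith)]
      linarith)
  have h4 : ∑ i ∈ U, 1 / (py L m1 i : ℝ) ≤ ∑ _i ∈ U, 1 / (2 : ℝ) ^ m1 := by
    apply Finset.sum_le_sum
    intro i _
    exact one_div_le_one_div_of_le (by positivity) (h0 i)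
  rw [Finset.sum_const, nsmul_eq_mul] at h4
  have h5 : (U.card : ℝ) * (1 / (2 : ℝ) ^ m1) ≤ 1 / 2 := by
    rw [mul_one_div, div_le_div_iff₀ (by positivity) (by norm_num)]
    have h6 : ((2 * U.card : ℕ) : ℝ) ≤ ((2 ^ m1 : ℕ) : ℝ) := by exact_mod_cast hU
    push_cast at h6
    linarith
  linarith

/-- transfer of the sum -/
private theorem gsv_sum {L m1 : ℕ} (U : Finset (Iy L m1)) :
    (open Classical in ∑ S ∈ (prz (2 ^ dd L) \
        (EB L m1 (dd L) ∅ ∪ U.image (py L m1))).powerset.filter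
      (fun S : Finset ℕ => (∏ q ∈ S, (q : ℝ)) ≤ 2 ^ dd L), 1 / ∏ q ∈ S, ((q : ℝ) - 1)) =
      GS (py L m1) (2 ^ dd L) U := by
  classical
  unfold GS
  symm
  refine Finset.sum_nbij' (fun S => S.map (Function.Embedding.subtype _))
    (fun S => S.subtype _) ?_ ?_ ?_ ?_ ?_
  · intro S hS
    rw [Finset.mem_filter, Finset.mem_powerset] at hS
    rw [Finset.mem_filter, Finset.mem_powerset]
    constructor
    · intro q hq
      rw [Finset.mem_map] at hq
      obtain ⟨a, ha, rfl⟩ := hq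
      have h1 := Finset.mem_sdiff.mp a.2
      have h2 := (Finset.mem_sdiff.mp (hS.1 ha)).2
      rw [Finset.mem_sdiff, Finset.mem_union]
      refine ⟨h1.1, ?_⟩
      rintro (h3 | h3)
      · exact h1.2 h3
      · obtain ⟨b, hb, hba⟩ := Finset.mem_image.mp h3
        have : b = a := gsv_inj L m1 hba
        exact h2 (this ▸ hb)
    · rw [Finset.prod_map]
      exact hS.2
  · intro S hS
    rw [Finset.mem_filter, Finset.mem_powerset] at hS
    rw [Finset.mem_filter, Finset.mem_powerset]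
    have h4 : (S.subtype (· ∈ prz (2 ^ dd L) \ EB L m1 (dd L) ∅)).map
        (Function.Embedding.subtype _) = S := by
      rw [Finset.subtype_map]
      refine Finset.filter_true_of_mem fun x hx => ?_
      have h5 := Finset.mem_sdiff.mp (hS.1 hx)
      rw [Finset.mem_union, not_or] at h5
      exact Finset.mem_sdiff.mpr ⟨h5.1, h5.2.1⟩
    have h5 : PP (py L m1) (S.subtype (· ∈ prz (2 ^ dd L) \ EB L m1 (dd L) ∅)) =
        ∏ q ∈ S, (q : ℝ) := by
      conv_rhs => rw [← h4]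
      rw [Finset.prod_map]; rfl
    refine ⟨?_, by rw [h5]; exact hS.2⟩
    intro a ha
    rw [Finset.mem_subtype] at ha
    have h6 := Finset.mem_sdiff.mp (hS.1 ha)
    rw [Finset.mem_union, not_or] at h6
    rw [Finset.mem_sdiff]
    refine ⟨Finset.mem_univ _, fun h7 => h6.2.2 ?_⟩
    exact Finset.mem_image.mpr ⟨a, h7, rfl⟩
  · intro S _
    exact Finset.map_injective (Function.Embedding.subtype _) (by
      rw [Finset.subtype_map]
      refine Finset.filter_true_of_mem fun x hx => ?_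
      rw [Finset.mem_map] at hx
      obtain ⟨a, _, rfl⟩ := hx
      exact a.2)
  · intro S hS
    rw [Finset.mem_filter, Finset.mem_powerset] at hS
    rw [Finset.subtype_map]
    refine Finset.filter_true_of_mem fun x hx => ?_
    have h5 := Finset.mem_sdiff.mp (hS.1 hx)
    rw [Finset.mem_union, not_or] at h5
    exact Finset.mem_sdiff.mpr ⟨h5.1, h5.2.1⟩
  · intro S _
    rw [Finset.prod_map]; rfl

theorem gs_v : ∃ c : ℝ, 0 < c ∧ ∀ L m1 : ℕ, 4 ≤ L → 1 ≤ m1 → m1 ≤ dd L → L ^ 6 ≤ 2 ^ m1 →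
    ∀ U : Finset (Iy L m1), 2 * U.card ≤ 2 ^ m1 →
    c * (dd L : ℝ) / m1 ≤ GS (py L m1) (2 ^ dd L) U := by
  classical
  have hlog2 : 0 < Real.log 2 := Real.log_pos (by norm_num)
  refine ⟨Real.exp (-9) * Real.log 2 / 4, by positivity, ?_⟩
  intro L m1 hL hm hmd hLm U hU
  have hmr : (0 : ℝ) < m1 := by exact_mod_cast hm
  set E0 := EB L m1 (dd L) ∅ with hE0
  set E := E0 ∪ U.image (py L m1) with hE
  have hE0p : E0 ⊆ prz (2 ^ dd L) := eb_sub hmd ∅
  have hEp : E ⊆ prz (2 ^ dd L) := by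
    refine Finset.union_subset hE0p ?_
    intro q hq
    obtain ⟨a, _, rfl⟩ := Finset.mem_image.mp hq
    exact (Finset.mem_sdiff.mp a.2).1
  have hdisj : Disjoint E0 (U.image (py L m1)) := by
    rw [Finset.disjoint_left]
    intro q hq hq2
    obtain ⟨a, _, rfl⟩ := Finset.mem_image.mp hq2
    exact (Finset.mem_sdiff.mp a.2).2 hq
  have h1 := tot2 (z := 2 ^ dd L) (y := 2 ^ dd L) (one_le_pow₀ (by norm_num))
    (by push_cast; exact le_rfl) hEp
  rw [gsv_sum U] at h1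
  refine le_trans ?_ h1
  rw [hE, Finset.prod_union hdisj, Real.log_pow]
  have h2 := eb_low (L := L) (m1 := m1) (s := dd L) hL hm hmd hLm (B := ∅) (by simp) (by simp)
  rw [← hE0] at h2
  have h3 := gsv_U U hU
  have h7 : 0 ≤ Real.exp (-9) / (2 * (m1 : ℝ)) := by positivity
  calc Real.exp (-9) * Real.log 2 / 4 * (dd L : ℝ) / (m1 : ℝ)
      = Real.exp (-9) / (2 * (m1 : ℝ)) * (1 / 2) * ((dd L : ℝ) * Real.log 2) := by
        field_simp
        ring
    _ ≤ (∏ q ∈ E0, (1 - 1 / (q : ℝ))) * (∏ q ∈ U.image (py L m1), (1 - 1 / (q : ℝ))) *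
        ((dd L : ℝ) * Real.log 2) := by
        refine mul_le_mul_of_nonneg_right ?_ (by positivity)
        exact mul_le_mul h2 h3 (by norm_num) (h7.trans h2)

theorem H1_v {L m1 s g : ℕ} (hL : 4 ≤ L) (hm : 1 ≤ m1) (hLm : L ^ 6 ≤ 2 ^ m1) (hg : 16 ≤ g)
    (hs : m1 * 2 ^ g ≤ s) (hsd : s ≤ dd L) :
    Real.exp (-9) * ((g : ℝ) - 16) / (8 * (m1 : ℝ)) ≤ H1 (py L m1) ((2 : ℝ) ^ s) := by
  have hmr : (0 : ℝ) < m1 := by exact_mod_cast hm
  have hms : m1 ≤ s := le_trans (Nat.le_mul_of_pos_right m1 (by positivity)) hs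
  have hs1 : 1 ≤ s := hm.trans hms
  have hV : 0 < Real.exp (-9) / (2 * (m1 : ℝ)) := by positivity
  have hS1 : (1 : ℝ) < 2 ^ s := one_lt_pow₀ (by norm_num) (by omega)
  have hJ : (2 : ℝ) ^ (g - 15) / (Real.exp (-9) / (2 * (m1 : ℝ))) ≤ Real.log (2 ^ s) := by
    rw [Real.log_pow]
    have h1 : (2 : ℝ) ^ (g - 15) / (Real.exp (-9) / (2 * (m1 : ℝ))) =
        2 ^ (g - 14) * m1 * Real.exp 9 := by
      have h2 : g - 14 = (g - 15) + 1 := by omega
      rw [h2, pow_succ, Real.exp_neg]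
      field_simp
    rw [h1]
    have h3 : Real.exp 9 ≤ 2 ^ 14 * Real.log 2 := by
      have h4 : Real.exp 9 = Real.exp 1 ^ 9 := by
        rw [← Real.exp_nat_mul]
        norm_num
      have h5 : Real.exp 1 ^ 9 ≤ 2.7182818286 ^ 9 :=
        pow_le_pow_left₀ (Real.exp_pos 1).le Real.exp_one_lt_d9.le 9
      have h6 := Real.log_two_gt_d9
      rw [h4]
      norm_num at h5 h6 ⊢
      linarith
    have h7 : (m1 : ℝ) * 2 ^ g ≤ s := by exact_mod_cast hs
    have h8 : (2 : ℝ) ^ g = 2 ^ (g - 14) * 2 ^ 14 := by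
      rw [← pow_add]
      congr 1
      omega
    have hl2 : 0 < Real.log 2 := Real.log_pos (by norm_num)
    calc (2 : ℝ) ^ (g - 14) * m1 * Real.exp 9 ≤ 2 ^ (g - 14) * m1 * (2 ^ 14 * Real.log 2) :=
          mul_le_mul_of_nonneg_left h3 (by positivity)
      _ = (m1 : ℝ) * 2 ^ g * Real.log 2 := by rw [h8]; ring
      _ ≤ s * Real.log 2 := mul_le_mul_of_nonneg_right h7 hl2.le
  have hS1z : (2 : ℝ) ^ s ≤ ((2 ^ dd L : ℕ) : ℝ) := by
    push_cast
    exact pow_le_pow_right₀ (by norm_num) hsd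
  have h := H1_lower (eb_sub (L := L) (hms.trans hsd) ∅) hV
    (eb_low (L := L) (m1 := m1) (s := dd L) hL hm (hms.trans hsd) hLm (B := ∅) (by simp) (by simp))
    hS1 hS1z (g - 15) hJ
  refine le_trans (le_of_eq ?_) h
  rw [Nat.cast_sub (by omega)]
  push_cast
  field_simp
  ring

end Pool.Agent.AV
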