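import Pool.Agent.AV.Cc
import Pool.Agent.AV.Blks
import Pool.Agent.AT.Sel
import Pool.Agent.RS.Tot
import Pool.Agent.VOID.EpsV
import Pool.Agent.VOID.MomU

/-! AV/PyF.  Facts on the large primes `py` and the blocks `Bk L m1 ∅`. -/

set_option autoImplicit false

open Finset Pool.Agent.RS Pool.Agent.AT Pool.Agent.VOID

namespace Pool.Agent.AV

/-- PLAN: `big_mem` of VOID/BigP. -/
theorem py_mem {L m1 : ℕ} (i : Iy L m1) : (py L m1 i).Prime ∧ 2 ^ m1 < py L m1 i ∧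
    py L m1 i ≤ 2 ^ dd L ∧ L ^ 6 < py L m1 i := by
  have h := big_mem i.2
  exact ⟨h.1, h.2.1, h.2.2.1, h.2.2.2.1⟩

theorem py_inj (L m1 : ℕ) : Function.Injective (py L m1) := Subtype.val_injective

/-- PLAN: `(2^m1)^card ≤ PP S`. -/
theorem py_card {L m1 e : ℕ} (hm : 1 ≤ m1) (S : Finset (Iy L m1)) (h : PP (py L m1) S ≤ 2 ^ e) :
    S.card ≤ e / m1 := by
  rw [Nat.le_div_iff_mul_le (by omega)]
  have h1 : ((2 : ℝ) ^ m1) ^ S.card ≤ PP (py L m1) S := by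
    unfold PP
    rw [← Finset.prod_const]
    exact Finset.prod_le_prod (fun _ _ => by positivity)
      (fun i _ => by exact_mod_cast (py_mem i).2.1.le)
  rw [← pow_mul] at h1
  have h2 : (2 : ℝ) ^ (m1 * S.card) ≤ 2 ^ e := h1.trans h
  have h3 := (pow_le_pow_iff_right₀ (by norm_num : (1 : ℝ) < 2)).1 h2
  rw [mul_comm]
  exact h3

/-- PLAN: `big_prod` of VOID/BigP with `s = dd L`, `g = Nat.log 2 (RR G r) + 1`: `dd L ≤ L ≤ RR m1 ≤ m1 2^(g+1)`. -/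
theorem py_prod {L m1 G r : ℕ} (hm : 1 ≤ m1) (hL : L ≤ RR G r * m1) :
    ∏ i : Iy L m1, (1 + 1 / ((py L m1 i : ℝ) - 1)) ≤ E2 G r := by
  have h1 : dd L ≤ m1 * 2 ^ ((Nat.log 2 (RR G r) + 1) + 1) := by
    have h2 : dd L ≤ L := by
      unfold dd
      exact Nat.div_le_self _ _
    have h3 : RR G r < 2 ^ (Nat.log 2 (RR G r) + 1) :=
      Nat.lt_pow_succ_log_self (by norm_num) _
    have h4 : 2 ^ ((Nat.log 2 (RR G r) + 1) + 1) = 2 ^ (Nat.log 2 (RR G r) + 1) * 2 := pow_succ _ _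
    have h5 : RR G r * m1 ≤ 2 ^ (Nat.log 2 (RR G r) + 1) * m1 := Nat.mul_le_mul_right _ h3.le
    have h6 : m1 * (2 ^ (Nat.log 2 (RR G r) + 1) * 2) =
        2 ^ (Nat.log 2 (RR G r) + 1) * m1 + 2 ^ (Nat.log 2 (RR G r) + 1) * m1 := by ring
    rw [h4, h6]
    omega
  have h7 := big_prod (L := L) (m1 := m1) (s := dd L) (g := Nat.log 2 (RR G r) + 1) hm ∅ h1
  exact h7

/-- PLAN: `big_sq`-like: `∑ 1/q^2 ≤ 1/L^6` over the primes `> L^6` (`sum_inv_sq` of RS/Prm). -/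
theorem py_sq {L m1 : ℕ} (hL : 4 ≤ L) {k : ℝ} (hk0 : 0 ≤ k) (hk : k ≤ 2 * L) :
    ∑ i : Iy L m1, k / (py L m1 i : ℝ) ^ 2 ≤ 1 / 2 := by
  have hLr : (4 : ℝ) ≤ L := by exact_mod_cast hL
  have h1 : ∑ i : Iy L m1, k / (py L m1 i : ℝ) ^ 2 =
      ∑ q ∈ prz (2 ^ dd L) \ EB L m1 (dd L) ∅, k / (q : ℝ) ^ 2 :=
    Finset.sum_coe_sort (prz (2 ^ dd L) \ EB L m1 (dd L) ∅) fun q => k / (q : ℝ) ^ 2
  have h2 : ∑ q ∈ prz (2 ^ dd L) \ EB L m1 (dd L) ∅, k / (q : ℝ) ^ 2 =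
      k * ∑ q ∈ prz (2 ^ dd L) \ EB L m1 (dd L) ∅, 1 / (q : ℝ) ^ 2 := by
    rw [Finset.mul_sum]
    refine Finset.sum_congr rfl fun q _ => ?_
    rw [mul_one_div]
  have h3 : ∑ q ∈ prz (2 ^ dd L) \ EB L m1 (dd L) ∅, 1 / (q : ℝ) ^ 2 ≤ 1 / (L : ℝ) ^ 6 := by
    refine (Finset.sum_le_sum_of_subset_of_nonneg ?_ fun q _ _ => by positivity).trans
      (sum_inv_sq hL ∅ (2 ^ dd L))
    exact Finset.sdiff_subset_sdiff (Finset.Subset.refl _) Finset.subset_union_left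
  have h5 : k * ∑ q ∈ prz (2 ^ dd L) \ EB L m1 (dd L) ∅, 1 / (q : ℝ) ^ 2 ≤
      (2 * (L : ℝ)) * (1 / (L : ℝ) ^ 6) :=
    mul_le_mul hk h3 (Finset.sum_nonneg fun q _ => by positivity) (by linarith)
  rw [h1, h2]
  refine h5.trans ?_
  rw [mul_one_div, div_le_div_iff₀ (by positivity) (by norm_num)]
  have c1 : (16 : ℝ) ≤ (L : ℝ) ^ 2 := by nlinarith
  have c2 : (1 : ℝ) ≤ (L : ℝ) ^ 3 := one_le_pow₀ (by linarith)
  have c3 : (L : ℝ) ^ 6 = (L : ℝ) * (L ^ 2 * L ^ 3) := by ring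
  have c4 : (16 : ℝ) ≤ (L : ℝ) ^ 2 * (L : ℝ) ^ 3 := by nlinarith
  rw [c3]
  nlinarith

/-- primes `> L ^ 6` divide no difference of different integers of `(-L^2, L^2)` -/
theorem no_dvd {L q : ℕ} (hL : 2 ≤ L) (hq : L ^ 6 < q) {x y : ℤ} (hx : |x| < L ^ 2) (hy : |y| < L ^ 2)
    (h : x ≠ y) : ¬ (q : ℤ) ∣ x - y := by
  intro hd
  have h1 : |x - y| ≤ |x| + |y| := abs_sub _ _
  have h2 : (q : ℤ) ≤ |x - y| :=
    Int.le_of_dvd (abs_pos.2 (sub_ne_zero.2 h)) ((dvd_abs _ _).2 hd)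
  have h3 : ((L : ℤ) ^ 6) < (q : ℤ) := by exact_mod_cast hq
  have h4 : (2 : ℤ) ≤ (L : ℤ) := by exact_mod_cast hL
  have h5 : (16 : ℤ) ≤ (L : ℤ) ^ 4 := by
    have := pow_le_pow_left₀ (by norm_num : (0 : ℤ) ≤ 2) h4 4
    linarith
  have h6 : (L : ℤ) ^ 6 = (L : ℤ) ^ 4 * (L : ℤ) ^ 2 := by ring
  have h7 : (0 : ℤ) ≤ (L : ℤ) ^ 2 := sq_nonneg _
  nlinarith

/-- PLAN: the primes of the blocks are `≤ 2^m1 < py`; the blocks are disjoint (`bk_disj`), all are primes. -/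
theorem elim_inj (L m1 : ℕ) :
    Function.Injective (Sum.elim (p1 (Bk L m1 ∅) (Nat.log 2 m1)) (py L m1)) := by
  have hne : ∀ (x : I1 (Bk L m1 ∅) (Nat.log 2 m1)) (y : Iy L m1),
      p1 (Bk L m1 ∅) (Nat.log 2 m1) x ≠ py L m1 y := by
    intro x y h
    have h1 : p1 (Bk L m1 ∅) (Nat.log 2 m1) x ≤ 2 ^ m1 := (bk_mem x.2.2).2.2.1
    have h2 := (py_mem y).2.1
    omega
  rintro (⟨i, q, hq⟩ | x) (⟨i', q', hq'⟩ | y) h
  · simp only [Sum.elim_inl, p1] at h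
    subst h
    have hi : i = i' := by
      by_contra hne'
      have h1 : (i : ℕ) ≠ (i' : ℕ) := fun h2 => hne' (Fin.ext h2)
      exact Finset.disjoint_left.1 (bk_disj h1) hq hq'
    subst hi
    rfl
  · exact absurd h (hne _ _)
  · exact absurd h.symm (hne _ _)
  · simp only [Sum.elim_inr] at h
    rw [py_inj L m1 h]

private theorem qv_cop {L m1 : ℕ} (n : ℕ)
    (hnq : ∀ q : ℕ, q.Prime → L ^ 6 < q → q ≤ 2 ^ m1 → Nat.Coprime n q) :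
    Nat.Coprime n (QV (Bk L m1 ∅) (Nat.log 2 m1)) := by
  unfold QV
  exact Nat.Coprime.prod_right fun i _ => Nat.Coprime.prod_right fun q hq =>
    hnq q (bk_mem hq).1 (bk_mem hq).2.1 (bk_mem hq).2.2.1

/-- PLAN: as in `coreV` (VOID/CoreV): the structure `Hy`, for any elements `a` in `(-L^2, L^2)`. -/
theorem hy_py {L m1 : ℕ} (hL : 2 ≤ L) {κ : Type} [DecidableEq κ] [Fintype κ] (a : κ → ℤ)
    (ha : ∀ j, |a j| < L ^ 2) (hinj : Function.Injective a) :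
    Hy (py L m1) (QV (Bk L m1 ∅) (Nat.log 2 m1)) a ((2 : ℝ) ^ m1) := by
  have hpp : ∀ i, (py L m1 i).Prime := fun i => (py_mem i).1
  refine ⟨fun i => (hpp i).two_le, ?_, ?_, ?_, ?_, by positivity, ?_⟩
  · intro i j hij
    exact (Nat.coprime_primes (hpp i) (hpp j)).2 fun h => hij (py_inj L m1 h)
  · unfold QV
    exact prod_pos fun i _ => prod_pos fun q hq => (bk_mem hq).1.pos
  · intro i
    refine (qv_cop (py L m1 i) fun q hq _ hqm => ?_).symm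
    refine (Nat.coprime_primes (hpp i) hq).2 fun h => ?_
    have := (py_mem i).2.1
    omega
  · intro i j j' hjj
    exact no_dvd hL (py_mem i).2.2.2 (ha j) (ha j') fun h => hjj (hinj h)
  · intro i
    have h1 : 2 ^ m1 + 1 ≤ py L m1 i := (py_mem i).2.1
    have h2 : ((2 : ℝ) ^ m1 + 1) ≤ (py L m1 i : ℝ) := by exact_mod_cast h1
    linarith

/-- PLAN: as `hMQ` in VOID/CoreV. -/
theorem hM_py {L m1 M : ℕ} (hM : ∀ q : ℕ, q.Prime → L ^ 6 < q → Nat.Coprime M q) :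
    Nat.Coprime M (QV (Bk L m1 ∅) (Nat.log 2 m1) * ∏ i, py L m1 i) := by
  refine Nat.Coprime.mul_right (qv_cop M fun q hq h1 _ => hM q hq h1) ?_
  exact Nat.Coprime.prod_right fun i _ => hM (py L m1 i) (py_mem i).1 (py_mem i).2.2.2

private theorem pyf_num {K ρ X Y l : ℝ} (hX : 0 ≤ X) (hY : 0 ≤ Y)
    (h3 : K ≤ 4 * ρ) (h4 : 16 * ρ * X * Y ≤ l) (hρ : 0 ≤ ρ) : K * (2 * X * Y) ≤ l := by
  have h1 : 0 ≤ ρ * X * Y := by positivity
  have h2 : 0 ≤ 2 * X * Y := by positivity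
  have h5 := mul_le_mul_of_nonneg_right h3 h2
  nlinarith

private theorem pyf_R1 (G r : ℕ) : 1 ≤ RR G r :=
  Nat.one_le_iff_ne_zero.2 (by unfold RR; positivity)

/-- the condition on the blocks (as `corev_eps`) -/
theorem eps_ok {L m1 G r N : ℕ} (hN : N ≤ RR G r) (hG1 : 1 ≤ G)
    (h4 : 16 * (RR G r : ℝ) * (((2 : ℝ) ^ (G + 1)) ^ (2 * r))⁻¹ *
      Real.exp (16 * 2 ^ (G + 1) * 8) ≤ Real.log 2) :
    (∏ i ∈ range (Nat.log 2 m1), (1 + epsS (Bk L m1 ∅ i) (r + i))) ^ (2 * N + 2) ≤ 2 := by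
  have hR1 := pyf_R1 G r
  have hl : (2 : ℝ) ≤ 2 ^ (G + 1) := by
    calc (2 : ℝ) = 2 ^ 1 := by norm_num
      _ ≤ 2 ^ (G + 1) := pow_le_pow_right₀ (by norm_num) (by omega)
  have h1 := eps_total (Bk L m1 ∅) r (Nat.log 2 m1) hl (s := 8) (fun i hi => bk_sum hi)
  have h0 : 0 ≤ ∏ i ∈ range (Nat.log 2 m1), (1 + epsS (Bk L m1 ∅ i) (r + i)) :=
    prod_nonneg fun i _ => by have := epsS_nonneg (Bk L m1 ∅ i) (r + i); linarith
  have h2 := pow_le_pow_left₀ h0 h1 (2 * N + 2)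
  refine h2.trans ?_
  rw [← Real.exp_nat_mul]
  have h3 : ((2 * N + 2 : ℕ) : ℝ) ≤ 4 * (RR G r : ℝ) := by
    have : 2 * N + 2 ≤ 4 * RR G r := by omega
    exact_mod_cast this
  have h5 := pyf_num (by positivity) (Real.exp_nonneg (16 * 2 ^ (G + 1) * 8))
    h3 h4 (Nat.cast_nonneg (RR G r))
  exact (Real.exp_le_exp.2 h5).trans (Real.exp_log (by norm_num)).le

/-- PLAN: as `hss` in VOID/CoreV, for arbitrary elements in `(-L^2, L^2)`. -/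
theorem ss_py {CV : ℝ} {G r L g s m1 d N : ℕ} (pb : PB CV G r L g s m1 d N)
    (h4 : 16 * (RR G r : ℝ) * (((2 : ℝ) ^ (G + 1)) ^ (2 * r))⁻¹ *
      Real.exp (16 * 2 ^ (G + 1) * 8) ≤ Real.log 2)
    {κ : Type} [DecidableEq κ] [Fintype κ] (a : κ → ℤ)
    (ha : ∀ j, |a j| < L ^ 2) (hinj : Function.Injective a) :
    SS (QV (Bk L m1 ∅) (Nat.log 2 m1)) (psy L m1 r) ((2 : ℝ) ^ (m1 * (4 * r + 4)))
      (Piy L m1) (Piy L m1 1) (2 * N + 2) a := by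
  have hL : 2 ≤ L := le_trans (by norm_num) pb.pl.L16
  have hss0 := brun_ss (κ := κ) (Bl := Bk L m1 ∅) (r := r) (I := Nat.log 2 m1)
    (K := 2 * N + 2) (a := a) (fun i _ q hq => (bk_mem hq).1)
    (fun i _ i' _ h => bk_disj h)
    (fun i _ q hq j j' hjj => no_dvd hL (bk_mem hq).2.1 (ha j) (ha j') fun h => hjj (hinj h))
    (fun i _ q hq => by
      have h1 := (bk_mem hq).2.1
      have h2 := pb.pl.K_le
      have h3 := pb.pl.N_le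
      omega)
    (eps_ok pb.pl.N_le pb.G1 h4)
  have hWle : ∏ i ∈ range (Nat.log 2 m1), (((Bk L m1 ∅ i).card : ℝ) + 1) ^ (2 * (r + i)) ≤
      2 ^ (m1 * (4 * r + 4)) := bk_card L m1 ∅ r
  exact { hss0 with
      rep := hss0.rep.mono hWle
      one_le_W := one_le_pow₀ (by norm_num) }

private theorem bk_sumsq {L m1 : ℕ} (hL : 4 ≤ L) :
    ∑ i ∈ range (Nat.log 2 m1), ∑ q ∈ Bk L m1 ∅ i, 1 / (q : ℝ) ^ 2 ≤ 1 / (L : ℝ) ^ 6 := by
  classical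
  rw [← Finset.sum_biUnion (fun i _ i' _ h => bk_disj h)]
  refine (Finset.sum_le_sum_of_subset_of_nonneg ?_ fun q _ _ => by positivity).trans
    (sum_inv_sq hL ∅ (2 ^ m1))
  intro q hq
  rw [Finset.mem_biUnion] at hq
  obtain ⟨i, _, hq⟩ := hq
  have h1 := bk_mem hq
  rw [Finset.mem_sdiff]
  constructor
  · unfold prz
    rw [Finset.mem_filter, Finset.mem_Icc]
    exact ⟨⟨h1.1.pos, h1.2.2.1⟩, h1.1⟩
  · unfold excl
    rw [Finset.mem_filter]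
    rintro ⟨_, h2 | ⟨b, hb, _⟩⟩
    · exact absurd h2 (not_le.2 h1.2.1)
    · exact absurd hb (Finset.notMem_empty b)

attribute [local irreducible] RR

/-- PLAN: `sx_blocks` with `K = 2 N + 2 ≤ 4 RR` (`4 K + 4 ≤ L^6 < q`; `bk_sum`; `∑ 4K/q^2 ≤ 4K/L^6`). -/
theorem sx_py {CV : ℝ} {G r L g s m1 d N : ℕ} (pb : PB CV G r L g s m1 d N)
    (h4 : 16 * (RR G r : ℝ) * (((2 : ℝ) ^ (G + 1)) ^ (2 * r))⁻¹ *
      Real.exp (16 * 2 ^ (G + 1) * 8) ≤ Real.log 2)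
    {κ : Type} [DecidableEq κ] [Fintype κ] (a : κ → ℤ) (a0 : ℤ)
    (ha : ∀ j, |a j| < L ^ 2) (hinj : Function.Injective a) (ha0 : |a0| < L ^ 2)
    (h0 : ∀ j, a j ≠ a0) :
    SX (p1 (Bk L m1 ∅) (Nat.log 2 m1)) a0 (psy L m1 r) (Piy L m1) (CK (2 * N + 2)) (2 * N + 2) a := by
  have hL16 := pb.pl.L16
  have hL : 2 ≤ L := le_trans (by norm_num) hL16
  have hR1 := pyf_R1 G r
  have hN := pb.pl.N_le
  have hrl := pb.rl
  have hL6 : L ≤ L ^ 6 := Nat.le_self_pow (by norm_num) _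
  have hLr : (16 : ℝ) ≤ L := by exact_mod_cast hL16
  refine sx_blocks (fun i _ q hq => (bk_mem hq).1) (fun i _ q hq => ?_) (fun i hi => bk_sum hi) ?_
    (eps_ok hN pb.G1 h4) a a0
    (fun i _ q hq j => no_dvd hL (bk_mem hq).2.1 (ha j) ha0 (h0 j))
    (fun i _ q hq j j' hjj => no_dvd hL (bk_mem hq).2.1 (ha j) (ha j') fun h => hjj (hinj h))
  · have h1 := (bk_mem hq).2.1
    omega
  · have h1 := bk_sumsq (L := L) (m1 := m1) (le_trans (by norm_num) hL16)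
    have h2 : ∑ i ∈ range (Nat.log 2 m1), ∑ q ∈ Bk L m1 ∅ i,
        4 * ((2 * N + 2 : ℕ) : ℝ) / (q : ℝ) ^ 2 =
        4 * ((2 * N + 2 : ℕ) : ℝ) * ∑ i ∈ range (Nat.log 2 m1), ∑ q ∈ Bk L m1 ∅ i,
          1 / (q : ℝ) ^ 2 := by
      rw [mul_sum]
      refine sum_congr rfl fun i _ => ?_
      rw [mul_sum]
      refine sum_congr rfl fun q _ => ?_
      rw [mul_one_div]
    rw [h2]
    have h3 : ((2 * N + 2 : ℕ) : ℝ) ≤ L := by
      have : 2 * N + 2 ≤ L := by omega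
      exact_mod_cast this
    have h5 : 4 * ((2 * N + 2 : ℕ) : ℝ) * ∑ i ∈ range (Nat.log 2 m1), ∑ q ∈ Bk L m1 ∅ i,
        1 / (q : ℝ) ^ 2 ≤ (4 * (L : ℝ)) * (1 / (L : ℝ) ^ 6) :=
      mul_le_mul (by linarith) h1
        (sum_nonneg fun i _ => sum_nonneg fun q _ => by positivity) (by linarith)
    refine h5.trans ?_
    rw [mul_one_div, div_le_div_iff₀ (by positivity) (by norm_num)]
    have c1 : (16 : ℝ) ≤ (L : ℝ) ^ 2 := by nlinarith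
    have c2 : (1 : ℝ) ≤ (L : ℝ) ^ 3 := one_le_pow₀ (by linarith)
    have c3 : (L : ℝ) ^ 6 = (L : ℝ) * (L ^ 2 * L ^ 3) := by ring
    have c4 : (16 : ℝ) ≤ (L : ℝ) ^ 2 * (L : ℝ) ^ 3 := by nlinarith
    rw [c3]
    nlinarith

end Pool.Agent.AV
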