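import Pool.Agent.AV.Cc
import Pool.Agent.AV.GSv
import Pool.Agent.AV.PyF
import Pool.Agent.VOID.ChernV
import Pool.Agent.VOID.SumE
import Pool.Agent.VOID.MomA
import Pool.Agent.RS.Count

/-! AV/H1f.  Consequences of the parameters for the weights: everything is a variation of the corresponding
step in the proof of `corev_one` (VOID/CoreV), with `py` (primes up to `2^dd`) instead of the primes up to `2^s`
and the elements `ax R`. -/

set_option autoImplicit false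

open Finset Pool.Agent.RS Pool.Agent.AT Pool.Agent.VOID

namespace Pool.Agent.AV

attribute [local irreducible] RR

/-- the numerical inequality behind the tail estimate -/
private theorem h1f_tail {CV k V1 H G r N1 L s m1 d : ℝ} (hCV : 0 < CV)
    (hm : 1 ≤ m1) (hs : 1 ≤ s) (hr : 0 ≤ r) (hN1 : 1 ≤ N1) (hG : 0 < G) (hd : 0 ≤ d)
    (hkV : k * V1 ≤ CV * (L / m1)) (hkV0 : 0 ≤ k * V1)
    (hH : Real.exp (-9) * (G * (r + 1)) / (8 * m1) ≤ H)
    (hG2 : 6400 * N1 * Real.exp 9 * CV / Real.log 2 ≤ G)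
    (hL : L ≤ 200 * N1 * (r + 1) * d) (hsd : s * (r + 1) ^ 2 ≤ 200 * N1 * d) :
    ((2 : ℝ) ^ d / 2 ^ s) ^ (-(1 / (s * Real.log 2))) *
      Real.exp (V1 * (2 / (H * (s * Real.log 2))) * k) ≤
      Real.exp (1 - (r + 1) ^ 2 / (400 * N1)) := by
  have hl2 : 0 < Real.log 2 := Real.log_pos (by norm_num)
  have hr1 : 0 < r + 1 := by linarith
  have hs0 : 0 < s := by linarith
  have hm0 : 0 < m1 := by linarith
  have hN0 : 0 < N1 := by linarith
  have hH0 : 0 < H := lt_of_lt_of_le (by positivity) hH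
  rw [← Real.rpow_sub (by norm_num : (0 : ℝ) < 2), ← Real.rpow_mul (by norm_num),
    Real.rpow_def_of_pos (by norm_num : (0 : ℝ) < 2), ← Real.exp_add]
  apply Real.exp_le_exp.2
  have e1 : Real.log 2 * ((d - s) * -(1 / (s * Real.log 2))) = 1 - d / s := by
    field_simp
    ring
  rw [e1]
  have e2 : V1 * (2 / (H * (s * Real.log 2))) * k = (k * V1) * (2 / (H * (s * Real.log 2))) := by
    ring
  rw [e2]
  have e3 : (k * V1) * (2 / (H * (s * Real.log 2))) ≤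
      (CV * (L / m1)) * (2 / ((Real.exp (-9) * (G * (r + 1)) / (8 * m1)) * (s * Real.log 2))) := by
    apply mul_le_mul hkV _ (by positivity) (le_trans hkV0 hkV)
    apply div_le_div_of_nonneg_left (by norm_num) (by positivity)
    exact mul_le_mul_of_nonneg_right hH (by positivity)
  have e4 : (CV * (L / m1)) * (2 / ((Real.exp (-9) * (G * (r + 1)) / (8 * m1)) * (s * Real.log 2))) =
      16 * Real.exp 9 * CV * L / (G * (r + 1) * s * Real.log 2) := by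
    rw [Real.exp_neg]
    have := (Real.exp_pos 9).ne'
    field_simp
    ring
  have e5 : 16 * Real.exp 9 * CV * L / (G * (r + 1) * s * Real.log 2) ≤
      16 * Real.exp 9 * CV * (200 * N1 * (r + 1) * d) / (G * (r + 1) * s * Real.log 2) := by
    apply div_le_div_of_nonneg_right _ (by positivity)
    exact mul_le_mul_of_nonneg_left hL (by positivity)
  have e6 : 16 * Real.exp 9 * CV * (200 * N1 * (r + 1) * d) / (G * (r + 1) * s * Real.log 2) =
      (6400 * N1 * Real.exp 9 * CV / Real.log 2) / G * (d / (2 * s)) := by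
    field_simp
    ring
  have e7 : (6400 * N1 * Real.exp 9 * CV / Real.log 2) / G ≤ 1 := (div_le_one hG).2 hG2
  have e8 : (6400 * N1 * Real.exp 9 * CV / Real.log 2) / G * (d / (2 * s)) ≤ d / (2 * s) :=
    mul_le_of_le_one_left (by positivity) e7
  have e9 : (r + 1) ^ 2 / (400 * N1) ≤ d / (2 * s) := by
    rw [div_le_div_iff₀ (by positivity) (by positivity)]
    nlinarith
  have e10 : d / s = d / (2 * s) + d / (2 * s) := by
    field_simp
    ring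
  rw [e4] at e3
  rw [e6] at e5
  linarith

private theorem h1f_Hpos {G r m1 H : ℝ} (hG : 1 ≤ G) (hr : 0 ≤ r) (hm : 1 ≤ m1)
    (hH : Real.exp (-9) * (G * (r + 1)) / (8 * m1) ≤ H) : 0 < H :=
  lt_of_lt_of_le (by positivity) hH

private theorem h1f_Hlog {G r m1 H l : ℝ} (hG : 1 ≤ G) (hr : 0 ≤ r) (hm : 1 ≤ m1)
    (hH : Real.exp (-9) * (G * (r + 1)) / (8 * m1) ≤ H)
    (hG3 : 8 * Real.exp 9 / Real.log 2 ≤ G) (h1 : m1 * Real.log 2 ≤ l) : 1 ≤ H * l := by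
  have hl2 : 0 < Real.log 2 := Real.log_pos (by norm_num)
  have hm0 : 0 < m1 := by linarith
  have hHpos := h1f_Hpos hG hr hm hH
  have h2 : (Real.exp (-9) * (G * (r + 1)) / (8 * m1)) * (m1 * Real.log 2) ≤ H * l :=
    mul_le_mul hH h1 (by positivity) hHpos.le
  refine le_trans ?_ h2
  have h3 : (Real.exp (-9) * (G * (r + 1)) / (8 * m1)) * (m1 * Real.log 2) =
      (G * Real.log 2 / (8 * Real.exp 9)) * (r + 1) := by
    rw [Real.exp_neg]
    field_simp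
  rw [h3]
  have h6 : 1 ≤ G * Real.log 2 / (8 * Real.exp 9) := by
    rw [div_le_iff₀ hl2] at hG3
    rw [one_le_div (by positivity)]
    exact hG3
  exact one_le_mul_of_one_le_of_one_le h6 (by linarith)

private theorem h1f_kV {k lam Λ L V1 m1 CV : ℝ} (hk0 : 0 ≤ k) (hlam1 : 1 ≤ lam) (hL : 0 ≤ L)
    (hk : k * lam ≤ Λ * L) (hm : 1 ≤ m1) (hCV : 24 * Real.exp 9 * Λ / Real.log 2 ≤ CV)
    (hV : V1 ≤ 12 * Real.exp 9 * (lam + 1) / (m1 * Real.log 2)) :
    k * V1 ≤ CV * (L / m1) := by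
  have hl2 : 0 < Real.log 2 := Real.log_pos (by norm_num)
  have hm0 : 0 < m1 := by linarith
  have hE : 0 < Real.exp 9 := Real.exp_pos 9
  calc k * V1 ≤ k * (12 * Real.exp 9 * (lam + 1) / (m1 * Real.log 2)) :=
        mul_le_mul_of_nonneg_left hV hk0
    _ ≤ k * (12 * Real.exp 9 * (2 * lam) / (m1 * Real.log 2)) := by
        apply mul_le_mul_of_nonneg_left _ hk0
        apply div_le_div_of_nonneg_right _ (by positivity)
        apply mul_le_mul_of_nonneg_left _ (by positivity)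
        linarith
    _ = (k * lam) * (24 * Real.exp 9 / (m1 * Real.log 2)) := by ring
    _ ≤ (Λ * L) * (24 * Real.exp 9 / (m1 * Real.log 2)) :=
        mul_le_mul_of_nonneg_right hk (by positivity)
    _ = (24 * Real.exp 9 * Λ / Real.log 2) * (L / m1) := by
        field_simp
    _ ≤ CV * (L / m1) := mul_le_mul_of_nonneg_right hCV (by positivity)

private theorem h1f_factor {q : ℕ} (hq : 2 ≤ q) (j : ℕ) :
    max 0 (1 - ((j + 1 : ℕ) : ℝ) / q) ≤ max 0 (1 - ((1 : ℕ) : ℝ) / q) * max 0 (1 - (j : ℝ) / q) := by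
  have hq' : (2 : ℝ) ≤ q := by exact_mod_cast hq
  have hq0 : (0 : ℝ) < q := by linarith
  apply max_le
  · exact mul_nonneg (le_max_left _ _) (le_max_left _ _)
  · have h1 : (0 : ℝ) ≤ 1 - ((1 : ℕ) : ℝ) / q := by
      rw [Nat.cast_one, sub_nonneg, div_le_one hq0]
      linarith
    rw [max_eq_right h1]
    have h2 : (1 - ((1 : ℕ) : ℝ) / q) * (1 - (j : ℝ) / q) ≤
        (1 - ((1 : ℕ) : ℝ) / q) * max 0 (1 - (j : ℝ) / q) :=
      mul_le_mul_of_nonneg_left (le_max_right _ _) h1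
    refine le_trans ?_ h2
    have h3 : (1 - ((1 : ℕ) : ℝ) / q) * (1 - (j : ℝ) / q) =
        1 - ((j + 1 : ℕ) : ℝ) / q + j / (q * q) := by
      push_cast
      field_simp
      ring
    rw [h3]
    have h4 : (0 : ℝ) ≤ j / (q * q) := by positivity
    linarith

private theorem pi_nn (L m1 : ℕ) (j : ℕ) : 0 ≤ Piy L m1 j := by
  unfold Piy PiV
  exact Finset.prod_nonneg (fun i _ => Finset.prod_nonneg (fun q _ => le_max_left _ _))

private theorem pi_zero' (L m1 : ℕ) : Piy L m1 0 = 1 := by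
  unfold Piy PiV
  apply Finset.prod_eq_one
  intro i _
  apply Finset.prod_eq_one
  intro q _
  rw [Nat.cast_zero, zero_div, sub_zero]
  exact max_eq_right zero_le_one

private theorem pi_step' (L m1 : ℕ) (j : ℕ) : Piy L m1 (j + 1) ≤ Piy L m1 1 * Piy L m1 j := by
  unfold Piy PiV
  rw [← Finset.prod_mul_distrib]
  apply Finset.prod_le_prod
  · intro i _
    exact Finset.prod_nonneg (fun q _ => le_max_left _ _)
  · intro i hi
    rw [← Finset.prod_mul_distrib]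
    apply Finset.prod_le_prod
    · intro q _
      exact le_max_left _ _
    · intro q hq
      exact h1f_factor (bk_mem hq).1.two_le j

private theorem two_le_py {L m1 : ℕ} (i : Iy L m1) : 2 ≤ py L m1 i := (py_mem i).1.two_le

private theorem pb_H {CV : ℝ} {G r L g s m1 d N : ℕ} (pb : PB CV G r L g s m1 d N) :
    Real.exp (-9) * ((G : ℝ) * ((r : ℝ) + 1)) / (8 * (m1 : ℝ)) ≤ H1 (py L m1) ((2 : ℝ) ^ s) := by
  have h1 := H1_v (L := L) (m1 := m1) (s := s) (g := g) (by have := pb.pl.L16; omega) pb.pl.m_pos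
    pb.pl.L6 (by have := pb.pl.hg; omega) pb.pl.s_low pb.s_le
  have h2 : (g : ℝ) - 16 = G * ((r : ℝ) + 1) := by
    rw [pb.pl.hg]
    push_cast
    ring
  rw [h2] at h1
  exact h1

theorem hlog_y {CV : ℝ} {G r L g s m1 d N : ℕ} (pb : PB CV G r L g s m1 d N)
    (hG3 : 8 * Real.exp 9 / Real.log 2 ≤ G) :
    0 < H1 (py L m1) ((2 : ℝ) ^ s) ∧ ∀ i, 1 ≤ H1 (py L m1) ((2 : ℝ) ^ s) * Real.log (py L m1 i) := by
  have hG : (1 : ℝ) ≤ G := by exact_mod_cast pb.G1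
  have hr : (0 : ℝ) ≤ r := Nat.cast_nonneg r
  have hm : (1 : ℝ) ≤ m1 := by exact_mod_cast pb.pl.m_pos
  refine ⟨h1f_Hpos hG hr hm (pb_H pb), fun i => h1f_Hlog hG hr hm (pb_H pb) hG3 ?_⟩
  rw [← Real.log_pow]
  apply Real.log_le_log (by positivity)
  exact_mod_cast (py_mem i).2.1.le

theorem tail_y {CV : ℝ} {G r L g s m1 d N : ℕ} (pb : PB CV G r L g s m1 d N) (hCV : 0 < CV)
    (hG2 : 6400 * ((1000 : ℕ) : ℝ) * Real.exp 9 * CV / Real.log 2 ≤ G)
    (hG3 : 8 * Real.exp 9 / Real.log 2 ≤ G) {R : Finset ℕ}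
    (hkV : (R.card : ℝ) * Piy L m1 1 ≤ CV * (L / m1)) :
    ∑ σ ∈ (univ : Finset (Iy L m1 → Option {j : ℕ // j ∈ R})).filter
        (fun σ => (2 : ℝ) ^ d / 2 ^ s < PP (py L m1) (supp σ)),
      Yd (py L m1) (yy L m1 s) (2 ^ d) σ ^ 2 / PH (py L m1) (supp σ) * Piy L m1 (Tc σ).card ≤
      Real.exp (1 - ((r : ℝ) + 1) ^ 2 / (400 * ((1000 : ℕ) : ℝ))) * Zy L m1 s d R := by
  have hG : (1 : ℝ) ≤ G := by exact_mod_cast pb.G1
  have hr : (0 : ℝ) ≤ r := Nat.cast_nonneg r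
  have hm : (1 : ℝ) ≤ m1 := by exact_mod_cast pb.pl.m_pos
  have hs1 : 1 ≤ s := pb.pl.m_pos.trans pb.pl.m_le_s
  have hs1r : (1 : ℝ) ≤ s := by exact_mod_cast hs1
  have hl2 : 0 < Real.log 2 := Real.log_pos (by norm_num)
  have h2pow : ∀ n : ℕ, (0 : ℝ) < 2 ^ n := fun n => pow_pos two_pos n
  obtain ⟨hHpos, hHlog⟩ := hlog_y pb hG3
  have hH := pb_H pb
  have hS1 : (1 : ℝ) < 2 ^ s := one_lt_pow₀ (by norm_num) (by omega)
  have hlogS : Real.log ((2 : ℝ) ^ s) = s * Real.log 2 := Real.log_pow _ _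
  have hsl : 0 < (s : ℝ) * Real.log 2 := mul_pos (lt_of_lt_of_le one_pos hs1r) hl2
  have hlS1 : 0 ≤ 1 / ((s : ℝ) * Real.log 2) := (one_div_pos.2 hsl).le
  have hlS2 : 0 ≤ 2 / (H1 (py L m1) ((2 : ℝ) ^ s) * ((s : ℝ) * Real.log 2)) :=
    (div_pos two_pos (mul_pos hHpos hsl)).le
  have hD : (1 : ℝ) ≤ 2 ^ d := one_le_pow₀ (by norm_num)
  have hcard : (Fintype.card {j : ℕ // j ∈ R} : ℝ) = R.card := by simp
  have htl := tailV (κ := {j : ℕ // j ∈ R}) two_le_py (wt (py L m1) ((2 : ℝ) ^ s)) (wt_empty _ _)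
    (D := (2 : ℝ) ^ d) (D2 := (2 : ℝ) ^ d / 2 ^ s) (lam := 1 / Real.log ((2 : ℝ) ^ s))
    (θ := 2 / (H1 (py L m1) ((2 : ℝ) ^ s) * Real.log ((2 : ℝ) ^ s))) (V1 := Piy L m1 1)
    (div_pos (h2pow d) (h2pow s))
    (by rw [hlogS]; exact hlS1) (by rw [hlogS]; exact hlS2)
    (wt_theta two_le_py hS1 hHpos) (Piy L m1) (pi_nn L m1) (pi_nn L m1 1) (pi_step' L m1)
  refine htl.trans ?_
  have hZZ0 : 0 ≤ ZZ {j : ℕ // j ∈ R} (py L m1) (wt (py L m1) ((2 : ℝ) ^ s)) ((2 : ℝ) ^ d)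
      (Piy L m1) := by
    have := ZZ_ge_one (κ := {j : ℕ // j ∈ R}) (py L m1) (wt (py L m1) ((2 : ℝ) ^ s)) two_le_py
      (wt_empty _ _) hD (pi_nn L m1) (pi_zero' L m1)
    linarith
  apply mul_le_mul_of_nonneg_right _ hZZ0
  rw [hlogS, hcard]
  have hsdr : (s : ℝ) * ((r : ℝ) + 1) ^ 2 ≤ 200 * ((1000 : ℕ) : ℝ) * d := by
    exact_mod_cast pb.pl.sd
  have hLd : (L : ℝ) ≤ 200 * ((1000 : ℕ) : ℝ) * ((r : ℝ) + 1) * d := by
    exact_mod_cast pb.pl.L_le_d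
  have h1 := h1f_tail (CV := CV) (k := (R.card : ℝ)) (V1 := Piy L m1 1)
    (H := H1 (py L m1) ((2 : ℝ) ^ s)) (G := G) (r := r)
    (N1 := ((1000 : ℕ) : ℝ)) (L := L) (s := s) (m1 := m1) (d := d) hCV hm hs1r hr
    (by norm_num) (by linarith) (Nat.cast_nonneg d) hkV
    (mul_nonneg (Nat.cast_nonneg _) (pi_nn L m1 1)) hH hG2 hLd hsdr
  rw [Real.rpow_natCast, Real.rpow_natCast] at h1
  exact h1

theorem cc_y {CV : ℝ} {G r L g s m1 d N : ℕ} (pb : PB CV G r L g s m1 d N)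
    (hG3 : 8 * Real.exp 9 / Real.log 2 ≤ G) (U : Finset (Iy L m1))
    (hU : PP (py L m1) U ≤ (2 : ℝ) ^ d / 2 ^ s) :
    |cc (py L m1) (yy L m1 s) (2 ^ d) U| ≤ 2 * (RR G r : ℝ) / 2 ^ m1 := by
  have h2pow : ∀ n : ℕ, (0 : ℝ) < 2 ^ n := fun n => pow_pos two_pos n
  obtain ⟨hHpos, hHlog⟩ := hlog_y pb hG3
  have hU1 : PP (py L m1) U * (2 : ℝ) ^ s ≤ 2 ^ d := by
    rwa [le_div_iff₀ (h2pow s)] at hU
  refine (cc_wt_small two_le_py hHpos hHlog U hU1).trans ?_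
  have hz : ∀ i : Iy L m1, (2 : ℝ) ^ m1 ≤ (py L m1 i : ℝ) - 1 := by
    intro i
    have h1 : 2 ^ m1 + 1 ≤ py L m1 i := (py_mem i).2.1
    have h2 : ((2 : ℝ) ^ m1 + 1) ≤ (py L m1 i : ℝ) := by exact_mod_cast h1
    linarith
  have h1 : ∑ i ∈ U, 2 / ((py L m1 i : ℝ) - 1) ≤ ∑ _i ∈ U, 2 / (2 : ℝ) ^ m1 := by
    refine sum_le_sum fun i _ => ?_
    exact div_le_div_of_nonneg_left zero_le_two (h2pow m1) (hz i)
  refine h1.trans ?_
  rw [sum_const, nsmul_eq_mul]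
  have hS1 : (1 : ℝ) ≤ 2 ^ s := one_le_pow₀ (by norm_num)
  have hsd0 : (2 : ℝ) ^ d / 2 ^ s ≤ 2 ^ d := div_le_self (h2pow d).le hS1
  have h2 : (U.card : ℝ) ≤ RR G r := by
    have h3 : U.card ≤ d / m1 := py_card pb.pl.m_pos U (hU.trans hsd0)
    have h4 : d / m1 ≤ RR G r := by
      rw [← pb.pl.hN]
      exact pb.pl.N_le
    exact_mod_cast h3.trans h4
  rw [mul_div_assoc', mul_comm (U.card : ℝ) 2]
  apply div_le_div_of_nonneg_right _ (h2pow m1).le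
  linarith only [h2]

theorem sup_y {CV : ℝ} {G r L g s m1 d N : ℕ} (pb : PB CV G r L g s m1 d N)
    (hG3 : 8 * Real.exp 9 / Real.log 2 ≤ G) {m : ℤ} (hm0 : m ≠ 0) (hmL : |m| ≤ 2 ^ (L + 4)) :
    ∑ S ∈ (univ : Finset (Finset (Iy L m1))).filter (fun S => S ≠ ∅),
      |yy L m1 s S| * ∏ i ∈ S, |ee (py L m1 i) m| ≤ 2 ^ (RR G r + 4) * E2 G r := by
  obtain ⟨hHpos, hHlog⟩ := hlog_y pb hG3
  have hy1 : ∀ S, |yy L m1 s S| ≤ 1 := wt_abs (S1 := (2 : ℝ) ^ s) two_le_py hHlog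
  have h1 : ∑ S ∈ (univ : Finset (Finset (Iy L m1))).filter (fun S => S ≠ ∅),
        |yy L m1 s S| * ∏ i ∈ S, |ee (py L m1 i) m| ≤
      ∑ S : Finset (Iy L m1), ∏ i ∈ S, |ee (py L m1 i) m| := by
    refine le_trans (sum_le_sum (g := fun S => ∏ i ∈ S, |ee (py L m1 i) m|) fun S _ => ?_) ?_
    · exact mul_le_of_le_one_left (prod_nonneg fun _ _ => abs_nonneg _) (hy1 S)
    · exact sum_le_sum_of_subset_of_nonneg (filter_subset _ _)
        fun S _ _ => prod_nonneg fun _ _ => abs_nonneg _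
  have hm := pb.pl.m_pos
  have hLle := pb.pl.L_le
  refine h1.trans ((sumE (R := RR G r + 4) two_le_py m ?_).trans ?_)
  · intro U hU
    have h2 := card_dvd (fun i => (py_mem i).1) (py_inj L m1) (z := m1) (A := L + 4)
      (fun i => (py_mem i).2.1.le) hm0 hmL U hU
    by_contra hcon
    push Not at hcon
    have h3 : m1 * (RR G r + 5) ≤ m1 * U.card := Nat.mul_le_mul_left _ hcon
    have h4 : m1 * (RR G r + 5) = RR G r * m1 + 5 * m1 := by ring
    omega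
  · exact mul_le_mul_of_nonneg_left (py_prod hm hLle) (by positivity)

theorem kV_y {Λ CV CV' : ℝ} (hΛ : 0 < Λ) {G r L g s m1 d N : ℕ} (pb : PB CV' G r L g s m1 d N)
    (hCV : 24 * Real.exp 9 * Λ / Real.log 2 ≤ CV) {R : Finset ℕ}
    (hk : (R.card : ℝ) * (Nat.log 2 L : ℝ) ≤ Λ * L) :
    (R.card : ℝ) * Piy L m1 1 ≤ CV * (L / m1) := by
  have hL16 := pb.pl.L16
  have hlam1 : (1 : ℝ) ≤ (Nat.log 2 L : ℝ) := by
    have h1 : Nat.log 2 16 ≤ Nat.log 2 L := Nat.log_mono_right hL16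
    have h2 : Nat.log 2 16 = 4 := by
      rw [show (16 : ℕ) = 2 ^ 4 by norm_num, Nat.log_pow (by norm_num)]
    have h3 : 1 ≤ Nat.log 2 L := by omega
    exact_mod_cast h3
  exact h1f_kV (Nat.cast_nonneg _) hlam1 (Nat.cast_nonneg L) hk (by exact_mod_cast pb.pl.m_pos) hCV
    (V1_le (by omega) pb.pl.m_pos (fun b hb => absurd hb (notMem_empty b)) (by simp))

/-- `ZZ ≥ 1` -/
theorem Zy_one {CV : ℝ} {G r L g s m1 d N : ℕ} (pb : PB CV G r L g s m1 d N) (R : Finset ℕ) :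
    1 ≤ Zy L m1 s d R :=
  ZZ_ge_one (κ := {j : ℕ // j ∈ R}) (py L m1) (wt (py L m1) ((2 : ℝ) ^ s)) two_le_py
    (wt_empty _ _) (one_le_pow₀ (by norm_num)) (pi_nn L m1) (pi_zero' L m1)

end Pool.Agent.AV
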