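import Pool.Agent.AV.PVD
import Pool.Agent.AT.PtD

/-! AV/IxA.  From windows to indices. -/

set_option autoImplicit false

open Finset Pool.Agent.RS Pool.Agent.AT Pool.Agent.VOID

namespace Pool.Agent.AV

/-- the version of `pt1` (AT/Pt1, proved: copy the proof, there `N` is this `Nat.count`) with explicit index -/
theorem pt1c {m K n H E : ℕ} {u : Fin K → ℕ} (hc : Cfg H u E)
    (h1 : ∀ q ∈ Ico n (n + H), q.Prime → ∃ i, n + u i ≤ q ∧ q < n + u i + E)
    (h2 : ∀ i, ∀ q q' : ℕ, q.Prime → q'.Prime → n + u i ≤ q → q < n + u i + E →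
      n + u i ≤ q' → q' < n + u i + E → q = q')
    (h3 : m + 1 ≤ ((Ico n (n + H)).filter Nat.Prime).card) :
    ∃ i : Fin (m + 1) → Fin K, StrictMono i ∧ ∀ r : Fin (m + 1),
      n + u (i r) ≤ Nat.nth Nat.Prime (Nat.count Nat.Prime n + r) ∧
      Nat.nth Nat.Prime (Nat.count Nat.Prime n + r) < n + u (i r) + E := by
  have hinf : (Set.ofPred Nat.Prime).Infinite := Nat.infinite_setOfPred_prime
  have hcount : Nat.count Nat.Prime (n + H) =
      Nat.count Nat.Prime n + ((Ico n (n + H)).filter Nat.Prime).card := by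
    rw [Nat.count_eq_card_filter_range, Nat.count_eq_card_filter_range]
    have hU : (range (n + H)).filter Nat.Prime =
        (range n).filter Nat.Prime ∪ (Ico n (n + H)).filter Nat.Prime := by
      ext q
      simp only [mem_filter, mem_union, mem_range, mem_Ico]
      constructor
      · rintro ⟨ha, hb⟩
        by_cases hq : q < n
        · exact Or.inl ⟨hq, hb⟩
        · exact Or.inr ⟨⟨by omega, ha⟩, hb⟩
      · rintro (⟨ha, hb⟩ | ⟨⟨_, ha⟩, hb⟩)
        · exact ⟨by omega, hb⟩
        · exact ⟨ha, hb⟩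
    rw [hU, card_union_of_disjoint]
    rw [disjoint_left]
    intro q hq hq'
    rw [mem_filter, mem_range] at hq
    rw [mem_filter, mem_Ico] at hq'
    omega
  have hlo : ∀ r : ℕ, n ≤ Nat.nth Nat.Prime (Nat.count Nat.Prime n + r) := fun r =>
    (Nat.count_le_iff_le_nth hinf).1 (by omega)
  have hhi : ∀ r : Fin (m + 1), Nat.nth Nat.Prime (Nat.count Nat.Prime n + r) < n + H := by
    intro r
    apply Nat.nth_lt_of_lt_count
    have := r.isLt
    omega
  have hpr : ∀ r : ℕ, (Nat.nth Nat.Prime (Nat.count Nat.Prime n + r)).Prime := fun r =>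
    Nat.nth_mem_of_infinite hinf _
  have hex : ∀ r : Fin (m + 1), ∃ i, n + u i ≤ Nat.nth Nat.Prime (Nat.count Nat.Prime n + r) ∧
      Nat.nth Nat.Prime (Nat.count Nat.Prime n + r) < n + u i + E := fun r =>
    h1 _ (mem_Ico.2 ⟨hlo r, hhi r⟩) (hpr r)
  choose i hi1 hi2 using hex
  refine ⟨i, ?_, fun r => ⟨hi1 r, hi2 r⟩⟩
  rw [Fin.strictMono_iff_lt_succ]
  intro r
  have hlt : Nat.nth Nat.Prime (Nat.count Nat.Prime n + (r.castSucc : Fin (m + 1))) <
      Nat.nth Nat.Prime (Nat.count Nat.Prime n + (r.succ : Fin (m + 1))) := by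
    apply Nat.nth_strictMono hinf
    rw [Fin.val_castSucc, Fin.val_succ]
    omega
  have a1 := hi1 r.castSucc
  have a2 := hi2 r.castSucc
  have b1 := hi1 r.succ
  have b2 := hi2 r.succ
  rcases lt_trichotomy (i r.castSucc) (i r.succ) with h | h | h
  · exact h
  · exfalso
    rw [← h] at b1 b2
    have := h2 (i r.castSucc) _ _ (hpr _) (hpr _) a1 a2 b1 b2
    omega
  · exfalso
    have := hc.hdis _ _ h
    omega

open Classical in
/-- PLAN: the map `n ↦ Nat.count Nat.Prime n` (the index of the first prime `≥ n`); for a fixed value `n'` the `n`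
satisfy `q - H < n ≤ q`, `q = nth Prime n'`: at most `H` of them. -/
theorem ix_count {W : Finset ℕ} {H N : ℕ} {J : ℕ → Prop}
    (h1 : ∀ n ∈ W, Nat.nth Nat.Prime (Nat.count Nat.Prime n) < n + H)
    (h2 : ∀ n ∈ W, Nat.count Nat.Prime n < N) (h3 : ∀ n ∈ W, J (Nat.count Nat.Prime n)) :
    (W.card : ℝ) ≤ H * (((range N).filter J).card : ℝ) := by
  have hinf : (Set.ofPred Nat.Prime).Infinite := Nat.infinite_setOfPred_prime
  have hfib : ∀ a ∈ W.image (Nat.count Nat.Prime),
      (W.filter (fun n => Nat.count Nat.Prime n = a)).card ≤ H := by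
    intro a _
    have hsub : W.filter (fun n => Nat.count Nat.Prime n = a) ⊆
        Ico (Nat.nth Nat.Prime a + 1 - H) (Nat.nth Nat.Prime a + 1) := by
      intro n hn
      rw [mem_filter] at hn
      obtain ⟨hnW, hna⟩ := hn
      have e1 := h1 n hnW
      have e2 : n ≤ Nat.nth Nat.Prime (Nat.count Nat.Prime n) :=
        (Nat.count_le_iff_le_nth hinf).1 le_rfl
      rw [hna] at e1 e2
      rw [mem_Ico]
      omega
    refine (card_le_card hsub).trans ?_
    rw [Nat.card_Ico]
    omega
  have hc := Finset.card_le_mul_card_image (f := Nat.count Nat.Prime) W H hfib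
  have hi : (W.image (Nat.count Nat.Prime)).card ≤ ((range N).filter J).card := by
    apply card_le_card
    intro a ha
    rw [mem_image] at ha
    obtain ⟨n, hn, rfl⟩ := ha
    rw [mem_filter, mem_range]
    exact ⟨h2 n hn, h3 n hn⟩
  have hfin : W.card ≤ H * ((range N).filter J).card :=
    hc.trans (Nat.mul_le_mul_left _ hi)
  exact_mod_cast hfin

/-- Chebyshev's upper bound for the number of primes below the `N`-th prime.  PLAN: `Nat.count`/`Nat.nth`: `N` is
the number of primes `< p_N`; primes `≤ √x` trivially and `∏_{√x < q ≤ x} q ≤ primorial x ≤ 4^x`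
(`primorial_le_4_pow`): `N ≤ √x + 2 x log 4/log x`. -/
theorem cheb : ∃ C : ℝ, 0 < C ∧ ∃ N0 : ℕ, ∀ N : ℕ, N0 ≤ N →
    (N : ℝ) * Real.log (pn N) ≤ C * pn N := by
  have hinf : (Set.ofPred Nat.Prime).Infinite := Nat.infinite_setOfPred_prime
  have hl4 : 0 < Real.log 4 := Real.log_pos (by norm_num)
  refine ⟨2 * Real.log 4 + 2, by positivity, 0, fun N _ => ?_⟩
  have hp : (Nat.nth Nat.Prime N).Prime := Nat.nth_mem_of_infinite hinf _
  have hx2 : (2 : ℝ) ≤ pn N := by
    unfold pn
    exact_mod_cast hp.two_le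
  have hx1 : (1 : ℝ) < pn N := by linarith
  have hx0 : (0 : ℝ) < pn N := by linarith
  have h1 := Chebyshev.pi_le_log4_mul_div hx1
  have hcnt : N ≤ Nat.primeCounting ⌊pn N⌋₊ := by
    have e : ⌊pn N⌋₊ = Nat.nth Nat.Prime N := by
      unfold pn
      exact Nat.floor_natCast _
    rw [e, Nat.primeCounting, Nat.primeCounting']
    have h3 : Nat.count Nat.Prime (Nat.nth Nat.Prime N) ≤
        Nat.count Nat.Prime (Nat.nth Nat.Prime N + 1) :=
      Nat.count_monotone _ (Nat.le_succ _)
    rw [Nat.count_nth_of_infinite hinf] at h3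
    exact h3
  have hN : (N : ℝ) ≤ Real.log 4 * pn N / Real.log √(pn N) + √(pn N) := by
    refine le_trans ?_ h1
    exact_mod_cast hcnt
  have hlx : 0 < Real.log (pn N) := Real.log_pos hx1
  have hsq : Real.log √(pn N) = Real.log (pn N) / 2 := Real.log_sqrt hx0.le
  have hs : √(pn N) * √(pn N) = pn N := Real.mul_self_sqrt hx0.le
  have hs0 : 0 < √(pn N) := Real.sqrt_pos.2 hx0
  have hlog : Real.log (pn N) ≤ 2 * √(pn N) := by
    have h4 := Real.log_le_sub_one_of_pos hs0
    rw [hsq] at h4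
    linarith
  calc (N : ℝ) * Real.log (pn N)
      ≤ (Real.log 4 * pn N / Real.log √(pn N) + √(pn N)) * Real.log (pn N) :=
        mul_le_mul_of_nonneg_right hN hlx.le
    _ = 2 * Real.log 4 * pn N + √(pn N) * Real.log (pn N) := by
        rw [hsq]
        field_simp
    _ ≤ 2 * Real.log 4 * pn N + √(pn N) * (2 * √(pn N)) := by
        have := mul_le_mul_of_nonneg_left hlog hs0.le
        linarith
    _ = (2 * Real.log 4 + 2) * pn N := by
        rw [show √(pn N) * (2 * √(pn N)) = 2 * (√(pn N) * √(pn N)) by ring, hs]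
        ring

end Pool.Agent.AV
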