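import Pool.Agent.AT.PtD

/-! AV/PaD.  The statement on patterns at the scale of the mean gap. -/

set_option autoImplicit false

open Finset Pool.Agent.AT

namespace Pool.Agent.AV

open Classical in
/-- For all `m`, `δ` there is `K` such that for all `K` points of `[0, Λ0]` with distances `≥ δ` a proportion
`≥ c(m, δ, Λ0)` of all indices `n` has `m` consecutive normalised gaps equal, up to `δ`, to the consecutive
differences of `m + 1` of the points. -/
def Patt : Prop := ∀ (m : ℕ) (δ : ℝ), 0 < δ → ∃ K : ℕ, 0 < K ∧ ∀ Λ0 : ℝ, 0 < Λ0 →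
    ∃ c : ℝ, 0 < c ∧ ∃ N0 : ℕ, ∀ N : ℕ, N0 ≤ N → ∀ β : Fin K → ℝ,
    (∀ i, 0 ≤ β i ∧ β i ≤ Λ0) → (∀ i j, i < j → β i + δ ≤ β j) →
    c * N ≤ (((range N).filter (fun n => ∃ i : Fin (m + 1) → Fin K, StrictMono i ∧
      ∀ r : Fin m, |2 * √(pn (n + r)) * dn (n + r) / Real.log (pn (n + r)) -
        (β (i r.succ) - β (i r.castSucc))| < δ)).card : ℝ)

end Pool.Agent.AV
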