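import Pool.Agent.AV.IxA
import Pool.Agent.AV.PaD

/-! AV/IxB.  POSITIVE PROPORTION OF PATTERNS at the scale of the mean gap. -/

set_option autoImplicit false

open Finset Filter Topology Pool.Agent.RS Pool.Agent.AT Pool.Agent.VOID

namespace Pool.Agent.AV

/-- elementary estimate.  `q < q'` consecutive terms in `[P/2, 5P]`, `q' - q = t log P + O(δ/8 log P)`,
`0 ≤ t ≤ Λ0`: then `2 √q (√q' - √q)/log q` is within `δ` of `t` for `P` large.
PLAN: `2√q (√q' - √q) = (q' - q) 2√q/(√q' + √q)`, `1 - 2√q/(√q'+√q) ≤ (q'-q)/q`, `|log q - log P| ≤ 2`. -/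
theorem nrm {Λ0 δ : ℝ} (hΛ : 0 < Λ0) (hδ : 0 < δ) : ∃ P0 : ℕ, ∀ P : ℕ, P0 ≤ P →
    ∀ q q' t : ℝ, (P : ℝ) / 2 ≤ q → q ≤ 5 * P → q ≤ q' → 0 ≤ t → t ≤ Λ0 →
    |q' - q - t * Real.log P| ≤ δ / 8 * Real.log P →
    |2 * √q * (√q' - √q) / Real.log q - t| < δ := by
  have hcast : Tendsto (fun P : ℕ => (P : ℝ)) atTop atTop := tendsto_natCast_atTop_atTop
  have hlog := Real.tendsto_log_atTop.comp hcast
  have ev1 : ∀ᶠ P : ℕ in atTop, 16 * Λ0 / δ + 4 ≤ Real.log P :=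
    hlog.eventually_ge_atTop _
  have hε : 0 < δ / (4 * (Λ0 + δ) ^ 2) := by positivity
  have ev2 : ∀ᶠ P : ℕ in atTop, ‖Real.log P‖ ≤ δ / (4 * (Λ0 + δ) ^ 2) * ‖(P : ℝ)‖ :=
    hcast.eventually (Real.isLittleO_log_id_atTop.bound hε)
  have ev3 : ∀ᶠ P : ℕ in atTop, 1 ≤ P := eventually_ge_atTop 1
  obtain ⟨P0, hP0⟩ := eventually_atTop.1 (ev1.and (ev2.and ev3))
  refine ⟨P0, fun P hP q q' t hq hq5 hqq ht0 ht hD => ?_⟩
  obtain ⟨e1, e2, e3⟩ := hP0 P hP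
  have hPp : (0 : ℝ) < P := by exact_mod_cast e3
  obtain ⟨ℓ, hℓ⟩ : ∃ ℓ, ℓ = Real.log P := ⟨_, rfl⟩
  rw [← hℓ] at e1 e2 hD
  have hℓ4 : 4 ≤ ℓ := by
    have : 0 ≤ 16 * Λ0 / δ := by positivity
    linarith
  have hℓ0 : 0 < ℓ := by linarith
  rw [Real.norm_of_nonneg hℓ0.le, Real.norm_of_nonneg hPp.le] at e2
  have e2' : (Λ0 + δ) ^ 2 * ℓ ≤ δ / 4 * P := by
    have h1 := mul_le_mul_of_nonneg_left e2 (sq_nonneg (Λ0 + δ))
    have h2 : (Λ0 + δ) ^ 2 * (δ / (4 * (Λ0 + δ) ^ 2) * P) = δ / 4 * P := by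
      have : Λ0 + δ ≠ 0 := by positivity
      field_simp
    linarith
  have e1' : 4 * Λ0 ≤ δ / 4 * ℓ := by
    have h1 : 16 * Λ0 / δ ≤ ℓ := by linarith
    rw [div_le_iff₀ hδ] at h1
    linarith
  have hq0 : 0 < q := by linarith
  have hq0' : 0 < q' := by linarith
  -- the logarithm of `q`
  have hlq1 : Real.log q ≤ ℓ + 2 := by
    have h1 : Real.log q ≤ Real.log (5 * P) := Real.log_le_log hq0 hq5
    rw [Real.log_mul (by norm_num) hPp.ne'] at h1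
    have h2 : Real.log 5 ≤ 2 := by
      rw [Real.log_le_iff_le_exp (by norm_num)]
      have h3 := Real.add_one_le_exp (1 : ℝ)
      have h4 : Real.exp 2 = Real.exp 1 * Real.exp 1 := by
        rw [← Real.exp_add]
        norm_num
      have h5 := Real.exp_one_gt_d9
      rw [h4]
      nlinarith
    rw [hℓ]
    linarith
  have hlq2 : ℓ - 2 ≤ Real.log q := by
    have h1 : Real.log (P / 2) ≤ Real.log q := Real.log_le_log (by positivity) hq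
    rw [Real.log_div hPp.ne' (by norm_num)] at h1
    have h2 := Real.log_two_lt_d9
    rw [hℓ]
    linarith
  have hlq3 : ℓ / 2 ≤ Real.log q := by linarith
  have hlq0 : 0 < Real.log q := by linarith
  obtain ⟨s, hs⟩ : ∃ s, s = √q := ⟨_, rfl⟩
  obtain ⟨s', hs'⟩ : ∃ s', s' = √q' := ⟨_, rfl⟩
  have hs0 : 0 < s := by rw [hs]; exact Real.sqrt_pos.2 hq0
  have hss : s ≤ s' := by rw [hs, hs']; exact Real.sqrt_le_sqrt hqq
  have hs2 : s * s = q := by rw [hs]; exact Real.mul_self_sqrt hq0.le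
  have hs2' : s' * s' = q' := by rw [hs']; exact Real.mul_self_sqrt hq0'.le
  rw [← hs, ← hs']
  have hsum : 0 < s' + s := by linarith
  obtain ⟨D, hDD⟩ : ∃ D, D = q' - q := ⟨_, rfl⟩
  rw [← hDD] at hD
  have hD0 : 0 ≤ D := by linarith
  have hD1 : D ≤ (Λ0 + δ) * ℓ := by
    have h1 := (abs_le.1 hD).2
    have h2 : t * ℓ ≤ Λ0 * ℓ := mul_le_mul_of_nonneg_right ht hℓ0.le
    have h3 : δ / 8 * ℓ ≤ δ * ℓ := mul_le_mul_of_nonneg_right (by linarith) hℓ0.le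
    linarith
  obtain ⟨ρ, hρ⟩ : ∃ ρ, ρ = 2 * s / (s' + s) := ⟨_, rfl⟩
  have hmul : 2 * s * (s' - s) = D * ρ := by
    rw [hρ, hDD, ← hs2, ← hs2']
    field_simp
    ring
  have hρ1 : ρ ≤ 1 := by
    rw [hρ, div_le_one hsum]
    linarith
  have hρ2 : (1 - ρ) * (2 * P) ≤ D := by
    have h1 : (1 - ρ) * ((s' + s) * (s' + s)) = D := by
      rw [hρ, hDD, ← hs2, ← hs2']
      field_simp
      ring
    have h2 : 2 * (P : ℝ) ≤ (s' + s) * (s' + s) := by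
      nlinarith
    have h3 : (1 - ρ) * (2 * P) ≤ (1 - ρ) * ((s' + s) * (s' + s)) :=
      mul_le_mul_of_nonneg_left h2 (by linarith)
    linarith
  have hkey : D * (1 - ρ) ≤ δ / 8 * ℓ := by
    have h1 : D * ((1 - ρ) * (2 * P)) ≤ D * D := mul_le_mul_of_nonneg_left hρ2 hD0
    have h2 : D * D ≤ (Λ0 + δ) * ℓ * ((Λ0 + δ) * ℓ) :=
      mul_le_mul hD1 hD1 hD0 (by positivity)
    have h3 : (Λ0 + δ) * ℓ * ((Λ0 + δ) * ℓ) = (Λ0 + δ) ^ 2 * ℓ * ℓ := by ring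
    have h4 : (Λ0 + δ) ^ 2 * ℓ * ℓ ≤ δ / 4 * P * ℓ := mul_le_mul_of_nonneg_right e2' hℓ0.le
    have h5 : D * (1 - ρ) * (2 * P) ≤ δ / 8 * ℓ * (2 * P) := by
      have : D * (1 - ρ) * (2 * P) = D * ((1 - ρ) * (2 * P)) := by ring
      rw [this]
      linarith
    exact le_of_mul_le_mul_right h5 (by positivity)
  have hA : |2 * s * (s' - s) - t * Real.log q| ≤ δ / 4 * ℓ + 2 * Λ0 := by
    have h1 : 2 * s * (s' - s) - t * Real.log q =
        (D - t * ℓ) - D * (1 - ρ) + t * (ℓ - Real.log q) := by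
      rw [hmul]
      ring
    have h2 := abs_le.1 hD
    have h3 : 0 ≤ D * (1 - ρ) := mul_nonneg hD0 (by linarith)
    have h4 : |t * (ℓ - Real.log q)| ≤ Λ0 * 2 := by
      rw [abs_mul, abs_of_nonneg ht0]
      exact mul_le_mul ht (abs_le.2 ⟨by linarith, by linarith⟩) (abs_nonneg _) hΛ.le
    have h5 := abs_le.1 h4
    rw [h1]
    refine abs_le.2 ⟨?_, ?_⟩ <;> linarith
  have e4 : 2 * s * (s' - s) / Real.log q - t = (2 * s * (s' - s) - t * Real.log q) / Real.log q := by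
    field_simp
  rw [e4, abs_div, abs_of_pos hlq0, div_lt_iff₀ hlq0]
  refine lt_of_le_of_lt hA ?_
  have h6 : δ * (ℓ / 2) ≤ δ * Real.log q := mul_le_mul_of_nonneg_left hlq3 hδ.le
  nlinarith

private theorem ixb_log {n : ℕ} (hn : 8 ≤ n) : Real.log n ≤ (Nat.log 2 n : ℝ) := by
  have h1 : n < 2 ^ (Nat.log 2 n + 1) := Nat.lt_pow_succ_log_self (by norm_num) n
  have h2 : 3 ≤ Nat.log 2 n := Nat.le_log_of_pow_le (by norm_num) (by norm_num; exact hn)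
  set l := Nat.log 2 n with hl
  have h3 : (3 : ℝ) ≤ l := by exact_mod_cast h2
  have h4 : (n : ℝ) ≤ 2 ^ (l + 1) := by exact_mod_cast h1.le
  have h5 : Real.log n ≤ (l + 1) * Real.log 2 := by
    have h6 : (0 : ℝ) < n := by
      have : 0 < n := by omega
      exact_mod_cast this
    have h7 := Real.log_le_log h6 h4
    rw [Real.log_pow] at h7
    push_cast at h7
    exact h7
  have h8 := Real.log_two_lt_d9
  nlinarith

private theorem ixb_log2 {n : ℕ} (hn : 1 ≤ n) : (Nat.log 2 n : ℝ) ≤ 2 * Real.log n := by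
  have h1 : 2 ^ Nat.log 2 n ≤ n := Nat.pow_log_le_self 2 (by omega)
  set l := Nat.log 2 n with hl
  have h4 : (2 : ℝ) ^ l ≤ n := by exact_mod_cast h1
  have h5 : l * Real.log 2 ≤ Real.log n := by
    have h7 := Real.log_le_log (by positivity) h4
    rwa [Real.log_pow] at h7
  have h8 := Real.log_two_gt_d9
  have h9 : (0 : ℝ) ≤ l := Nat.cast_nonneg l
  nlinarith

/-- PLAN.  `PV hE hB m` gives `μ`, `K0`; `K ≥ K0` with `μ/K ≤ δ/16`.  For `N` large let `P = ⌊p_N/5⌋`, `L = Nat.log 2 P`,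
`u i = ⌊β i * log P⌋₊`, `E = ⌊μ/K * L⌋₊`, `H = ⌈Λ0 log P⌉₊ + E + 1 ≤ (Λ0 + δ + 2) L`; `Cfg H u E` (for `i < j`:
`u j - u i ≥ δ log P - 1 ≥ E` since `E ≤ δ L/16`, `L ≤ 2 log P`).  `PV` gives `≥ c P` windows `n ∈ Wn`, and
`n + H ≤ 4P + H < p_N`.  `pt1c` and `nrm` (with `q' - q = u (i r.succ) - u (i r.castSucc) + O(E)`) show that the index
`Nat.count Nat.Prime n` has the property; `ix_count`; `H ≤ (Λ0+δ+2) L`; `cheb`: `N ≤ C p_N/log p_N ≤ C' P/L`. -/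
theorem ixB (hE : SEV) (hB : SBT) : Patt := by
  classical
  intro m δ hδ
  obtain ⟨μ, hμ, K0, hK0, hPV⟩ := PV hE hB m
  obtain ⟨K, hK⟩ : ∃ K, K = max K0 ⌈32 * μ / δ⌉₊ := ⟨_, rfl⟩
  have hKK0 : K0 ≤ K := by rw [hK]; exact le_max_left _ _
  have hKpos : 0 < K := lt_of_lt_of_le hK0 hKK0
  have hKr : (0 : ℝ) < K := by exact_mod_cast hKpos
  have hKμ : 32 * μ / δ ≤ K := by
    refine (Nat.le_ceil _).trans ?_
    rw [hK]
    exact_mod_cast le_max_right _ _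
  obtain ⟨η, hη⟩ : ∃ η, η = μ / K := ⟨_, rfl⟩
  have hη0 : 0 < η := by rw [hη]; positivity
  have hη1 : η ≤ δ / 32 := by
    rw [hη, div_le_iff₀ hKr]
    rw [div_le_iff₀ hδ] at hKμ
    linarith
  refine ⟨K, hKpos, fun Λ0 hΛ => ?_⟩
  obtain ⟨c, hc, P1, hc1⟩ := hPV K hKK0 (Λ0 + δ + 2) (by positivity)
  rw [← hη] at hc1
  obtain ⟨C, hC, N1, hC1⟩ := cheb
  obtain ⟨P2, hP2⟩ := nrm hΛ hδ
  -- `P` large
  have hcast : Tendsto (fun P : ℕ => (P : ℝ)) atTop atTop := tendsto_natCast_atTop_atTop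
  have hlog := Real.tendsto_log_atTop.comp hcast
  have ev1 : ∀ᶠ P : ℕ in atTop, 16 / δ + 4 ≤ Real.log P := hlog.eventually_ge_atTop _
  have hε : 0 < 1 / (4 * (Λ0 + δ + 2)) := by positivity
  have ev2 : ∀ᶠ P : ℕ in atTop, ‖Real.log P‖ ≤ 1 / (4 * (Λ0 + δ + 2)) * ‖(P : ℝ)‖ :=
    hcast.eventually (Real.isLittleO_log_id_atTop.bound hε)
  obtain ⟨P3, hP3⟩ := eventually_atTop.1 (ev1.and ev2)
  obtain ⟨Pm, hPm⟩ : ∃ Pm, Pm = P1 + P2 + P3 + 256 := ⟨_, rfl⟩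
  refine ⟨c / (20 * C * (Λ0 + δ + 2)), by positivity, N1 + 5 * Pm + 5, ?_⟩
  intro N hN β hβ1 hβ2
  have hinf : (Set.ofPred Nat.Prime).Infinite := Nat.infinite_setOfPred_prime
  obtain ⟨pN, hpN⟩ : ∃ pN, pN = Nat.nth Nat.Prime N := ⟨_, rfl⟩
  have hpNN : N + 2 ≤ pN := by
    rw [hpN]
    exact Nat.add_two_le_nth_prime N
  obtain ⟨P, hP⟩ : ∃ P, P = pN / 5 := ⟨_, rfl⟩
  have hP5 : 5 * P ≤ pN := by omega
  have hP5' : pN ≤ 5 * P + 4 := by omega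
  have hPm' : Pm ≤ P := by omega
  have hP256 : 256 ≤ P := by omega
  have hPp : (0 : ℝ) < P := by
    have : 0 < P := by omega
    exact_mod_cast this
  obtain ⟨e1, e2⟩ := hP3 P (by omega)
  obtain ⟨L, hL⟩ : ∃ L, L = Nat.log 2 P := ⟨_, rfl⟩
  have hL1 : Real.log P ≤ (L : ℝ) := by rw [hL]; exact ixb_log (by omega)
  have hL2 : (L : ℝ) ≤ 2 * Real.log P := by rw [hL]; exact ixb_log2 (by omega)
  obtain ⟨ℓ, hℓ⟩ : ∃ ℓ, ℓ = Real.log P := ⟨_, rfl⟩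
  rw [← hℓ] at e1 e2 hL1 hL2
  have hℓ4 : 4 ≤ ℓ := by
    have : 0 ≤ 16 / δ := by positivity
    linarith
  have hℓ0 : 0 < ℓ := by linarith
  have hδℓ : 16 ≤ δ * ℓ := by
    have h1 : 16 / δ ≤ ℓ := by linarith
    rw [div_le_iff₀ hδ] at h1
    linarith
  rw [Real.norm_of_nonneg hℓ0.le, Real.norm_of_nonneg hPp.le] at e2
  have hLP : 2 * ((Λ0 + δ + 2) * ℓ) ≤ P / 2 := by
    have h1 := mul_le_mul_of_nonneg_left e2 (show (0 : ℝ) ≤ Λ0 + δ + 2 by positivity)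
    have h2 : (Λ0 + δ + 2) * (1 / (4 * (Λ0 + δ + 2)) * P) = P / 4 := by
      have : Λ0 + δ + 2 ≠ 0 := by positivity
      field_simp
    linarith
  obtain ⟨E, hE'⟩ : ∃ E, E = ⌊η * L⌋₊ := ⟨_, rfl⟩
  have hL0 : (0 : ℝ) ≤ L := Nat.cast_nonneg _
  have hE1 : (E : ℝ) ≤ η * L := by
    rw [hE']
    exact Nat.floor_le (by positivity)
  have hE2 : (E : ℝ) ≤ δ / 16 * ℓ := by
    have h1 : η * L ≤ η * (2 * ℓ) := mul_le_mul_of_nonneg_left hL2 hη0.le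
    have h2 : η * (2 * ℓ) ≤ δ / 32 * (2 * ℓ) := mul_le_mul_of_nonneg_right hη1 (by linarith)
    linarith
  obtain ⟨H, hH⟩ : ∃ H, H = ⌈Λ0 * ℓ⌉₊ + E + 1 := ⟨_, rfl⟩
  have hceil1 : Λ0 * ℓ ≤ (⌈Λ0 * ℓ⌉₊ : ℝ) := Nat.le_ceil _
  have hceil2 : (⌈Λ0 * ℓ⌉₊ : ℝ) < Λ0 * ℓ + 1 := Nat.ceil_lt_add_one (by positivity)
  have hHr : (H : ℝ) = (⌈Λ0 * ℓ⌉₊ : ℝ) + E + 1 := by
    rw [hH]
    push_cast
    ring
  have hH1 : (H : ℝ) ≤ (Λ0 + δ + 2) * L := by
    have h1 : Λ0 * ℓ ≤ Λ0 * L := mul_le_mul_of_nonneg_left hL1 hΛ.le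
    have h2 : η * L ≤ δ * L := mul_le_mul_of_nonneg_right (by linarith) hL0
    have h3 : (1 : ℝ) ≤ L := by linarith
    have h4 : (Λ0 + δ + 2) * L = Λ0 * L + δ * L + 2 * L := by ring
    rw [h4]
    linarith
  have hH2 : (H : ℝ) ≤ 2 * ((Λ0 + δ + 2) * ℓ) := by
    have h1 : (Λ0 + δ + 2) * L ≤ (Λ0 + δ + 2) * (2 * ℓ) :=
      mul_le_mul_of_nonneg_left hL2 (by positivity)
    linarith
  have hHP : (H : ℝ) ≤ P / 2 := hH2.trans hLP
  have hHP' : 2 * H ≤ P := by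
    have : (2 * H : ℝ) ≤ P := by linarith
    exact_mod_cast this
  -- the clusters
  obtain ⟨u, hu⟩ : ∃ u : Fin K → ℕ, u = fun i => ⌊β i * ℓ⌋₊ := ⟨_, rfl⟩
  have hu1 : ∀ i, (u i : ℝ) ≤ β i * ℓ := by
    intro i
    rw [hu]
    exact Nat.floor_le (mul_nonneg (hβ1 i).1 hℓ0.le)
  have hu2 : ∀ i, β i * ℓ < u i + 1 := by
    intro i
    rw [hu]
    exact Nat.lt_floor_add_one _
  have hcfg : Cfg H u E := by
    refine ⟨fun i => ?_, fun i j hij => ?_⟩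
    · have h3 : β i * ℓ ≤ Λ0 * ℓ := mul_le_mul_of_nonneg_right (hβ1 i).2 hℓ0.le
      have h4 : ((u i + E : ℕ) : ℝ) ≤ (H : ℝ) := by
        rw [hHr]
        push_cast
        linarith [hu1 i]
      exact_mod_cast h4
    · have h3 : (β i + δ) * ℓ ≤ β j * ℓ := mul_le_mul_of_nonneg_right (hβ2 i j hij) hℓ0.le
      have h4 : ((u i + E : ℕ) : ℝ) ≤ (u j : ℝ) := by
        push_cast
        have := hu1 i
        have := hu2 j
        have h5 : (β i + δ) * ℓ = β i * ℓ + δ * ℓ := by ring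
        linarith
      exact_mod_cast h4
  have hW := hc1 P (by omega) L hL H u hH1 (by rw [← hE']; exact hcfg)
  rw [← hE'] at hW
  obtain ⟨W, hWd⟩ : ∃ W, W = Wn m P H E u := ⟨_, rfl⟩
  rw [← hWd] at hW
  have hWm : ∀ n ∈ W, P - H < n ∧ n ≤ 4 * P ∧
      (∀ q ∈ Ico n (n + H), q.Prime → ∃ i, n + u i ≤ q ∧ q < n + u i + E) ∧
      (∀ i, ∀ q q' : ℕ, q.Prime → q'.Prime → n + u i ≤ q → q < n + u i + E →
        n + u i ≤ q' → q' < n + u i + E → q = q') ∧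
      m + 1 ≤ ((Ico n (n + H)).filter Nat.Prime).card := by
    intro n hn
    rw [hWd] at hn
    unfold Wn at hn
    obtain ⟨hn1, hn2⟩ := mem_filter.1 hn
    rw [mem_Ioc] at hn1
    exact ⟨hn1.1, hn1.2, hn2.1, hn2.2.1, hn2.2.2⟩
  have hpt : ∀ n ∈ W, ∃ i : Fin (m + 1) → Fin K, StrictMono i ∧ ∀ r : Fin (m + 1),
      n + u (i r) ≤ Nat.nth Nat.Prime (Nat.count Nat.Prime n + r) ∧
      Nat.nth Nat.Prime (Nat.count Nat.Prime n + r) < n + u (i r) + E := by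
    intro n hn
    obtain ⟨_, _, h3, h4, h5⟩ := hWm n hn
    exact pt1c hcfg h3 h4 h5
  have hx1 : ∀ n ∈ W, Nat.nth Nat.Prime (Nat.count Nat.Prime n) < n + H := by
    intro n hn
    obtain ⟨i, _, hi⟩ := hpt n hn
    have h1 := (hi 0).2
    have h2 := hcfg.hin (i 0)
    have h3 : Nat.count Nat.Prime n + ((0 : Fin (m + 1)) : ℕ) = Nat.count Nat.Prime n := rfl
    rw [h3] at h1
    omega
  have hx2 : ∀ n ∈ W, Nat.count Nat.Prime n < N := by
    intro n hn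
    obtain ⟨_, h2, _, _, _⟩ := hWm n hn
    have h1 := hx1 n hn
    by_contra hlt
    rw [not_lt] at hlt
    have h3 : Nat.nth Nat.Prime N ≤ Nat.nth Nat.Prime (Nat.count Nat.Prime n) :=
      (Nat.nth_strictMono hinf).monotone hlt
    rw [← hpN] at h3
    omega
  have hx3 : ∀ n ∈ W, (fun n => ∃ i : Fin (m + 1) → Fin K, StrictMono i ∧
      ∀ r : Fin m, |2 * √(pn (n + r)) * dn (n + r) / Real.log (pn (n + r)) -
        (β (i r.succ) - β (i r.castSucc))| < δ) (Nat.count Nat.Prime n) := by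
    intro n hn
    obtain ⟨i, hi, hir⟩ := hpt n hn
    obtain ⟨hn1, hn2, _, _, _⟩ := hWm n hn
    refine ⟨i, hi, fun r => ?_⟩
    have ha := hir r.castSucc
    have hb := hir r.succ
    have f1 : Nat.count Nat.Prime n + ((r.castSucc : Fin (m + 1)) : ℕ) =
      Nat.count Nat.Prime n + (r : ℕ) := rfl
    have f2 : Nat.count Nat.Prime n + ((r.succ : Fin (m + 1)) : ℕ) =
      Nat.count Nat.Prime n + (r : ℕ) + 1 := rfl
    rw [f1] at ha
    rw [f2] at hb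
    have hlt : Nat.nth Nat.Prime (Nat.count Nat.Prime n + r) <
        Nat.nth Nat.Prime (Nat.count Nat.Prime n + r + 1) :=
      Nat.nth_strictMono hinf (Nat.lt_succ_self _)
    unfold dn pn
    obtain ⟨q, hq⟩ : ∃ q, q = Nat.nth Nat.Prime (Nat.count Nat.Prime n + r) := ⟨_, rfl⟩
    obtain ⟨q', hq'⟩ : ∃ q', q' = Nat.nth Nat.Prime (Nat.count Nat.Prime n + r + 1) := ⟨_, rfl⟩
    rw [← hq] at ha hlt ⊢
    rw [← hq'] at hb hlt ⊢
    obtain ⟨k, hk⟩ : ∃ k, k = i r.castSucc := ⟨_, rfl⟩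
    obtain ⟨k', hk'⟩ : ∃ k', k' = i r.succ := ⟨_, rfl⟩
    rw [← hk] at ha ⊢
    rw [← hk'] at hb ⊢
    have hkk : k < k' := by
      rw [hk, hk']
      exact hi (Fin.castSucc_lt_succ)
    have c1 : (n : ℝ) + u k ≤ q := by exact_mod_cast ha.1
    have c2 : (q : ℝ) < n + u k + E := by exact_mod_cast ha.2
    have c3 : (n : ℝ) + u k' ≤ q' := by exact_mod_cast hb.1
    have c4 : (q' : ℝ) < n + u k' + E := by exact_mod_cast hb.2
    have c5 : (q : ℝ) ≤ q' := by exact_mod_cast hlt.le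
    have c6 : (u k : ℝ) + E ≤ H := by exact_mod_cast hcfg.hin k
    have c7 : (0 : ℝ) ≤ u k := Nat.cast_nonneg _
    have c8 : (0 : ℝ) ≤ E := Nat.cast_nonneg _
    have c9 : (P : ℝ) ≤ 2 * n := by
      have : P ≤ 2 * n := by omega
      exact_mod_cast this
    have c10 : (n : ℝ) ≤ 4 * P := by exact_mod_cast hn2
    have d1 := hu1 k
    have d2 := hu2 k
    have d3 := hu1 k'
    have d4 := hu2 k'
    have ht0 : 0 ≤ β k' - β k := by
      have := hβ2 k k' hkk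
      linarith
    have ht1 : β k' - β k ≤ Λ0 := by
      have := (hβ1 k').2
      have := (hβ1 k).1
      linarith
    refine hP2 P (by omega) q q' (β k' - β k) (by linarith) (by linarith) c5 ht0 ht1 ?_
    rw [← hℓ]
    have h1 : (β k' - β k) * ℓ = β k' * ℓ - β k * ℓ := by ring
    rw [h1]
    refine abs_le.2 ⟨?_, ?_⟩ <;> linarith
  have hcount := ix_count (H := H) (N := N) (J := fun n => ∃ i : Fin (m + 1) → Fin K,
    StrictMono i ∧ ∀ r : Fin m, |2 * √(pn (n + r)) * dn (n + r) / Real.log (pn (n + r)) -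
      (β (i r.succ) - β (i r.castSucc))| < δ) hx1 hx2 hx3
  -- conclusion
  obtain ⟨A, hA⟩ : ∃ A : ℝ, A = (((range N).filter (fun n => ∃ i : Fin (m + 1) → Fin K,
      StrictMono i ∧ ∀ r : Fin m, |2 * √(pn (n + r)) * dn (n + r) / Real.log (pn (n + r)) -
        (β (i r.succ) - β (i r.castSucc))| < δ)).card : ℝ) := ⟨_, rfl⟩
  have hcount2 : (W.card : ℝ) ≤ H * A := by
    rw [hA]
    convert hcount
  rw [← hA]
  have hA0 : 0 ≤ A := by
    rw [hA]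
    exact Nat.cast_nonneg _
  have h1 : c * P ≤ 2 * ((Λ0 + δ + 2) * ℓ) * A :=
    hW.trans (hcount2.trans (mul_le_mul_of_nonneg_right hH2 hA0))
  have h2 := hC1 N (by omega)
  have h3 : pn N = (pN : ℝ) := by rw [hpN]; rfl
  rw [h3] at h2
  have h4 : (pN : ℝ) ≤ 10 * P := by
    have : pN ≤ 10 * P := by omega
    exact_mod_cast this
  have h5 : ℓ ≤ Real.log pN := by
    rw [hℓ]
    refine Real.log_le_log hPp ?_
    have : P ≤ pN := by omega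
    exact_mod_cast this
  have h6 : (N : ℝ) * ℓ ≤ 10 * C * P := by
    have h7 : (N : ℝ) * ℓ ≤ N * Real.log pN := mul_le_mul_of_nonneg_left h5 (Nat.cast_nonneg _)
    have h8 : C * pN ≤ C * (10 * P) := mul_le_mul_of_nonneg_left h4 hC.le
    linarith
  have h7 : c * (N * ℓ) ≤ 20 * C * (Λ0 + δ + 2) * A * ℓ := by
    have h8 : c * (N * ℓ) ≤ c * (10 * C * P) := mul_le_mul_of_nonneg_left h6 hc.le
    have h9 : 10 * C * (c * P) ≤ 10 * C * (2 * ((Λ0 + δ + 2) * ℓ) * A) :=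
      mul_le_mul_of_nonneg_left h1 (by positivity)
    have h10 : c * (10 * C * P) = 10 * C * (c * P) := by ring
    have h11 : 10 * C * (2 * ((Λ0 + δ + 2) * ℓ) * A) = 20 * C * (Λ0 + δ + 2) * A * ℓ := by ring
    linarith
  have h8 : c * N ≤ 20 * C * (Λ0 + δ + 2) * A := by
    refine le_of_mul_le_mul_right ?_ hℓ0
    have : c * N * ℓ = c * (N * ℓ) := by ring
    rw [this]
    exact h7
  have h9 : 0 < 20 * C * (Λ0 + δ + 2) := by positivity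
  rw [div_mul_eq_mul_div, div_le_iff₀ h9]
  linarith

end Pool.Agent.AV
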