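import Pool.Agent.AV.PaD

/-! AV/IxC.  Growing and shrinking runs of gaps from patterns.  `G n = 2 √p_n d_n/log p_n`.
Take `δ = 1`, `m = k + 1`, `A = 8 (|T| + |lam| + 2)` and `β i = A^(i+1)` (growing; `Λ0 = A^K`) or
`β i = A^K - A^(K - i)` (shrinking).  For growing: `G_(n+r)` is within `1` of `A^(i_{r+1}+1) - A^(i_r+1)`, which is
between `A^(i_{r+1}+1)/2` and `A^(i_{r+1}+1)`, so `G_(n+r+1) ≥ 2|T| G_(n+r)` and `G_n ≥ 2 |lam|`.  For consecutive
primes `p < p' ≤ 2p` (Bertrand) `1/2 ≤ (log p'/√p')/(log p/√p) ≤ 2`.  So `d_(n+r+1) ≥ T d_(n+r)`. -/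

set_option autoImplicit false

open Finset Filter Topology Pool.Agent.AT

namespace Pool.Agent.AV

private theorem pn_two (n : ℕ) : (2 : ℝ) ≤ pn n := by
  unfold pn
  exact_mod_cast (Nat.prime_nth_prime n).two_le

private theorem pn_le_succ (n : ℕ) : pn n ≤ pn (n + 1) := by
  unfold pn
  exact_mod_cast (Nat.nth_strictMono Nat.infinite_setOfPred_prime (Nat.lt_succ_self n)).le

private theorem pn_succ_le (n : ℕ) : pn (n + 1) ≤ 2 * pn n := by
  have hinf := Nat.infinite_setOfPred_prime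
  obtain ⟨q, hq, h1, h2⟩ := Nat.exists_prime_lt_and_le_two_mul (Nat.nth Nat.Prime n)
    (Nat.prime_nth_prime n).ne_zero
  have h3 : n + 1 ≤ Nat.count Nat.Prime q := by
    by_contra hcon
    have h4 : Nat.count Nat.Prime q ≤ n := by omega
    have h5 : q ≤ Nat.nth Nat.Prime n := (Nat.count_le_iff_le_nth hinf).1 h4
    exact absurd h1 (not_lt.2 h5)
  have h4 : Nat.nth Nat.Prime (n + 1) ≤ Nat.nth Nat.Prime (Nat.count Nat.Prime q) :=
    Nat.nth_monotone hinf h3
  rw [Nat.nth_count hq] at h4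
  unfold pn
  exact_mod_cast h4.trans h2

/-- `log p / √p` -/
private noncomputable def ww (n : ℕ) : ℝ := Real.log (pn n) / √(pn n)

/-- the normalised gap -/
private noncomputable def GG (n : ℕ) : ℝ := 2 * √(pn n) * dn n / Real.log (pn n)

private theorem log_pos (n : ℕ) : 0 < Real.log (pn n) := Real.log_pos (by linarith [pn_two n])

private theorem sq_pos (n : ℕ) : 0 < √(pn n) := Real.sqrt_pos.2 (by linarith [pn_two n])

private theorem ww_pos (n : ℕ) : 0 < ww n := div_pos (log_pos n) (sq_pos n)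

private theorem dn_eq (n : ℕ) : dn n = GG n * ww n / 2 := by
  have h1 := (log_pos n).ne'
  have h2 := (sq_pos n).ne'
  unfold GG ww
  field_simp

private theorem dn_nonneg (n : ℕ) : 0 ≤ dn n := by
  unfold dn
  exact sub_nonneg.2 (Real.sqrt_le_sqrt (pn_le_succ n))

private theorem ww_half (n : ℕ) : ww n / 2 ≤ ww (n + 1) := by
  have h0 := pn_two n
  have h1 : Real.log (pn n) ≤ Real.log (pn (n + 1)) :=
    Real.log_le_log (by linarith) (pn_le_succ n)
  have h2 : √(pn (n + 1)) ≤ 2 * √(pn n) := by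
    have h3 : (2 : ℝ) * √(pn n) = √(2 ^ 2 * pn n) := by
      rw [Real.sqrt_mul (by norm_num), Real.sqrt_sq (by norm_num)]
    rw [h3]
    apply Real.sqrt_le_sqrt
    linarith [pn_succ_le n]
  have h4 := log_pos n
  have h5 := sq_pos n
  have h6 := sq_pos (n + 1)
  unfold ww
  rw [div_div, div_le_div_iff₀ (by positivity) h6]
  calc Real.log (pn n) * √(pn (n + 1)) ≤ Real.log (pn (n + 1)) * √(pn (n + 1)) :=
        mul_le_mul_of_nonneg_right h1 h6.le
    _ ≤ Real.log (pn (n + 1)) * (√(pn n) * 2) :=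
        mul_le_mul_of_nonneg_left (by linarith) (log_pos (n + 1)).le

private theorem ww_twice (n : ℕ) : ww (n + 1) ≤ 2 * ww n := by
  have h0 := pn_two n
  have h1 : Real.log (pn (n + 1)) ≤ 2 * Real.log (pn n) := by
    have h3 : (2 : ℝ) * Real.log (pn n) = Real.log (pn n ^ 2) := by
      rw [Real.log_pow]
      norm_num
    rw [h3]
    apply Real.log_le_log (by linarith [pn_two (n + 1)])
    have := pn_succ_le n
    nlinarith
  have h2 : √(pn n) ≤ √(pn (n + 1)) := Real.sqrt_le_sqrt (pn_le_succ n)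
  have h4 := log_pos n
  have h5 := sq_pos n
  have h6 := sq_pos (n + 1)
  unfold ww
  rw [← mul_div_assoc, div_le_div_iff₀ h6 h5]
  calc Real.log (pn (n + 1)) * √(pn n) ≤ 2 * Real.log (pn n) * √(pn n) :=
        mul_le_mul_of_nonneg_right h1 h5.le
    _ ≤ 2 * Real.log (pn n) * √(pn (n + 1)) := mul_le_mul_of_nonneg_left h2 (by positivity)

private theorem up {n : ℕ} {T : ℝ} (h : 2 * |T| * GG n ≤ GG (n + 1)) :
    T * dn n ≤ dn (n + 1) := by
  have h1 := ww_pos n
  have h2 := ww_half n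
  have h3 := dn_nonneg n
  have h0 : 0 ≤ GG (n + 1) := by
    unfold GG
    exact div_nonneg (mul_nonneg (by positivity) (dn_nonneg _)) (log_pos _).le
  calc T * dn n ≤ |T| * dn n := mul_le_mul_of_nonneg_right (le_abs_self T) h3
    _ = 2 * |T| * GG n * (ww n / 2) / 2 := by rw [dn_eq n]; ring
    _ ≤ GG (n + 1) * (ww n / 2) / 2 := by
        apply div_le_div_of_nonneg_right _ (by norm_num)
        exact mul_le_mul_of_nonneg_right h (by positivity)
    _ ≤ GG (n + 1) * ww (n + 1) / 2 := by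
        apply div_le_div_of_nonneg_right _ (by norm_num)
        exact mul_le_mul_of_nonneg_left h2 h0
    _ = dn (n + 1) := (dn_eq (n + 1)).symm

private theorem down {n : ℕ} {T : ℝ} (h : 2 * |T| * GG (n + 1) ≤ GG n) :
    T * dn (n + 1) ≤ dn n := by
  have h1 := ww_pos n
  have h2 := ww_twice n
  have h3 := dn_nonneg (n + 1)
  have h0 : 0 ≤ GG (n + 1) := by
    unfold GG
    exact div_nonneg (mul_nonneg (by positivity) (dn_nonneg _)) (log_pos _).le
  calc T * dn (n + 1) ≤ |T| * dn (n + 1) := mul_le_mul_of_nonneg_right (le_abs_self T) h3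
    _ = |T| * GG (n + 1) * ww (n + 1) / 2 := by rw [dn_eq (n + 1)]; ring
    _ ≤ |T| * GG (n + 1) * (2 * ww n) / 2 := by
        apply div_le_div_of_nonneg_right _ (by norm_num)
        exact mul_le_mul_of_nonneg_left h2 (mul_nonneg (abs_nonneg T) h0)
    _ = 2 * |T| * GG (n + 1) * ww n / 2 := by ring
    _ ≤ GG n * ww n / 2 := by
        apply div_le_div_of_nonneg_right _ (by norm_num)
        exact mul_le_mul_of_nonneg_right h h1.le
    _ = dn n := (dn_eq n).symm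

private theorem big {n : ℕ} {lam : ℝ} (h : 2 * |lam| ≤ GG n) :
    lam * Real.log (pn n) / √(pn n) ≤ dn n := by
  have h1 := ww_pos n
  calc lam * Real.log (pn n) / √(pn n) = lam * ww n := by unfold ww; ring
    _ ≤ |lam| * ww n := mul_le_mul_of_nonneg_right (le_abs_self lam) h1.le
    _ = 2 * |lam| * ww n / 2 := by ring
    _ ≤ GG n * ww n / 2 := by
        apply div_le_div_of_nonneg_right _ (by norm_num)
        exact mul_le_mul_of_nonneg_right h h1.le
    _ = dn n := (dn_eq n).symm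

private theorem ineq {T lam A X Y g g' : ℝ} (hA : A = 8 * (|T| + |lam| + 2)) (hX : 1 ≤ X)
    (hY : A * X ≤ Y) (hg : g ≤ X + 1) (hg' : Y / 2 - 1 ≤ g') : 2 * |T| * g ≤ g' := by
  have h1 := abs_nonneg T
  have h2 := abs_nonneg lam
  have h3 : 2 * |T| * g ≤ 2 * |T| * (X + 1) := mul_le_mul_of_nonneg_left hg (by positivity)
  have h4 : |T| * 1 ≤ |T| * X := mul_le_mul_of_nonneg_left hX h1
  have h5 : 0 ≤ |lam| * X := mul_nonneg h2 (by linarith)
  rw [hA] at hY
  nlinarith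

private theorem ineq2 {T lam A Y g' : ℝ} (hA : A = 8 * (|T| + |lam| + 2))
    (hY : A * A ≤ Y) (hg' : Y / 2 - 1 ≤ g') : 2 * |lam| ≤ g' := by
  have h1 := abs_nonneg T
  have h2 := abs_nonneg lam
  have h16 : 16 ≤ A := by rw [hA]; linarith
  have h3 : 16 * A ≤ A * A := mul_le_mul_of_nonneg_right h16 (by linarith)
  rw [hA] at h3 hY
  nlinarith

/-- bounds for the differences -/
private theorem diff_bd {A X Y g : ℝ} (hA : 16 ≤ A) (hX : 1 ≤ X) (hY : A * X ≤ Y)
    (hg : |g - (Y - X)| < 1) : Y / 2 - 1 ≤ g ∧ g ≤ Y + 1 := by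
  rw [abs_lt] at hg
  have h1 : 16 * X ≤ A * X := mul_le_mul_of_nonneg_right hA (by linarith)
  constructor <;> nlinarith

open Classical in
theorem grow (h : Patt) (k : ℕ) (T lam : ℝ) : ∃ c : ℝ, 0 < c ∧ ∃ N0 : ℕ, ∀ N : ℕ, N0 ≤ N →
    c * N ≤ (((range N).filter (fun n => lam * Real.log (pn n) / √(pn n) ≤ dn n ∧
      ∀ j < k, T * dn (n + j) ≤ dn (n + j + 1))).card : ℝ) := by
  obtain ⟨K, hK, h1⟩ := h (k + 1) 1 one_pos
  obtain ⟨A, hA⟩ : ∃ A : ℝ, A = 8 * (|T| + |lam| + 2) := ⟨_, rfl⟩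
  have hA16 : 16 ≤ A := by
    rw [hA]
    linarith [abs_nonneg T, abs_nonneg lam]
  have hA1 : 1 ≤ A := by linarith
  obtain ⟨c, hc, N0, h2⟩ := h1 (A ^ K) (by positivity)
  refine ⟨c, hc, N0, fun N hN => ?_⟩
  have hstep : ∀ a b : ℕ, a < b → A * A ^ a ≤ A ^ b := by
    intro a b hab
    rw [← pow_succ']
    exact pow_le_pow_right₀ hA1 hab
  have h3 := h2 N hN (fun i => A ^ ((i : ℕ) + 1)) (fun i => ⟨by positivity,
    pow_le_pow_right₀ hA1 i.isLt⟩) (by
      intro i j hij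
      have h4 : A * A ^ ((i : ℕ) + 1) ≤ A ^ ((j : ℕ) + 1) :=
        hstep _ _ (Nat.succ_lt_succ (Fin.lt_def.1 hij))
      have h5 : (1 : ℝ) ≤ A ^ ((i : ℕ) + 1) := one_le_pow₀ hA1
      have h6 : 16 * A ^ ((i : ℕ) + 1) ≤ A * A ^ ((i : ℕ) + 1) :=
        mul_le_mul_of_nonneg_right hA16 (by linarith)
      linarith)
  refine h3.trans ?_
  have hsub : (range N).filter (fun n => ∃ i : Fin (k + 1 + 1) → Fin K, StrictMono i ∧
      ∀ r : Fin (k + 1), |2 * √(pn (n + r)) * dn (n + r) / Real.log (pn (n + r)) -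
        (A ^ (((i r.succ : Fin K) : ℕ) + 1) - A ^ (((i r.castSucc : Fin K) : ℕ) + 1))| < 1) ⊆
      (range N).filter (fun n => lam * Real.log (pn n) / √(pn n) ≤ dn n ∧
      ∀ j < k, T * dn (n + j) ≤ dn (n + j + 1)) := by
    intro n hn
    rw [mem_filter] at hn ⊢
    obtain ⟨hnN, i, hi, hr⟩ := hn
    have hr' : ∀ r : Fin (k + 1), A ^ (((i r.succ : Fin K) : ℕ) + 1) / 2 - 1 ≤ GG (n + r) ∧
        GG (n + r) ≤ A ^ (((i r.succ : Fin K) : ℕ) + 1) + 1 := by
      intro r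
      refine diff_bd hA16 (one_le_pow₀ hA1) (hstep _ _ ?_) (hr r)
      exact Nat.succ_lt_succ (Fin.lt_def.1 (hi (Fin.castSucc_lt_succ)))
    refine ⟨hnN, ?_, fun j hj => ?_⟩
    · have h5 := (hr' ⟨0, Nat.succ_pos k⟩).1
      refine big (ineq2 (T := T) (A := A) hA ?_ h5)
      have h6 : ((i (Fin.castSucc ⟨0, Nat.succ_pos k⟩) : Fin K) : ℕ) <
          ((i (Fin.succ ⟨0, Nat.succ_pos k⟩) : Fin K) : ℕ) :=
        Fin.lt_def.1 (hi (Fin.castSucc_lt_succ))
      calc A * A = A ^ 2 := by ring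
        _ ≤ _ := pow_le_pow_right₀ hA1 (by omega)
    · have h5 := (hr' ⟨j, by omega⟩).2
      have h6 := (hr' ⟨j + 1, by omega⟩).1
      have e : n + (j + 1) = n + j + 1 := by ring
      rw [← e]
      refine up (ineq (T := T) (lam := lam) (A := A) hA (one_le_pow₀ hA1) ?_ h5 h6)
      refine hstep _ _ (Nat.succ_lt_succ (Fin.lt_def.1 (hi ?_)))
      rw [Fin.lt_def]
      exact Nat.lt_succ_self _
  exact_mod_cast card_le_card hsub

open Classical in
theorem shrink (h : Patt) (k : ℕ) (T lam : ℝ) : ∃ c : ℝ, 0 < c ∧ ∃ N0 : ℕ, ∀ N : ℕ, N0 ≤ N →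
    c * N ≤ (((range N).filter (fun n => lam * Real.log (pn (n + k)) / √(pn (n + k)) ≤ dn (n + k) ∧
      ∀ j < k, T * dn (n + j + 1) ≤ dn (n + j))).card : ℝ) := by
  obtain ⟨K, hK, h1⟩ := h (k + 1) 1 one_pos
  obtain ⟨A, hA⟩ : ∃ A : ℝ, A = 8 * (|T| + |lam| + 2) := ⟨_, rfl⟩
  have hA16 : 16 ≤ A := by
    rw [hA]
    linarith [abs_nonneg T, abs_nonneg lam]
  have hA1 : 1 ≤ A := by linarith
  obtain ⟨c, hc, N0, h2⟩ := h1 (A ^ K) (by positivity)
  refine ⟨c, hc, N0, fun N hN => ?_⟩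
  have hstep : ∀ a b : ℕ, a < b → A * A ^ a ≤ A ^ b := by
    intro a b hab
    rw [← pow_succ']
    exact pow_le_pow_right₀ hA1 hab
  have h3 := h2 N hN (fun i => A ^ K - A ^ (K - (i : ℕ))) (fun i => ⟨sub_nonneg.2
    (pow_le_pow_right₀ hA1 (Nat.sub_le _ _)), by
      have : 0 ≤ A ^ (K - (i : ℕ)) := by positivity
      linarith⟩) (by
      intro i j hij
      have hij' := Fin.lt_def.1 hij
      have hj := j.isLt
      have h4 : A * A ^ (K - (j : ℕ)) ≤ A ^ (K - (i : ℕ)) := hstep _ _ (by omega)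
      have h5 : (1 : ℝ) ≤ A ^ (K - (j : ℕ)) := one_le_pow₀ hA1
      have h6 : 16 * A ^ (K - (j : ℕ)) ≤ A * A ^ (K - (j : ℕ)) :=
        mul_le_mul_of_nonneg_right hA16 (by linarith)
      linarith)
  refine h3.trans ?_
  have hsub : (range N).filter (fun n => ∃ i : Fin (k + 1 + 1) → Fin K, StrictMono i ∧
      ∀ r : Fin (k + 1), |2 * √(pn (n + r)) * dn (n + r) / Real.log (pn (n + r)) -
        ((A ^ K - A ^ (K - ((i r.succ : Fin K) : ℕ))) -
          (A ^ K - A ^ (K - ((i r.castSucc : Fin K) : ℕ))))| < 1) ⊆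
      (range N).filter (fun n => lam * Real.log (pn (n + k)) / √(pn (n + k)) ≤ dn (n + k) ∧
      ∀ j < k, T * dn (n + j + 1) ≤ dn (n + j)) := by
    intro n hn
    rw [mem_filter] at hn ⊢
    obtain ⟨hnN, i, hi, hr⟩ := hn
    have hr' : ∀ r : Fin (k + 1), A ^ (K - ((i r.castSucc : Fin K) : ℕ)) / 2 - 1 ≤ GG (n + r) ∧
        GG (n + r) ≤ A ^ (K - ((i r.castSucc : Fin K) : ℕ)) + 1 := by
      intro r
      have h4 : ((i r.castSucc : Fin K) : ℕ) < ((i r.succ : Fin K) : ℕ) :=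
        Fin.lt_def.1 (hi (Fin.castSucc_lt_succ))
      have h5 := (i r.succ).isLt
      refine diff_bd (X := A ^ (K - ((i r.succ : Fin K) : ℕ))) hA16 (one_le_pow₀ hA1)
        (hstep _ _ (by omega)) ?_
      have h6 := hr r
      have e : (A ^ K - A ^ (K - ((i r.succ : Fin K) : ℕ))) -
          (A ^ K - A ^ (K - ((i r.castSucc : Fin K) : ℕ))) =
          A ^ (K - ((i r.castSucc : Fin K) : ℕ)) - A ^ (K - ((i r.succ : Fin K) : ℕ)) := by ring
      rw [e] at h6
      exact h6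
    refine ⟨hnN, ?_, fun j hj => ?_⟩
    · have h5 := (hr' ⟨k, Nat.lt_succ_self k⟩).1
      refine big (ineq2 (T := T) (A := A) hA ?_ h5)
      have h6 : ((i (Fin.castSucc ⟨k, Nat.lt_succ_self k⟩) : Fin K) : ℕ) <
          ((i (Fin.succ ⟨k, Nat.lt_succ_self k⟩) : Fin K) : ℕ) :=
        Fin.lt_def.1 (hi (Fin.castSucc_lt_succ))
      have h7 := (i (Fin.succ ⟨k, Nat.lt_succ_self k⟩)).isLt
      calc A * A = A ^ 2 := by ring
        _ ≤ _ := pow_le_pow_right₀ hA1 (by omega)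
    · have h5 := (hr' ⟨j, by omega⟩).1
      have h6 := (hr' ⟨j + 1, by omega⟩).2
      have e : n + (j + 1) = n + j + 1 := by ring
      rw [← e]
      have h7 : ((i (Fin.castSucc ⟨j, by omega⟩) : Fin K) : ℕ) <
          ((i (Fin.castSucc ⟨j + 1, by omega⟩) : Fin K) : ℕ) := by
        refine Fin.lt_def.1 (hi ?_)
        rw [Fin.lt_def]
        exact Nat.lt_succ_self _
      have h8 := (i (Fin.castSucc ⟨j + 1, by omega⟩)).isLt
      refine down (ineq (T := T) (lam := lam) (A := A) hA (one_le_pow₀ hA1) ?_ h6 h5)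
      exact hstep _ _ (by omega)
  exact_mod_cast card_le_card hsub

end Pool.Agent.AV
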