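import Pool.Agent.AV.Defs

/-! AV/LocI.  Local expansion of the events `hit = o`.
PLAN.  `hit q a n` depends only on the class of `n` modulo `q`; `OC_exp` by orthogonality exactly as `loc_exp`
in AT/Loc.  Under `h0`, `hd` the map `j ↦ (a j - a0) mod q` is injective into the nonzero classes, so among the
`q - 1` nonzero classes `r` exactly one has `hit (r + a0) = some j` and `q - 1 - k` have `hit = none`
(`k = card κ`).  For `χ ≠ 1` the sum of `χ⁻¹` over all nonzero classes is `0`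
(`MulChar.sum_eq_zero_of_ne_one`), so the sum over the classes with `hit = none` is minus the sum over the
`k` other classes. -/

set_option autoImplicit false

open Finset Pool.Agent.RS Pool.Agent.AT

namespace Pool.Agent.AV

variable {κ : Type} [DecidableEq κ]

omit [DecidableEq κ] in
private theorem loci_congr (q : ℕ) (a : κ → ℤ) {x y : ℤ} (h : (q : ℤ) ∣ x - y) :
    hit q a x = hit q a y := by
  classical
  have key : ∀ P P' : κ → Prop, P = P' →
      (if h : ∃ j, P j then some h.choose else none) =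
        (if h : ∃ j, P' j then some h.choose else none) := by
    rintro P _ rfl
    rfl
  have hP : (fun j => (q : ℤ) ∣ x - a j) = (fun j => (q : ℤ) ∣ y - a j) := by
    funext j
    apply propext
    have h2 : x - a j = (y - a j) + (x - y) := by ring
    rw [h2]
    exact dvd_add_left h
  have := key _ _ hP
  unfold hit
  convert this

private theorem loci_ne {q : ℕ} (hq : q.Prime) : ((q : ℂ) - 1) ≠ 0 := by
  intro h
  have h2 : (q : ℂ) = 1 := sub_eq_zero.1 h
  have h3 : q = 1 := by exact_mod_cast h2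
  exact hq.one_lt.ne' h3

private theorem loci_unit {q : ℕ} {r : ℕ} (hr : r ∈ (range q).filter (fun r => r ≠ 0)) :
    (r : ZMod q) ≠ 0 := by
  simp only [mem_filter, mem_range] at hr
  intro h
  rw [ZMod.natCast_eq_zero_iff] at h
  exact absurd (Nat.le_of_dvd (Nat.pos_of_ne_zero hr.2) h) (by omega)

open Classical in
theorem OC_exp {q : ℕ} (hq : q.Prime) (a : κ → ℤ) (a0 : ℤ) (o : Option κ) {m : ℕ} (hm : ¬ q ∣ m) :
    (if hit q a ((m : ℤ) + a0) = o then (1 : ℂ) else 0) =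
      ∑ χ : DirichletCharacter ℂ q, OC q a a0 o χ * χ (m : ZMod q) := by
  have : Fact q.Prime := ⟨hq⟩
  have : NeZero q := ⟨hq.ne_zero⟩
  have hq1 := loci_ne hq
  set F : ℕ → ℂ := fun r => if hit q a ((r : ℤ) + a0) = o then (1 : ℂ) else 0 with hF
  have h1 : ∀ r ∈ (range q).filter (fun r => r ≠ 0),
      ∑ χ : DirichletCharacter ℂ q, χ⁻¹ (r : ZMod q) * χ (m : ZMod q) =
        if (r : ZMod q) = (m : ZMod q) then ((q : ℂ) - 1) else 0 := by
    intro r hr
    have hr0 := loci_unit hr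
    have h2 := DirichletCharacter.sum_char_inv_mul_char_eq ℂ
      (a := (r : ZMod q)) (isUnit_iff_ne_zero.2 hr0) (m : ZMod q)
    rw [Nat.totient_prime hq] at h2
    have h3 : ∀ χ : DirichletCharacter ℂ q, χ⁻¹ (r : ZMod q) = χ (r : ZMod q)⁻¹ :=
      fun χ => MulChar.inv_apply' χ _
    simp_rw [h3]
    rw [h2]
    have h4 : ((q - 1 : ℕ) : ℂ) = (q : ℂ) - 1 := by
      rw [Nat.cast_sub hq.one_le, Nat.cast_one]
    rw [h4]
  have h2 : ∑ χ : DirichletCharacter ℂ q, OC q a a0 o χ * χ (m : ZMod q) =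
      (1 / ((q : ℂ) - 1)) * ∑ r ∈ (range q).filter (fun r => r ≠ 0),
        F r * (if (r : ZMod q) = (m : ZMod q) then ((q : ℂ) - 1) else 0) := by
    unfold OC
    simp_rw [mul_assoc, ← Finset.mul_sum, Finset.sum_mul]
    rw [Finset.sum_comm]
    congr 1
    refine Finset.sum_congr rfl fun r hr => ?_
    rw [← h1 r hr, Finset.mul_sum]
    refine Finset.sum_congr rfl fun χ _ => ?_
    simp only [hF]
    by_cases h5 : hit q a ((r : ℤ) + a0) = o
    · rw [if_pos h5]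
      ring
    · rw [if_neg h5]
      ring
  rw [h2]
  have hmq : (m % q) ∈ (range q).filter (fun r => r ≠ 0) := by
    simp only [mem_filter, mem_range]
    exact ⟨Nat.mod_lt _ hq.pos, fun h => hm (Nat.dvd_of_mod_eq_zero h)⟩
  rw [Finset.sum_eq_single_of_mem _ hmq]
  · have h9 : ((m % q : ℕ) : ZMod q) = (m : ZMod q) := by simp
    rw [if_pos h9]
    have h5 : F (m % q) = F m := by
      simp only [hF]
      have h6 : (q : ℤ) ∣ (((m % q : ℕ) : ℤ) + a0) - ((m : ℤ) + a0) := by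
        have h7 : (((m % q : ℕ) : ℤ) + a0) - ((m : ℤ) + a0) = -((m : ℤ) - ((m % q : ℕ) : ℤ)) := by
          ring
        rw [h7]
        refine (dvd_neg).2 ⟨((m / q : ℕ) : ℤ), ?_⟩
        have h8 : m = q * (m / q) + m % q := (Nat.div_add_mod m q).symm
        have h9 : (m : ℤ) = q * ((m / q : ℕ) : ℤ) + ((m % q : ℕ) : ℤ) := by exact_mod_cast h8
        linarith
      rw [loci_congr q a h6]
    rw [h5]
    field_simp
    rfl
  · intro r hr hne
    simp only [mem_filter, mem_range] at hr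
    rw [if_neg, mul_zero]
    intro h
    rw [ZMod.natCast_eq_natCast_iff] at h
    apply hne
    have h3 : r % q = m % q := h
    rw [Nat.mod_eq_of_lt hr.1] at h3
    exact h3

/-- the element hit is the only one with `q ∣ n - a j` -/
theorem hit_iff {q : ℕ} (a : κ → ℤ) (hd : ∀ i j, i ≠ j → ¬ (q : ℤ) ∣ a i - a j) (n : ℤ) (j : κ) :
    hit q a n = some j ↔ (q : ℤ) ∣ n - a j := by
  classical
  unfold hit
  constructor
  · intro h
    by_cases h1 : ∃ j, (q : ℤ) ∣ n - a j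
    · rw [dif_pos h1, Option.some.injEq] at h
      rw [← h]
      exact h1.choose_spec
    · rw [dif_neg h1] at h
      exact absurd h (by simp)
  · intro h
    have h1 : ∃ j, (q : ℤ) ∣ n - a j := ⟨j, h⟩
    rw [dif_pos h1, Option.some.injEq]
    by_contra hne
    apply hd _ _ hne
    have h2 := dvd_sub h h1.choose_spec
    have h3 : n - a j - (n - a h1.choose) = a h1.choose - a j := by ring
    rwa [h3] at h2

private theorem loci_some {q : ℕ} (hq : q.Prime) (a : κ → ℤ) (a0 : ℤ)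
    (h0 : ∀ j, ¬ (q : ℤ) ∣ a j - a0) (hd : ∀ i j, i ≠ j → ¬ (q : ℤ) ∣ a i - a j) (j : κ)
    (χ : DirichletCharacter ℂ q) :
    OC q a a0 (some j) χ = (1 / ((q : ℂ) - 1)) * χ⁻¹ ((a j - a0 : ℤ) : ZMod q) := by
  have : Fact q.Prime := ⟨hq⟩
  have : NeZero q := ⟨hq.ne_zero⟩
  unfold OC
  congr 1
  have hx0 : ((a j - a0 : ℤ) : ZMod q) ≠ 0 := by
    intro h
    exact h0 j ((ZMod.intCast_zmod_eq_zero_iff_dvd _ _).1 h)
  set x : ZMod q := ((a j - a0 : ℤ) : ZMod q) with hx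
  have hxm : x.val ∈ (range q).filter (fun r => r ≠ 0) := by
    simp only [mem_filter, mem_range]
    refine ⟨ZMod.val_lt x, fun h => hx0 ?_⟩
    rwa [ZMod.val_eq_zero] at h
  have hiff : ∀ r : ℕ, hit q a ((r : ℤ) + a0) = some j ↔ (r : ZMod q) = x := by
    intro r
    rw [hit_iff a hd, hx]
    have h1 : ((r : ℤ) + a0 - a j) = (r : ℤ) - (a j - a0) := by ring
    rw [h1, ← ZMod.intCast_zmod_eq_zero_iff_dvd]
    push_cast
    rw [sub_eq_zero]
  rw [Finset.sum_eq_single_of_mem _ hxm]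
  · rw [if_pos ((hiff _).2 (ZMod.natCast_zmod_val x)), one_mul, ZMod.natCast_zmod_val]
  · intro r hr hne
    rw [if_neg, zero_mul]
    intro h
    apply hne
    have h1 := (hiff r).1 h
    simp only [mem_filter, mem_range] at hr
    rw [← h1, ZMod.val_natCast, Nat.mod_eq_of_lt hr.1]

variable [Fintype κ]

private theorem loci_none {q : ℕ} (a : κ → ℤ) (a0 : ℤ) (χ : DirichletCharacter ℂ q) :
    OC q a a0 none χ = (1 / ((q : ℂ) - 1)) * ∑ r ∈ (range q).filter (fun r => r ≠ 0),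
      χ⁻¹ (r : ZMod q) - ∑ j, OC q a a0 (some j) χ := by
  unfold OC
  rw [← Finset.mul_sum, ← mul_sub, Finset.sum_comm, ← Finset.sum_sub_distrib]
  congr 1
  refine Finset.sum_congr rfl fun r _ => ?_
  rw [← Finset.sum_mul]
  cases h : hit q a ((r : ℤ) + a0) with
  | none => simp
  | some j0 =>
    have h1 : ∑ j : κ, (if (some j0 : Option κ) = some j then (1 : ℂ) else 0) = 1 := by
      rw [Finset.sum_eq_single_of_mem j0 (mem_univ _)]
      · simp
      · intro j _ hne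
        rw [if_neg]
        intro h2
        exact hne (Option.some.inj h2).symm
    rw [h1]
    simp

theorem OC_none_one {q : ℕ} (hq : q.Prime) (a : κ → ℤ) (a0 : ℤ)
    (h0 : ∀ j, ¬ (q : ℤ) ∣ a j - a0) (hd : ∀ i j, i ≠ j → ¬ (q : ℤ) ∣ a i - a j) :
    OC q a a0 none 1 = ((1 - (Fintype.card κ : ℝ) / ((q : ℝ) - 1) : ℝ) : ℂ) := by
  have : Fact q.Prime := ⟨hq⟩
  have : NeZero q := ⟨hq.ne_zero⟩
  have hq1 := loci_ne hq
  rw [loci_none]
  have h1 : ∑ r ∈ (range q).filter (fun r => r ≠ 0),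
      (1 : DirichletCharacter ℂ q)⁻¹ (r : ZMod q) = (q : ℂ) - 1 := by
    have h2 : ∀ r ∈ (range q).filter (fun r => r ≠ 0),
        (1 : DirichletCharacter ℂ q)⁻¹ (r : ZMod q) = 1 := by
      intro r hr
      rw [inv_one, MulChar.one_apply (isUnit_iff_ne_zero.2 (loci_unit hr))]
    rw [Finset.sum_congr rfl h2, Finset.sum_const, nsmul_eq_mul, mul_one]
    have h3 : (range q).filter (fun r => r ≠ 0) = (range q).erase 0 := by
      ext r
      simp only [mem_filter, mem_range, mem_erase]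
      tauto
    rw [h3, Finset.card_erase_of_mem (mem_range.2 hq.pos), card_range, Nat.cast_sub hq.one_le,
      Nat.cast_one]
  have h2 : ∀ j : κ, OC q a a0 (some j) 1 = 1 / ((q : ℂ) - 1) := by
    intro j
    have hx0 : ((a j - a0 : ℤ) : ZMod q) ≠ 0 := by
      intro h
      exact h0 j ((ZMod.intCast_zmod_eq_zero_iff_dvd _ _).1 h)
    rw [loci_some hq a a0 h0 hd, inv_one, MulChar.one_apply (isUnit_iff_ne_zero.2 hx0), mul_one]
  simp_rw [h2]
  rw [h1, Finset.sum_const, nsmul_eq_mul, Finset.card_univ]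
  push_cast
  field_simp

theorem OC_some_one {q : ℕ} (hq : q.Prime) (a : κ → ℤ) (a0 : ℤ)
    (h0 : ∀ j, ¬ (q : ℤ) ∣ a j - a0) (hd : ∀ i j, i ≠ j → ¬ (q : ℤ) ∣ a i - a j) (j : κ) :
    OC q a a0 (some j) 1 = ((1 / ((q : ℝ) - 1) : ℝ) : ℂ) := by
  have : Fact q.Prime := ⟨hq⟩
  have hx0 : ((a j - a0 : ℤ) : ZMod q) ≠ 0 := by
    intro h
    exact h0 j ((ZMod.intCast_zmod_eq_zero_iff_dvd _ _).1 h)
  rw [loci_some hq a a0 h0 hd, inv_one, MulChar.one_apply (isUnit_iff_ne_zero.2 hx0), mul_one]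
  push_cast
  rfl

theorem OC_some {q : ℕ} (hq : q.Prime) (a : κ → ℤ) (a0 : ℤ)
    (h0 : ∀ j, ¬ (q : ℤ) ∣ a j - a0) (hd : ∀ i j, i ≠ j → ¬ (q : ℤ) ∣ a i - a j) (j : κ)
    (χ : DirichletCharacter ℂ q) : ‖OC q a a0 (some j) χ‖ ≤ 1 / ((q : ℝ) - 1) := by
  have hq1 : (0 : ℝ) < (q : ℝ) - 1 := by
    have : (1 : ℝ) < q := by exact_mod_cast hq.one_lt
    linarith
  rw [loci_some hq a a0 h0 hd, norm_mul]
  have h1 : ‖(1 / ((q : ℂ) - 1))‖ = 1 / ((q : ℝ) - 1) := by
    have h2 : (1 / ((q : ℂ) - 1)) = ((1 / ((q : ℝ) - 1) : ℝ) : ℂ) := by push_cast; rfl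
    rw [h2, Complex.norm_real, Real.norm_of_nonneg (by positivity)]
  rw [h1]
  have h3 := DirichletCharacter.norm_le_one χ⁻¹ ((a j - a0 : ℤ) : ZMod q)
  have h4 : (0 : ℝ) ≤ 1 / ((q : ℝ) - 1) := by positivity
  calc 1 / ((q : ℝ) - 1) * ‖χ⁻¹ ((a j - a0 : ℤ) : ZMod q)‖ ≤ 1 / ((q : ℝ) - 1) * 1 :=
        mul_le_mul_of_nonneg_left h3 h4
    _ = 1 / ((q : ℝ) - 1) := mul_one _

theorem OC_none {q : ℕ} (hq : q.Prime) (a : κ → ℤ) (a0 : ℤ)
    (h0 : ∀ j, ¬ (q : ℤ) ∣ a j - a0) (hd : ∀ i j, i ≠ j → ¬ (q : ℤ) ∣ a i - a j)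
    {χ : DirichletCharacter ℂ q} (hχ : χ ≠ 1) :
    ‖OC q a a0 none χ‖ ≤ (Fintype.card κ : ℝ) / ((q : ℝ) - 1) := by
  have h1 : (1 / ((q : ℂ) - 1)) * ∑ r ∈ (range q).filter (fun r => r ≠ 0),
      χ⁻¹ (r : ZMod q) = 0 := by
    have h2 := LC_none_none hq a a0 hχ
    unfold LC at h2
    rw [← h2]
    congr 1
    refine Finset.sum_congr rfl fun r _ => ?_
    simp [eo]
  rw [loci_none, h1, zero_sub, norm_neg]
  refine (norm_sum_le _ _).trans ?_
  refine (Finset.sum_le_sum fun j _ => OC_some hq a a0 h0 hd j χ).trans ?_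
  rw [Finset.sum_const, nsmul_eq_mul, Finset.card_univ]
  apply le_of_eq
  ring

end Pool.Agent.AV
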