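import Pool.Agent.AV.Defs

/-! AV/LowA.  Closure properties of `LowE`.
PLAN.  `low_const`: the coefficient function `χ ↦ if χ = 1 then c else 0`; `fcd 1 = 1`, `fch 1 m = 1`
(`fsupp 1 = ∅`).  `low_mul`: `c χ = ∑_{χ1 χ2 = χ} c1 χ1 * c2 χ2` (sum over pairs with `χ1 i * χ2 i = χ i` for all
`i`); for `m` prime to all `p i`, `fch χ m = ∏ i, χ i m` (`fch_eq` in AT/Exp) is multiplicative in `χ`;
`fsupp (χ1 χ2) ⊆ fsupp χ1 ∪ fsupp χ2`, so `fcd (χ1 χ2) ≤ fcd χ1 * fcd χ2` (all `p i ≥ 1`).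
`low_dvd`: for `m` prime to `q = p i`: if `q ∣ c - a0` then `q ∣ m + a0 - c` is impossible (the function is `0`);
otherwise orthogonality modulo `q` (as in `loc_exp`, AT/Loc): the coefficients are supported on the
families with `fsupp χ ⊆ {i}` (`Function.update (fun _ => 1) i χi`), `fcd ≤ q`. -/

set_option autoImplicit false

open Finset Pool.Agent.RS Pool.Agent.AT Pool.Agent.VOID

namespace Pool.Agent.AV

variable {ι : Type} [Fintype ι] [DecidableEq ι] {p : ι → ℕ} {a0 : ℤ}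

omit [Fintype ι] [DecidableEq ι] in
private theorem lowa_unit (hp : ∀ i, (p i).Prime) {m : ℕ} (hm : ∀ i, ¬ p i ∣ m) (i : ι) :
    IsUnit ((m : ℕ) : ZMod (p i)) :=
  (ZMod.isUnit_iff_coprime m (p i)).2 (((hp i).coprime_iff_not_dvd.2 (hm i)).symm)

omit [DecidableEq ι] in
private theorem lowa_fch (hp : ∀ i, (p i).Prime) (χ : Fam p) {m : ℕ} (hm : ∀ i, ¬ p i ∣ m) :
    fch χ m = ∏ i, χ i (m : ZMod (p i)) := by
  classical
  unfold fch
  refine prod_subset (subset_univ _) fun i _ hi => ?_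
  have h1 : χ i = 1 := by
    by_contra h
    exact hi (by unfold fsupp; exact mem_filter.2 ⟨mem_univ i, h⟩)
  rw [h1]
  exact MulChar.one_apply (lowa_unit hp hm i)

private theorem lowa_fch_mul (hp : ∀ i, (p i).Prime) (χ χ' : Fam p) {m : ℕ} (hm : ∀ i, ¬ p i ∣ m) :
    fch (χ * χ') m = fch χ m * fch χ' m := by
  rw [lowa_fch hp (χ * χ') hm, lowa_fch hp χ hm, lowa_fch hp χ' hm, ← prod_mul_distrib]
  refine prod_congr rfl fun i _ => ?_
  rw [Pi.mul_apply, MulChar.mul_apply]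

omit [Fintype ι] [DecidableEq ι] in
private theorem lowa_fcd_pos (hp : ∀ i, (p i).Prime) (s : Finset ι) : 1 ≤ ∏ i ∈ s, p i :=
  Nat.pos_of_ne_zero (prod_ne_zero_iff.2 fun i _ => (hp i).ne_zero)

private theorem lowa_fcd_mul (hp : ∀ i, (p i).Prime) (χ χ' : Fam p) :
    fcd (χ * χ') ≤ fcd χ * fcd χ' := by
  classical
  have hsub : fsupp (χ * χ') ⊆ fsupp χ ∪ fsupp χ' := by
    intro i hi
    unfold fsupp at hi ⊢
    rw [mem_filter] at hi
    rw [mem_union, mem_filter, mem_filter]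
    by_contra h
    rw [not_or] at h
    have h1 : χ i = 1 := by
      by_contra h2
      exact h.1 ⟨mem_univ i, h2⟩
    have h2 : χ' i = 1 := by
      by_contra h3
      exact h.2 ⟨mem_univ i, h3⟩
    apply hi.2
    rw [Pi.mul_apply, h1, h2, one_mul]
  unfold fcd
  rw [← prod_union_inter]
  have h1 : ∏ i ∈ fsupp (χ * χ'), p i ≤ ∏ i ∈ fsupp χ ∪ fsupp χ', p i :=
    Nat.le_of_dvd (lowa_fcd_pos hp _) (prod_dvd_prod_of_subset _ _ _ hsub)
  exact h1.trans (Nat.le_mul_of_pos_right _ (lowa_fcd_pos hp _))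

theorem low_const (hp : ∀ i, (p i).Prime) (c : ℝ) : LowE p a0 1 (fun _ => c) := by
  classical
  refine ⟨fun χ => if χ = 1 then (c : ℂ) else 0, fun χ h => ?_, fun m hm => ?_⟩
  · have h1 : χ ≠ 1 := by
      intro h2
      have h3 : fsupp χ = ∅ := by
        unfold fsupp
        rw [filter_eq_empty_iff]
        intro i _ h4
        apply h4
        rw [h2]
        rfl
      have h4 : fcd χ = 1 := by
        unfold fcd
        rw [h3, prod_empty]
      rw [h4, Nat.cast_one] at h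
      exact lt_irrefl _ h
    simp only [if_neg h1]
  · have h1 : fch (1 : Fam p) m = 1 := by
      rw [lowa_fch hp _ hm]
      refine prod_eq_one fun i _ => ?_
      exact MulChar.one_apply (lowa_unit hp hm i)
    simp only [ite_mul, zero_mul]
    rw [sum_ite_eq' univ (1 : Fam p), if_pos (mem_univ _), h1, mul_one]

theorem LowE.mono {D D' : ℝ} {F : ℤ → ℝ} (h : LowE p a0 D F) (hD : D ≤ D') : LowE p a0 D' F := by
  obtain ⟨c, h1, h2⟩ := h
  exact ⟨c, fun χ hχ => h1 χ (lt_of_le_of_lt hD hχ), h2⟩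

theorem LowE.add {D : ℝ} {F G : ℤ → ℝ} (h : LowE p a0 D F) (h' : LowE p a0 D G) :
    LowE p a0 D (fun n => F n + G n) := by
  obtain ⟨c, h1, h2⟩ := h
  obtain ⟨c', h1', h2'⟩ := h'
  refine ⟨fun χ => c χ + c' χ, fun χ hχ => ?_, fun m hm => ?_⟩
  · simp only [h1 χ hχ, h1' χ hχ, add_zero]
  · simp only [Complex.ofReal_add, h2 m hm, h2' m hm, add_mul, sum_add_distrib]

theorem LowE.smul {D : ℝ} {F : ℤ → ℝ} (h : LowE p a0 D F) (c : ℝ) :
    LowE p a0 D (fun n => c * F n) := by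
  obtain ⟨c1, h1, h2⟩ := h
  refine ⟨fun χ => (c : ℂ) * c1 χ, fun χ hχ => ?_, fun m hm => ?_⟩
  · simp only [h1 χ hχ, mul_zero]
  · simp only [Complex.ofReal_mul, h2 m hm, mul_sum, mul_assoc]

theorem LowE.sum {α : Type} (s : Finset α) {D : ℝ} (F : α → ℤ → ℝ)
    (h : ∀ x ∈ s, LowE p a0 D (F x)) : LowE p a0 D (fun n => ∑ x ∈ s, F x n) := by
  classical
  induction s using Finset.induction_on with
  | empty =>
    refine ⟨fun _ => 0, fun _ _ => rfl, fun m _ => ?_⟩
    simp only [sum_empty, Complex.ofReal_zero, zero_mul, sum_const_zero]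
  | insert x s hx ih =>
    have h1 := (h x (mem_insert_self x s)).add (ih fun y hy => h y (mem_insert_of_mem hy))
    simp only [sum_insert hx]
    exact h1

theorem LowE.mul (hp : ∀ i, (p i).Prime) {D D' : ℝ} (hD : 0 ≤ D) (hD' : 0 ≤ D') {F G : ℤ → ℝ}
    (h : LowE p a0 D F) (h' : LowE p a0 D' G) : LowE p a0 (D * D') (fun n => F n * G n) := by
  classical
  obtain ⟨c, h1, h2⟩ := h
  obtain ⟨c', h1', h2'⟩ := h'
  refine ⟨fun χ => ∑ χ1 : Fam p, c χ1 * c' (χ1⁻¹ * χ), fun χ hχ => ?_, fun m hm => ?_⟩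
  · refine sum_eq_zero fun χ1 _ => ?_
    by_cases h3 : D < (fcd χ1 : ℝ)
    · rw [h1 χ1 h3, zero_mul]
    · by_cases h4 : D' < (fcd (χ1⁻¹ * χ) : ℝ)
      · rw [h1' _ h4, mul_zero]
      · exfalso
        have h5 : fcd χ ≤ fcd χ1 * fcd (χ1⁻¹ * χ) := by
          have h6 := lowa_fcd_mul hp χ1 (χ1⁻¹ * χ)
          rwa [mul_inv_cancel_left] at h6
        have h6 : (fcd χ : ℝ) ≤ (fcd χ1 : ℝ) * (fcd (χ1⁻¹ * χ) : ℝ) := by exact_mod_cast h5
        have h7 : (fcd χ1 : ℝ) * (fcd (χ1⁻¹ * χ) : ℝ) ≤ D * D' :=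
          mul_le_mul (not_lt.1 h3) (not_lt.1 h4) (Nat.cast_nonneg _) hD
        exact absurd hχ (not_lt.2 (h6.trans h7))
  · simp only [Complex.ofReal_mul]
    rw [h2 m hm, h2' m hm, sum_mul_sum]
    simp only [sum_mul]
    rw [sum_comm (s := univ) (t := univ) (f := fun (χ χ1 : Fam p) => c χ1 * c' (χ1⁻¹ * χ) * fch χ m)]
    refine sum_congr rfl fun χ1 _ => ?_
    refine Fintype.sum_equiv (Equiv.mulLeft χ1) _ _ fun χ2 => ?_
    simp only [Equiv.coe_mulLeft, inv_mul_cancel_left]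
    rw [lowa_fch_mul hp χ1 χ2 hm]
    ring

theorem LowE.prod (hp : ∀ i, (p i).Prime) {α : Type} (s : Finset α) (F : α → ℤ → ℝ) (D : α → ℝ)
    (hD : ∀ x ∈ s, 0 ≤ D x) (h : ∀ x ∈ s, LowE p a0 (D x) (F x)) :
    LowE p a0 (∏ x ∈ s, D x) (fun n => ∏ x ∈ s, F x n) := by
  classical
  induction s using Finset.induction_on with
  | empty =>
    simp only [prod_empty]
    exact low_const hp 1
  | insert x s hx ih =>
    have h1 := LowE.mul hp (hD x (mem_insert_self x s))
      (prod_nonneg fun y hy => hD y (mem_insert_of_mem hy))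
      (h x (mem_insert_self x s)) (ih (fun y hy => hD y (mem_insert_of_mem hy))
        fun y hy => h y (mem_insert_of_mem hy))
    simp only [prod_insert hx]
    exact h1

open Classical in
/-- orthogonality modulo `q` -/
private theorem lowa_loc {q : ℕ} (hq : q.Prime) {m : ℕ} {b : ℤ} (hb : ¬ (q : ℤ) ∣ b) :
    ∑ χ : DirichletCharacter ℂ q, (1 / ((q : ℂ) - 1)) * χ (((b : ℤ) : ZMod q)⁻¹) * χ (m : ZMod q) =
      if (q : ℤ) ∣ (m : ℤ) - b then 1 else 0 := by
  have : Fact q.Prime := ⟨hq⟩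
  have : NeZero q := ⟨hq.ne_zero⟩
  have hq1 : ((q : ℂ) - 1) ≠ 0 := by
    intro h
    have h2 : (q : ℂ) = 1 := sub_eq_zero.1 h
    have h3 : q = 1 := by exact_mod_cast h2
    exact hq.one_lt.ne' h3
  have hb0 : ((b : ℤ) : ZMod q) ≠ 0 := by
    intro h
    exact hb ((ZMod.intCast_zmod_eq_zero_iff_dvd _ _).1 h)
  simp only [mul_assoc, ← mul_sum]
  have h2 := DirichletCharacter.sum_char_inv_mul_char_eq ℂ
    (a := ((b : ℤ) : ZMod q)) (isUnit_iff_ne_zero.2 hb0) (m : ZMod q)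
  rw [Nat.totient_prime hq, Nat.cast_sub hq.one_le, Nat.cast_one] at h2
  rw [h2]
  by_cases h : (q : ℤ) ∣ (m : ℤ) - b
  · have h3 : ((b : ℤ) : ZMod q) = (m : ZMod q) := by
      have h4 := (ZMod.intCast_zmod_eq_zero_iff_dvd _ q).2 h
      rw [Int.cast_sub, Int.cast_natCast, sub_eq_zero] at h4
      exact h4.symm
    rw [if_pos h3, if_pos h, one_div, inv_mul_cancel₀ hq1]
  · have h3 : ((b : ℤ) : ZMod q) ≠ (m : ZMod q) := by
      intro h4
      apply h
      rw [← ZMod.intCast_zmod_eq_zero_iff_dvd _ q, Int.cast_sub, Int.cast_natCast, h4, sub_self]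
    rw [if_neg h3, if_neg h, mul_zero]

open Classical in
theorem low_dvd (hp : ∀ i, (p i).Prime) (i : ι) (c : ℤ) :
    LowE p a0 (p i) (fun n => if (p i : ℤ) ∣ n - c then 1 else 0) := by
  have hF : Fact (p i).Prime := ⟨hp i⟩
  by_cases h0 : (p i : ℤ) ∣ c - a0
  · refine ⟨fun _ => 0, fun _ _ => rfl, fun m hm => ?_⟩
    have h1 : ¬ (p i : ℤ) ∣ (m : ℤ) + a0 - c := by
      intro h2
      apply hm i
      have h3 : (p i : ℤ) ∣ (m : ℤ) := by
        have h4 : (m : ℤ) = ((m : ℤ) + a0 - c) + (c - a0) := by ring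
        rw [h4]
        exact dvd_add h2 h0
      exact_mod_cast h3
    simp only [if_neg h1, Complex.ofReal_zero, zero_mul, sum_const_zero]
  · set G : (j : ι) → DirichletCharacter ℂ (p j) → ℂ := fun j χ =>
      if j = i then (1 / ((p j : ℂ) - 1)) * χ (((c - a0 : ℤ) : ZMod (p j))⁻¹)
      else if χ = 1 then 1 else 0 with hG
    refine ⟨fun χ => ∏ j, G j (χ j), fun χ hχ => ?_, fun m hm => ?_⟩
    · by_contra hne
      have h1 : fsupp χ ⊆ {i} := by
        intro j hj
        unfold fsupp at hj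
        rw [mem_filter] at hj
        rw [mem_singleton]
        by_contra hji
        apply hne
        refine prod_eq_zero (mem_univ j) ?_
        simp only [hG, if_neg hji, if_neg hj.2]
      have h2 : fcd χ ≤ p i := by
        unfold fcd
        refine Nat.le_of_dvd (hp i).pos ?_
        have h3 := prod_dvd_prod_of_subset _ _ (fun j => p j) h1
        rwa [prod_singleton] at h3
      exact absurd hχ (not_lt.2 (by exact_mod_cast h2))
    · have h1 : ∑ χ : Fam p, (∏ j, G j (χ j)) * fch χ m =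
          ∏ j, ∑ χ : DirichletCharacter ℂ (p j), G j χ * χ (m : ZMod (p j)) := by
        rw [prod_univ_sum, Fintype.piFinset_univ]
        refine sum_congr rfl fun χ _ => ?_
        rw [prod_mul_distrib, lowa_fch hp χ hm]
      rw [h1, prod_eq_single i]
      · simp only [hG, if_pos]
        rw [lowa_loc (hp i) h0]
        have h2 : (m : ℤ) + a0 - c = (m : ℤ) - (c - a0) := by ring
        rw [h2]
        by_cases h3 : (p i : ℤ) ∣ (m : ℤ) - (c - a0)
        · rw [if_pos h3, if_pos h3, Complex.ofReal_one]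
        · rw [if_neg h3, if_neg h3, Complex.ofReal_zero]
      · intro j _ hji
        simp only [hG, if_neg hji, ite_mul, one_mul, zero_mul]
        rw [sum_ite_eq' univ (1 : DirichletCharacter ℂ (p j)), if_pos (mem_univ _)]
        exact MulChar.one_apply (lowa_unit hp hm j)
      · intro h
        exact absurd (mem_univ i) h

/-- `ee q z = 1/(q-1) - (q/(q-1)) 1_{q ∣ z}` -/
theorem low_ee (hp : ∀ i, (p i).Prime) (i : ι) (c : ℤ) :
    LowE p a0 (p i) (fun n => ee (p i) (n - c)) := by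
  classical
  have h1 : (1 : ℝ) ≤ (p i : ℝ) := by exact_mod_cast (hp i).one_le
  have h2 := ((low_const (a0 := a0) hp (1 / ((p i : ℝ) - 1))).mono h1).add
    ((low_dvd (a0 := a0) hp i c).smul (-((p i : ℝ) / ((p i : ℝ) - 1))))
  have h3 : (fun n : ℤ => ee (p i) (n - c)) = fun n : ℤ => 1 / ((p i : ℝ) - 1) +
      -((p i : ℝ) / ((p i : ℝ) - 1)) * (if (p i : ℤ) ∣ n - c then 1 else 0) := by
    funext n
    unfold ee
    have h4 : ((p i : ℝ) - 1) ≠ 0 := by
      have : (1 : ℝ) < p i := by exact_mod_cast (hp i).one_lt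
      linarith
    by_cases h5 : (p i : ℤ) ∣ n - c
    · rw [if_pos h5, if_pos h5]
      field_simp
      ring
    · rw [if_neg h5, if_neg h5]
      ring
  rw [h3]
  exact h2

end Pool.Agent.AV
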