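import Pool.Agent.AV.TW1
import Pool.Agent.AV.TW2
import Pool.Agent.AT.Mom
import Pool.Agent.AT.PX

/-! AV/PVD.  THEOREM PV: POSITIVE PROPORTION.
`Wn`: the windows `n` with all primes of `[n, n+H)` in the clusters, at most one in each, at least `m+1` in total.
PLAN.  Constants: `c2` from `TW1`, `C` from `SEV`, `C'` a common constant of `TW2`, `TW3`; `μ = 80 (m+1)/c2`,
`θ = min 1 (c2/(4 C' μ))`, `K0 ≥ 4000 μ, 8 C' μ/(c2 θ)`, `ε = μ/K`, `η = c2 μ θ/16`; for `Λ0` take `Λ` from `TW1` and `B`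
from `SEV` for `Λ`, `η`.  `w b` = the weight of `SEV` for `R = Rv M b H u E` (`b` good, `admV_good`), `0` otherwise.
`Ω` = the pairs `(b, n)`, `b ∈ GdV`, `n ∈ Nw P H M b` (`Finset.sigma`).  Call `(b,n)` nice if `¬ Bd`, `m < Nn` and
`w b n ≤ B`.  Nice pairs: `Nn ≤ K` (at most one prime in each cluster: `¬ Bd`), so their part of
`T1 = ∑ w Nn` is at most `K B #nice`.  The other pairs: `mom` (AT/Mom) on `Ω \ nice` with `E = Bd ∨ B < w`
(not `E` and not nice gives `Nn ≤ m`): their part is at most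
`m T0 + θ/2 (T2 + T1) + 1/(2θ) (T3 + T4)` (`T0 ≤ 10 P`, `T2 ≤ C' μ² P`, `T3 + T4 ≤ (C' μ²/K + 2 η) P`).  Hence
`K B #nice ≥ T1/2 - 10 m P - θ C' μ² P/2 - (C' μ²/K + 2 η) P/(2θ) ≥ c2 μ P (1/2 - 1/8 - 1/8 - 1/16 - 1/16)`.
For a nice pair `n ∈ Wn` (see `px_claim` in AT/PX, private: copy it), and `(b,n) ↦ n` is injective (`b < M`, `n ≡ b`). -/

set_option autoImplicit false

open Finset Pool.Agent.RS Pool.Agent.AT Pool.Agent.VOID

namespace Pool.Agent.AV

open Classical in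
/-- the good windows -/
noncomputable def Wn (m P H E : ℕ) {K : ℕ} (u : Fin K → ℕ) : Finset ℕ :=
  (Ioc (P - H) (4 * P)).filter (fun n =>
    (∀ q ∈ Ico n (n + H), q.Prime → ∃ i, n + u i ≤ q ∧ q < n + u i + E) ∧
    (∀ i, ∀ q q' : ℕ, q.Prime → q'.Prime → n + u i ≤ q → q < n + u i + E →
      n + u i ≤ q' → q' < n + u i + E → q = q') ∧
    m + 1 ≤ ((Ico n (n + H)).filter Nat.Prime).card)

private theorem pv_claim {P L H E K m : ℕ} {u : Fin K → ℕ} (hP : 1 ≤ P) (hL : L = Nat.log 2 P)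
    (hPH : L ≤ P - H) (hcfg : Cfg H u E) {b n : ℕ} (hn : n ∈ Nw P H (Mw L) b)
    (hBd : ¬ Bd (Mw L) H u E b n) (hN : m < Nn (Mw L) H u E b n) : n ∈ Wn m P H E u := by
  classical
  unfold Nw at hn
  rw [mem_filter, mem_Ioc] at hn
  obtain ⟨⟨hn1, hn2⟩, hn3⟩ := hn
  obtain ⟨_, _, hM, _⟩ := Mw_facts hP hL
  have hcop : ∀ j, (n + j).Prime → Nat.Coprime (b + j) (Mw L) := by
    intro j hj
    have h1 : Nat.Coprime (n + j) (Mw L) := by
      rw [hj.coprime_iff_not_dvd, hM _ hj]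
      have : L / 2000 ≤ L := Nat.div_le_self _ _
      omega
    have h2 : n + j ≡ b + j [MOD (Mw L)] := hn3.add_right j
    have h3 := h2.gcd_eq
    unfold Nat.Coprime at h1 ⊢
    rw [← h3]
    exact h1
  have hJv : ∀ j, j < H → (n + j).Prime → j ∈ Jv (Mw L) b H := by
    intro j hj hp
    unfold Jv
    rw [mem_filter, mem_range]
    exact ⟨hj, hcop j hp⟩
  have hCl : ∀ j, j < H → (n + j).Prime → j ∈ Cl u E := by
    intro j hj hp
    by_contra hcon
    apply hBd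
    refine Or.inr ⟨j, ?_, hp⟩
    unfold Rv
    rw [mem_filter]
    exact ⟨hJv j hj hp, hcon⟩
  have hJ1 : ∀ j, j < H → (n + j).Prime → j ∈ J1 (Mw L) b H u E := by
    intro j hj hp
    unfold J1
    rw [mem_filter]
    exact ⟨hJv j hj hp, hCl j hj hp⟩
  unfold Wn
  rw [mem_filter, mem_Ioc]
  refine ⟨⟨hn1, hn2⟩, ?_, ?_, ?_⟩
  · intro q hq hp
    rw [mem_Ico] at hq
    obtain ⟨j, rfl⟩ := Nat.exists_eq_add_of_le hq.1
    have h1 := hCl j (by omega) hp
    unfold Cl at h1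
    rw [mem_biUnion] at h1
    obtain ⟨i, _, hi⟩ := h1
    rw [mem_Ico] at hi
    exact ⟨i, by omega, by omega⟩
  · intro i q q' hq hq' h1 h2 h3 h4
    obtain ⟨j, rfl⟩ := Nat.exists_eq_add_of_le (show n ≤ q by omega)
    obtain ⟨j', rfl⟩ := Nat.exists_eq_add_of_le (show n ≤ q' by omega)
    by_contra hne
    apply hBd
    have h5 := hcfg.hin i
    refine Or.inl ⟨i, j, hJ1 j (by omega) hq, j', hJ1 j' (by omega) hq', ?_, ?_, ?_, hq, hq'⟩
    · rintro rfl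
      exact hne rfl
    · rw [mem_Ico]; omega
    · rw [mem_Ico]; omega
  · have h1 : Nn (Mw L) H u E b n ≤ ((Ico n (n + H)).filter Nat.Prime).card := by
      unfold Nn
      apply Finset.card_le_card_of_injOn (fun j => n + j)
      · intro j hj
        have hj' := mem_filter.1 (Finset.mem_coe.1 hj)
        have hjJ : j ∈ Jv (Mw L) b H := (mem_filter.1 hj'.1).1
        have hjH : j < H := mem_range.1 (mem_filter.1 hjJ).1
        refine Finset.mem_coe.2 (mem_filter.2 ⟨mem_Ico.2 ⟨?_, ?_⟩, hj'.2⟩)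
        · show n ≤ n + j
          omega
        · show n + j < n + H
          omega
      · intro j _ j' _ h
        have : n + j = n + j' := h
        omega
    omega

/-- at most one prime in each cluster -/
private theorem pv_cnt {M H E K : ℕ} {u : Fin K → ℕ} {b n : ℕ} (hBd : ¬ Bd M H u E b n) :
    Nn M H u E b n ≤ K := by
  classical
  unfold Nn
  set S := (J1 M b H u E).filter (fun j => (n + j).Prime) with hS
  have h1 : ∀ j ∈ S, ∃ i : Fin K, j ∈ Ico (u i) (u i + E) := by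
    intro j hj
    have h2 := (mem_filter.1 (mem_filter.1 hj).1).2
    unfold Cl at h2
    rw [mem_biUnion] at h2
    obtain ⟨i, _, hi⟩ := h2
    exact ⟨i, hi⟩
  by_cases hK : K = 0
  · subst hK
    have : S = ∅ := by
      rw [eq_empty_iff_forall_notMem]
      intro j hj
      obtain ⟨i, _⟩ := h1 j hj
      exact i.elim0
    rw [this]
    simp
  · have hne : Nonempty (Fin K) := ⟨⟨0, Nat.pos_of_ne_zero hK⟩⟩
    set g : ℕ → Fin K := fun j => if h : ∃ i : Fin K, j ∈ Ico (u i) (u i + E) then h.choose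
      else hne.some with hg
    have hgs : ∀ j ∈ S, j ∈ Ico (u (g j)) (u (g j) + E) := by
      intro j hj
      have h2 := h1 j hj
      have h3 : g j = h2.choose := by rw [hg]; exact dif_pos h2
      rw [h3]
      exact h2.choose_spec
    have h4 : S.card ≤ (univ : Finset (Fin K)).card := by
      apply Finset.card_le_card_of_injOn g
      · intro j _
        exact Finset.mem_coe.2 (mem_univ _)
      · intro j hj j' hj' hjj
        by_contra hcon
        apply hBd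
        have hj1 := mem_filter.1 (Finset.mem_coe.1 hj)
        have hj2 := mem_filter.1 (Finset.mem_coe.1 hj')
        refine Or.inl ⟨g j, j, hj1.1, j', hj2.1, hcon, hgs j (Finset.mem_coe.1 hj), ?_,
          hj1.2, hj2.2⟩
        rw [hjj]
        exact hgs j' (Finset.mem_coe.1 hj')
    rw [card_univ, Fintype.card_fin] at h4
    exact h4

private theorem pv_real {c2 C μ θ K η P m T0 T1 T2 T3 T4 A N : ℝ} (hc2 : 0 < c2) (hμ : 0 < μ)
    (hθ : 0 < θ) (hK : 0 < K) (hP : 0 < P) (hm : 0 ≤ m)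
    (hθ1 : θ ≤ 1) (hμm : c2 * μ = 80 * (m + 1)) (hθ2 : θ * (4 * C * μ) ≤ c2)
    (hKb : 8 * C * μ ≤ K * (c2 * θ)) (hη : η = c2 * μ * θ / 16)
    (hT1 : c2 * μ * P ≤ T1) (hT0 : T0 ≤ 10 * P) (hT2 : T2 ≤ C * μ ^ 2 * P)
    (hT3 : T3 ≤ C * (μ ^ 2 / K) * P + η * P) (hT4 : T4 ≤ η * P)
    (hA : A ≤ m * T0 + θ / 2 * (T2 + T1) + 1 / (2 * θ) * (T3 + T4))
    (hsum : T1 ≤ A + N) : c2 * μ / 8 * P ≤ N := by
  have hx : 0 < c2 * μ := mul_pos hc2 hμ
  have hxP : 0 < c2 * μ * P := mul_pos hx hP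
  have h1 : m * T0 ≤ (c2 * μ * P) / 8 := by
    have h2 : m * T0 ≤ m * (10 * P) := mul_le_mul_of_nonneg_left hT0 hm
    have h3 : c2 * μ * P = 80 * (m + 1) * P := by rw [hμm]
    rw [h3]
    linarith
  have h2 : θ / 2 * T2 ≤ (c2 * μ * P) / 8 := by
    have h3 : θ / 2 * T2 ≤ θ / 2 * (C * μ ^ 2 * P) :=
      mul_le_mul_of_nonneg_left hT2 (by positivity)
    have h4 : θ / 2 * (C * μ ^ 2 * P) = (θ * (4 * C * μ)) * (μ * P) / 8 := by ring
    have h5 : (θ * (4 * C * μ)) * (μ * P) ≤ c2 * (μ * P) :=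
      mul_le_mul_of_nonneg_right hθ2 (by positivity)
    rw [h4] at h3
    linarith
  have h3 : θ / 2 * T1 ≤ T1 / 2 := by
    have h4 : 0 ≤ T1 := hxP.le.trans hT1
    have : θ * T1 ≤ 1 * T1 := mul_le_mul_of_nonneg_right hθ1 h4
    linarith
  have h4 : 1 / (2 * θ) * (T3 + T4) ≤ (c2 * μ * P) / 16 + (c2 * μ * P) / 16 := by
    have h5 : 1 / (2 * θ) * (T3 + T4) ≤ 1 / (2 * θ) * (C * (μ ^ 2 / K) * P + 2 * (η * P)) :=
      mul_le_mul_of_nonneg_left (by linarith) (by positivity)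
    have h6 : 1 / (2 * θ) * (C * (μ ^ 2 / K) * P) ≤ (c2 * μ * P) / 16 := by
      rw [show 1 / (2 * θ) * (C * (μ ^ 2 / K) * P) = (8 * C * μ) * (μ * P) / (16 * (θ * K)) by
        field_simp; ring, div_le_div_iff₀ (by positivity) (by norm_num)]
      have h7 : (8 * C * μ) * (μ * P) ≤ (K * (c2 * θ)) * (μ * P) :=
        mul_le_mul_of_nonneg_right hKb (by positivity)
      have e : c2 * μ * P * (16 * (θ * K)) = 16 * ((K * (c2 * θ)) * (μ * P)) := by ring
      rw [e]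
      linarith
    have h7 : 1 / (2 * θ) * (2 * (η * P)) = (c2 * μ * P) / 16 := by
      rw [hη]
      field_simp
    have h8 : 1 / (2 * θ) * (C * (μ ^ 2 / K) * P + 2 * (η * P)) =
        1 / (2 * θ) * (C * (μ ^ 2 / K) * P) + 1 / (2 * θ) * (2 * (η * P)) := mul_add _ _ _
    rw [h8, h7] at h5
    linarith
  have h5 : θ / 2 * (T2 + T1) = θ / 2 * T2 + θ / 2 * T1 := by ring
  rw [h5] at hA
  linarith

private theorem pv_pow (L : ℕ) (h : 5 ≤ L) : L ^ 2 + L ≤ 2 ^ L := by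
  induction L, h using Nat.le_induction with
  | base => norm_num
  | succ n hn ih =>
    rw [pow_succ 2 n]
    nlinarith

theorem PV (hE : SEV) (hB : SBT) (m : ℕ) : ∃ μ : ℝ, 0 < μ ∧ ∃ K0 : ℕ, 0 < K0 ∧ ∀ K : ℕ, K0 ≤ K →
    ∀ Λ0 : ℝ, 0 < Λ0 → ∃ c : ℝ, 0 < c ∧ ∃ P0 : ℕ, ∀ P : ℕ, P0 ≤ P → ∀ L : ℕ,
    L = Nat.log 2 P → ∀ (H : ℕ) (u : Fin K → ℕ), (H : ℝ) ≤ Λ0 * L → Cfg H u ⌊μ / K * L⌋₊ →
    c * P ≤ ((Wn m P H ⌊μ / K * L⌋₊ u).card : ℝ) := by
  classical
  obtain ⟨c2, hc2, hT1⟩ := TW1 hB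
  obtain ⟨CE, hCE, hEng⟩ := hE
  obtain ⟨C', hC', hT2⟩ := TW2 hCE
  obtain ⟨C'', hC'', hT3⟩ := TW3 hCE
  set C : ℝ := max C' C'' with hCdef
  have hC : 0 < C := lt_max_of_lt_left hC'
  set μ : ℝ := 80 * ((m : ℝ) + 1) / c2 with hμdef
  have hm0 : (0 : ℝ) ≤ m := Nat.cast_nonneg m
  have hμ : 0 < μ := by positivity
  have hμm : c2 * μ = 80 * ((m : ℝ) + 1) := by
    rw [hμdef]; field_simp
  set θ : ℝ := min 1 (c2 / (4 * C * μ)) with hθdef
  have hθ : 0 < θ := lt_min one_pos (by positivity)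
  have hθ1 : θ ≤ 1 := min_le_left _ _
  have hθ2 : θ * (4 * C * μ) ≤ c2 := by
    have h4 : θ ≤ c2 / (4 * C * μ) := min_le_right _ _
    rwa [le_div_iff₀ (by positivity)] at h4
  obtain ⟨K0, hK0⟩ := exists_nat_ge (max (4000 * μ) (8 * C * μ / (c2 * θ)))
  have hK00 : (0 : ℝ) < K0 := lt_of_lt_of_le (by positivity) ((le_max_left _ _).trans hK0)
  refine ⟨μ, hμ, K0, by exact_mod_cast hK00, ?_⟩
  intro K hKK Λ0 hΛ0
  have hKr : (K0 : ℝ) ≤ K := by exact_mod_cast hKK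
  have hK1 : 4000 * μ ≤ K := ((le_max_left _ _).trans hK0).trans hKr
  have hK2 : 8 * C * μ / (c2 * θ) ≤ K := ((le_max_right _ _).trans hK0).trans hKr
  have hKp : (0 : ℝ) < K := lt_of_lt_of_le (by positivity) hK1
  have hKb : 8 * C * μ ≤ K * (c2 * θ) := by
    rwa [div_le_iff₀ (by positivity)] at hK2
  set ε : ℝ := μ / K with hεdef
  have hε : 0 < ε := by positivity
  have hε1 : ε ≤ 1 / 4000 := by
    rw [hεdef, div_le_div_iff₀ hKp (by norm_num)]
    linarith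
  have hKε : (K : ℝ) * ε = μ := by
    rw [hεdef]; field_simp
  have hKε2 : (K : ℝ) * ε ^ 2 = μ ^ 2 / K := by
    rw [hεdef]; field_simp
  obtain ⟨Λ, hΛ, hT1'⟩ := hT1 Λ0 hΛ0
  set η : ℝ := c2 * μ * θ / 16 with hηdef
  have hη : 0 < η := by positivity
  obtain ⟨B, hBp, PS, hEng'⟩ := hEng Λ hΛ η hη
  obtain ⟨P1, hP1⟩ := hT1' K ε hε hε1
  obtain ⟨P2, hP2⟩ := hT2 K ε hε hε1
  obtain ⟨P3, hP3⟩ := hT3 K ε hε hε1
  obtain ⟨L0, hL0⟩ := exists_nat_ge Λ0
  refine ⟨c2 * μ / (8 * K * B), by positivity, PS + P1 + P2 + P3 + 2 ^ (L0 + 5), ?_⟩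
  intro P hP L hL H u hH hcfg
  have hpow : 0 < 2 ^ (L0 + 5) := by positivity
  have hP1' : 1 ≤ P := by omega
  have hLL : L0 + 5 ≤ L := by
    rw [hL]
    exact Nat.le_log_of_pow_le (by norm_num) (by omega)
  have hHL : H ≤ L ^ 2 := by
    have h4 : Λ0 ≤ L := by
      have : (L0 : ℝ) ≤ L := by exact_mod_cast (by omega : L0 ≤ L)
      linarith
    have h5 : (H : ℝ) ≤ (L : ℝ) ^ 2 := by
      calc (H : ℝ) ≤ Λ0 * L := hH
        _ ≤ L * L := mul_le_mul_of_nonneg_right h4 (Nat.cast_nonneg L)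
        _ = (L : ℝ) ^ 2 := by ring
    exact_mod_cast h5
  have hP2L : 2 ^ L ≤ P := by
    rw [hL]
    exact Nat.pow_log_le_self 2 (by omega)
  have hPH : L ≤ P - H := by
    have h4 := pv_pow L (by omega)
    omega
  have hPpos : (0 : ℝ) < P := by exact_mod_cast hP1'
  set E : ℕ := ⌊ε * L⌋₊ with hEdef
  -- the weights
  have hex : ∀ b, ∃ w : ℕ → ℝ, b ∈ GdV Λ L (Mw L) H u E →
      WB CE η B P L (Mw L) H (Rv (Mw L) b H u E) b w := by
    intro b
    by_cases hb : b ∈ GdV Λ L (Mw L) H u E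
    · obtain ⟨w, hw⟩ := hEng' P (by omega) L (Mw L) H _ (admV_good hP1' hL hHL hb) b
      exact ⟨w, fun _ => hw⟩
    · exact ⟨fun _ => 0, fun h => absurd h hb⟩
  choose w hw using hex
  have hWF : WF CE η B Λ P L H u E w := fun b hb => hw b hb
  have hb1 := hP1 P (by omega) L hL H u hH hcfg CE η B w hWF
  have hb2 := hP2 P (by omega) L hL H u hHL hcfg η B Λ w hWF
  have hb3 := hP3 P (by omega) L hL H u hHL hcfg η B Λ w hη.le hWF
  have hb0 := TW0 hP1' hL hWF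
  have hb4 := TW4 hη.le hP1' hL hWF
  rw [hKε] at hb1 hb2
  rw [hKε2] at hb3
  set G := GdV Λ L (Mw L) H u E with hG
  set s : Finset (Σ _ : ℕ, ℕ) := G.sigma (fun b => Nw P H (Mw L) b) with hs
  have hmem : ∀ x ∈ s, x.1 ∈ G ∧ x.2 ∈ Nw P H (Mw L) x.1 := fun x hx => mem_sigma.1 hx
  have hnn : ∀ x ∈ s, 0 ≤ w x.1 x.2 := fun x hx => (hWF x.1 (hmem x hx).1).nn x.2
  set nice : (Σ _ : ℕ, ℕ) → Prop := fun x => ¬ Bd (Mw L) H u E x.1 x.2 ∧
    m < Nn (Mw L) H u E x.1 x.2 ∧ w x.1 x.2 ≤ B with hnice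
  have hsum : ∀ F : ℕ → ℕ → ℝ, ∑ x ∈ s, F x.1 x.2 =
      ∑ b ∈ G, ∑ n ∈ Nw P H (Mw L) b, F b n := by
    intro F
    rw [hs, sum_sigma]
  set T0 := ∑ x ∈ s, w x.1 x.2 with hT0d
  set T1v := ∑ x ∈ s, w x.1 x.2 * (Nn (Mw L) H u E x.1 x.2 : ℝ) with hT1d
  set T2v := ∑ x ∈ s, w x.1 x.2 * ((Nn (Mw L) H u E x.1 x.2 : ℝ) *
    ((Nn (Mw L) H u E x.1 x.2 : ℝ) - 1)) with hT2d
  set T3v := ∑ x ∈ s.filter (fun x => Bd (Mw L) H u E x.1 x.2), w x.1 x.2 with hT3d
  set T4v := ∑ x ∈ s.filter (fun x => B < w x.1 x.2), w x.1 x.2 with hT4d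
  have k0 : T0 ≤ 10 * P := by
    rw [hT0d, hsum (fun b n => w b n)]
    exact hb0
  have k1 : c2 * μ * P ≤ T1v := by
    rw [hT1d, hsum (fun b n => w b n * (Nn (Mw L) H u E b n : ℝ))]
    exact hb1
  have k2 : T2v ≤ C * μ ^ 2 * P := by
    rw [hT2d, hsum (fun b n => w b n * ((Nn (Mw L) H u E b n : ℝ) *
      ((Nn (Mw L) H u E b n : ℝ) - 1)))]
    refine hb2.trans ?_
    have : C' ≤ C := le_max_left _ _
    gcongr
  have k3 : T3v ≤ C * (μ ^ 2 / K) * P + η * P := by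
    have e : T3v = ∑ b ∈ G, ∑ n ∈ (Nw P H (Mw L) b).filter
        (fun n => Bd (Mw L) H u E b n), w b n := by
      rw [hT3d, sum_filter, hs, sum_sigma]
      refine sum_congr rfl fun b _ => ?_
      rw [sum_filter]
    rw [e]
    refine hb3.trans ?_
    have : C'' ≤ C := le_max_right _ _
    gcongr
  have k4 : T4v ≤ η * P := by
    have e : T4v = ∑ b ∈ G, ∑ n ∈ (Nw P H (Mw L) b).filter (fun n => B < w b n), w b n := by
      rw [hT4d, sum_filter, hs, sum_sigma]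
      refine sum_congr rfl fun b _ => ?_
      rw [sum_filter]
    rw [e]
    exact hb4
  -- the pairs which are not nice
  have hsub : s.filter (fun x => ¬ nice x) ⊆ s := filter_subset _ _
  have hmom := mom (s.filter (fun x => ¬ nice x)) (fun x => w x.1 x.2)
    (fun x hx => hnn x (hsub hx)) (fun x => Nn (Mw L) H u E x.1 x.2)
    (fun x => Bd (Mw L) H u E x.1 x.2 ∨ B < w x.1 x.2) m hθ (by
      intro x hx hEx
      have hx2 := (mem_filter.1 hx).2
      by_contra hN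
      push Not at hN
      rw [not_or, not_lt] at hEx
      exact hx2 ⟨hEx.1, hN, hEx.2⟩)
  have a0 : ∑ x ∈ s.filter (fun x => ¬ nice x), w x.1 x.2 ≤ T0 :=
    sum_le_sum_of_subset_of_nonneg hsub (fun x hx _ => hnn x hx)
  have a1 : ∑ x ∈ s.filter (fun x => ¬ nice x), w x.1 x.2 * (Nn (Mw L) H u E x.1 x.2 : ℝ) ≤ T1v :=
    sum_le_sum_of_subset_of_nonneg hsub
      (fun x hx _ => mul_nonneg (hnn x hx) (Nat.cast_nonneg _))
  have a2 : ∑ x ∈ s.filter (fun x => ¬ nice x), w x.1 x.2 * ((Nn (Mw L) H u E x.1 x.2 : ℝ) *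
      ((Nn (Mw L) H u E x.1 x.2 : ℝ) - 1)) ≤ T2v := by
    refine sum_le_sum_of_subset_of_nonneg hsub (fun x hx _ => mul_nonneg (hnn x hx) ?_)
    rcases Nat.eq_zero_or_pos (Nn (Mw L) H u E x.1 x.2) with h | h
    · rw [h]; simp
    · have : (1 : ℝ) ≤ (Nn (Mw L) H u E x.1 x.2 : ℝ) := by exact_mod_cast h
      exact mul_nonneg (by linarith) (by linarith)
  have a3 : ∑ x ∈ (s.filter (fun x => ¬ nice x)).filter
      (fun x => Bd (Mw L) H u E x.1 x.2 ∨ B < w x.1 x.2), w x.1 x.2 ≤ T3v + T4v := by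
    have h1 : (s.filter (fun x => ¬ nice x)).filter
        (fun x => Bd (Mw L) H u E x.1 x.2 ∨ B < w x.1 x.2) ⊆
        s.filter (fun x => Bd (Mw L) H u E x.1 x.2) ∪ s.filter (fun x => B < w x.1 x.2) := by
      intro x hx
      obtain ⟨h2, h3⟩ := mem_filter.1 hx
      rw [mem_union]
      rcases h3 with h3 | h3
      · exact Or.inl (mem_filter.2 ⟨hsub h2, h3⟩)
      · exact Or.inr (mem_filter.2 ⟨hsub h2, h3⟩)
    have h2 : ∀ x ∈ s.filter (fun x => Bd (Mw L) H u E x.1 x.2) ∪ s.filter (fun x => B < w x.1 x.2),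
        0 ≤ w x.1 x.2 := by
      intro x hx
      rcases mem_union.1 hx with h3 | h3
      · exact hnn x (mem_filter.1 h3).1
      · exact hnn x (mem_filter.1 h3).1
    refine (sum_le_sum_of_subset_of_nonneg h1 (fun x hx _ => h2 x hx)).trans ?_
    rw [← sum_union_inter]
    have h3 : 0 ≤ ∑ x ∈ s.filter (fun x => Bd (Mw L) H u E x.1 x.2) ∩
        s.filter (fun x => B < w x.1 x.2), w x.1 x.2 :=
      sum_nonneg (fun x hx => hnn x (mem_filter.1 (mem_inter.1 hx).1).1)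
    linarith
  set A := ∑ x ∈ s.filter (fun x => ¬ nice x), w x.1 x.2 * (Nn (Mw L) H u E x.1 x.2 : ℝ) with hA
  have hA' : A ≤ m * T0 + θ / 2 * (T2v + T1v) + 1 / (2 * θ) * (T3v + T4v) := by
    refine hmom.trans ?_
    have h1 : (m : ℝ) * ∑ x ∈ s.filter (fun x => ¬ nice x), w x.1 x.2 ≤ m * T0 :=
      mul_le_mul_of_nonneg_left a0 hm0
    have h2 := mul_le_mul_of_nonneg_left (add_le_add a2 a1) (show 0 ≤ θ / 2 by positivity)
    have h3 := mul_le_mul_of_nonneg_left a3 (show 0 ≤ 1 / (2 * θ) by positivity)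
    refine add_le_add (add_le_add h1 h2) ?_
    convert h3
  have hnc : ∑ x ∈ s.filter nice, w x.1 x.2 * (Nn (Mw L) H u E x.1 x.2 : ℝ) ≤
      K * B * ((s.filter nice).card : ℝ) := by
    have h1 : ∀ x ∈ s.filter nice, w x.1 x.2 * (Nn (Mw L) H u E x.1 x.2 : ℝ) ≤ K * B := by
      intro x hx
      obtain ⟨h2, h3, h4, h5⟩ := mem_filter.1 hx
      have h6 : (Nn (Mw L) H u E x.1 x.2 : ℝ) ≤ K := by exact_mod_cast pv_cnt h3
      calc w x.1 x.2 * (Nn (Mw L) H u E x.1 x.2 : ℝ) ≤ B * K :=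
            mul_le_mul h5 h6 (Nat.cast_nonneg _) hBp.le
        _ = K * B := by ring
    refine (sum_le_sum h1).trans (le_of_eq ?_)
    rw [sum_const, nsmul_eq_mul]
    ring
  have hsplit : T1v ≤ A + K * B * ((s.filter nice).card : ℝ) := by
    have h1 : T1v = ∑ x ∈ s.filter nice, w x.1 x.2 * (Nn (Mw L) H u E x.1 x.2 : ℝ) + A := by
      rw [hT1d, hA]
      exact (sum_filter_add_sum_filter_not s nice _).symm
    linarith
  have hmain := pv_real hc2 hμ hθ hKp hPpos hm0 hθ1 hμm hθ2 hKb hηdef k1 k0 k2 k3 k4 hA' hsplit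
  have hcard : (s.filter nice).card ≤ (Wn m P H E u).card := by
    apply Finset.card_le_card_of_injOn (fun x => x.2)
    · intro x hx
      obtain ⟨h2, h3, h4, h5⟩ := mem_filter.1 (Finset.mem_coe.1 hx)
      exact Finset.mem_coe.2 (pv_claim hP1' hL hPH hcfg (hmem x h2).2 h3 h4)
    · intro x hx y hy hxy
      have h2 := hmem x (mem_filter.1 (Finset.mem_coe.1 hx)).1
      have h3 := hmem y (mem_filter.1 (Finset.mem_coe.1 hy)).1
      have hxy' : x.2 = y.2 := hxy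
      have h4 : x.2 ≡ x.1 [MOD (Mw L)] := by
        have := h2.2
        unfold Nw at this
        exact (mem_filter.1 this).2
      have h5 : y.2 ≡ y.1 [MOD (Mw L)] := by
        have := h3.2
        unfold Nw at this
        exact (mem_filter.1 this).2
      have h6 : x.1 < Mw L := mem_range.1 (mem_filter.1 h2.1).1
      have h7 : y.1 < Mw L := mem_range.1 (mem_filter.1 h3.1).1
      rw [hxy'] at h4
      have h8 : x.1 = y.1 := Nat.ModEq.eq_of_lt_of_lt (h4.symm.trans h5) h6 h7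
      obtain ⟨x1, x2⟩ := x
      obtain ⟨y1, y2⟩ := y
      simp only at h8 hxy'
      rw [h8, hxy']
  have hcr : ((s.filter nice).card : ℝ) ≤ ((Wn m P H E u).card : ℝ) := by exact_mod_cast hcard
  have h9 : c2 * μ / 8 * P ≤ K * B * ((Wn m P H E u).card : ℝ) :=
    hmain.trans (mul_le_mul_of_nonneg_left hcr (by positivity))
  have h10 : c2 * μ / (8 * K * B) * P = (c2 * μ / 8 * P) / (K * B) := by
    field_simp
  rw [h10, div_le_iff₀ (by positivity)]
  linarith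

end Pool.Agent.AV
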