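import Pool.Agent.AV.Cc

/-! AV/Sz.  Sizes.  PLAN: `sizes`, `nums` and the beginning of the proof of `E2` in AT/E2 (private there: copy). -/

set_option autoImplicit false

open Finset Pool.Agent.RS Pool.Agent.AT Pool.Agent.VOID

namespace Pool.Agent.AV

/-- sizes -/
private theorem sizes {P L M : ℕ} (hL : L = Nat.log 2 P) (hL100 : 100 ≤ L) (hM0 : 0 < M)
    (hMP : (M : ℝ) ≤ (P : ℝ) ^ (1 / 1000 : ℝ)) :
    (2 : ℝ) ^ (9 * (L / 10)) ≤ (P : ℝ) / M ∧ √(P : ℝ) ≤ 2 ^ (5 * (L / 10) + 5) ∧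
      Real.log (4 * P) ≤ L ∧ 2 ^ L ≤ P := by
  have hP0 : P ≠ 0 := by
    rintro rfl
    rw [hL] at hL100
    simp at hL100
  have hPL : 2 ^ L ≤ P := by rw [hL]; exact Nat.pow_log_le_self 2 hP0
  have hPU : P < 2 ^ (L + 1) := by rw [hL]; exact Nat.lt_pow_succ_log_self (by norm_num) P
  have hPr : (1 : ℝ) ≤ P := by exact_mod_cast Nat.one_le_iff_ne_zero.2 hP0
  have hM0r : (0 : ℝ) < M := by exact_mod_cast hM0
  set q := L / 10 with hq
  have hq1 : 10 * q ≤ L := by omega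
  have hq2 : L ≤ 10 * q + 9 := by omega
  refine ⟨?_, ?_, ?_, hPL⟩
  · have h1 : (M : ℝ) ≤ (P : ℝ) ^ (1 / 10 : ℝ) :=
      hMP.trans (Real.rpow_le_rpow_of_exponent_le hPr (by norm_num))
    have h2 : (P : ℝ) = (P : ℝ) ^ (1 / 10 : ℝ) * (P : ℝ) ^ (9 / 10 : ℝ) := by
      rw [← Real.rpow_add (by linarith)]
      norm_num
    have h3 : (0 : ℝ) < (P : ℝ) ^ (1 / 10 : ℝ) := Real.rpow_pos_of_pos (by linarith) _
    have h4 : (0 : ℝ) < (P : ℝ) ^ (9 / 10 : ℝ) := Real.rpow_pos_of_pos (by linarith) _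
    have h5 : (P : ℝ) ^ (9 / 10 : ℝ) ≤ (P : ℝ) / M := by
      rw [le_div_iff₀ hM0r]
      calc (P : ℝ) ^ (9 / 10 : ℝ) * M ≤ (P : ℝ) ^ (9 / 10 : ℝ) * (P : ℝ) ^ (1 / 10 : ℝ) :=
            mul_le_mul_of_nonneg_left h1 h4.le
        _ = (P : ℝ) := by rw [mul_comm]; exact h2.symm
    refine le_trans ?_ h5
    have h6 : ((2 : ℝ) ^ q) ^ (10 : ℕ) ≤ P := by
      rw [← pow_mul]
      have : 2 ^ (q * 10) ≤ P := (Nat.pow_le_pow_right (by norm_num) (by omega)).trans hPL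
      exact_mod_cast this
    have h7 : (2 : ℝ) ^ (9 * q) = (((2 : ℝ) ^ q) ^ (10 : ℕ)) ^ (9 / 10 : ℝ) := by
      rw [← Real.rpow_natCast ((2 : ℝ) ^ q) 10, ← Real.rpow_mul (by positivity)]
      have e1 : ((10 : ℕ) : ℝ) * (9 / 10) = ((9 : ℕ) : ℝ) := by norm_num
      rw [e1, Real.rpow_natCast, ← pow_mul, mul_comm]
    rw [h7]
    exact Real.rpow_le_rpow (by positivity) h6 (by norm_num)
  · rw [Real.sqrt_le_left (by positivity), ← pow_mul]
    have h1 : P ≤ 2 ^ ((5 * q + 5) * 2) :=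
      hPU.le.trans (Nat.pow_le_pow_right (by norm_num) (by omega))
    exact_mod_cast h1
  · have h1 : (4 * (P : ℝ)) ≤ 2 ^ (L + 3) := by
      have : 4 * P ≤ 2 ^ (L + 3) := by
        have e : 2 ^ (L + 3) = 4 * 2 ^ (L + 1) := by ring
        rw [e]
        omega
      exact_mod_cast this
    have h2 : Real.log (4 * P) ≤ Real.log ((2 : ℝ) ^ (L + 3)) :=
      Real.log_le_log (by linarith) h1
    rw [Real.log_pow] at h2
    push_cast at h2
    have h3 : Real.log 2 ≤ 0.7 := by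
      have := Real.log_two_lt_d9
      linarith
    have h4 : (100 : ℝ) ≤ L := by exact_mod_cast hL100
    nlinarith

private theorem sq_le_pow {L : ℕ} (h : 10 ≤ L) : L ^ 2 ≤ 2 ^ (L - 2) := by
  have h2 : ∀ m : ℕ, (m + 10) ^ 2 ≤ 2 ^ (m + 8) := by
    intro m
    induction m with
    | zero => norm_num
    | succ m ih =>
      have e : 2 ^ (m + 1 + 8) = 2 * 2 ^ (m + 8) := by ring
      rw [e]
      calc (m + 1 + 10) ^ 2 ≤ 2 * (m + 10) ^ 2 :=
            Nat.le.intro (k := m ^ 2 + 18 * m + 79) (by ring)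
        _ ≤ 2 * 2 ^ (m + 8) := Nat.mul_le_mul_left 2 ih
  have h3 := h2 (L - 10)
  have e1 : L - 10 + 10 = L := by omega
  have e2 : L - 10 + 8 = L - 2 := by omega
  rwa [e1, e2] at h3

theorem sz {P L M H : ℕ} (hL : L = Nat.log 2 P) (hL6 : 10 ^ 6 ≤ L) (hM0 : 0 < M)
    (hMP : (M : ℝ) ≤ (P : ℝ) ^ (1 / 1000 : ℝ)) (hH : H ≤ L ^ 2) :
    (2 : ℝ) ^ (9 * (L / 10)) ≤ (P : ℝ) / M ∧ √(P : ℝ) ≤ 2 ^ (5 * (L / 10) + 5) ∧
      Real.log (4 * P) ≤ L ∧ 2 ^ L ≤ P ∧ H ≤ P ∧ 1 ≤ (P : ℝ) / M ∧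
      ∀ b : ℕ, ∀ n ∈ Nw P H M b, 2 ^ dd L < n ∧ n ≤ 2 ^ (L + 3) := by
  have hL100 : 100 ≤ L := by omega
  obtain ⟨s1, s2, s3, s4⟩ := sizes hL hL100 hM0 hMP
  have hP0 : P ≠ 0 := by
    rintro rfl
    rw [hL] at hL100
    simp at hL100
  have hPU : P < 2 ^ (L + 1) := by rw [hL]; exact Nat.lt_pow_succ_log_self (by norm_num) P
  have hL2P : 2 * L ^ 2 + 2 ^ dd L ≤ P := by
    refine le_trans ?_ s4
    have h1 : L ^ 2 ≤ 2 ^ (L - 2) := sq_le_pow (by omega)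
    have h2 : 2 ^ dd L ≤ 2 ^ (L - 1) := Nat.pow_le_pow_right (by norm_num) (by unfold dd; omega)
    have e1 : 2 ^ (L - 1) = 2 * 2 ^ (L - 2) := by
      rw [← pow_succ']
      congr 1
      omega
    have e2 : 2 ^ L = 2 * 2 ^ (L - 1) := by
      rw [← pow_succ']
      congr 1
      omega
    omega
  have hpos : 0 < 2 ^ dd L := by positivity
  refine ⟨s1, s2, s3, s4, by omega, (one_le_pow₀ (by norm_num)).trans s1, ?_⟩
  intro b n hn
  unfold Nw at hn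
  obtain ⟨h1, h2⟩ := mem_Ioc.1 (mem_filter.1 hn).1
  refine ⟨by omega, ?_⟩
  have e : 2 ^ (L + 3) = 4 * 2 ^ (L + 1) := by ring
  rw [e]
  omega

/-- PLAN: `x = 2 ^ (L / 1000)`: `2 ^ (L/100) ≤ 2^10 x^10`, `x^100 ≤ 2^(L/10)`, and `x ≥ L` since `2^n ≥ 1000 (n + 1)`
for `n = L/1000 ≥ 1000`. -/
theorem sz_w {L : ℕ} (hL6 : 10 ^ 6 ≤ L) :
    1000 * (L : ℝ) ^ 4 * 2 ^ (L / 100) ≤ 2 ^ (9 * (L / 10)) ∧
    10000 * (L : ℝ) ^ 4 * 2 ^ (L / 100) * 2 ^ (L / 100) * 2 ^ (5 * (L / 10) + 5) ≤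
      2 ^ (9 * (L / 10)) := by
  set n := L / 1000 with hn
  have hn1 : 1000 ≤ n := by omega
  have hLn : L ≤ 1000 * (n + 1) := by omega
  have hxn : 1000 * (n + 1) ≤ 2 ^ n := by
    have h1 : n - 10 < 2 ^ (n - 10) := Nat.lt_two_pow_self
    have h2 : 2 ^ n = 1024 * 2 ^ (n - 10) := by
      have e : n = 10 + (n - 10) := by omega
      calc 2 ^ n = 2 ^ (10 + (n - 10)) := by rw [← e]
        _ = 1024 * 2 ^ (n - 10) := by rw [pow_add]; norm_num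
    omega
  set x : ℝ := (2 : ℝ) ^ n with hx
  set y : ℝ := (2 : ℝ) ^ (L / 10) with hy
  have hx0 : 0 < x := by positivity
  have hy0 : 0 < y := by positivity
  have hLx : (L : ℝ) ≤ x := by
    have h1 : L ≤ 2 ^ n := hLn.trans hxn
    rw [hx]
    exact_mod_cast h1
  have hxbig : (2 : ℝ) ^ 40 ≤ x := pow_le_pow_right₀ (by norm_num) (by omega)
  have hxbig' : (10 : ℝ) ^ 11 ≤ x := by
    refine le_trans ?_ hxbig
    norm_num
  have hx1 : 1 ≤ x := by linarith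
  have hz : (2 : ℝ) ^ (L / 100) ≤ 512 * x ^ 10 := by
    have h1 : (2 : ℝ) ^ (L / 100) ≤ 2 ^ (9 + n * 10) :=
      pow_le_pow_right₀ (by norm_num) (by omega)
    rw [pow_add, pow_mul] at h1
    norm_num at h1
    exact h1
  have hxy : x ^ 100 ≤ y := by
    rw [hx, hy, ← pow_mul]
    exact pow_le_pow_right₀ (by norm_num) (by omega)
  have hL4 : (L : ℝ) ^ 4 ≤ x ^ 4 := pow_le_pow_left₀ (Nat.cast_nonneg _) hLx 4
  have hy1 : 1 ≤ y := one_le_pow₀ (by norm_num)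
  have e9 : (2 : ℝ) ^ (9 * (L / 10)) = y ^ 9 := by rw [hy, ← pow_mul, mul_comm]
  have e5 : (2 : ℝ) ^ (5 * (L / 10) + 5) = 32 * y ^ 5 := by
    rw [pow_add, hy, ← pow_mul, mul_comm 5 (L / 10)]
    norm_num
    ring
  rw [e9, e5]
  have hL40 : (0 : ℝ) ≤ (L : ℝ) ^ 4 := by positivity
  have hz0 : (0 : ℝ) < (2 : ℝ) ^ (L / 100) := by positivity
  constructor
  · calc 1000 * (L : ℝ) ^ 4 * 2 ^ (L / 100) ≤ 1000 * x ^ 4 * (512 * x ^ 10) :=
          mul_le_mul (mul_le_mul_of_nonneg_left hL4 (by norm_num)) hz hz0.le (by positivity)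
      _ = 512000 * x ^ 14 := by ring
      _ ≤ x * x ^ 14 := mul_le_mul_of_nonneg_right (by linarith) (by positivity)
      _ = x ^ 15 := by ring
      _ ≤ x ^ 100 := pow_le_pow_right₀ hx1 (by norm_num)
      _ ≤ y := hxy
      _ = y ^ 1 := by rw [pow_one]
      _ ≤ y ^ 9 := pow_le_pow_right₀ hy1 (by norm_num)
  · calc 10000 * (L : ℝ) ^ 4 * 2 ^ (L / 100) * 2 ^ (L / 100) * (32 * y ^ 5)
        ≤ 10000 * x ^ 4 * (512 * x ^ 10) * (512 * x ^ 10) * (32 * y ^ 5) := by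
          refine mul_le_mul_of_nonneg_right ?_ (by positivity)
          refine mul_le_mul ?_ hz hz0.le (by positivity)
          exact mul_le_mul (mul_le_mul_of_nonneg_left hL4 (by norm_num)) hz hz0.le (by positivity)
      _ = 83886080000 * x ^ 24 * y ^ 5 := by ring
      _ ≤ x * x ^ 24 * y ^ 5 := by
          refine mul_le_mul_of_nonneg_right ?_ (by positivity)
          refine mul_le_mul_of_nonneg_right ?_ (by positivity)
          refine le_trans ?_ hxbig'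
          norm_num
      _ = x ^ 25 * y ^ 5 := by ring
      _ ≤ x ^ 100 * y ^ 5 := by
          refine mul_le_mul_of_nonneg_right ?_ (by positivity)
          exact pow_le_pow_right₀ hx1 (by norm_num)
      _ ≤ y * y ^ 5 := mul_le_mul_of_nonneg_right hxy (by positivity)
      _ = y ^ 6 := by ring
      _ ≤ y ^ 9 := pow_le_pow_right₀ hy1 (by norm_num)

end Pool.Agent.AV
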