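import Pool.Agent.AV.H1f
import Pool.Agent.AV.Sz
import Pool.Agent.VOID.Off

/-! AV/Sd.  The standing assumptions of the engine for given data. -/

set_option autoImplicit false

open Finset Pool.Agent.RS Pool.Agent.AT Pool.Agent.VOID

namespace Pool.Agent.AV

/-- all the data -/
structure SD (CV0 CV : ℝ) (G r P L M H : ℕ) (R : Finset ℕ) (g s m1 d N : ℕ) : Prop where
  pb : PB CV G r L g s m1 d N
  CV0pos : 0 < CV0
  CVle : CV0 ≤ CV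
  h4 : 16 * (RR G r : ℝ) * (((2 : ℝ) ^ (G + 1)) ^ (2 * r))⁻¹ *
      Real.exp (16 * 2 ^ (G + 1) * 8) ≤ Real.log 2
  hG2 : 6400 * ((1000 : ℕ) : ℝ) * Real.exp 9 * CV / Real.log 2 ≤ G
  hG3 : 8 * Real.exp 9 / Real.log 2 ≤ G
  hL : L = Nat.log 2 P
  hM0 : 0 < M
  hM : ∀ q : ℕ, q.Prime → L ^ 6 < q → Nat.Coprime M q
  hMP : (M : ℝ) ≤ (P : ℝ) ^ (1 / 1000 : ℝ)
  hH : H ≤ L ^ 2
  hR : R ⊆ range H
  hkL : R.card ≤ L
  hkV : (R.card : ℝ) * Piy L m1 1 ≤ CV0 * (L / m1)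

/-- the product over the large primes is nonnegative -/
private theorem sd_prod0 {L m1 : ℕ} : 0 ≤ ∏ i : Iy L m1, (1 + 1 / ((py L m1 i : ℝ) - 1)) := by
  apply prod_nonneg
  intro i _
  have h := (py_mem i).1.one_lt
  have h1 : (1 : ℝ) < (py L m1 i : ℝ) := by exact_mod_cast h
  have h2 : (0 : ℝ) < (py L m1 i : ℝ) - 1 := by linarith
  have h3 := div_pos one_pos h2
  linarith

/-- the common estimate -/
private theorem sd_main {CV : ℝ} {G r L g s m1 d N : ℕ} (pb : PB CV G r L g s m1 d N) {x : ℝ}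
    (hx0 : 0 ≤ x) (hx : x ≤ 4 * ((L : ℝ) + 4)) {e : ℕ} (he : e ≤ 16 * RR G r) :
    x ^ e * ∏ i : Iy L m1, (1 + 1 / ((py L m1 i : ℝ) - 1)) ≤ ((2 : ℝ) ^ m1) ^ (1 / 8 : ℝ) := by
  have hL0 : (0 : ℝ) ≤ (L : ℝ) := Nat.cast_nonneg L
  have h1 : x ^ e ≤ (4 * ((L : ℝ) + 4)) ^ (16 * RR G r) :=
    (pow_le_pow_left₀ hx0 hx e).trans (pow_le_pow_right₀ (by linarith) he)
  have h2 : ∏ i : Iy L m1, (1 + 1 / ((py L m1 i : ℝ) - 1)) ≤ E2 G r :=
    py_prod pb.pl.m_pos pb.pl.L_le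
  have h3 : (0 : ℝ) ≤ (4 * ((L : ℝ) + 4)) ^ (16 * RR G r) := pow_nonneg (by linarith) _
  exact (mul_le_mul h1 h2 sd_prod0 h3).trans pb.off2

private theorem sd_rp {z l A : ℝ} (hl : 0 < l) (hz1 : 1 ≤ z) (h6 : l ^ 6 ≤ z)
    (hA : A ≤ z ^ (1 / 8 : ℝ)) : A / z ≤ 1 / l ^ 5 := by
  have hz0 : (0 : ℝ) < z := lt_of_lt_of_le one_pos hz1
  have h5 : l ^ 5 ≤ z ^ (7 / 8 : ℝ) := by
    have e1 : l ^ 5 = (l ^ 6) ^ (5 / 6 : ℝ) := by
      rw [← Real.rpow_natCast l 6, ← Real.rpow_mul hl.le, ← Real.rpow_natCast l 5]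
      norm_num
    rw [e1]
    exact (Real.rpow_le_rpow (pow_nonneg hl.le 6) h6 (by norm_num)).trans
      (Real.rpow_le_rpow_of_exponent_le hz1 (by norm_num))
  have e2 : z ^ (1 / 8 : ℝ) * z ^ (7 / 8 : ℝ) = z := by
    rw [← Real.rpow_add hz0]
    norm_num
  rw [div_le_div_iff₀ hz0 (pow_pos hl 5), one_mul]
  calc A * l ^ 5 ≤ z ^ (1 / 8 : ℝ) * z ^ (7 / 8 : ℝ) :=
        mul_le_mul hA h5 (pow_nonneg hl.le 5) (Real.rpow_nonneg hz0.le _)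
    _ = z := e2

/-- the `offB` terms: `(k+1)^(2N) ∏ /2^m1 ≤ (4 (L+4))^(16 RR) E2 / 2^m1 ≤ (2^m1)^(-7/8) ≤ L^(-5)` (`pb.off2`,
`py_prod`, `pl.L6`) -/
theorem offB_le {CV : ℝ} {G r L g s m1 d N : ℕ} (pb : PB CV G r L g s m1 d N) (κ : Type)
    [Fintype κ] (hκ : Fintype.card κ ≤ L + 2) {N' : ℕ} (hN : N' ≤ RR G r) :
    offB κ (py L m1) N' ((2 : ℝ) ^ m1) ≤ 1 / (L : ℝ) ^ 5 := by
  have hk : (Fintype.card κ : ℝ) ≤ (L : ℝ) + 2 := by exact_mod_cast hκ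
  have hk0 : (0 : ℝ) ≤ (Fintype.card κ : ℝ) := Nat.cast_nonneg _
  have hL0 : (0 : ℝ) < (L : ℝ) := by
    have h := pb.big
    exact_mod_cast (lt_of_lt_of_le (by norm_num) h : 0 < L)
  have h1 := sd_main pb (x := (Fintype.card κ : ℝ) + 1) (e := 2 * N') (by linarith)
    (by linarith) (by omega)
  have h6 : (L : ℝ) ^ 6 ≤ (2 : ℝ) ^ m1 := by exact_mod_cast pb.pl.L6
  unfold offB
  exact sd_rp hL0 (one_le_pow₀ one_le_two) h6 h1

/-- `offA κ p N ≤ z^(1/4)` -/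
theorem offA_le {CV : ℝ} {G r L g s m1 d N : ℕ} (pb : PB CV G r L g s m1 d N) (κ : Type)
    [Fintype κ] (hκ : Fintype.card κ ≤ L + 2) {N' : ℕ} (hN : N' ≤ RR G r) :
    offA κ (py L m1) N' ≤ ((2 : ℝ) ^ m1) ^ (1 / 4 : ℝ) := by
  have hk : (Fintype.card κ : ℝ) ≤ (L : ℝ) + 2 := by exact_mod_cast hκ
  have hk0 : (0 : ℝ) ≤ (Fintype.card κ : ℝ) := Nat.cast_nonneg _
  have h1 := sd_main pb (x := 4 * ((Fintype.card κ : ℝ) + 1)) (e := 4 * N') (by linarith)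
    (by linarith) (by omega)
  unfold offA
  exact h1.trans (Real.rpow_le_rpow_of_exponent_le (one_le_pow₀ (by norm_num)) (by norm_num))

open Classical in
/-- the number of assignments: `count_le`, `py_sq` -/
theorem cnt_y {L m1 : ℕ} (hL : 4 ≤ L) (κ : Type) [Fintype κ] [DecidableEq κ]
    (hκ : Fintype.card κ ≤ L + 2) {D : ℝ} (hD : 0 ≤ D) :
    (((univ : Finset (Iy L m1 → Option κ)).filter
      (fun σ => PP (py L m1) (supp σ) ≤ D)).card : ℝ) ≤ 2 * D ^ 2 := by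
  have hk : (Fintype.card κ : ℝ) ≤ 2 * (L : ℝ) := by
    have h : Fintype.card κ ≤ 2 * L := by omega
    exact_mod_cast h
  exact count_le (fun i => (py_mem i).1.two_le) (py_sq hL (Nat.cast_nonneg _) hk) hD

/-- the elements `ax R` are in `(-L^2, L^2)` and different -/
theorem ax_ok {L H : ℕ} {R : Finset ℕ} (hH : H ≤ L ^ 2) (hR : R ⊆ range H) :
    (∀ j, |ax R j| < L ^ 2) ∧ Function.Injective (ax R) := by
  refine ⟨?_, ?_⟩
  · intro j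
    have h1 : (j : ℕ) < H := mem_range.1 (hR j.2)
    have h2 : (j : ℕ) < L ^ 2 := lt_of_lt_of_le h1 hH
    unfold ax
    rw [abs_neg, Nat.abs_cast]
    exact_mod_cast h2
  · intro j j' h
    unfold ax at h
    apply Subtype.ext
    have h1 := neg_injective h
    exact_mod_cast h1

/-- the weights of the abstract theorems with the concrete data: `pb.w1`, `N ≤ RR`, `RR ≤ L/100` -/
theorem w_le {CV : ℝ} {G r L g s m1 d N : ℕ} (pb : PB CV G r L g s m1 d N) :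
    (2 * ((2 : ℝ) ^ d) ^ 2 * (3 * 2 ^ (m1 * (4 * r + 4))) ^ N) ^ 2 ≤ 2 ^ (L / 100) :=
  (le_mul_of_one_le_right (by positivity) (one_le_pow₀ (by norm_num))).trans pb.w1

end Pool.Agent.AV
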