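import Pool.Agent.AT.Sel
import Pool.Agent.VOID.Rough

/-! AV/SelV.  Selberg's trick for one more element, with weights `W` on the old assignment (variation of
`add_one` in AT/Sel, which is proved: copy its proof).
PLAN.  `Y' σ' = if PP p S ≤ D1 then Y (rs σ') / GS p D1 (supp (rs σ')) else 0`, `S = cell σ' none` = the set of the
`i` with `σ' i = some none` (the new element is `none : Option κ`), `rs σ'` = the old assignment.
For fixed `rs σ' = σ` the sum over `S` disjoint from `supp σ` of `1/PH S` is `GS p D1 (supp σ)`.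
Identity: for `n` with no `p i ∣ n - a1` and `ψ (n - a1) = 1` the factor of `S` in `EE` is `1/PH S` and the
additional factor of `Ps` is `1` (`Tc σ'` = the image of `Tc (rs σ')` under `some`, plus `none` if `S ≠ ∅`). -/

set_option autoImplicit false

open Finset Pool.Agent.RS Pool.Agent.AT Pool.Agent.VOID

namespace Pool.Agent.AV

variable {ι κ : Type} [Fintype ι] [DecidableEq ι] [DecidableEq κ] [Fintype κ]

/-- restriction to the old elements -/
def rs (σ : ι → Option (Option κ)) : ι → Option κ := fun i => (σ i).join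

private def selUp (σ : ι → Option κ) : ι → Option (Option κ) := fun i => (σ i).map some

omit [Fintype ι] [DecidableEq ι] [DecidableEq κ] [Fintype κ] in
private theorem rs_up (σ : ι → Option κ) : rs (selUp σ) = σ := by
  funext i
  unfold rs selUp
  cases σ i <;> rfl

private theorem selSupp_up (σ : ι → Option κ) : supp (selUp σ) = supp σ := by
  ext i
  rw [mem_supp, mem_supp]
  unfold selUp
  cases σ i <;> simp

private theorem selCell_up (σ : ι → Option κ) : cell (selUp σ) none = ∅ := by
  ext i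
  rw [mem_cell]
  unfold selUp
  cases σ i <;> simp

private theorem selCell_up' (σ : ι → Option κ) (j : κ) : cell (selUp σ) (some j) = cell σ j := by
  ext i
  rw [mem_cell, mem_cell]
  unfold selUp
  cases σ i <;> simp

private theorem selUp_rs (σ : ι → Option (Option κ)) (h : cell σ none = ∅) :
    selUp (rs σ) = σ := by
  funext i
  have hi : ¬ σ i = some none := by
    intro hi
    have := mem_cell.2 hi
    rw [h] at this
    exact absurd this (notMem_empty i)
  unfold selUp rs
  rcases hσ : σ i with _ | _ | j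
  · rfl
  · exact absurd hσ hi
  · rfl

private theorem rs_era (σ : ι → Option (Option κ)) : rs (era σ none) = rs σ := by
  funext i
  unfold rs era
  by_cases h : σ i = some none
  · rw [if_pos h, h]
    rfl
  · rw [if_neg h]

private theorem selEE_up (p : ι → ℕ) (a : κ → ℤ) (a1 n : ℤ) (σ : ι → Option κ) :
    EE p (fun o : Option κ => o.elim a1 a) (selUp σ) n = EE p a σ n := by
  unfold EE
  refine prod_congr rfl fun i _ => ?_
  unfold selUp
  cases σ i <;> rfl

private theorem selTc_up (σ : ι → Option κ) :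
    Tc (selUp σ) = (Tc σ).map Function.Embedding.some := by
  ext o
  unfold Tc
  rw [mem_filter, mem_map]
  constructor
  · rintro ⟨_, h⟩
    cases o with
    | none => exact absurd (selCell_up σ) h
    | some j =>
      rw [selCell_up'] at h
      exact ⟨j, mem_filter.2 ⟨mem_univ _, h⟩, rfl⟩
  · rintro ⟨j, hj, rfl⟩
    refine ⟨mem_univ _, ?_⟩
    show cell (selUp σ) (some j) ≠ ∅
    rw [selCell_up']
    exact (mem_filter.1 hj).2

private theorem selPs_up (ψ : ℤ → ℝ) (a : κ → ℤ) (a1 n : ℤ) (σ : ι → Option κ) :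
    Ps ψ (fun o : Option κ => o.elim a1 a) (selUp σ) n = Ps ψ a σ n := by
  unfold Ps
  rw [selTc_up, prod_map]
  rfl

private theorem sel_Ps (ψ : ℤ → ℝ) (a : κ → ℤ) (m : κ) (n : ℤ) (hψ : ψ (n - a m) = 1)
    (σ : ι → Option κ) : Ps ψ a σ n = Ps ψ a (era σ m) n := by
  classical
  unfold Ps
  have h1 : Tc (era σ m) = (Tc σ).erase m := by
    ext j
    unfold Tc
    rw [mem_erase, mem_filter, mem_filter]
    by_cases hj : j = m
    · subst hj
      rw [cell_era_self]
      simp
    · rw [cell_era_of_ne σ hj]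
      simp [hj]
  rw [h1]
  by_cases hm : m ∈ Tc σ
  · rw [← mul_prod_erase _ _ hm, hψ, one_mul]
  · rw [erase_eq_of_notMem hm]

private theorem sel_sum (Φ : (ι → Option (Option κ)) → Finset ι → ℝ) :
    ∑ σ, Φ (era σ none) (cell σ none) =
      ∑ σ : ι → Option κ, ∑ S ∈ (univ \ supp σ).powerset, Φ (selUp σ) S := by
  classical
  refine (decomp (κ := Option κ) none Φ).trans ?_
  refine Finset.sum_nbij' rs selUp ?_ ?_ ?_ ?_ ?_
  · intro σ _
    exact mem_univ _
  · intro σ _
    exact mem_filter.2 ⟨mem_univ _, selCell_up σ⟩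
  · intro σ hσ
    exact selUp_rs σ (mem_filter.1 hσ).2
  · intro σ _
    exact rs_up σ
  · intro σ hσ
    have h1 := selUp_rs σ (mem_filter.1 hσ).2
    have h2 : supp (rs σ) = supp σ := by rw [← selSupp_up, h1]
    rw [h1, h2]

private theorem selGS_ite (p : ι → ℕ) (D1 : ℝ) (U : Finset ι) (c : ℝ) :
    (open Classical in ∑ S ∈ (univ \ U).powerset, if PP p S ≤ D1 then c * (1 / PH p S) else 0) =
      c * GS p D1 U := by
  classical
  unfold GS
  rw [Finset.mul_sum, Finset.sum_filter]

private theorem selGS_one {p : ι → ℕ} (hp : ∀ i, 2 ≤ p i) {D1 : ℝ} (hD1 : 1 ≤ D1)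
    (U : Finset ι) : 1 ≤ GS p D1 U := by
  classical
  unfold GS
  have h1 : 1 / PH p (∅ : Finset ι) = (1 : ℝ) := by rw [PH_empty, div_one]
  refine h1.symm.le.trans ?_
  refine Finset.single_le_sum (f := fun S => 1 / PH p S) ?_ ?_
  · intro S _
    exact div_nonneg zero_le_one (zero_le_one.trans (one_le_PH hp S))
  · rw [mem_filter, PP_empty]
    exact ⟨Finset.empty_mem_powerset _, hD1⟩

theorem sel_v {p : ι → ℕ} (hp : ∀ i, 2 ≤ p i) (a : κ → ℤ) (a1 : ℤ) {D D1 Gm : ℝ}
    (hD : 1 ≤ D) (hD1 : 1 ≤ D1) (hGm : 1 ≤ Gm) (hG : ∀ U, PP p U ≤ D → Gm ≤ GS p D1 U)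
    (Y : (ι → Option κ) → ℝ) (hY1 : ∀ σ, |Y σ| ≤ 1) (hYs : ∀ σ, Y σ ≠ 0 → PP p (supp σ) ≤ D) :
    ∃ Y' : (ι → Option (Option κ)) → ℝ, (∀ σ, |Y' σ| ≤ 1) ∧
      (∀ σ, Y' σ ≠ 0 → PP p (supp σ) ≤ D * D1 ∧ Y (rs σ) ≠ 0) ∧
      (∀ W : (ι → Option κ) → ℝ, (∀ σ, 0 ≤ W σ) →
        ∑ σ, Y' σ ^ 2 / PH p (supp σ) * W (rs σ) ≤
          (∑ σ, Y σ ^ 2 / PH p (supp σ) * W σ) / Gm) ∧
      ∀ (ψ : ℤ → ℝ) (n : ℤ), (∀ i, ¬ (p i : ℤ) ∣ n - a1) → ψ (n - a1) = 1 →
        GZ p (fun o : Option κ => o.elim a1 a) ψ Y' n = GZ p a ψ Y n := by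
  classical
  have hPH : ∀ S : Finset ι, 0 < PH p S := fun S => lt_of_lt_of_le one_pos (one_le_PH hp S)
  have hGS : ∀ U, 1 ≤ GS p D1 U := selGS_one hp hD1
  have hGS0 : ∀ U, 0 < GS p D1 U := fun U => lt_of_lt_of_le one_pos (hGS U)
  let F0 : (ι → Option (Option κ)) → Finset ι → ℝ := fun τ S =>
    if PP p S ≤ D1 then Y (rs τ) / GS p D1 (supp τ) else 0
  have hF0 : ∀ τ S, F0 τ S = if PP p S ≤ D1 then Y (rs τ) / GS p D1 (supp τ) else 0 :=
    fun _ _ => rfl
  refine ⟨fun σ => F0 (era σ none) (cell σ none), ?_, ?_, ?_, ?_⟩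
  · intro σ
    simp only
    rw [hF0]
    split_ifs
    · rw [abs_div, abs_of_pos (hGS0 _), div_le_one (hGS0 _)]
      exact (hY1 _).trans (hGS _)
    · rw [abs_zero]
      exact zero_le_one
  · intro σ h
    simp only at h
    rw [hF0] at h
    by_cases h1 : PP p (cell σ none) ≤ D1
    · rw [if_pos h1] at h
      have h2 : Y (rs (era σ none)) ≠ 0 := by
        intro h3
        rw [h3, zero_div] at h
        exact h rfl
      have h3 := hYs _ h2
      have h4 : supp (rs (era σ none)) = supp (era σ none) := by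
        rw [← selSupp_up, selUp_rs _ (cell_era_self σ none)]
      rw [h4] at h3
      refine ⟨?_, ?_⟩
      · rw [PP_supp_split p σ none, mul_comm]
        exact mul_le_mul h3 h1 (zero_le_one.trans (one_le_PP hp _)) (zero_le_one.trans hD)
      · rw [rs_era] at h2
        exact h2
    · rw [if_neg h1] at h
      exact absurd rfl h
  · intro W hW
    have h1 : ∑ σ : ι → Option (Option κ),
        F0 (era σ none) (cell σ none) ^ 2 / PH p (supp σ) * W (rs σ) =
        ∑ σ : ι → Option κ, ∑ S ∈ (univ \ supp σ).powerset,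
          (fun τ S => F0 τ S ^ 2 / (PH p S * PH p (supp τ)) * W (rs τ)) (selUp σ) S := by
      rw [← sel_sum (fun τ S => F0 τ S ^ 2 / (PH p S * PH p (supp τ)) * W (rs τ))]
      refine Finset.sum_congr rfl fun σ _ => ?_
      rw [PH_supp_split p σ none]
      rw [rs_era]
    rw [h1, Finset.sum_div]
    refine Finset.sum_le_sum fun σ _ => ?_
    have h2 : ∀ S ∈ (univ \ supp σ).powerset,
        (fun τ S => F0 τ S ^ 2 / (PH p S * PH p (supp τ)) * W (rs τ)) (selUp σ) S =
        if PP p S ≤ D1 then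
          Y σ ^ 2 / GS p D1 (supp σ) ^ 2 / PH p (supp σ) * W σ * (1 / PH p S) else 0 := by
      intro S _
      simp only
      rw [hF0, rs_up, selSupp_up]
      split_ifs
      · have := (hPH S).ne'
        have := (hPH (supp σ)).ne'
        have := (hGS0 (supp σ)).ne'
        field_simp
      · rw [zero_pow two_ne_zero, zero_div, zero_mul]
    rw [Finset.sum_congr rfl h2, selGS_ite]
    have h3 : Y σ ^ 2 / GS p D1 (supp σ) ^ 2 / PH p (supp σ) * W σ * GS p D1 (supp σ) =
        Y σ ^ 2 / PH p (supp σ) * W σ / GS p D1 (supp σ) := by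
      have := (hPH (supp σ)).ne'
      have := (hGS0 (supp σ)).ne'
      field_simp
    rw [h3]
    by_cases h4 : Y σ = 0
    · rw [h4]
      simp
    · exact div_le_div_of_nonneg_left (mul_nonneg (div_nonneg (sq_nonneg _) (hPH _).le) (hW σ))
        (zero_lt_one.trans_le hGm) (hG _ (hYs σ h4))
  · intro ψ n hn hψ
    have hee : ∀ S : Finset ι, ∏ i ∈ S, ee (p i) (n - a1) = 1 / PH p S := by
      intro S
      have h1 : ∀ i ∈ S, ee (p i) (n - a1) = 1 / ((p i : ℝ) - 1) := by
        intro i _
        unfold ee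
        rw [if_neg (hn i)]
      rw [Finset.prod_congr rfl h1, PH, Finset.prod_div_distrib]
      simp
    unfold GZ
    have h1 : ∑ σ : ι → Option (Option κ),
        F0 (era σ none) (cell σ none) *
          (Ps ψ (fun o : Option κ => o.elim a1 a) σ n *
            EE p (fun o : Option κ => o.elim a1 a) σ n) =
        ∑ σ : ι → Option κ, ∑ S ∈ (univ \ supp σ).powerset,
          (fun τ S => F0 τ S * (1 / PH p S * (Ps ψ (fun o : Option κ => o.elim a1 a) τ n *
            EE p (fun o : Option κ => o.elim a1 a) τ n))) (selUp σ) S := by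
      rw [← sel_sum (fun τ S => F0 τ S * (1 / PH p S *
        (Ps ψ (fun o : Option κ => o.elim a1 a) τ n *
          EE p (fun o : Option κ => o.elim a1 a) τ n)))]
      refine Finset.sum_congr rfl fun σ _ => ?_
      rw [EE_split p _ σ none, sel_Ps ψ (fun o : Option κ => o.elim a1 a) none n hψ σ]
      simp only [Option.elim_none]
      rw [hee]
      ring
    rw [h1]
    refine Finset.sum_congr rfl fun σ _ => ?_
    have h2 : ∀ S ∈ (univ \ supp σ).powerset,
        (fun τ S => F0 τ S * (1 / PH p S * (Ps ψ (fun o : Option κ => o.elim a1 a) τ n *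
            EE p (fun o : Option κ => o.elim a1 a) τ n))) (selUp σ) S =
        if PP p S ≤ D1 then Y σ / GS p D1 (supp σ) * (Ps ψ a σ n * EE p a σ n) *
          (1 / PH p S) else 0 := by
      intro S _
      simp only
      rw [hF0, rs_up, selSupp_up, selEE_up, selPs_up]
      split_ifs
      · ring
      · rw [zero_mul]
    rw [Finset.sum_congr rfl h2, selGS_ite]
    have := (hGS0 (supp σ)).ne'
    field_simp

end Pool.Agent.AV
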