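import Pool.Agent.AV.LowA

/-! AV/SumF.  Families over a disjoint union of two index types.
PLAN: `Finset` calculus on `ι1 ⊕ ι` (`Fintype.prod_sum_type`, `Equiv.sumPiEquivProdPi`): the support of `χ` is the
disjoint union of the supports of the two parts. -/

set_option autoImplicit false

open Finset Pool.Agent.RS Pool.Agent.AT Pool.Agent.VOID

namespace Pool.Agent.AV

variable {ι1 ι : Type} [Fintype ι1] [DecidableEq ι1] [Fintype ι] [DecidableEq ι]

/-- left part of a family -/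
def lft {q : ι1 → ℕ} {p : ι → ℕ} (χ : Fam (Sum.elim q p)) : Fam q := fun i => χ (Sum.inl i)

/-- right part of a family -/
def rgt {q : ι1 → ℕ} {p : ι → ℕ} (χ : Fam (Sum.elim q p)) : Fam p := fun i => χ (Sum.inr i)

/-- a family from its two parts -/
def jn {q : ι1 → ℕ} {p : ι → ℕ} (χ1 : Fam q) (χ2 : Fam p) : Fam (Sum.elim q p)
  | Sum.inl i => χ1 i
  | Sum.inr i => χ2 i

omit [DecidableEq ι] in
private theorem fch_ite {p : ι → ℕ} (χ : Fam p) (m : ℕ) :
    fch χ m = ∏ i, open Classical in if χ i ≠ 1 then χ i (m : ZMod (p i)) else 1 := by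
  unfold fch fsupp
  rw [prod_filter]

omit [DecidableEq ι] in
private theorem fcd_ite {p : ι → ℕ} (χ : Fam p) :
    fcd χ = ∏ i, open Classical in if χ i ≠ 1 then p i else 1 := by
  unfold fcd fsupp
  rw [prod_filter]

private theorem fch_one {p : ι → ℕ} (χ : Fam p) (h : ∀ i, χ i = 1) (m : ℕ) : fch χ m = 1 := by
  rw [fch_ite]
  refine prod_eq_one fun i _ => ?_
  rw [if_neg (not_not.2 (h i))]

private theorem fcd_one {p : ι → ℕ} (χ : Fam p) (h : ∀ i, χ i = 1) : fcd χ = 1 := by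
  rw [fcd_ite]
  refine prod_eq_one fun i _ => ?_
  rw [if_neg (not_not.2 (h i))]

theorem fch_sum {q : ι1 → ℕ} {p : ι → ℕ} (χ : Fam (Sum.elim q p)) (m : ℕ) :
    fch χ m = fch (lft χ) m * fch (rgt χ) m := by
  rw [fch_ite, fch_ite, fch_ite, Fintype.prod_sum_type]
  rfl

theorem fcd_sum {q : ι1 → ℕ} {p : ι → ℕ} (χ : Fam (Sum.elim q p)) :
    fcd χ = fcd (lft χ) * fcd (rgt χ) := by
  rw [fcd_ite, fcd_ite, fcd_ite, Fintype.prod_sum_type]
  rfl

/-- families of the union = pairs of families -/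
private def famEquiv (q : ι1 → ℕ) (p : ι → ℕ) : Fam q × Fam p ≃ Fam (Sum.elim q p) where
  toFun x := jn x.1 x.2
  invFun χ := (lft χ, rgt χ)
  left_inv _ := rfl
  right_inv χ := by
    funext i
    rcases i with i | i <;> rfl

/-- a sum over the families of the union -/
theorem sum_fam {q : ι1 → ℕ} {p : ι → ℕ} (f : Fam (Sum.elim q p) → ℂ) :
    ∑ χ, f χ = ∑ χ1 : Fam q, ∑ χ2 : Fam p, f (jn χ1 χ2) := by
  rw [← Equiv.sum_comp (famEquiv q p) f, Fintype.sum_prod_type]
  rfl

/-- `LowE` for the left primes gives `LowE` for the union -/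
theorem low_inl {q : ι1 → ℕ} {p : ι → ℕ} (hp : ∀ i, (p i).Prime) {a0 : ℤ} {D : ℝ} {F : ℤ → ℝ}
    (h : LowE q a0 D F) : LowE (Sum.elim q p) a0 D F := by
  classical
  obtain ⟨c, hc1, hc2⟩ := h
  refine ⟨fun χ => if rgt χ = (fun _ => 1) then c (lft χ) else 0, ?_, ?_⟩
  · intro χ hχ
    show (if rgt χ = (fun _ => 1) then c (lft χ) else 0) = 0
    split_ifs with h1
    · apply hc1
      rw [fcd_sum, fcd_one (rgt χ) (fun i => by rw [h1]), mul_one] at hχ
      exact hχ
    · rfl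
  · intro m hm
    rw [hc2 m (fun i => hm (Sum.inl i)), sum_fam]
    refine sum_congr rfl fun χ1 _ => ?_
    rw [sum_eq_single (fun _ => 1 : Fam p)]
    · rw [fch_sum]
      show c χ1 * fch χ1 m = (if (fun _ => 1 : Fam p) = (fun _ => 1) then c χ1 else 0) *
        (fch χ1 m * fch (fun _ => 1 : Fam p) m)
      rw [if_pos rfl, fch_one (fun _ => 1 : Fam p) (fun _ => rfl), mul_one]
    · intro χ2 _ h2
      show (if χ2 = (fun _ => 1) then c χ1 else 0) * fch (jn χ1 χ2) m = 0
      rw [if_neg h2, zero_mul]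
    · intro h2
      exact absurd (mem_univ _) h2

theorem low_inr {q : ι1 → ℕ} {p : ι → ℕ} (hq : ∀ i, (q i).Prime) {a0 : ℤ} {D : ℝ} {F : ℤ → ℝ}
    (h : LowE p a0 D F) : LowE (Sum.elim q p) a0 D F := by
  classical
  obtain ⟨c, hc1, hc2⟩ := h
  refine ⟨fun χ => if lft χ = (fun _ => 1) then c (rgt χ) else 0, ?_, ?_⟩
  · intro χ hχ
    show (if lft χ = (fun _ => 1) then c (rgt χ) else 0) = 0
    split_ifs with h1
    · apply hc1
      rw [fcd_sum, fcd_one (lft χ) (fun i => by rw [h1]), one_mul] at hχ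
      exact hχ
    · rfl
  · intro m hm
    rw [hc2 m (fun i => hm (Sum.inr i)), sum_fam, sum_comm]
    refine sum_congr rfl fun χ2 _ => ?_
    rw [sum_eq_single (fun _ => 1 : Fam q)]
    · rw [fch_sum]
      show c χ2 * fch χ2 m = (if (fun _ => 1 : Fam q) = (fun _ => 1) then c χ2 else 0) *
        (fch (fun _ => 1 : Fam q) m * fch χ2 m)
      rw [if_pos rfl, fch_one (fun _ => 1 : Fam q) (fun _ => rfl), one_mul]
    · intro χ1 _ h2
      show (if χ1 = (fun _ => 1) then c χ2 else 0) * fch (jn χ1 χ2) m = 0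
      rw [if_neg h2, zero_mul]
    · intro h2
      exact absurd (mem_univ _) h2

end Pool.Agent.AV
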