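import Pool.Agent.AV.WB

/-! AV/TW0.  Few bad classes, total mass, large values.  Compare `few_bad`, `T0` in AT/As0 (proved). -/

set_option autoImplicit false

open Finset Pool.Agent.RS Pool.Agent.AT Pool.Agent.VOID

namespace Pool.Agent.AV

/-- Few bad classes (Markov). -/
theorem few_badV : ∃ C : ℝ, 0 < C ∧ ∃ L0 : ℕ, ∀ L : ℕ, L0 ≤ L → ∀ Λ0 Λ : ℝ, 0 < Λ0 → 0 < Λ →
    ∀ (K H E : ℕ) (u : Fin K → ℕ), (H : ℝ) ≤ Λ0 * L →
    (((range (Mw L)).filter (fun b => b ∉ GdV Λ L (Mw L) H u E)).card : ℝ) ≤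
      C * (Λ0 / Λ) * (Mw L : ℝ) := by
  obtain ⟨C1, hC1, L1, h1⟩ := Mw_totient
  refine ⟨C1, hC1, max L1 2, fun L hL Λ0 Λ hΛ0 hΛ K H E u hH => ?_⟩
  have hL1 : L1 ≤ L := le_trans (le_max_left _ _) hL
  have hL2 : 2 ≤ L := le_trans (le_max_right _ _) hL
  have hLr : (0 : ℝ) < L := by exact_mod_cast (by omega : 0 < L)
  have hlog : (0 : ℝ) < (Nat.log 2 L : ℝ) := by
    have : 1 ≤ Nat.log 2 L := Nat.log_pos (by norm_num) hL2
    exact_mod_cast this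
  have hphi := h1 L hL1
  have hM0 : (0 : ℝ) ≤ (Mw L : ℝ) := Nat.cast_nonneg _
  set D := (range (Mw L)).filter (fun b => b ∉ GdV Λ L (Mw L) H u E) with hD
  have hbad : ∀ b ∈ D, Λ * L ≤ ((Jv (Mw L) b H).card : ℝ) * (Nat.log 2 L : ℝ) := by
    intro b hb
    obtain ⟨hb1, hb2⟩ := mem_filter.1 hb
    have h3 : ¬ (((Rv (Mw L) b H u E).card : ℝ) * (Nat.log 2 L : ℝ) ≤ Λ * L) := by
      intro h4
      exact hb2 (mem_filter.2 ⟨hb1, h4⟩)
    have h5 : (Rv (Mw L) b H u E).card ≤ (Jv (Mw L) b H).card :=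
      Finset.card_le_card (Finset.filter_subset _ _)
    have h6 : ((Rv (Mw L) b H u E).card : ℝ) ≤ ((Jv (Mw L) b H).card : ℝ) := by exact_mod_cast h5
    have h7 := mul_le_mul_of_nonneg_right h6 hlog.le
    linarith [not_le.1 h3]
  have h7 : (D.card : ℝ) * (Λ * L) ≤
      (∑ b ∈ range (Mw L), ((Jv (Mw L) b H).card : ℝ)) * (Nat.log 2 L : ℝ) := by
    calc (D.card : ℝ) * (Λ * L) = ∑ _b ∈ D, Λ * (L : ℝ) := by
          rw [Finset.sum_const, nsmul_eq_mul]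
      _ ≤ ∑ b ∈ D, ((Jv (Mw L) b H).card : ℝ) * (Nat.log 2 L : ℝ) := Finset.sum_le_sum hbad
      _ ≤ ∑ b ∈ range (Mw L), ((Jv (Mw L) b H).card : ℝ) * (Nat.log 2 L : ℝ) :=
          Finset.sum_le_sum_of_subset_of_nonneg (Finset.filter_subset _ _)
            (fun _ _ _ => mul_nonneg (Nat.cast_nonneg _) hlog.le)
      _ = (∑ b ∈ range (Mw L), ((Jv (Mw L) b H).card : ℝ)) * (Nat.log 2 L : ℝ) := by
          rw [Finset.sum_mul]
  have h8 : ∑ b ∈ range (Mw L), ((Jv (Mw L) b H).card : ℝ) = (H : ℝ) * (Nat.totient (Mw L) : ℝ) := by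
    have := av1 (Mw L) H
    exact_mod_cast this
  rw [h8] at h7
  have h9 : (H : ℝ) * (Nat.totient (Mw L) : ℝ) * (Nat.log 2 L : ℝ) ≤ Λ0 * L * C1 * (Mw L : ℝ) := by
    have h9a : (H : ℝ) * (Nat.totient (Mw L) : ℝ) ≤
        (Λ0 * L) * (C1 * (Mw L : ℝ) / (Nat.log 2 L : ℝ)) :=
      mul_le_mul hH hphi (Nat.cast_nonneg _) (by positivity)
    calc (H : ℝ) * (Nat.totient (Mw L) : ℝ) * (Nat.log 2 L : ℝ)
        ≤ (Λ0 * L) * (C1 * (Mw L : ℝ) / (Nat.log 2 L : ℝ)) * (Nat.log 2 L : ℝ) :=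
          mul_le_mul_of_nonneg_right h9a hlog.le
      _ = Λ0 * L * C1 * (Mw L : ℝ) := by
          field_simp
  have h10 : (D.card : ℝ) * (Λ * L) ≤ (C1 * (Λ0 / Λ) * (Mw L : ℝ)) * (Λ * L) := by
    refine (h7.trans h9).trans (le_of_eq ?_)
    field_simp
  exact le_of_mul_le_mul_right h10 (by positivity)

/-- for a good class the data are admissible (compare `adm_good` in AT/AsD) -/
theorem admV_good {Λ : ℝ} {P L H E K : ℕ} {u : Fin K → ℕ} (hP : 1 ≤ P) (hL : L = Nat.log 2 P)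
    (hH : H ≤ L ^ 2) {b : ℕ} (hb : b ∈ GdV Λ L (Mw L) H u E) :
    AdmV Λ P L (Mw L) H (Rv (Mw L) b H u E) := by
  obtain ⟨h1, h2, h3, h4⟩ := Mw_facts hP hL
  refine ⟨hL, h1, h4, h2, hH, ?_, ?_⟩
  · intro j hj
    exact (mem_filter.1 (mem_filter.1 hj).1).1
  · exact (mem_filter.1 hb).2

/-- total mass -/
theorem TW0 {C η B Λ : ℝ} {P L H E K : ℕ} {u : Fin K → ℕ} (hP : 1 ≤ P) (hL : L = Nat.log 2 P)
    {w : ℕ → ℕ → ℝ} (hw : WF C η B Λ P L H u E w) :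
    ∑ b ∈ GdV Λ L (Mw L) H u E, ∑ n ∈ Nw P H (Mw L) b, w b n ≤ 10 * P := by
  have hM0 : (0 : ℝ) < (Mw L : ℝ) := by
    have := (Mw_facts hP hL).1
    exact_mod_cast this
  have h4 : ((GdV Λ L (Mw L) H u E).card : ℝ) ≤ (Mw L : ℝ) := by
    have h5 : (GdV Λ L (Mw L) H u E).card ≤ (range (Mw L)).card :=
      Finset.card_le_card (Finset.filter_subset _ _)
    rw [Finset.card_range] at h5
    exact_mod_cast h5
  calc ∑ b ∈ GdV Λ L (Mw L) H u E, ∑ n ∈ Nw P H (Mw L) b, w b n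
      ≤ ∑ _b ∈ GdV Λ L (Mw L) H u E, 10 * ((P : ℝ) / (Mw L : ℝ)) :=
        Finset.sum_le_sum (fun b hb => (hw b hb).w0)
    _ = ((GdV Λ L (Mw L) H u E).card : ℝ) * (10 * ((P : ℝ) / (Mw L : ℝ))) := by
        rw [Finset.sum_const, nsmul_eq_mul]
    _ ≤ (Mw L : ℝ) * (10 * ((P : ℝ) / (Mw L : ℝ))) :=
        mul_le_mul_of_nonneg_right h4 (by positivity)
    _ = 10 * P := by
        field_simp

open Classical in
/-- large values -/
theorem TW4 {C η B Λ : ℝ} (hη : 0 ≤ η) {P L H E K : ℕ} {u : Fin K → ℕ} (hP : 1 ≤ P)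
    (hL : L = Nat.log 2 P) {w : ℕ → ℕ → ℝ} (hw : WF C η B Λ P L H u E w) :
    ∑ b ∈ GdV Λ L (Mw L) H u E, ∑ n ∈ (Nw P H (Mw L) b).filter (fun n => B < w b n), w b n ≤
      η * P := by
  have hM0 : (0 : ℝ) < (Mw L : ℝ) := by
    have := (Mw_facts hP hL).1
    exact_mod_cast this
  have h4 : ((GdV Λ L (Mw L) H u E).card : ℝ) ≤ (Mw L : ℝ) := by
    have h5 : (GdV Λ L (Mw L) H u E).card ≤ (range (Mw L)).card :=
      Finset.card_le_card (Finset.filter_subset _ _)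
    rw [Finset.card_range] at h5
    exact_mod_cast h5
  calc ∑ b ∈ GdV Λ L (Mw L) H u E,
        ∑ n ∈ (Nw P H (Mw L) b).filter (fun n => B < w b n), w b n
      ≤ ∑ _b ∈ GdV Λ L (Mw L) H u E, η * ((P : ℝ) / (Mw L : ℝ)) :=
        Finset.sum_le_sum (fun b hb => (hw b hb).w4)
    _ = ((GdV Λ L (Mw L) H u E).card : ℝ) * (η * ((P : ℝ) / (Mw L : ℝ))) := by
        rw [Finset.sum_const, nsmul_eq_mul]
    _ ≤ (Mw L : ℝ) * (η * ((P : ℝ) / (Mw L : ℝ))) :=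
        mul_le_mul_of_nonneg_right h4 (by positivity)
    _ = η * P := by
        field_simp

end Pool.Agent.AV
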