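import Pool.Agent.AV.TW0
import Pool.Agent.AT.As1

/-! AV/TW1.  LOWER BOUND of the first moment.
PLAN.  Exactly the proof of `T1` in AT/As1 (proved) with `WB.w1` in place of `SE1` (`1/3` instead of `4/5`) and
`few_badV` in place of `few_bad`.  The constant `c2` must not depend on `Λ0`: the bad classes cost
`C (Λ0/Λ) M * K C' (ε L/lam) * C'' (P/M) lam`, and `Λ = Λ0 * (large absolute constant)`. -/

set_option autoImplicit false

open Finset Pool.Agent.RS Pool.Agent.AT Pool.Agent.VOID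

namespace Pool.Agent.AV

private theorem t1_log {P L : ℕ} (hP : 1 ≤ P) (hL : L = Nat.log 2 P) :
    Real.log P ≤ (L : ℝ) + 1 := by
  have h1 : P < 2 ^ (L + 1) := by
    rw [hL]
    exact Nat.lt_pow_succ_log_self (by norm_num) P
  have h2 : (P : ℝ) ≤ 2 ^ (L + 1) := by exact_mod_cast h1.le
  have hP' : (0 : ℝ) < P := by exact_mod_cast hP
  have h3 : Real.log P ≤ Real.log (2 ^ (L + 1)) := Real.log_le_log hP' h2
  rw [Real.log_pow] at h3
  have h4 : Real.log 2 ≤ 1 := by linarith [Real.log_two_lt_d9]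
  have h5 : ((L + 1 : ℕ) : ℝ) * Real.log 2 ≤ ((L + 1 : ℕ) : ℝ) * 1 :=
    mul_le_mul_of_nonneg_left h4 (Nat.cast_nonneg _)
  push_cast at h3 h5
  linarith

variable {K : ℕ}

private theorem t1_cl_card {H E : ℕ} {u : Fin K → ℕ} (h : Cfg H u E) :
    (Cl u E).card = K * E := by
  classical
  unfold Cl
  rw [card_biUnion]
  · simp
  · intro i _ j _ hij
    refine disjoint_left.2 fun x hx hx' => ?_
    rw [mem_Ico] at hx hx'
    rcases lt_or_gt_of_ne hij with h1 | h1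
    · have := h.hdis i j h1
      omega
    · have := h.hdis j i h1
      omega

private theorem t1_cl_sub {H E : ℕ} {u : Fin K → ℕ} (h : Cfg H u E) : Cl u E ⊆ range H := by
  classical
  intro x hx
  unfold Cl at hx
  obtain ⟨i, _, hi⟩ := mem_biUnion.1 hx
  have := h.hin i
  rw [mem_Ico] at hi
  rw [mem_range]
  omega

private theorem t1_J1 {M b H E : ℕ} {u : Fin K → ℕ} (h : Cfg H u E) :
    J1 M b H u E = (Cl u E).filter (fun j => Nat.Coprime (b + j) M) := by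
  classical
  ext j
  unfold J1 Jv
  rw [mem_filter, mem_filter, mem_filter]
  constructor
  · rintro ⟨⟨_, h1⟩, h2⟩
    exact ⟨h2, h1⟩
  · rintro ⟨h1, h2⟩
    exact ⟨⟨t1_cl_sub h h1, h2⟩, h1⟩

private theorem t1_J1_card {M b H E : ℕ} {u : Fin K → ℕ} (h : Cfg H u E) {B : ℝ}
    (hB : ∀ b u : ℕ, (((Ico u (u + E)).filter (fun j => Nat.Coprime (b + j) M)).card : ℝ) ≤ B) :
    ((J1 M b H u E).card : ℝ) ≤ K * B := by
  classical
  rw [t1_J1 h]
  unfold Cl
  rw [filter_biUnion]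
  have h1 : (((univ : Finset (Fin K)).biUnion (fun i => (Ico (u i) (u i + E)).filter
      (fun j => Nat.Coprime (b + j) M))).card : ℝ) ≤
      ∑ i : Fin K, (((Ico (u i) (u i + E)).filter (fun j => Nat.Coprime (b + j) M)).card : ℝ) := by
    exact_mod_cast card_biUnion_le
  refine h1.trans ((sum_le_sum fun i _ => hB b (u i)).trans (le_of_eq ?_))
  rw [sum_const, card_univ, Fintype.card_fin, nsmul_eq_mul]

/-- the sum over one class -/
private theorem t1_class {C η B : ℝ} {P L M H E b : ℕ} {u : Fin K → ℕ} {w : ℕ → ℝ}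
    (hw : WB C η B P L M H (Rv M b H u E) b w) :
    1 / 3 * (∑ j ∈ J1 M b H u E, psi M (b + j) P) - (J1 M b H u E).card * (((P : ℝ) / M) / L) ≤
      2 * Real.log P * ∑ n ∈ Nw P H M b, w n * Nn M H u E b n := by
  classical
  have hsum : ∑ n ∈ Nw P H M b, w n * (Nn M H u E b n : ℝ) =
      ∑ j ∈ J1 M b H u E, ∑ n ∈ (Nw P H M b).filter (fun n => (n + j).Prime), w n := by
    have h1 : ∀ n ∈ Nw P H M b, w n * (Nn M H u E b n : ℝ) =
        ∑ j ∈ J1 M b H u E, if (n + j).Prime then w n else 0 := by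
      intro n _
      unfold Nn
      rw [card_filter, Nat.cast_sum, mul_sum]
      refine sum_congr rfl fun j _ => ?_
      split_ifs <;> simp
    rw [sum_congr rfl h1, sum_comm]
    refine sum_congr rfl fun j _ => ?_
    rw [← sum_filter]
  rw [hsum, mul_sum, mul_sum]
  have h2 : ∑ j ∈ J1 M b H u E, 1 / 3 * psi M (b + j) P -
      (J1 M b H u E).card * (((P : ℝ) / M) / L) =
      ∑ j ∈ J1 M b H u E, (1 / 3 * psi M (b + j) P - ((P : ℝ) / M) / L) := by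
    rw [sum_sub_distrib, sum_const, nsmul_eq_mul]
  rw [h2]
  refine sum_le_sum fun j hj => ?_
  obtain ⟨hjJ, hjC⟩ := mem_filter.1 hj
  obtain ⟨hjH, hjc⟩ := mem_filter.1 hjJ
  exact hw.w1 j (mem_range.1 hjH) (fun h => (mem_filter.1 h).2 hjC) hjc

theorem TW1 (hB : SBT) : ∃ c2 : ℝ, 0 < c2 ∧ ∀ Λ0 : ℝ, 0 < Λ0 → ∃ Λ : ℝ, 0 < Λ ∧
    ∀ (K : ℕ) (ε : ℝ), 0 < ε → ε ≤ 1 / 4000 → ∃ P0 : ℕ, ∀ P : ℕ, P0 ≤ P → ∀ L : ℕ,
    L = Nat.log 2 P → ∀ (H : ℕ) (u : Fin K → ℕ), (H : ℝ) ≤ Λ0 * L → Cfg H u ⌊ε * L⌋₊ →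
    ∀ (C η B : ℝ) (w : ℕ → ℕ → ℝ), WF C η B Λ P L H u ⌊ε * L⌋₊ w →
    c2 * (K * ε) * P ≤ ∑ b ∈ GdV Λ L (Mw L) H u ⌊ε * L⌋₊, ∑ n ∈ Nw P H (Mw L) b,
      w b n * Nn (Mw L) H u ⌊ε * L⌋₊ b n := by
  classical
  obtain ⟨CB, hCB, P2, hB⟩ := hB
  obtain ⟨Cf, hCf, L1, hf⟩ := few_badV
  obtain ⟨Cc, hCc, hc⟩ := cl_card
  obtain ⟨c1, hc1, P3, hth⟩ := theta_int
  have hCCC : 0 < Cf * Cc * CB := mul_pos (mul_pos hCf hCc) hCB
  refine ⟨c1 / 64, by positivity, fun Λ0 hΛ0 => ?_⟩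
  obtain ⟨Λ, hΛdef⟩ : ∃ Λ : ℝ, Λ = Λ0 * (8 * (Cf * Cc * CB) / c1) := ⟨_, rfl⟩
  have hΛ : 0 < Λ := by
    rw [hΛdef]
    positivity
  obtain ⟨c, hcdef⟩ : ∃ c : ℝ, c = Λ0 / Λ := ⟨_, rfl⟩
  have hc0 : 0 < c := by
    rw [hcdef]
    positivity
  have hcle2 : Cf * Cc * CB * c ≤ c1 / 8 := by
    rw [hcdef, hΛdef]
    refine le_of_eq ?_
    field_simp
  refine ⟨Λ, hΛ, fun K ε hε hε2 => ?_⟩
  obtain ⟨L2, hc⟩ := hc ε hε hε2
  obtain ⟨L3, hL3⟩ := exists_nat_ge (max (2 / ε) (16 * Cc / c1))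
  refine ⟨max P2 (max P3 (2 ^ (L1 + L2 + L3 + 2))),
    fun P hP L hL H u hH hcfg C η BB w hw => ?_⟩
  have hPP2 : P2 ≤ P := le_trans (le_max_left _ _) hP
  have hPP3 : P3 ≤ P := le_trans (le_trans (le_max_left _ _) (le_max_right _ _)) hP
  have hPP4 : 2 ^ (L1 + L2 + L3 + 2) ≤ P :=
    le_trans (le_trans (le_max_right _ _) (le_max_right _ _)) hP
  have hPpos : 1 ≤ P := le_trans Nat.one_le_two_pow hPP4
  have hLL : L1 + L2 + L3 + 2 ≤ L := by
    rw [hL]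
    exact Nat.le_log_of_pow_le (by norm_num) hPP4
  have hL2 : 2 ≤ L := by omega
  obtain ⟨lam, hlam⟩ : ∃ lam : ℕ, lam = Nat.log 2 L := ⟨_, rfl⟩
  have hlam1 : 1 ≤ lam := by
    rw [hlam]
    exact Nat.le_log_of_pow_le (by norm_num) (by simpa using hL2)
  have hlamL : lam ≤ L := by
    rw [hlam]
    exact Nat.log_le_self 2 L
  have hLR : (2 : ℝ) ≤ L := by exact_mod_cast hL2
  have hlamR : (1 : ℝ) ≤ lam := by exact_mod_cast hlam1
  have hlamLR : (lam : ℝ) ≤ L := by exact_mod_cast hlamL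
  have hPR : (1 : ℝ) ≤ P := by exact_mod_cast hPpos
  have hL3R : (L3 : ℝ) ≤ L := by exact_mod_cast (by omega : L3 ≤ L)
  have hεL : 2 ≤ ε * L := by
    have h2 : 2 / ε ≤ L := (le_max_left _ _).trans (hL3.trans hL3R)
    rw [div_le_iff₀ hε] at h2
    linarith
  have hCcL : Cc ≤ c1 / 16 * L := by
    have h2 : 16 * Cc / c1 ≤ L := (le_max_right _ _).trans (hL3.trans hL3R)
    rw [div_le_iff₀ hc1] at h2
    linarith
  obtain ⟨E, hE⟩ : ∃ E : ℕ, E = ⌊ε * L⌋₊ := ⟨_, rfl⟩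
  obtain ⟨M, hM⟩ : ∃ M : ℕ, M = Mw L := ⟨_, rfl⟩
  obtain ⟨hM0, hMP, hMq, hMc⟩ := Mw_facts hPpos hL
  rw [← hE] at hcfg hw ⊢
  unfold WF at hw
  rw [← hM] at hM0 hMP hMq hMc hw ⊢
  have hM0R : (0 : ℝ) < M := by exact_mod_cast hM0
  have hElow : ε * L / 2 ≤ (E : ℝ) := by
    have h2 := Nat.lt_floor_add_one (ε * L)
    rw [← hE] at h2
    linarith
  -- Brun-Titchmarsh
  have hpsi : ∀ r : ℕ, psi M r P ≤ CB * ((P : ℝ) / M) * lam := by
    intro r
    have h2 := hB P hPP2 L M r hL hM0 hMc hMP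
    rwa [← hlam] at h2
  -- the survivors
  obtain ⟨B, hBdef⟩ : ∃ B : ℝ, B = Cc * (ε * L) / lam := ⟨_, rfl⟩
  have hB0 : 0 ≤ B := by
    rw [hBdef]
    positivity
  have hJ : ∀ b, ((J1 M b H u E).card : ℝ) ≤ K * B := by
    intro b
    refine t1_J1_card hcfg fun b' u' => ?_
    have h2 := hc L (by omega) b' u'
    rw [← hE, ← hM, ← hlam, ← hBdef] at h2
    exact h2
  -- every class
  have hcl : ∀ b ∈ GdV Λ L M H u E, 1 / 3 * (∑ j ∈ J1 M b H u E, psi M (b + j) P) -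
      (J1 M b H u E).card * (((P : ℝ) / M) / L) ≤
      2 * Real.log P * ∑ n ∈ Nw P H M b, w b n * Nn M H u E b n :=
    fun b hb => t1_class (hw b hb)
  obtain ⟨FM, hFM⟩ : ∃ FM : ℝ, FM = ∑ b ∈ GdV Λ L M H u E, ∑ n ∈ Nw P H M b,
      w b n * (Nn M H u E b n : ℝ) := ⟨_, rfl⟩
  rw [← hFM]
  have hFM0 : 0 ≤ FM := by
    rw [hFM]
    exact sum_nonneg fun b hb => sum_nonneg fun n _ => mul_nonneg ((hw b hb).nn n)
      (Nat.cast_nonneg _)
  have hGsub : GdV Λ L M H u E ⊆ range M := fun b hb => (mem_filter.1 hb).1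
  -- sum over the good classes
  have hA : 1 / 3 * (∑ b ∈ GdV Λ L M H u E, ∑ j ∈ J1 M b H u E, psi M (b + j) P) -
      (∑ b ∈ GdV Λ L M H u E, ((J1 M b H u E).card : ℝ) * (((P : ℝ) / M) / L)) ≤
      2 * Real.log P * FM := by
    rw [hFM, mul_sum, mul_sum, ← sum_sub_distrib]
    exact sum_le_sum hcl
  -- the small term
  have hX0 : 0 ≤ ((P : ℝ) / M) / L := by positivity
  have hS : (∑ b ∈ GdV Λ L M H u E, ((J1 M b H u E).card : ℝ) * (((P : ℝ) / M) / L)) ≤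
      c1 / 16 * (K * (ε * L) * P) := by
    have h2 : (∑ b ∈ GdV Λ L M H u E, ((J1 M b H u E).card : ℝ) * (((P : ℝ) / M) / L)) ≤
        (M : ℝ) * (K * B * (((P : ℝ) / M) / L)) := by
      refine (sum_le_sum fun b _ => mul_le_mul_of_nonneg_right (hJ b) hX0).trans ?_
      rw [sum_const, nsmul_eq_mul]
      refine mul_le_mul_of_nonneg_right ?_ (mul_nonneg (mul_nonneg (Nat.cast_nonneg _) hB0) hX0)
      have h3 := card_le_card hGsub
      rw [card_range] at h3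
      exact_mod_cast h3
    refine h2.trans ?_
    have h3 : (M : ℝ) * (K * B * (((P : ℝ) / M) / L)) = Cc * (K * ε * P) * (1 / lam) := by
      rw [hBdef]
      field_simp
    rw [h3]
    have h4 : 1 / (lam : ℝ) ≤ 1 := by
      rw [div_le_one (by linarith)]
      exact hlamR
    have h5 : 0 ≤ K * ε * (P : ℝ) := by positivity
    calc Cc * (K * ε * P) * (1 / lam) ≤ Cc * (K * ε * P) * 1 :=
          mul_le_mul_of_nonneg_left h4 (by positivity)
      _ = Cc * (K * ε * P) := mul_one _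
      _ ≤ (c1 / 16 * L) * (K * ε * P) := mul_le_mul_of_nonneg_right hCcL h5
      _ = c1 / 16 * (K * (ε * L) * P) := by ring
  -- the bad classes
  obtain ⟨bad, hbad⟩ : ∃ bad : Finset ℕ, bad = (range M).filter (fun b => b ∉ GdV Λ L M H u E) :=
    ⟨_, rfl⟩
  have hbadc : (bad.card : ℝ) ≤ Cf * c * M := by
    have h2 := hf L (by omega) Λ0 Λ hΛ0 hΛ K H E u hH
    rw [← hM, ← hbad, ← hcdef] at h2
    exact h2
  have hpos : 0 ≤ CB * ((P : ℝ) / M) * lam := by positivity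
  have hBad : ∑ b ∈ bad, ∑ j ∈ J1 M b H u E, psi M (b + j) P ≤ c1 / 8 * (K * (ε * L) * P) := by
    have h2 : ∀ b ∈ bad, ∑ j ∈ J1 M b H u E, psi M (b + j) P ≤
        K * B * (CB * ((P : ℝ) / M) * lam) := by
      intro b _
      refine (sum_le_sum fun j _ => hpsi (b + j)).trans ?_
      rw [sum_const, nsmul_eq_mul]
      exact mul_le_mul_of_nonneg_right (hJ b) hpos
    refine (sum_le_sum h2).trans ?_
    rw [sum_const, nsmul_eq_mul]
    have h3 : 0 ≤ K * B * (CB * ((P : ℝ) / M) * lam) :=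
      mul_nonneg (mul_nonneg (Nat.cast_nonneg _) hB0) hpos
    refine (mul_le_mul_of_nonneg_right hbadc h3).trans ?_
    have h4 : Cf * c * M * (K * B * (CB * ((P : ℝ) / M) * lam)) =
        (Cf * Cc * CB * c) * (K * (ε * L) * P) := by
      rw [hBdef]
      field_simp
    rw [h4]
    exact mul_le_mul_of_nonneg_right hcle2 (by positivity)
  -- all classes
  have hAll : c1 / 2 * (K * (ε * L) * P) ≤
      ∑ b ∈ range M, ∑ j ∈ J1 M b H u E, psi M (b + j) P := by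
    have hqP : ∀ q : ℕ, q.Prime → q ∣ M → q ≤ P := by
      intro q hq hqM
      have h2 := (hMq q hq).1 hqM
      have h3 : L ≤ P := by
        rw [hL]
        exact Nat.log_le_self 2 P
      omega
    have h2 := av2 hM0 hqP (Cl u E)
    have h3 : ∑ b ∈ range M, ∑ j ∈ (Cl u E).filter (fun j => Nat.Coprime (b + j) M),
        psi M (b + j) P = ∑ b ∈ range M, ∑ j ∈ J1 M b H u E, psi M (b + j) P := by
      refine sum_congr rfl fun b _ => ?_
      rw [t1_J1 hcfg]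
    rw [h3, t1_cl_card hcfg] at h2
    refine le_trans ?_ h2
    have h4 := hth P hPP3
    calc c1 / 2 * (K * (ε * L) * P) = (K * (ε * L / 2)) * (c1 * P) := by ring
      _ ≤ (K * (E : ℝ)) * (c1 * P) :=
          mul_le_mul_of_nonneg_right (mul_le_mul_of_nonneg_left hElow (Nat.cast_nonneg _))
            (by positivity)
      _ = ((K * E : ℕ) : ℝ) * (c1 * P) := by push_cast; ring
      _ ≤ _ := mul_le_mul_of_nonneg_left h4 (Nat.cast_nonneg _)
  have hsplit : ∑ b ∈ range M, ∑ j ∈ J1 M b H u E, psi M (b + j) P =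
      (∑ b ∈ GdV Λ L M H u E, ∑ j ∈ J1 M b H u E, psi M (b + j) P) +
        ∑ b ∈ bad, ∑ j ∈ J1 M b H u E, psi M (b + j) P := by
    rw [hbad, ← sum_filter_add_sum_filter_not (range M) (fun b => b ∈ GdV Λ L M H u E)]
    congr 2
    rw [filter_mem_eq_inter]
    exact inter_eq_right.2 hGsub
  obtain ⟨Y, hY⟩ : ∃ Y : ℝ, Y = K * (ε * L) * P := ⟨_, rfl⟩
  have hY0 : 0 ≤ Y := by
    rw [hY]
    positivity
  rw [← hY] at hS hBad hAll
  have hfin : c1 / 16 * Y ≤ 2 * Real.log P * FM := by nlinarith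
  have hlog := t1_log hPpos hL
  have hlog2 : 2 * Real.log P * FM ≤ 4 * L * FM := by
    refine mul_le_mul_of_nonneg_right ?_ hFM0
    linarith
  have hfin2 : c1 / 16 * Y ≤ 4 * L * FM := hfin.trans hlog2
  have hY2 : Y = (K * ε * P) * L := by
    rw [hY]
    ring
  have hLpos : (0 : ℝ) < L := by linarith
  have h9 : c1 / 64 * (K * ε) * P * (4 * L) ≤ FM * (4 * L) := by
    rw [hY2] at hfin2
    nlinarith
  exact le_of_mul_le_mul_right h9 (by positivity)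

end Pool.Agent.AV
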