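import Pool.Agent.AV.Cc
import Pool.Agent.AT.En
import Pool.Agent.AT.AsD

/-! AV/WB.  The interface between the engine and the assembly. -/

set_option autoImplicit false

open Finset Pool.Agent.RS Pool.Agent.AT Pool.Agent.VOID

namespace Pool.Agent.AV

open Classical in
/-- the properties of the weight of one class -/
structure WB (C η B : ℝ) (P L M H : ℕ) (R : Finset ℕ) (b : ℕ) (w : ℕ → ℝ) : Prop where
  nn : ∀ n, 0 ≤ w n
  w0 : ∑ n ∈ Nw P H M b, w n ≤ 10 * ((P : ℝ) / M)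
  w1 : ∀ j : ℕ, j < H → j ∉ R → Nat.Coprime (b + j) M →
    1 / 3 * psi M (b + j) P - ((P : ℝ) / M) / L ≤
      2 * Real.log P * ∑ n ∈ (Nw P H M b).filter (fun n => (n + j).Prime), w n
  w2 : ∀ j j' : ℕ, j < H → j' < H → j ≠ j' → j ∉ R → j' ∉ R →
    ∑ n ∈ (Nw P H M b).filter (fun n => (n + j).Prime ∧ (n + j').Prime), w n ≤
      C * ((P : ℝ) / M) * ((Nat.log 2 L : ℝ) / L) ^ 2
  w3 : ∑ n ∈ (Nw P H M b).filter (fun n => ∃ j ∈ R, (n + j).Prime), w n ≤ η * ((P : ℝ) / M)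
  w4 : ∑ n ∈ (Nw P H M b).filter (fun n => B < w n), w n ≤ η * ((P : ℝ) / M)

/-- THE ENGINE: weights exist for all admissible data, with an absolute constant `C`. -/
def SEV : Prop := ∃ C : ℝ, 0 < C ∧ ∀ Λ : ℝ, 0 < Λ → ∀ η : ℝ, 0 < η → ∃ B : ℝ, 0 < B ∧ ∃ P0 : ℕ,
  ∀ P : ℕ, P0 ≤ P → ∀ (L M H : ℕ) (R : Finset ℕ), AdmV Λ P L M H R → ∀ b : ℕ,
    ∃ w : ℕ → ℝ, WB C η B P L M H R b w

open Classical in
/-- the good classes -/
noncomputable def GdV (Λ : ℝ) (L M H : ℕ) {K : ℕ} (u : Fin K → ℕ) (E : ℕ) : Finset ℕ :=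
  (range M).filter (fun b => ((Rv M b H u E).card : ℝ) * (Nat.log 2 L : ℝ) ≤ Λ * L)

/-- weights for all good classes -/
def WF (C η B Λ : ℝ) (P L H : ℕ) {K : ℕ} (u : Fin K → ℕ) (E : ℕ) (w : ℕ → ℕ → ℝ) : Prop :=
  ∀ b ∈ GdV Λ L (Mw L) H u E, WB C η B P L (Mw L) H (Rv (Mw L) b H u E) b (w b)

end Pool.Agent.AV
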